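import Pool.Agent.P.MP_323ce2_nt.QD.St

/-! Removal of a piece on the dual side. -/

namespace Pool.Agent.P.MP_323ce2_nt.QD

open Pool.Agent.P.MP_26a8c3_nt Pool.Agent.P.MP_26a8c3_nt.QO Pool.Agent.P.MP_26a8c3_nt.QA
open Pool.Agent.P.MP_26a8c3_nt.QB Pool.Agent.P.MP_323ce2_nt.QZ Pool.Agent.P.MP_323ce2_nt.QF Finset
open scoped Classical ComplexConjugate

namespace A4

/-- the weighted term of the dual sum -/
noncomputable def wt (a : O → ℂ) (t : (O × O) × O) : ℝ :=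
  dv t.1.1 ^ 2 / (N t.1.2 : ℝ) * ‖Bt (Dv a t.1.1 t.1.2) t.2‖ ^ 2

/-- admissible triples -/
def Ad (Y : ℝ) (t : (O × O) × O) : Prop :=
  SQO t.1.1 ∧ t.1.2 ∈ pdiv t.1.1 ∧ t.2 ≠ 0 ∧
    (N t.2 : ℝ) ≤ Y * (N t.1.2 : ℝ) ^ 2 / (N t.1.1 : ℝ) ^ 2

theorem wt_nonneg (a : O → ℂ) (t : (O × O) × O) : 0 ≤ wt a t := by
  unfold wt
  positivity

theorem sum_wt {a : O → ℂ} {Y B : ℝ} (h : Db a Y B) (T : Finset ((O × O) × O))
    (hT : ∀ t ∈ T, Ad Y t) : ∑ t ∈ T, wt a t ≤ B := by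
  refine le_trans ?_ (h (T.image Prod.fst) fun j hj => ?_)
  · simp only [mul_sum]
    refine le_trans ?_ (sum_finset_product ((T.image Prod.fst).biUnion fun j =>
      {j} ×ˢ (ball (Y * (N j.2 : ℝ) ^ 2 / (N j.1 : ℝ) ^ 2)).erase 0) _ _ (fun p => ?_)
      (f := wt a)).le
    · refine sum_le_sum_of_subset_of_nonneg (fun t ht => ?_) fun _ _ _ => wt_nonneg a _
      exact mem_biUnion.2 ⟨t.1, mem_image_of_mem _ ht, mem_product.2 ⟨mem_singleton_self _,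
        mem_erase.2 ⟨(hT t ht).2.2.1, mem_ball.2 (hT t ht).2.2.2⟩⟩⟩
    · simp only [mem_biUnion, mem_product, mem_singleton]
      exact ⟨fun ⟨j, h1, h2, h3⟩ => h2 ▸ ⟨h1, h3⟩, fun ⟨h1, h2⟩ => ⟨_, h1, rfl, h2⟩⟩
  · obtain ⟨t, ht, rfl⟩ := mem_image.1 hj
    exact ⟨(hT t ht).1, (hT t ht).2.1⟩

theorem Ad.le {Y : ℝ} {t : (O × O) × O} (h : Ad Y t) (hY : 0 ≤ Y) : (N t.2 : ℝ) ≤ Y := by
  have h0 := h.1.1.ne_zero
  have h1 : (N t.1.2 : ℝ) ≤ N t.1.1 := by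
    exact_mod_cast N_le_of_dvd ((mem_pdiv h0).1 h.2.1).2 h0
  have h2 := N_pos_real h0
  refine h.2.2.2.trans ?_
  rw [mul_div_assoc]
  exact mul_le_of_le_one_right hY ((div_le_one (by positivity)).2 (by gcongr))

/-- counting of the fibres -/
theorem fib {ι : Type} {a : O → ℂ} {Y B D : ℝ} (h : Db a Y B) (hY : 0 ≤ Y) (hD0 : 0 ≤ D)
    (hD : ∀ n : O, n ≠ 0 → (N n : ℝ) ≤ Y → dv n ≤ D) (I : Finset ι) (Φ : ι → (O × O) × O)
    (π : ι → O) (hI : ∀ i ∈ I, Ad Y (Φ i) ∧ Primary (π i) ∧ π i ∣ (Φ i).2)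
    (hinj : ∀ i ∈ I, ∀ i' ∈ I, Φ i = Φ i' → π i = π i' → i = i') :
    ∑ i ∈ I, wt a (Φ i) ≤ D * B := by
  have hT : ∀ t ∈ I.image Φ, Ad Y t := fun t ht => by
    obtain ⟨i, hi, rfl⟩ := mem_image.1 ht
    exact (hI i hi).1
  rw [sum_comp (wt a) Φ]
  refine le_trans ?_ (mul_le_mul_of_nonneg_left (sum_wt h _ hT) hD0)
  rw [mul_sum]
  refine sum_le_sum fun t ht => ?_
  rw [nsmul_eq_mul]
  refine mul_le_mul_of_nonneg_right (le_trans ?_ (hD t.2 (hT t ht).2.2.1 ((hT t ht).le hY)))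
    (wt_nonneg a t)
  rw [dv, Nat.cast_le]
  refine card_le_card_of_injOn π (fun i hi => ?_) fun i hi i' hi' e => ?_
  · obtain ⟨h1, h2⟩ := mem_filter.1 (mem_coe.1 hi)
    exact mem_coe.2 ((mem_pdiv (hT t ht).2.2.1).2 ⟨(hI i h1).2.1, h2 ▸ (hI i h1).2.2⟩)
  · obtain ⟨h1, h2⟩ := mem_filter.1 (mem_coe.1 hi)
    obtain ⟨h3, h4⟩ := mem_filter.1 (mem_coe.1 hi')
    exact hinj i h1 i' h3 (h2.trans h4.symm) e

/-- the map for the primes which do not divide the dilation -/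
def F2 (i : (O × O × O) × O) : (O × O) × O := ((i.1.1, i.1.2.1), i.1.2.2 * i.2 ^ 4)

/-- the map for the primes which divide the dilation -/
noncomputable def F1 (i : (O × O × O) × O) : (O × O) × O :=
  ((quo i.1.1 i.2, if i.2 ∣ i.1.2.1 then quo i.1.2.1 i.2 else i.1.2.1),
    i.1.2.2 * i.2 ^ (if i.2 ∣ i.1.2.1 then 4 else 6))

variable {X P : ℝ} {e f h p : O}

theorem ad2 (hA : Ad X ((e, f), h)) (hX : 0 ≤ X) (hp : p ≠ 0) (hP : (N p : ℝ) ≤ P) :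
    Ad (X * P ^ 4) (F2 ((e, f, h), p)) := by
  obtain ⟨h1, h2, h3, h4⟩ := hA
  refine ⟨h1, h2, mul_ne_zero h3 (pow_ne_zero _ hp), ?_⟩
  simp only [F2, map_mul, map_pow] at h4 ⊢
  push_cast
  calc _ ≤ X * (N f : ℝ) ^ 2 / (N e : ℝ) ^ 2 * P ^ 4 := by gcongr
    _ = _ := by ring

theorem ad1 (hA : Ad X ((e, f), h)) (hX : 0 ≤ X) (hp : Prime p) (hp' : Primary p)
    (hP : (N p : ℝ) ≤ P) (hd : p ∣ e) : Ad (X * P ^ 4) (F1 ((e, f, h), p)) ∧
      (N f : ℝ)⁻¹ * dv e ≤ 2 * (dv (F1 ((e, f, h), p)).1.1 ^ 2 / N (F1 ((e, f, h), p)).1.2) := by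
  obtain ⟨h1, h2, h3, h4⟩ := hA
  obtain ⟨e, rfl⟩ := hd
  have p0 := hp.ne_zero
  have s1 : SQO e := ⟨h1.1.right hp', (od_mul.1 h1.2).2⟩
  have e0 := s1.1.ne_zero
  obtain ⟨f1, f2⟩ := (mem_pdiv h1.1.ne_zero).1 h2
  have n1 := one_le_N p0
  have n2 := N_pos_real e0
  have d1 := QO.one_le_dv e0
  have d2 : dv (p * e) ≤ 2 * dv e ^ 2 := by
    rw [BaseP.dv_prime hp hp' s1.1.1 (hp.coprime_iff_not_dvd.1 h1.1.coprime)]
    nlinarith
  have hP0 : 0 ≤ P := by linarith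
  simp only [map_mul] at h4 f1 f2
  push_cast at h4
  by_cases hf : p ∣ f
  · obtain ⟨f, rfl⟩ := hf
    have f3 := f1.of_mul hp'
    have n3 := N_pos_real f3.ne_zero
    simp only [F1, Ad, dvd_mul_right, if_true, quo_mul p0, map_mul, map_pow] at h4 ⊢
    push_cast at h4 ⊢
    refine ⟨⟨s1, (mem_pdiv e0).2 ⟨f3, (mul_dvd_mul_iff_left p0).1 f2⟩,
      mul_ne_zero h3 (pow_ne_zero _ p0), ?_⟩, ?_⟩
    · calc _ ≤ X * ((N p : ℝ) * N f) ^ 2 / ((N p : ℝ) * N e) ^ 2 * P ^ 4 := by gcongr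
        _ = _ := by field_simp
    · calc _ ≤ (N f : ℝ)⁻¹ * (2 * dv e ^ 2) :=
            mul_le_mul (inv_anti₀ n3 (le_mul_of_one_le_left n3.le n1)) d2 (QO.dv_nonneg _)
              (by positivity)
        _ = _ := by ring
  · simp only [F1, Ad, if_neg hf, quo_mul p0, map_mul, map_pow]
    push_cast
    refine ⟨⟨s1, (mem_pdiv e0).2 ⟨f1, (hp.coprime_iff_not_dvd.2 hf).symm.dvd_of_dvd_mul_left f2⟩,
      mul_ne_zero h3 (pow_ne_zero _ p0), ?_⟩, ?_⟩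
    · calc _ = (N h : ℝ) * (N p : ℝ) ^ 2 * (N p : ℝ) ^ 4 := by ring
        _ ≤ X * (N f : ℝ) ^ 2 / ((N p : ℝ) * N e) ^ 2 * (N p : ℝ) ^ 2 * P ^ 4 := by gcongr
        _ = _ := by field_simp
    · calc _ ≤ (N f : ℝ)⁻¹ * (2 * dv e ^ 2) := by gcongr
        _ = _ := by ring

theorem quo_inj {a b : O} (ha : p ∣ a) (hb : p ∣ b) (e : quo a p = quo b p) : a = b := by
  rw [← mul_quo ha, ← mul_quo hb, e]

theorem inj1 {i j : (O × O × O) × O} (h0 : i.2 ≠ 0) (hi : i.2 ∣ i.1.1) (hj : j.2 ∣ j.1.1)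
    (hf : i.2 ∣ i.1.2.1 ↔ j.2 ∣ j.1.2.1) (e1 : F1 i = F1 j) (e2 : i.2 = j.2) : i = j := by
  obtain ⟨⟨e, f, h⟩, p⟩ := i
  obtain ⟨⟨e', f', h'⟩, p'⟩ := j
  obtain rfl : p = p' := e2
  simp only [F1, Prod.mk.injEq] at *
  by_cases h1 : p ∣ f
  · have h2 := hf.1 h1
    simp only [if_pos h1, if_pos h2] at e1
    exact ⟨⟨quo_inj hi hj e1.1.1, quo_inj h1 h2 e1.1.2,
      mul_right_cancel₀ (pow_ne_zero _ h0) e1.2⟩, trivial⟩
  · have h2 := mt hf.2 h1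
    simp only [if_neg h1, if_neg h2] at e1
    exact ⟨⟨quo_inj hi hj e1.1.1, e1.1.2, mul_right_cancel₀ (pow_ne_zero _ h0) e1.2⟩, trivial⟩

theorem inj2 {i j : (O × O × O) × O} (h0 : i.2 ≠ 0) (e1 : F2 i = F2 j) (e2 : i.2 = j.2) :
    i = j := by
  obtain ⟨⟨e, f, h⟩, p⟩ := i
  obtain ⟨⟨e', f', h'⟩, p'⟩ := j
  obtain rfl : p = p' := e2
  simp only [F2, Prod.mk.injEq] at *
  exact ⟨⟨e1.1.1, e1.1.2, mul_right_cancel₀ (pow_ne_zero _ h0) e1.2⟩, trivial⟩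

end A4

open A4 in
theorem pA4 (_hA : Alg) (_hb : Base) (h : S_A4a) : S_A4 := by
  intro ε hε
  obtain ⟨C, hC, H⟩ := QO.dv_le (ε := ε / 8) (by positivity)
  have hz : 1 ≤ zt (1 + ε / 2) := one_le_zt (by linarith)
  refine ⟨2 * zt (1 + ε / 2) * C + 8 * C, by positivity,
    fun α ρ x L σ u X B hF hS hρ hx hL hσ hX hD J hJ => ?_⟩
  have hP := hx.1
  have hB : 0 ≤ B := by simpa using hD ∅ (by simp)
  set a := Tw α L σ u ρ
  set V := (x.P * (1 + X)) ^ (ε / 2) with hV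
  have w1 : x.P ≤ x.P * (1 + X) := le_mul_of_one_le_right (by linarith) (by linarith)
  have V1 : 1 ≤ V := Real.one_le_rpow (hP.trans w1) (by positivity)
  have V2 : (x.P * (1 + X)) ^ ε = V * V := by
    rw [hV, ← Real.rpow_add (by positivity), add_halves]
  have hY : 0 ≤ X * x.P ^ 4 := by positivity
  have hd : ∀ n : O, n ≠ 0 → (N n : ℝ) ≤ X * x.P ^ 4 → dv n ≤ C * V := fun n hn h1 => by
    refine (H n hn).trans (mul_le_mul_of_nonneg_left ?_ hC.le)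
    have h2 : (N n : ℝ) ≤ (x.P * (1 + X)) ^ (4 : ℝ) := by
      rw [Real.rpow_ofNat, mul_pow, mul_comm]
      refine h1.trans (mul_le_mul_of_nonneg_right ?_ (by positivity))
      exact (by linarith : X ≤ 1 + X).trans (le_self_pow₀ (by linarith) (by norm_num))
    refine (Real.rpow_le_rpow (Nat.cast_nonneg _) h2 (by positivity)).trans (le_of_eq ?_)
    rw [← Real.rpow_mul (by positivity), hV]
    congr 1
    ring
  have hs : ∑ p ∈ x.S, (N p : ℝ)⁻¹ ≤ zt (1 + ε / 2) * V := by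
    refine (sum_le_sum_of_subset_of_nonneg (fun p hp => mem_ball.2 (hx.2 p hp).2.2.2.1)
      fun _ _ _ => by positivity).trans ((sum_inv_le (half_pos hε) (by linarith)).trans ?_)
    exact mul_le_mul_of_nonneg_left (Real.rpow_le_rpow (by linarith) w1 (by positivity))
      (by linarith)
  have hI : ∀ i ∈ J ×ˢ x.S, Ad X ((i.1.1, i.1.2.1), i.1.2.2) ∧ Prime i.2 ∧ Primary i.2 ∧
      (N i.2 : ℝ) ≤ x.P := fun i hi =>
    have h1 := hx.2 _ (mem_product.1 hi).2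
    ⟨hJ _ (mem_product.1 hi).1, h1.1, h1.2.1, h1.2.2.2.1⟩
  have T2 : ∑ i ∈ J ×ˢ x.S, wt a (F2 i) ≤ C * V * B :=
    fib hD hY (by positivity) hd _ F2 Prod.snd (fun i hi =>
      have h1 := hI i hi
      ⟨ad2 h1.1 hX.le h1.2.1.ne_zero h1.2.2.2, h1.2.2.1,
        (dvd_pow_self _ (by norm_num)).mul_left _⟩)
      fun i hi j _ => inj2 (hI i hi).2.1.ne_zero
  have T1 : ∀ c : Prop, ∑ i ∈ ((J ×ˢ x.S).filter fun i => i.2 ∣ i.1.1).filter
      (fun i => i.2 ∣ i.1.2.1 ↔ c), wt a (F1 i) ≤ C * V * B := fun c =>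
    fib hD hY (by positivity) hd _ F1 Prod.snd (fun i hi =>
      have h0 := mem_filter.1 (mem_filter.1 hi).1
      have h1 := hI i h0.1
      ⟨(ad1 h1.1 hX.le h1.2.1 h1.2.2.1 h1.2.2.2 h0.2).1, h1.2.2.1,
        (dvd_pow_self _ (by split_ifs <;> norm_num)).mul_left _⟩)
      fun i hi j hj =>
        have h0 := mem_filter.1 (mem_filter.1 hi).1
        inj1 (hI i h0.1).2.1.ne_zero h0.2 (mem_filter.1 (mem_filter.1 hj).1).2
          ((mem_filter.1 hi).2.trans (mem_filter.1 hj).2.symm)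
  have T3 : ∑ i ∈ (J ×ˢ x.S).filter fun i => i.2 ∣ i.1.1, wt a (F1 i) ≤ 2 * (C * V * B) := by
    have t1 := T1 True
    have t2 := T1 False
    simp only [iff_true, iff_false] at t1 t2
    rw [← sum_filter_add_sum_filter_not _ fun i => i.2 ∣ i.1.2.1]
    linarith
  rw [sum_product] at T2
  rw [sum_filter, sum_product] at T3
  calc _ ≤ ∑ j ∈ J, (2 * (zt (1 + ε / 2) * V) * ∑ p ∈ x.S, wt a (F2 (j, p)) +
        4 * ∑ p ∈ x.S, if p ∣ j.1 then wt a (F1 (j, p)) else 0) := by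
        refine sum_le_sum fun j hj => ?_
        have j1 := hJ j hj
        refine (mul_le_mul_of_nonneg_left (h α ρ x L σ u j.1 j.2.1 j.2.2 hF hS hρ hx hL hσ j1.1
          j1.2.1) (by positivity)).trans ?_
        rw [mul_add]
        refine add_le_add ?_ ?_
        · rw [mul_left_comm, mul_left_comm _ (∑ p ∈ x.S, _), mul_assoc 2, mul_sum _ _ (_)⁻¹]
          refine mul_le_mul_of_nonneg_left (mul_le_mul hs (sum_le_sum fun p _ => ?_)
            (sum_nonneg fun _ _ => by positivity) (by positivity)) two_pos.le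
          refine mul_le_mul_of_nonneg_right ?_ (by positivity)
          rw [div_eq_mul_inv]
          exact le_mul_of_one_le_left (by positivity)
            (one_le_pow₀ (QO.one_le_dv j1.1.1.ne_zero))
        · rw [← sum_filter, mul_left_comm, ← mul_assoc (_)⁻¹, mul_sum, mul_sum, mul_sum]
          refine sum_le_sum fun p hp => ?_
          obtain ⟨p1, p2⟩ := mem_filter.1 hp
          have h1 := hI (j, p) (mem_product.2 ⟨hj, p1⟩)
          have h2 := mul_le_mul_of_nonneg_right (ad1 h1.1 hX.le h1.2.1 h1.2.2.1 h1.2.2.2 p2).2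
            (sq_nonneg ‖Bt (Dv a (F1 (j, p)).1.1 (F1 (j, p)).1.2) (F1 (j, p)).2‖)
          rw [mul_assoc 2] at h2
          change 2 * (_ * ‖Bt (Dv a (F1 (j, p)).1.1 (F1 (j, p)).1.2) (F1 (j, p)).2‖ ^ 2) ≤ _
          rw [wt]
          linarith
    _ ≤ 2 * (zt (1 + ε / 2) * V) * (C * V * B) + 4 * (2 * (C * V * B)) := by
        rw [sum_add_distrib, ← mul_sum, ← mul_sum]
        gcongr
    _ ≤ _ := by
        rw [V2]
        have : C * V * B ≤ C * (V * V) * B := by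
          gcongr
          exact le_mul_of_one_le_left (by linarith) V1
        nlinarith

end Pool.Agent.P.MP_323ce2_nt.QD
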