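import Pool.Agent.P.MP_323ce2_nt.QD.St
import Pool.Agent.P.MP_26a8c3_nt.QO.P2

/-! Removal of a piece on the dual side, pointwise. -/

namespace Pool.Agent.P.MP_323ce2_nt.QD

open Pool.Agent.P.MP_26a8c3_nt Pool.Agent.P.MP_26a8c3_nt.QO Pool.Agent.P.MP_26a8c3_nt.QA
open Pool.Agent.P.MP_26a8c3_nt.QB Pool.Agent.P.MP_323ce2_nt.QZ Pool.Agent.P.MP_323ce2_nt.QF Finset
open scoped Classical ComplexConjugate

namespace A4a

/-- the summand of the dual sum -/
noncomputable def tm (a : O → ℂ) (e f h c : O) : ℂ := Dv a e f c * (mu c * bb c * conj (psi c h))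

/-- the contribution of one prime -/
noncomputable def one (α : O → ℂ) (z : ℂ) (p n : O) : ℂ :=
  if SQO n then if p ∣ n then z * α (quo n p) else 0 else 0

/-- the factor produced by the twist -/
noncomputable def fac (ρ : O → ℂ) (P σ u : ℝ) (p : O) : ℂ :=
  ρ p * ((N p / P : ℝ) : ℂ) ^ ((σ : ℂ) + u * Complex.I)

variable {α ρ : O → ℂ} {L P σ u : ℝ} {e f h p c : O} {z : ℂ}

lemma summable_tm (hF : Fs α) (he : e ≠ 0) (f h : O) : Summable (tm (Tw α L σ u ρ) e f h) := by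
  refine summable_of_hasFiniteSupport
    ((hF.preimage (mul_right_injective₀ he).injOn).subset fun c hc => ?_)
  intro h0
  exact hc (by simp [tm, Dv, Tw, h0])

lemma norm_fac (hρ : IsNu 4 ρ) (hp : p ≠ 0) (hP : (N p : ℝ) ≤ P) (hσ : 0 ≤ σ) :
    ‖fac ρ P σ u p‖ ≤ 1 := by
  have h1 := N_pos_real hp
  have h2 : 0 < P := h1.trans_le hP
  rw [fac, norm_mul, Complex.norm_cpow_eq_rpow_re_of_pos (by positivity)]
  refine mul_le_one₀ (hρ.le p) (by positivity) (Real.rpow_le_one (by positivity)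
    ((div_le_one h2).2 hP) (by simpa using hσ))

lemma tw_one (hρ : IsNu 4 ρ) (hL : 0 < L) (hP : 0 < P) (hp : p ≠ 0) {n : O} (hn : n ≠ 0) :
    Tw (one α z p) (L * P) σ u ρ (p * n) =
      if SQO (p * n) then z * fac ρ P σ u p * Tw α L σ u ρ n else 0 := by
  have e1 : ((nr (p * n) / (L * P) : ℝ) : ℂ) = ((N p / P : ℝ) : ℂ) * ((nr n / L : ℝ) : ℂ) := by
    rw [nr_mul hp hn, ← Complex.ofReal_mul]; congr 1; field_simp
  have := nr_pos n
  rw [Tw, Tw, one, fac, e1, Complex.mul_cpow_ofReal_nonneg (by positivity) (by positivity), hρ.mul,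
    if_pos (dvd_mul_right p n), quo_mul hp]
  split_ifs <;> ring

lemma sqo_mul (hp : Prime p) (h1 : Primary p) (h2 : Od p) {n : O} (hn : SQO n) :
    SQO (p * n) ↔ ¬ p ∣ n :=
  ⟨fun h => hp.coprime_iff_not_dvd.1 h.1.coprime, fun h =>
    ⟨SQ.mul ⟨h1, hp.squarefree⟩ hn.1 (hp.coprime_iff_not_dvd.2 h), od_mul.2 ⟨h2, hn.2⟩⟩⟩

lemma conj_four (hc : c ≠ 0) (h p : O) : conj (psi c (h * p ^ 4)) = conj (psi c h) * chi c p := by
  rw [psi_mul, map_mul, psi_pow, show psi c p ^ 4 = (psi c p ^ 2) ^ 2 by ring, psi_sq hc,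
    ← conj_chi, Complex.conj_conj]

lemma conj_six (hc : c ≠ 0) (hp : Prime p) (h : O) :
    conj (psi c (h * p ^ 6)) = if p ∣ c then 0 else conj (psi c h) := by
  rw [psi_mul, map_mul, psi_pow, psi_six hc]
  split_ifs with hd
  · rw [cop_of_not fun h' => hp.coprime_iff_not_dvd.1 h' hd]; simp
  · rw [cop_of (hp.coprime_iff_not_dvd.2 hd)]; simp

lemma tw_zero {n : O} (h : α n = 0) : Tw α L σ u ρ n = 0 := by simp [Tw, h]

/-- a prime dividing `e` -/
lemma type1 (hS : So α) (hρ : IsNu 4 ρ) (hL : 0 < L) (hP : 0 < P) (hp : Prime p) (h1 : Primary p)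
    (h2 : Od p) (he : SQO e) (hd : p ∣ e) (f h c : O) :
    tm (Tw (one α z p) (L * P) σ u ρ) e f h c = z * fac ρ P σ u p *
      tm (Tw α L σ u ρ) (quo e p) (if p ∣ f then quo f p else f)
        (h * p ^ (if p ∣ f then 4 else 6)) c := by
  obtain ⟨e', rfl⟩ := hd
  have he' : e' ≠ 0 := right_ne_zero_of_mul he.1.ne_zero
  have hpe : ¬ p ∣ e' := hp.coprime_iff_not_dvd.1 he.1.coprime
  rw [quo_mul hp.ne_zero]
  by_cases hc : c = 0
  · simp [tm, Dv, hc, ab]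
  rw [tm, tm, Dv, Dv, mul_assoc p, tw_one hρ hL hP hp.ne_zero (mul_ne_zero he' hc)]
  by_cases h0 : α (e' * c) = 0
  · simp [tw_zero h0]
  have e1 : SQO (p * (e' * c)) ↔ ¬ p ∣ c := by
    rw [sqo_mul hp h1 h2 (hS _ h0), hp.dvd_mul]; tauto
  simp only [e1]
  by_cases hf : p ∣ f
  · obtain ⟨f', rfl⟩ := hf
    simp only [dvd_mul_right, if_true, quo_mul hp.ne_zero, conj_four hc, chi_mul]
    split_ifs with hpc
    · rw [(chi_eq_zero hc).2 fun h' => hp.coprime_iff_not_dvd.1 h' hpc]; simp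
    · ring
  · simp only [hf, if_false, conj_six hc hp]
    split_ifs
    · simp
    · ring

/-- a prime not dividing `e` -/
lemma type2 (hA : Alg) (hS : So α) (hρ : IsNu 4 ρ) (hL : 0 < L) (hP : 0 < P) (hp : Prime p)
    (h1 : Primary p) (h2 : Od p) (he : SQO e) (hd : ¬ p ∣ e) (f h c : O) :
    tm (Tw (one α z p) (L * P) σ u ρ) e f h (p * c) =
      -(z * fac ρ P σ u p * chi p f * bb p * conj (psi p h) / (ab p : ℂ)) *
        tm (Tw α L σ u ρ) e f (h * p ^ 4) c := by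
  by_cases hc : c = 0
  · simp [tm, Dv, hc, ab]
  rw [tm, tm, Dv, Dv, mul_left_comm e, tw_one hρ hL hP hp.ne_zero (mul_ne_zero he.1.ne_zero hc)]
  by_cases h0 : α (e * c) = 0
  · simp [tw_zero h0]
  have e1 : SQO (p * (e * c)) ↔ ¬ p ∣ c := by
    rw [sqo_mul hp h1 h2 (hS _ h0), hp.dvd_mul]; tauto
  have hc1 : Primary c := (hS _ h0).1.1.of_mul he.1.1
  simp only [e1, conj_four hc]
  split_ifs with hpc
  · rw [(chi_eq_zero hc).2 fun h' => hp.coprime_iff_not_dvd.1 h' hpc]; simp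
  · have hcp := hp.coprime_iff_not_dvd.2 hpc
    rw [mu_mul hcp, mu_prime hp, P2.bb_mul hA.r4 h1 hc1 hcp, hA.r1 p c h1 hc1,
      chi_mul_left hp.ne_zero hc, psi_mul_left hp.ne_zero hc, map_mul, ab_mul]
    push_cast
    ring

lemma type2_off (hp : Prime p) (hd : ¬ p ∣ e) (hc : ¬ p ∣ c) (f h : O) :
    tm (Tw (one α z p) (L * P) σ u ρ) e f h c = 0 := by
  have : ¬ p ∣ e * c := by rw [hp.dvd_mul]; tauto
  simp [tm, Dv, Tw, one, this]

lemma tm_split (x : Pc) (e f h c : O) :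
    tm (Tw (sfp (cvp x α) 1) L σ u ρ) e f h c =
      ∑ p ∈ x.S, tm (Tw (one α (x.f p) p) L σ u ρ) e f h c := by
  simp only [tm, Dv, Tw, ← sum_mul, ← sum_div, sfp, cvp, one, one_mul]
  split_ifs <;> simp

end A4a

open A4a in
theorem pA4a (hA : Alg) (_hb : Base) : S_A4a := by
  intro α ρ x L σ u e f h hF hS hρ hx hL hσ he _
  have hP : 0 < x.P := one_pos.trans_le hx.1
  have he0 := he.1.ne_zero
  set B₁ : O → ℂ := fun p => Bt (Dv (Tw α L σ u ρ) (quo e p) (if p ∣ f then quo f p else f))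
    (h * p ^ (if p ∣ f then 4 else 6)) with hB₁
  set B₂ : O → ℂ := fun p => Bt (Dv (Tw α L σ u ρ) e f) (h * p ^ 4) with hB₂
  have key : ∀ p ∈ x.S, ∃ z : ℂ, ‖z‖ ≤ (if p ∣ e then 1 else (ab p)⁻¹) ∧
      HasSum (tm (Tw (one α (x.f p) p) (L * x.P) σ u ρ) e f h)
        (z * if p ∣ e then B₁ p else B₂ p) := by
    intro p hp
    obtain ⟨h0, h1, h2, h3, h4⟩ := hx.2 p hp
    have hz : ‖x.f p * fac ρ x.P σ u p‖ ≤ 1 := norm_mul_le_one h4 (norm_fac hρ h0.ne_zero h3 hσ)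
    by_cases hd : p ∣ e
    · refine ⟨_, by simpa only [hd, if_true] using hz, ?_⟩
      rw [funext (type1 hS hρ hL hP h0 h1 h2 he hd f h), if_pos hd]
      refine (summable_tm hF (fun h' => he0 ?_) _ _).hasSum.mul_left _
      rw [← mul_quo hd, h', mul_zero]
    · refine ⟨-(x.f p * fac ρ x.P σ u p * chi p f * bb p * conj (psi p h) / (ab p : ℂ)), ?_, ?_⟩
      · rw [if_neg hd, norm_neg, norm_div, Complex.norm_real, Real.norm_of_nonneg (ab_nonneg p),
          inv_eq_one_div]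
        refine div_le_div_of_nonneg_right (norm_mul_le_one (norm_mul_le_one
          (norm_mul_le_one hz (norm_chi_le p f)) (P2.norm_bb hA.r4 ⟨⟨h1, h0.squarefree⟩, h2⟩).le)
          (by rw [Complex.norm_conj]; exact norm_psi_le p h)) (ab_nonneg p)
      · rw [if_neg hd]
        refine ((mul_right_injective₀ h0.ne_zero).hasSum_iff fun c hc => ?_).1 ?_
        · exact type2_off h0 hd (fun ⟨c', hc'⟩ => hc ⟨c', hc'.symm⟩) f h
        · have := ((summable_tm (L := L) (σ := σ) (u := u) (ρ := ρ) hF he0 f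
            (h * p ^ 4)).hasSum).mul_left
            (-(x.f p * fac ρ x.P σ u p * chi p f * bb p * conj (psi p h) / (ab p : ℂ)))
          rwa [← funext (type2 hA hS hρ hL hP h0 h1 h2 he hd f h)] at this
  choose! z hz hs using key
  have e1 : Bt (Dv (Tw (sfp (cvp x α) 1) (L * x.P) σ u ρ) e f) h =
      ∑ p ∈ x.S.filter (fun p => ¬ p ∣ e), z p * B₂ p + ∑ p ∈ x.S.filter (· ∣ e), z p * B₁ p := by
    have := (hasSum_sum hs).tsum_eq
    rw [← funext (tm_split x e f h)] at this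
    rw [show Bt _ h = _ from this, add_comm, sum_filter, sum_filter, ← sum_add_distrib]
    exact sum_congr rfl fun p _ => by split_ifs <;> simp
  have b2 : ‖∑ p ∈ x.S.filter (fun p => ¬ p ∣ e), z p * B₂ p‖ ^ 2 ≤
      (∑ p ∈ x.S, (N p : ℝ)⁻¹) * ∑ p ∈ x.S, ‖B₂ p‖ ^ 2 := by
    have : ‖∑ p ∈ x.S.filter (fun p => ¬ p ∣ e), z p * B₂ p‖ ≤ ∑ p ∈ x.S, (ab p)⁻¹ * ‖B₂ p‖ := by
      refine (norm_sum_le _ _).trans ((sum_le_sum fun p hp => ?_).trans
        (sum_le_sum_of_subset_of_nonneg (filter_subset _ _) fun p _ _ =>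
          mul_nonneg (inv_nonneg.2 (ab_nonneg p)) (norm_nonneg _)))
      have := hz p (mem_filter.1 hp).1
      rw [if_neg (mem_filter.1 hp).2] at this
      rw [norm_mul]
      exact mul_le_mul_of_nonneg_right this (norm_nonneg _)
    refine (pow_le_pow_left₀ (norm_nonneg _) this 2).trans
      ((sum_mul_sq_le_sq_mul_sq _ _ _).trans_eq ?_)
    simp only [inv_pow, ab_sq]
  have b1 : ‖∑ p ∈ x.S.filter (· ∣ e), z p * B₁ p‖ ^ 2 ≤
      dv e * ∑ p ∈ x.S.filter (· ∣ e), ‖B₁ p‖ ^ 2 := by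
    have : ‖∑ p ∈ x.S.filter (· ∣ e), z p * B₁ p‖ ≤ ∑ p ∈ x.S.filter (· ∣ e), ‖B₁ p‖ := by
      refine (norm_sum_le _ _).trans (sum_le_sum fun p hp => ?_)
      have := hz p (mem_filter.1 hp).1
      rw [if_pos (mem_filter.1 hp).2] at this
      rw [norm_mul]
      exact mul_le_of_le_one_left (norm_nonneg _) this
    refine (pow_le_pow_left₀ (norm_nonneg _) this 2).trans (sq_sum_le_card_mul_sum_sq.trans
      (mul_le_mul_of_nonneg_right ?_ (by positivity)))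
    rw [dv]
    exact_mod_cast card_le_card fun p hp =>
      (mem_pdiv he0).2 ⟨(hx.2 p (mem_filter.1 hp).1).2.1, (mem_filter.1 hp).2⟩
  rw [e1]
  refine (pow_le_pow_left₀ (norm_nonneg _) (norm_add_le _ _) 2).trans ?_
  nlinarith [sq_nonneg (‖∑ p ∈ x.S.filter (fun p => ¬ p ∣ e), z p * B₂ p‖ -
    ‖∑ p ∈ x.S.filter (· ∣ e), z p * B₁ p‖)]

end Pool.Agent.P.MP_323ce2_nt.QD
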