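import Pool.Agent.P.MP_323ce2_nt.QD.St
import Pool.Agent.P.MP_26a8c3_nt.QB.IIIa
import Pool.Agent.P.MP_26a8c3_nt.QB.SW

/-! The second Poisson summation of one step of the descent. -/

namespace Pool.Agent.P.MP_323ce2_nt.QD

open Pool.Agent.P.MP_26a8c3_nt Pool.Agent.P.MP_26a8c3_nt.QO Pool.Agent.P.MP_26a8c3_nt.QA
open Pool.Agent.P.MP_26a8c3_nt.QB Pool.Agent.P.MP_323ce2_nt.QZ Pool.Agent.P.MP_323ce2_nt.QF Finset
open scoped Classical ComplexConjugate

namespace Back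

noncomputable section

/-- the kernel with its weight -/
def KG (P : ℝ) (x : O × O) (m : O) : ℂ :=
  KK x.1 x.2 m * (G (P * N m / (N x.1 * N x.2)) : ℝ)

/-- the dual double sum -/
def DK (S : Finset O) (β : O → ℂ) (P : ℝ) (m : O) : ℂ :=
  ∑ x ∈ S ×ˢ S, β x.1 / N x.1 * conj (β x.2 / N x.2) * conj (gam (x.1 * x.2)) * KG P x m

/-- the coefficient after the common factor is removed -/
def gg (β : O → ℂ) (k e m c : O) : ℂ := β (e * c) * xi k (e * c) / N (e * c) * psi c m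

/-- the double sum after the common factor is removed -/
def II (β : O → ℂ) (P : ℝ) (k e m : O) : ℂ :=
  ∑' x : O × O, gg β k e m x.1 * conj (gg β k e m x.2) *
    (G (P * N m / (N e : ℝ) ^ 2 / (nr x.1 * nr x.2)) : ℝ)

end

variable {S : Finset O} {β : O → ℂ} {P : ℝ}

lemma sumK (hA : Alg) (hb : Base) (hP : 0 < P) {x : O × O} (h1 : SQO x.1) (h2 : SQO x.2) :
    Summable (KG P x) := by
  have a0 := N_pos_real h1.1.ne_zero
  have c0 := N_pos_real h2.1.ne_zero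
  refine Summable.of_norm_bounded
    ((hb.summable_G (U := N x.1 * N x.2 / P) (by positivity)).mul_left (N x.1 : ℝ)) fun m => ?_
  rw [KG, norm_mul, Complex.norm_real, Real.norm_of_nonneg (QB.G_pos _).le,
    show (N m : ℝ) / (N x.1 * N x.2 / P) = P * N m / (N x.1 * N x.2) by field_simp]
  exact mul_le_mul_of_nonneg_right (hA.k.2.2.2.2.1 _ _ m h1.1 h2.1) (QB.G_pos _).le

lemma sumD (hA : Alg) (hb : Base) (hP : 0 < P) (hS : ∀ a ∈ S, SQO a) : Summable (DK S β P) :=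
  summable_sum fun _ hx =>
    (sumK hA hb hP (hS _ (mem_product.1 hx).1) (hS _ (mem_product.1 hx).2)).mul_left _

lemma step (hA : Alg) (hb : Base) (hP : 0 < P) (hS : ∀ a ∈ S, SQO a) (hβ : ∀ c ∉ S, β c = 0) :
    ∑ h ∈ (ball P).erase 0, ‖Bt (fun c => β c / (ab c : ℂ)) h‖ ^ 2 ≤
      Real.exp a0 * (P * ∑' m, ‖DK S β P m‖) := by
  refine ML.sharp (fun s => ?_) hP _ fun m hm => mem_ball.1 (mem_erase.1 hm).2
  set α : O → ℂ := fun c => β c / (ab c : ℂ) * (mu c * bb c) with hα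
  have e1 : ∀ h : O, ((G (N h / P) * ‖Bt (fun c => β c / (ab c : ℂ)) h‖ ^ 2 : ℝ) : ℂ) =
      ∑ x ∈ S ×ˢ S, α x.1 * conj (α x.2) * (conj (psi x.1 h) * psi x.2 h * (G (N h / P) : ℝ)) := by
    intro h
    rw [Complex.ofReal_mul, ← Complex.normSq_eq_norm_sq, ← Complex.mul_conj, Bt,
      tsum_eq_sum (s := S) fun c hc => by simp [hβ c hc], map_sum, sum_mul_sum, ← sum_product',
      mul_sum]
    refine sum_congr rfl fun x _ => ?_
    simp only [hα, map_mul, Complex.conj_conj]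
    ring
  have e2 : ∀ x ∈ S ×ˢ S, HasSum (fun h : O => α x.1 * conj (α x.2) *
      (conj (psi x.1 h) * psi x.2 h * (G (N h / P) : ℝ))) (P * ∑' m, β x.1 / N x.1 *
        conj (β x.2 / N x.2) * conj (gam (x.1 * x.2)) * KG P x m) := by
    intro x hx
    have h1 := hS _ (mem_product.1 hx).1
    have h2 := hS _ (mem_product.1 hx).2
    have s1 : Summable fun h : O => conj (psi x.1 h) * psi x.2 h * (G (N h / P) : ℝ) := by
      refine Summable.of_norm_bounded (hb.summable_G hP) fun m => ?_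
      rw [norm_mul, Complex.norm_real, Real.norm_of_nonneg (QB.G_pos _).le]
      exact mul_le_of_le_one_left (QB.G_pos _).le (norm_mul_le_one
        (by rw [Complex.norm_conj]; exact norm_psi_le _ _) (norm_psi_le _ _))
    have s2 := s1.hasSum.mul_left (α x.1 * conj (α x.2))
    rw [IIIa.poi hA h1 h2 hP] at s2
    refine Eq.subst (motive := HasSum _) (Eq.symm ?_) s2
    rw [tsum_mul_left]
    have g1 := IIIa.mul_conj_one (IIIa.norm_bb hA h1)
    have g2 := IIIa.mul_conj_one (IIIa.norm_bb hA h2)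
    have g3 := mu_sq h1.1.2
    have g4 := mu_sq h2.1.2
    have g5 := ab_neC h1.1.ne_zero
    have g6 := ab_neC h2.1.ne_zero
    simp only [hα, IIIa.ph, KG, map_mul, map_div₀, conj_mu, Complex.conj_ofReal, ← ab_sqC, map_pow]
    push_cast
    set T := ∑' m : O, KK x.1 x.2 m * ((G (P * N m / (N x.1 * N x.2)) : ℝ) : ℂ)
    calc _ = (mu x.1 ^ 2 * mu x.2 ^ 2 * (bb x.1 * conj (bb x.1)) * (bb x.2 * conj (bb x.2))) *
          (P * (β x.1 / ab x.1 ^ 2 * (conj (β x.2) / ab x.2 ^ 2) * conj (gam (x.1 * x.2)) * T)) := by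
          rw [g1, g2, g3, g4]; ring
      _ = _ := by field_simp
  have e3 := hasSum_sum e2
  rw [← mul_sum, ← Summable.tsum_finsetSum fun x hx => (sumK hA hb hP
    (hS _ (mem_product.1 hx).1) (hS _ (mem_product.1 hx).2)).mul_left _] at e3
  simp only [← e1] at e3
  have e4 := Complex.summable_ofReal.1 e3.summable
  have e5 := congrArg norm e3.tsum_eq
  rw [← Complex.ofReal_tsum, Complex.norm_real, norm_mul, Complex.norm_real,
    Real.norm_of_nonneg hP.le] at e5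
  refine (e4.sum_le_tsum s fun m _ => mul_nonneg (QB.G_pos _).le (by positivity)).trans
    ((le_abs_self _).trans (e5.le.trans (mul_le_mul_of_nonneg_left ?_ hP.le)))
  exact norm_tsum_le_tsum_norm (sumD hA hb hP hS).norm

lemma zero (hA : Alg) (hS : ∀ a ∈ S, SQO a) (hβ : ∀ c ∉ S, β c = 0) :
    ‖DK S β P 0‖ ≤ ∑' c : O, ‖β c‖ ^ 2 / nr c := by
  rw [tsum_eq_sum (s := S) fun c hc => by simp [hβ c hc], DK, sum_product]
  refine norm_sum_le_of_le _ fun a ha => ?_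
  have h1 := hS a ha
  have a0 := N_pos_real h1.1.ne_zero
  rw [sum_eq_single_of_mem a ha fun c hc e => by
    rw [KG, hA.k.2.2.1 a c h1.1 (hS c hc).1, if_neg e.symm]; simp]
  have h5 := hA.k.2.2.2.2.1 a a 0 h1.1 h1.1
  have h9 : G 0 = 1 := by simp [G]
  simp only [KG, map_zero, Nat.cast_zero, mul_zero, zero_div, h9, norm_mul, Complex.norm_conj,
    norm_div, Complex.ofReal_one, mul_one, Complex.norm_natCast,
    hA.gam.2.2.1 _ (od_mul.2 ⟨h1.2, h1.2⟩), nr_eq h1.1.ne_zero]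
  calc _ ≤ ‖β a‖ / N a * (‖β a‖ / N a) * N a := by gcongr
    _ = _ := by field_simp

lemma II_eq (hS : ∀ a ∈ S, SQO a) (hβ : ∀ c ∉ S, β c = 0) (k m : O) {e : O} (he : e ≠ 0) :
    II β P k e m = ∑ x ∈ S ×ˢ S, β x.1 * xi k x.1 / N x.1 * conj (β x.2 * xi k x.2 / N x.2) *
      (G (P * N m / (N x.1 * N x.2)) : ℝ) * (ps e x.1 m * conj (ps e x.2 m)) := by
  have hinj : Function.Injective fun x : O × O => ((e * x.1, e * x.2) : O × O) := fun x y h =>
    Prod.ext (mul_left_cancel₀ he (congrArg Prod.fst h)) (mul_left_cancel₀ he (congrArg Prod.snd h))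
  have b0 : β 0 = 0 := hβ 0 fun h => (hS 0 h).1.ne_zero rfl
  rw [← tsum_eq_sum (s := S ×ˢ S) (L := SummationFilter.unconditional _) fun x hx => by
    rcases not_and_or.1 (mt mem_product.2 hx) with h | h <;> simp [hβ _ h], ← hinj.tsum_eq]
  · refine tsum_congr fun x => ?_
    obtain ⟨a, c⟩ := x
    rcases eq_or_ne a 0 with rfl | ha
    · simp [gg, b0]
    rcases eq_or_ne c 0 with rfl | hc
    · simp [gg, b0]
    have e0 := N_pos_real he
    have a0 := N_pos_real ha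
    have c0 := N_pos_real hc
    have q : P * N m / (N e : ℝ) ^ 2 / (nr a * nr c) = P * N m / (N (e * a) * N (e * c)) := by
      rw [nr_eq ha, nr_eq hc, map_mul, map_mul]
      push_cast
      field_simp
    simp only [gg, ps, dvd_mul_right, if_true, quo_mul he, q, map_mul (starRingEnd ℂ)]
    ring
  · intro x hx
    have h1 := right_ne_zero_of_mul hx
    have h2 : e ∣ x.1 := by_contra fun h => h1 (by simp [ps, h])
    have h3 : e ∣ x.2 := by_contra fun h => h1 (by simp [ps, h])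
    obtain ⟨a, ha⟩ := h2
    obtain ⟨c, hc⟩ := h3
    exact ⟨(a, c), Prod.ext ha.symm hc.symm⟩

lemma expand (hA : Alg) (hS : ∀ a ∈ S, SQO a) (hβ : ∀ c ∉ S, β c = 0) {κ : O → ℂ}
    (hg : ∀ a, Od a → gam a = ∑ k ∈ cls, κ k * xi k a) (m : O) :
    DK S β P m = ∑ k ∈ cls, conj (κ k) *
      ∑ e ∈ S.biUnion pdiv, mu e * jj e m * II β P k e m := by
  have hE : ∀ e ∈ S.biUnion pdiv, Primary e := fun e he => by
    obtain ⟨a, ha, h⟩ := mem_biUnion.1 he
    exact ((mem_pdiv (hS a ha).1.ne_zero).1 h).1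
  rw [sum_congr rfl fun k _ => congrArg _ (sum_congr rfl fun e he => by
    rw [II_eq hS hβ k m (hE e he).ne_zero, mul_sum])]
  simp only [sum_comm (s := S.biUnion pdiv), mul_sum (S ×ˢ S)]
  rw [sum_comm, DK]
  refine sum_congr rfl fun x hx => ?_
  have h1 := hS _ (mem_product.1 hx).1
  have h2 := hS _ (mem_product.1 hx).2
  have q : KK x.1 x.2 m =
      ∑ e ∈ S.biUnion pdiv, mu e * jj e m * (ps e x.1 m * conj (ps e x.2 m)) := by
    rw [hA.k.2.1 _ _ m h1.1 h2.1]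
    refine sum_subset_zero_on_sdiff (fun e he => mem_biUnion.2
      ⟨_, (mem_product.1 hx).1, (mem_filter.1 he).1⟩) (fun e he => ?_) fun e he => ?_
    · have h3 := mt (SW.mem_cd (b := x.2) h1.1.ne_zero).2 (mem_sdiff.1 he).2
      by_cases h4 : e ∣ x.1
      · have h5 : ¬ e ∣ x.2 := fun h5 => h3 ⟨hE e (mem_sdiff.1 he).1, h4, h5⟩
        simp [ps, h5]
      · simp [ps, h4]
    · have h3 := (SW.mem_cd (b := x.2) h1.1.ne_zero).1 he
      rw [ps, ps, if_pos h3.2.1, if_pos h3.2.2]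
  rw [KG, q, hg _ (od_mul.2 ⟨h1.2, h2.2⟩), map_sum, mul_sum, sum_mul]
  refine sum_congr rfl fun k hk => ?_
  have hko := hA.gam.2.2.2.2.2.2.2.1 k hk
  rw [sum_mul, mul_sum, mul_sum]
  refine sum_congr rfl fun e _ => ?_
  simp only [(hA.gam.2.2.2.2.2.2.1 k hko).mul, map_mul, map_div₀, IIIa.conj_xi hA hko h1.2,
    IIIa.conj_xi hA hko h2.2]
  ring

lemma twist (b0 : β 0 = 0) {L : ℝ} (hL : 0 < L) (k m : O) {e : O} (he : e ≠ 0) (r σ u : ℝ) :
    ∑' c : O, (r : ℂ) * gg β k e m c * ((nr c / (L / N e) : ℝ) : ℂ) ^ ((σ : ℂ) + u * Complex.I) =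
      ((r / L : ℝ) : ℂ) * Lam (Tw β L (σ - 1) u (xi k)) e m := by
  rw [Lam, ← tsum_mul_left]
  refine tsum_congr fun c => ?_
  rcases eq_or_ne c 0 with rfl | hc
  · simp [gg, Tw, b0]
  have e0 := N_pos_real he
  have n0 := N_pos_real (mul_ne_zero he hc)
  have q : nr c / (L / N e) = N (e * c) / L := by
    rw [nr_eq hc, map_mul]; push_cast; field_simp
  have y0 : (((N (e * c) : ℝ) / L : ℝ) : ℂ) ≠ 0 := by
    exact_mod_cast (div_pos n0 hL).ne'
  have l0 : (L : ℂ) ≠ 0 := by exact_mod_cast hL.ne'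
  have n1 : ((N (e * c) : ℕ) : ℂ) ≠ 0 := by exact_mod_cast n0.ne'
  rw [gg, Tw, q, nr_eq (mul_ne_zero he hc), show ((σ - 1 : ℝ) : ℂ) + u * Complex.I =
    (σ + u * Complex.I) - 1 by push_cast; ring, Complex.cpow_sub _ _ y0, Complex.cpow_one]
  generalize (((N (e * c) : ℝ) / L : ℝ) : ℂ) ^ ((σ : ℂ) + u * Complex.I) = z
  push_cast
  field_simp

end Back

open Back in
theorem pBack (hA : Alg) (hb : Base) (h : S_Sep) : S_Back := by
  intro ε k hε
  have hε' : 0 < min ε 1 := lt_min hε one_pos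
  obtain ⟨C, hC, h⟩ := h (min ε 1) 14 k hε'
  obtain ⟨κ, hκ, hg⟩ := hA.gam.2.2.2.2.2.2.2.2.2.2.2
  refine ⟨Real.exp a0 * (1 + 2 * C), by positivity, ?_⟩
  intro J ω H L β V b hV hb0 hJ hyp
  obtain ⟨S, hS, hβ⟩ : ∃ S : Finset O, (∀ a ∈ S, SQO a) ∧ ∀ j ∈ J, ∀ c ∉ S, β j c = 0 := by
    refine ⟨J.attach.biUnion fun j => (hJ j.1 j.2).1.toFinset, fun a ha => ?_, fun j hj c hc => ?_⟩
    · obtain ⟨j, -, h1⟩ := mem_biUnion.1 ha
      exact (hJ j.1 j.2).2.1 a ((Set.Finite.mem_toFinset _).1 h1)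
    · exact by_contra fun h1 => hc (mem_biUnion.2 ⟨⟨j, hj⟩, mem_attach _ _,
        (Set.Finite.mem_toFinset _).2 h1⟩)
  have hE : ∀ e ∈ S.biUnion pdiv, SQO e := fun e he => by
    obtain ⟨a, ha, h1⟩ := mem_biUnion.1 he
    have h2 := hS a ha
    have h3 := (mem_pdiv h2.1.ne_zero).1 h1
    exact ⟨⟨h3.1, h2.1.2.squarefree_of_dvd h3.2⟩, IsCoprime.of_isCoprime_of_dvd_left h2.2 h3.2⟩
  set Z : ℝ := ∑ j ∈ J, ω j * H j * ∑' c : O, ‖β j c‖ ^ 2 / nr c with hZ
  have w0 : ∀ j ∈ J, 0 ≤ ω j * H j := fun j hj => mul_nonneg (hJ j hj).2.2.1 (hJ j hj).2.2.2.1.le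
  have Z0 : 0 ≤ Z := sum_nonneg fun j hj => mul_nonneg (w0 j hj)
    (tsum_nonneg fun c => div_nonneg (sq_nonneg _) (nr_pos c).le)
  have hVe : V ^ min ε 1 ≤ V ^ ε := Real.rpow_le_rpow_of_exponent_le hV (min_le_left _ _)
  have V0 : 0 ≤ V ^ ε * b := by positivity
  have one : ∀ s : Finset O, 0 ∉ s → ∀ q ∈ cls, ∑ i ∈ J ×ˢ S.biUnion pdiv ×ˢ s,
      ω i.1 * H i.1 * ‖jj i.2.1 i.2.2‖ * ‖II (β i.1) (H i.1) q i.2.1 i.2.2‖ ≤ C * (V ^ ε * b) := by
    intro s s0 q hq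
    have mem : ∀ i ∈ J ×ˢ S.biUnion pdiv ×ˢ s, i.1 ∈ J ∧ SQO i.2.1 ∧ i.2.2 ≠ 0 := fun i hi => by
      simp only [mem_product] at hi
      exact ⟨hi.1, hE _ hi.2.1, fun e => s0 (e ▸ hi.2.2)⟩
    have h1 := h _ (J ×ˢ S.biUnion pdiv ×ˢ s)
      (fun i c => (√(ω i.1 * H i.1 * ‖jj i.2.1 i.2.2‖) : ℝ) * gg (β i.1) q i.2.1 i.2.2 c)
      (fun i => L i.1 / N i.2.1) (fun i => H i.1 / L i.1 ^ 2 * N i.2.2) V b hV hb0
      (fun i hi => ?_) fun σ u z hσ hz => ?_
    · refine le_trans (le_of_eq (sum_congr rfl fun i hi => ?_))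
        (h1.trans (by rw [mul_assoc]; gcongr))
      obtain ⟨m1, m2, m3⟩ := mem i hi
      have r0 : 0 ≤ ω i.1 * H i.1 * ‖jj i.2.1 i.2.2‖ := mul_nonneg (w0 _ m1) (norm_nonneg _)
      have l0 := (hJ _ m1).2.2.2.2.1
      have e0 := N_pos_real m2.1.ne_zero
      conv_lhs => rw [← Real.norm_of_nonneg r0, ← Complex.norm_real, ← norm_mul, II, ← tsum_mul_left]
      congr 1
      refine tsum_congr fun x => ?_
      rw [show H i.1 / L i.1 ^ 2 * N i.2.2 * (L i.1 / N i.2.1) ^ 2 =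
        H i.1 * N i.2.2 / (N i.2.1 : ℝ) ^ 2 by field_simp]
      have r1 := congrArg Complex.ofReal (Real.mul_self_sqrt r0)
      rw [Complex.ofReal_mul] at r1
      rw [map_mul (starRingEnd ℂ), Complex.conj_ofReal]
      generalize ((√(ω i.1 * H i.1 * ‖jj i.2.1 i.2.2‖) : ℝ) : ℂ) = r at r1 ⊢
      rw [← r1]
      ring
    · obtain ⟨m1, m2, m3⟩ := mem i hi
      obtain ⟨f1, -, -, f4, f5, f6⟩ := hJ _ m1
      have e0 := N_pos_real m2.1.ne_zero
      refine ⟨(f1.preimage (mul_right_injective₀ m2.1.ne_zero).injOn).subset fun c hc => ?_,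
        by positivity, f6.trans (le_mul_of_one_le_right (by positivity) (one_le_N m3))⟩
      exact fun e : β i.1 (i.2.1 * c) = 0 => hc (by simp only [gg, e, zero_mul, zero_div, mul_zero])
    · have hko := hA.gam.2.2.2.2.2.2.2.1 q hq
      have hσ' : -1 ≤ σ - 1 ∧ σ - 1 ≤ 14 := by
        have := min_le_right ε 1
        rcases hσ with rfl | rfl
        · constructor <;> linarith
        · norm_num
      refine le_trans (le_of_eq (sum_congr rfl fun i hi => ?_)) (hyp (xi q)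
        (hA.gam.2.2.2.2.2.2.1 q hko) (σ - 1) u z _ hσ'.1 hσ'.2 hz fun i hi => ?_)
      · obtain ⟨m1, m2, m3⟩ := mem i (mem_filter.1 hi).1
        have r0 : 0 ≤ ω i.1 * H i.1 * ‖jj i.2.1 i.2.2‖ := mul_nonneg (w0 _ m1) (norm_nonneg _)
        have l0 := (hJ _ m1).2.2.2.2.1
        rw [twist (hβ _ m1 0 fun h => (hS 0 h).1.ne_zero rfl) l0 q _ m2.1.ne_zero, norm_mul,
          mul_pow, Complex.norm_real, Real.norm_eq_abs, sq_abs, div_pow, Real.sq_sqrt r0]
        ring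
      · obtain ⟨m1, m2, m3⟩ := mem i (mem_filter.1 hi).1
        exact ⟨m1, m2, m3, (mem_filter.1 hi).2⟩
  have two : ∀ s : Finset O, 0 ∉ s →
      ∑ m ∈ s, ∑ j ∈ J, ω j * H j * ‖DK S (β j) (H j) m‖ ≤ 2 * (C * (V ^ ε * b)) := by
    intro s s0
    calc _ ≤ ∑ m ∈ s, ∑ j ∈ J, ∑ q ∈ cls, ‖κ q‖ * ∑ e ∈ S.biUnion pdiv,
          ω j * H j * ‖jj e m‖ * ‖II (β j) (H j) q e m‖ := by
          refine sum_le_sum fun m _ => sum_le_sum fun j hj => ?_
          rw [expand hA hS (hβ j hj) hg, ← Real.norm_of_nonneg (w0 j hj), ← Complex.norm_real,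
            ← norm_mul, mul_sum]
          refine norm_sum_le_of_le _ fun q _ => ?_
          rw [mul_left_comm, norm_mul, Complex.norm_conj, mul_sum]
          refine mul_le_mul_of_nonneg_left (norm_sum_le_of_le _ fun e _ => ?_) (norm_nonneg _)
          rw [norm_mul, norm_mul, norm_mul, ← mul_assoc]
          gcongr
          exact mul_le_of_le_one_left (norm_nonneg _) (norm_mu_le e)
      _ = ∑ q ∈ cls, ‖κ q‖ * ∑ i ∈ J ×ˢ S.biUnion pdiv ×ˢ s, ω i.1 * H i.1 * ‖jj i.2.1 i.2.2‖ *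
          ‖II (β i.1) (H i.1) q i.2.1 i.2.2‖ := by
          simp only [sum_product, mul_sum]
          rw [sum_comm, sum_congr rfl fun j _ => sum_comm, sum_comm]
          exact sum_congr rfl fun q _ => sum_congr rfl fun j _ => sum_comm
      _ ≤ ∑ q ∈ cls, ‖κ q‖ * (C * (V ^ ε * b)) :=
          sum_le_sum fun q hq => mul_le_mul_of_nonneg_left (one s s0 q hq) (norm_nonneg _)
      _ ≤ _ := by rw [← sum_mul]; gcongr
  have sm : ∀ j ∈ J, Summable fun m => ω j * H j * ‖DK S (β j) (H j) m‖ := fun j hj =>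
    (sumD hA hb (hJ j hj).2.2.2.1 hS).norm.mul_left _
  have three : ∑' m, ∑ j ∈ J, ω j * H j * ‖DK S (β j) (H j) m‖ ≤ Z + 2 * (C * (V ^ ε * b)) := by
    rw [(summable_sum sm).tsum_eq_add_tsum_ite 0]
    refine add_le_add (sum_le_sum fun j hj =>
      mul_le_mul_of_nonneg_left (zero hA hS (hβ j hj)) (w0 j hj)) ?_
    refine Real.tsum_le_of_sum_le (fun m => ?_) fun s => ?_
    · dsimp only [Pi.zero_apply]
      split_ifs
      exacts [le_rfl, sum_nonneg fun j hj => mul_nonneg (w0 j hj) (norm_nonneg _)]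
    · refine le_trans (le_of_eq ?_) (two (s.filter (· ≠ 0)) (by simp))
      rw [sum_filter]
      exact sum_congr rfl fun m _ => by simp only [ne_eq, ite_not]
  rw [Summable.tsum_finsetSum sm] at three
  calc _ ≤ ∑ j ∈ J, Real.exp a0 * ∑' m, ω j * H j * ‖DK S (β j) (H j) m‖ := by
        refine sum_le_sum fun j hj => (mul_le_mul_of_nonneg_left
          (step hA hb (hJ j hj).2.2.2.1 hS (hβ j hj)) (hJ j hj).2.2.1).trans (le_of_eq ?_)
        rw [tsum_mul_left]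
        ring
    _ ≤ Real.exp a0 * (Z + 2 * (C * (V ^ ε * b))) := by
        rw [← mul_sum]
        exact mul_le_mul_of_nonneg_left three (Real.exp_pos _).le
    _ ≤ _ := by
        rw [mul_assoc]
        refine mul_le_mul_of_nonneg_left ?_ (Real.exp_pos _).le
        nlinarith [mul_nonneg hC.le Z0]

end Pool.Agent.P.MP_323ce2_nt.QD
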