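import Pool.Agent.P.MP_323ce2_nt.QD.Dd

/-! The descent step in the form used by the recursion layer. -/

namespace Pool.Agent.P.MP_323ce2_nt.QD

open Pool.Agent.P.MP_26a8c3_nt Pool.Agent.P.MP_26a8c3_nt.QO Finset

namespace Br

lemma VV_eq : @QR.VV = @VV := rfl

/-- the child bound in the form of the step -/
lemma chd {Q : O} {cls : List Pc → Prop} {c : ℂ} {K τ Y₁ Y₂ M₀ M₁ δ b : ℝ} {β : ℝ → ℝ} {A : ℕ}
    {l : List Pc} (h : QR.CH Q (dd Q) cls c τ (Real.exp 9 * Y₁) (Real.exp 9 * Y₂) M₀ δ β A)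
    (hc : ∀ l', (∀ x ∈ l', x.ok Q K 2) → l'.length ≤ l.length → PL l' ≤ PL l → cls l')
    (h0 : M₀ ≤ M₁) (hβ : ∀ y, M₁ ≤ y → β y ≤ b * (y / M₁) ^ 13) :
    Chd Q K 2 c τ Y₁ Y₂ l M₁ b δ A := by
  intro ν₁ ν₂ t₁ t₂ y l' s X₁ X₂ h1 h2 h3 h4 h5 h6 h7 h8
  have hL : 0 ≤ PL l' := zero_le_one.trans (Cl.aux l' h3).1
  refine (h ν₁ ν₂ l' t₁ t₂ y s X₁ X₂ h1 h2 (hc l' h3 h4 h5) (h0.trans h6) fun m hm =>
    ⟨(h7 m hm).1, (h7 m hm).2, h8 m⟩).trans ?_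
  have := QR.ht_pos t₁ t₂
  calc β y * PL l' ^ (1 + δ) * QR.ht t₁ t₂ ^ A
      ≤ b * (y / M₁) ^ 13 * PL l' ^ (1 + δ) * QR.ht t₁ t₂ ^ A := by
        have := hβ y h6
        gcongr
    _ = _ := by unfold QR.ht; ring

lemma grow {b₁ b₂ b₃ M M₁ y : ℝ} (h1 : 0 ≤ b₁) (h2 : 0 ≤ b₂) (h3 : 0 ≤ b₃) (h0 : 0 < M₁)
    (hM : M₁ ≤ M) (hy : M₁ ≤ y) :
    (b₁ * y + b₂ * y ^ (2 / 3 : ℝ) + b₃) * (1 + y / M) ^ 12 ≤
      2 ^ 12 * (b₁ * M₁ + b₂ * M₁ ^ (2 / 3 : ℝ) + b₃) * (y / M₁) ^ 13 := by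
  obtain ⟨z, hz, rfl⟩ : ∃ z, 1 ≤ z ∧ y = z * M₁ :=
    ⟨y / M₁, (one_le_div h0).2 hy, (div_mul_cancel₀ y h0.ne').symm⟩
  rw [mul_div_cancel_right₀ z h0.ne']
  have z0 : 0 ≤ z := by linarith
  have a1 : (z * M₁) ^ (2 / 3 : ℝ) ≤ z * M₁ ^ (2 / 3 : ℝ) := by
    rw [Real.mul_rpow z0 h0.le]
    refine mul_le_mul_of_nonneg_right ?_ (by positivity)
    simpa using Real.rpow_le_rpow_of_exponent_le hz (by norm_num : (2 / 3 : ℝ) ≤ 1)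
  have a2 : 1 + z * M₁ / M ≤ 2 * z := by
    have : z * M₁ / M ≤ z := by
      rw [div_le_iff₀ (h0.trans_le hM)]; exact mul_le_mul_of_nonneg_left hM z0
    linarith
  have a3 : b₁ * (z * M₁) + b₂ * (z * M₁) ^ (2 / 3 : ℝ) + b₃ ≤
      z * (b₁ * M₁ + b₂ * M₁ ^ (2 / 3 : ℝ) + b₃) := by
    have := mul_le_mul_of_nonneg_left a1 h2
    nlinarith [mul_nonneg (sub_nonneg.2 hz) h3]
  have a4 : 0 ≤ 1 + z * M₁ / M := by have := h0.trans_le hM; positivity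
  calc _ ≤ z * (b₁ * M₁ + b₂ * M₁ ^ (2 / 3 : ℝ) + b₃) * (2 * z) ^ 12 := by gcongr
    _ = _ := by ring

lemma size {K M τ Y₁ Y₂ : ℝ} (hK : 2 ≤ K) (hM : 1 ≤ M) (hτ : 1 ≤ τ) (h1 : 0 < Y₁) (h2 : 0 < Y₂) :
    K ≤ K * M * (1 + Y₁) * (1 + Y₂ * τ) ∧ M ≤ K * M * (1 + Y₁) * (1 + Y₂ * τ) ∧
      Y₁ * Y₂ ≤ K * M * (1 + Y₁) * (1 + Y₂ * τ) := by
  have a1 : Y₂ ≤ Y₂ * τ := le_mul_of_one_le_right h2.le hτ
  have a2 : 1 + Y₁ * Y₂ ≤ (1 + Y₁) * (1 + Y₂ * τ) := by nlinarith [mul_pos h1 h2]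
  have a3 := mul_pos h1 h2
  have a4 : K ≤ K * M := le_mul_of_one_le_right (by linarith) hM
  have a5 : M ≤ K * M := le_mul_of_one_le_left (by linarith) (by linarith)
  rw [mul_assoc (K * M)]
  refine ⟨a4.trans (le_mul_of_one_le_right (by linarith) (by linarith)),
    a5.trans (le_mul_of_one_le_right (by linarith) (by linarith)), ?_⟩
  exact le_trans (by linarith) (le_mul_of_one_le_left (by linarith) (by linarith))

lemma loss {K Z M P Y L δ : ℝ} {i : ℕ} (hK : 2 ≤ K) (h1 : K ≤ Z) (h2 : M ≤ Z) (h3 : Y ≤ Z)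
    (hM : 0 ≤ M) (hP0 : 0 ≤ P) (hP : P ≤ K) (hY : 0 ≤ Y) (hL0 : 0 ≤ L) (hL : L ≤ K ^ i)
    (hδ : 0 ≤ δ) : (1 + M + P + Y * L) ^ δ ≤ Z ^ (((i : ℝ) + 3) * δ) := by
  have z1 : 1 ≤ Z := by linarith
  have a1 : L ≤ Z ^ i := hL.trans (pow_le_pow_left₀ (by linarith) h1 i)
  have a2 : 1 ≤ Z ^ i := one_le_pow₀ z1
  have a3 : Z ≤ Z * Z ^ i := le_mul_of_one_le_right (by linarith) a2
  have a4 : Y * L ≤ Z * Z ^ i := mul_le_mul h3 a1 hL0 (by linarith)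
  have a5 : 4 * (Z * Z ^ i) ≤ Z ^ 2 * (Z * Z ^ i) :=
    mul_le_mul_of_nonneg_right (by nlinarith) (by linarith)
  have a6 : 1 + M + P + Y * L ≤ Z ^ (i + 3) := by
    have : Z ^ (i + 3) = Z ^ 2 * (Z * Z ^ i) := by ring
    linarith
  rw [Real.rpow_mul (by linarith), show (i : ℝ) + 3 = ((i + 3 : ℕ) : ℝ) by push_cast; ring,
    Real.rpow_natCast]
  exact Real.rpow_le_rpow (by positivity) a6 hδ

lemma shrink {R M : ℝ} (hR : 1 ≤ R) (hM : 0 ≤ M) :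
    R ^ 5 * (M / R ^ 6) ≤ M ∧ R ^ 5 * (M / R ^ 6) ^ (2 / 3 : ℝ) = R * M ^ (2 / 3 : ℝ) := by
  have h0 : 0 < R := by linarith
  constructor
  · rw [show R ^ 5 * (M / R ^ 6) = M / R by field_simp]
    exact div_le_self hM hR
  · rw [Real.div_rpow hM (by positivity), ← Real.rpow_natCast R 6, ← Real.rpow_mul h0.le,
      show ((6 : ℕ) : ℝ) * (2 / 3) = ((4 : ℕ) : ℝ) by norm_num, Real.rpow_natCast]
    field_simp

end Br

open Br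

theorem pSTEP0 (h : S_Step0) (Q : O) (hQ : 36 ∣ Q) : QR.STEP0 Q (dd Q) := by
  refine ⟨3, by norm_num, fun δ A hδ hδ1 => ?_⟩
  obtain ⟨C, hC, H⟩ := h δ δ A hδ hδ1 hδ
  refine ⟨C, Real.exp 9, A, hC, Real.one_le_exp (by norm_num),
    fun K M x ν₁ ν₂ c τ Y₁ Y₂ t₁ t₂ b s hK hM hx h1 h2 hc hτ y1 y2 hb hs hch => ?_⟩
  obtain rfl : x = [] := List.length_eq_zero_iff.1 (Nat.le_zero.1 hx.2.1)
  have k1 : (1 : ℝ) ≤ K ^ 6 := one_le_pow₀ (by linarith)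
  have m1 : 1 ≤ M := k1.trans hM
  have m0 : 0 < M / K ^ 6 := by positivity
  have hd : Chd Q K 2 c τ Y₁ Y₂ [] (M / K ^ 6) b δ A :=
    chd hch (fun l' a1 a2 _ => ⟨hx.1, a2, a1⟩) le_rfl fun y hy =>
      mul_le_mul_of_nonneg_left (pow_le_pow_right₀ ((one_le_div m0).2 hy) (by norm_num)) hb
  have key := H Q ν₁ ν₂ c K 2 (K ^ 6) M τ Y₁ Y₂ t₁ t₂ b hQ h1 h2 hc one_le_two k1 m1 (by linarith)
    y1 y2 hb hd s fun m hm => (hs m hm).2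
  obtain ⟨s1, s2, s3⟩ := size hK m1 hτ y1 y2
  have yy := mul_pos y1 y2
  have ls := loss (i := 0) (P := 0) (L := 1) hK s1 s2 s3 (by linarith) le_rfl (by linarith) yy.le
    zero_le_one (by simp) hδ.le
  simp only [add_zero, mul_one, Nat.cast_zero, zero_add] at ls
  have ht : 1 ≤ QR.ht t₁ t₂ ^ A := one_le_pow₀ (QR.one_le_ht t₁ t₂)
  have e : ∀ m, (dd Q).F [] m = 1 := fun m => FL_nil m
  simp only [e, mul_one, VV_eq]
  refine key.trans ?_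
  have a1 : M + K ^ 6 * (Y₁ * Y₂) + K ^ 6 * b * QR.ht t₁ t₂ ^ A ≤
      QR.ht t₁ t₂ ^ A * (M + K ^ 6 * (Y₁ * Y₂ + b)) := by
    have : 0 ≤ M + K ^ 6 * (Y₁ * Y₂) := by positivity
    nlinarith [mul_nonneg (sub_nonneg.2 ht) this]
  calc _ ≤ C * (K * M * (1 + Y₁) * (1 + Y₂ * τ)) ^ (3 * δ) * (Y₁ * Y₂) ^ (1 + δ) *
        (QR.ht t₁ t₂ ^ A * (M + K ^ 6 * (Y₁ * Y₂ + b))) := by
        have : 0 ≤ (K * M * (1 + Y₁) * (1 + Y₂ * τ)) ^ (3 * δ) :=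
          Real.rpow_nonneg (by linarith) _
        refine mul_le_mul ?_ a1 (by unfold QR.ht at ht; positivity) (by positivity)
        gcongr
    _ = _ := by ring

theorem pSTEP1 (h : S_Step4) (Q : O) (hQ : 36 ∣ Q) (i : ℕ) : QR.STEP1 Q (dd Q) i := by
  refine ⟨i + 3, by positivity, fun δ A hδ hδ1 => ?_⟩
  obtain ⟨C, hC, H⟩ := h δ δ A i hδ hδ1 hδ
  refine ⟨(1 + C * 2 ^ (2 * i)) * 2 ^ 13, Real.exp 9, A, by positivity,
    Real.one_le_exp (by norm_num), fun K M x hK hM hx => ?_⟩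
  have k1 : (1 : ℝ) ≤ K ^ 6 := one_le_pow₀ (by linarith)
  have m1 : 1 ≤ M := k1.trans hM
  have m0 : 0 < M := by linarith
  have e9 : 1 ≤ Real.exp 9 := Real.one_le_exp (by norm_num)
  cases x with
  | nil =>
    refine ⟨1, le_rfl, by linarith,
      fun ν₁ ν₂ c τ Y₁ Y₂ t₁ t₂ b₁ b₂ b₃ s h1 h2 hc hτ y1 y2 b1 b2 b3 hs hch => ?_⟩
    have key := hch ν₁ ν₂ [] t₁ t₂ M s (fun _ => Y₁) (fun _ => Y₂) h1 h2
      ⟨⟨hx.1, Nat.zero_le _, hx.2.2⟩, by simp⟩ (by simp) fun m hm =>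
        ⟨(hs m hm).1, (hs m hm).2, y1, le_mul_of_one_le_left y1.le e9, y2,
          le_mul_of_one_le_left y2.le e9⟩
    have yy := mul_pos y1 y2
    have e : (dd Q).L [] = 1 := PL_nil
    rw [← sum_div, div_le_iff₀ (by positivity)] at key
    simp only [e, mul_one, Real.one_rpow, one_mul, div_self m0.ne'] at key ⊢
    refine key.trans ?_
    obtain ⟨s1, -, -⟩ := size hK m1 hτ y1 y2
    have z1 : 1 ≤ (K * M * (1 + Y₁) * (1 + Y₂ * τ)) ^ (((i : ℝ) + 3) * δ) :=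
      Real.one_le_rpow (by linarith) (by positivity)
    have ht := QR.ht_pos t₁ t₂
    have a1 : b₁ * M + b₂ * M ^ (2 / 3 : ℝ) + b₃ ≤
        M + K ^ 6 * (Y₁ * Y₂ + b₃) + b₁ * M + b₂ * M ^ (2 / 3 : ℝ) := by
      nlinarith [mul_nonneg (sub_nonneg.2 k1) b3, mul_pos (zero_lt_one.trans_le k1) yy]
    have a2 : ((1 : ℝ) + 1) ^ 12 ≤ (1 + C * 2 ^ (2 * i)) * 2 ^ 13 *
        (K * M * (1 + Y₁) * (1 + Y₂ * τ)) ^ (((i : ℝ) + 3) * δ) := by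
      have : (1 : ℝ) ≤ 1 + C * 2 ^ (2 * i) := le_add_of_nonneg_right (by positivity)
      calc ((1 : ℝ) + 1) ^ 12 ≤ 1 * 2 ^ 13 * 1 := by norm_num
        _ ≤ _ := by gcongr
    calc _ ≤ (M + K ^ 6 * (Y₁ * Y₂ + b₃) + b₁ * M + b₂ * M ^ (2 / 3 : ℝ)) *
          ((1 + C * 2 ^ (2 * i)) * 2 ^ 13 *
            (K * M * (1 + Y₁) * (1 + Y₂ * τ)) ^ (((i : ℝ) + 3) * δ)) * QR.ht t₁ t₂ ^ A *
          (Y₁ * Y₂) ^ (1 + δ) := by gcongr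
      _ = _ := by ring
  | cons p l =>
    obtain ⟨hw, hp, -⟩ := hx.2.2 p List.mem_cons_self
    have hl : ∀ z ∈ l, z.ok Q K 2 := fun z hz => hx.2.2 z (List.mem_cons_of_mem _ hz)
    have hi : l.length ≤ i := Nat.succ_le_succ_iff.1 hx.2.1
    have r1 := hw.1
    refine ⟨p.P, r1, hp,
      fun ν₁ ν₂ c τ Y₁ Y₂ t₁ t₂ b₁ b₂ b₃ s h1 h2 hc hτ y1 y2 b1 b2 b3 hs hch => ?_⟩
    have r6 : (1 : ℝ) ≤ p.P ^ 6 := one_le_pow₀ r1
    have n0 : 0 < M / p.P ^ 6 := by positivity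
    have n1 : M / p.P ^ 6 ≤ M := div_le_self m0.le r6
    have hc' : ∀ l', (∀ x ∈ l', x.ok Q K 2) → l'.length ≤ l.length → PL l' ≤ PL l →
        (dd Q).cl i K l' ∧ (dd Q).L l' * p.P ≤ (dd Q).L (p :: l) := fun l' a1 a2 a3 =>
      ⟨⟨hx.1, a2.trans hi, a1⟩, by
        change PL l' * p.P ≤ PL (p :: l)
        rw [PL_cons, mul_comm]
        exact mul_le_mul_of_nonneg_left a3 (by linarith)⟩
    have key := H Q ν₁ ν₂ c K 2 M τ Y₁ Y₂ t₁ t₂ _ _ p l hQ h1 h2 hc one_le_two m1 (by linarith)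
      y1 y2 (by positivity) (by positivity) hw hl hi
      (chd hch hc' le_rfl fun y hy => grow b1 b2 b3 n0 n1 hy)
      (chd hch hc' n1 fun y hy => grow b1 b2 b3 m0 le_rfl hy) s fun m hm => (hs m hm).2
    refine key.trans ?_
    obtain ⟨s1, s2, s3⟩ := size hK m1 hτ y1 y2
    obtain ⟨l1, l2, -⟩ := Cl.aux l hl
    have yy := mul_pos y1 y2
    have ls := loss (i := i) hK s1 s2 s3 m0.le (by linarith) hp yy.le (by linarith)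
      (l2.trans (pow_le_pow_right₀ hx.1 hi)) hδ.le
    have ht : 1 ≤ QR.ht t₁ t₂ ^ A := one_le_pow₀ (QR.one_le_ht t₁ t₂)
    have L0 : 0 < PL (p :: l) := by rw [PL_cons]; positivity
    obtain ⟨u1, u2⟩ := shrink r1 m0.le
    have p4 : p.P ^ 4 ≤ K ^ 6 :=
      (pow_le_pow_left₀ (by linarith) hp 4).trans (pow_le_pow_right₀ hx.1 (by norm_num))
    have p5 : p.P ^ 5 ≤ K ^ 6 :=
      (pow_le_pow_left₀ (by linarith) hp 5).trans (pow_le_pow_right₀ hx.1 (by norm_num))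
    set n := Y₁ * Y₂ * PL (p :: l) with hn
    have n2 : 0 < n := mul_pos yy L0
    set w := M ^ (2 / 3 : ℝ) with hw'
    have w0 : 0 ≤ w := by positivity
    have a1 : p.P ^ 5 * (2 ^ 12 * (b₁ * (M / p.P ^ 6) + b₂ * (M / p.P ^ 6) ^ (2 / 3 : ℝ) + b₃)) +
        2 ^ 12 * (b₁ * M + b₂ * w + b₃) ≤ 2 ^ 13 * (K ^ 6 * b₃ + b₁ * M + p.P * b₂ * w) := by
      have c1 := mul_le_mul_of_nonneg_left u1 b1
      have c2 := mul_le_mul_of_nonneg_right p5 b3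
      have c3 := mul_nonneg (sub_nonneg.2 k1) b3
      have c4 := mul_nonneg (sub_nonneg.2 r1) (mul_nonneg b2 w0)
      have c5 : p.P ^ 5 * (b₂ * (M / p.P ^ 6) ^ (2 / 3 : ℝ)) = p.P * b₂ * w := by
        rw [mul_left_comm, u2]; ring
      nlinarith
    have a2 : M + p.P ^ 4 * n + (p.P ^ 5 * (2 ^ 12 * (b₁ * (M / p.P ^ 6) +
        b₂ * (M / p.P ^ 6) ^ (2 / 3 : ℝ) + b₃)) + 2 ^ 12 * (b₁ * M + b₂ * w + b₃)) *
          (1 + |t₁| + |t₂|) ^ A ≤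
        QR.ht t₁ t₂ ^ A * (2 ^ 13 * (M + K ^ 6 * (n + b₃) + b₁ * M + p.P * b₂ * w)) := by
      have c1 := mul_le_mul_of_nonneg_right a1 (zero_le_one.trans ht)
      have c2 := mul_le_mul_of_nonneg_right p4 n2.le
      have c3 : 0 ≤ M + K ^ 6 * n := by positivity
      have c4 := mul_nonneg (sub_nonneg.2 ht) c3
      change _ + _ * QR.ht t₁ t₂ ^ A ≤ _
      nlinarith
    calc _ ≤ (1 + C * 2 ^ (2 * i)) * (K * M * (1 + Y₁) * (1 + Y₂ * τ)) ^ (((i : ℝ) + 3) * δ) *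
          n ^ (1 + δ) * (QR.ht t₁ t₂ ^ A *
            (2 ^ 13 * (M + K ^ 6 * (n + b₃) + b₁ * M + p.P * b₂ * w))) := by
          have : 0 ≤ (K * M * (1 + Y₁) * (1 + Y₂ * τ)) ^ (((i : ℝ) + 3) * δ) :=
            Real.rpow_nonneg (by linarith) _
          refine mul_le_mul ?_ a2 (by positivity) (by positivity)
          gcongr
          exact le_add_of_nonneg_left zero_le_one
      _ = _ := by change _ = _ * n ^ (1 + δ) * (M + K ^ 6 * (n + b₃) + _ + _); ring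

end Pool.Agent.P.MP_323ce2_nt.QD
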