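import Pool.Agent.P.MP_323ce2_nt.QD.St

/-! From the hypothesis on products to the hypothesis on coefficients. -/

namespace Pool.Agent.P.MP_323ce2_nt.QD

open Pool.Agent.P.MP_26a8c3_nt Pool.Agent.P.MP_26a8c3_nt.QO Pool.Agent.P.MP_26a8c3_nt.QA
open Pool.Agent.P.MP_26a8c3_nt.QB Pool.Agent.P.MP_323ce2_nt.QZ Pool.Agent.P.MP_323ce2_nt.QF Finset
open scoped Classical ComplexConjugate

namespace ChS

lemma mono {a : O → ℂ} {θ B B' : ℝ} {s : Finset O} {wt : O → ℝ} (h : Mxs a θ s wt B)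
    (hB : B ≤ B') : Mxs a θ s wt B' :=
  let ⟨Mx, h1, h2⟩ := h
  ⟨Mx, h1, h2.trans hB⟩

lemma smul {a : O → ℂ} {θ B : ℝ} {s : Finset O} {wt : O → ℝ} (h : Mxs a θ s wt B) (z : ℂ) :
    Mxs (fun n => z * a n) θ s wt (‖z‖ ^ 2 * B) := by
  obtain ⟨Mx, h1, h2⟩ := h
  refine ⟨fun m => ‖z‖ ^ 2 * Mx m, fun m hm R hR => ?_, ?_⟩
  · have e : Lam (fun n => z * a n) R m = z * Lam a R m := by
      simp only [Lam, mul_assoc, tsum_mul_left]
    rw [e, norm_mul, mul_pow]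
    exact le_trans (le_of_eq (by ring)) (mul_le_mul_of_nonneg_left (h1 m hm R hR) (sq_nonneg ‖z‖))
  · rw [← mul_sum]
    exact mul_le_mul_of_nonneg_left h2 (sq_nonneg _)

lemma one_le_PL {l : List Pc} (h : ∀ x ∈ l, x.wk) : 1 ≤ PL l := by
  induction l with
  | nil => simp [PL]
  | cons x l ih =>
    rw [PL, List.map_cons, List.prod_cons]
    exact one_le_mul_of_one_le_of_one_le (h x List.mem_cons_self).1
      (ih fun y hy => h y (List.mem_cons_of_mem x hy))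

lemma PL_le {l' l : List Pc} (hs : l'.Sublist l) (h : ∀ x ∈ l, x.wk) : PL l' ≤ PL l := by
  induction hs with
  | slnil => exact le_rfl
  | @cons l₁ l₂ x _ ih =>
    have h2 : ∀ y ∈ l₂, y.wk := fun y hy => h y (List.mem_cons_of_mem x hy)
    rw [PL, PL, List.map_cons, List.prod_cons]
    exact (ih h2).trans (le_mul_of_one_le_left (zero_le_one.trans (one_le_PL h2))
      (h x List.mem_cons_self).1)
  | @cons_cons l₁ l₂ x _ ih =>
    rw [PL, PL, List.map_cons, List.prod_cons, List.map_cons, List.prod_cons]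
    exact mul_le_mul_of_nonneg_left (ih fun y hy => h y (List.mem_cons_of_mem x hy))
      (zero_le_one.trans (h x List.mem_cons_self).1)

end ChS

open ChS in
theorem pChS (_hA : Alg) (_hb : Base) (h1 : S_Pair) (h2 : S_PeelL) (h3 : S_TwS) (h4 : S_PtS) :
    S_ChS := by
  intro dl k i₀ hdl
  obtain ⟨C₁, hC₁, hP⟩ := h1.2 (3 * dl / 4) dl (by linarith) (by linarith)
  obtain ⟨C₂, hC₂, hL⟩ := h2.2 i₀ (dl / 2) (3 * dl / 4) dl (by linarith) (by linarith) (by linarith)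
  refine ⟨Real.exp 145 ^ 2 * C₂ * C₁ * 2 ^ k * (Real.exp 9 * Real.exp 9) ^ (1 + dl), by positivity,
    fun Q ν₁ ν₂ c₀ K Λ M' τ Y₁ Y₂ t₁ t₂ b l hQ n1 n2 hΛ hM hτ y1 y2 hb hl hi h
      ρ hρ σ u y s s1 s2 hy hs => ?_⟩
  obtain ⟨z, l', hz, hl', hmap, e⟩ :=
    h3 Q ν₁ ν₂ ρ c₀ K Λ τ Y₁ Y₂ t₁ t₂ σ u l hQ hρ hΛ hτ y1 y2 s1 s2 hl
  have h4Q : (4 : O) ∣ Q := Dvd.dvd.trans ⟨9, by norm_num⟩ hQ
  have m1 := n1.mul' hρ h4Q
  have m2 := n2.mul' hρ h4Q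
  have hlen : l'.length = l.length := by simpa using congrArg List.length hmap
  have hPL : PL l' = PL l := by rw [PL, hmap, PL]
  have wk' : ∀ x ∈ l', x.wk := fun x hx => (hl' x hx).1
  have hE := Real.exp_pos (σ / 2)
  have hE4 : Real.exp (σ / 2) ≤ Real.exp 9 := Real.exp_le_exp.2 (by linarith)
  have z1 : 0 < Y₁ * Real.exp (σ / 2) := by positivity
  have z2 : 0 < Y₂ * Real.exp (σ / 2) := by positivity
  have w1 : Y₁ * Real.exp (σ / 2) ≤ Real.exp 9 * Y₁ := by rw [mul_comm]; gcongr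
  have w2 : Y₂ * Real.exp (σ / 2) ≤ Real.exp 9 * Y₂ := by rw [mul_comm]; gcongr
  have y0 : 0 ≤ (y / M') ^ 13 := pow_nonneg (div_nonneg (hM.le.trans hy) hM.le) _
  set γ := b * (y / M') ^ 13 * (1 + |t₁ + u| + |t₂ + u|) ^ k with hγ
  have γ0 : 0 ≤ γ := by positivity
  have key := hL _ l' s (fun _ => 1)
    (C₁ * γ * (Y₁ * Real.exp (σ / 2) * (Y₂ * Real.exp (σ / 2))) ^ (1 + dl))
    (h4.1 Q _ _ c₀ τ _ _ (t₁ + u) (t₂ + u) hQ m1 m2)
    (h1.1 Q _ _ c₀ τ _ _ (t₁ + u) (t₂ + u) m1 m2 hτ z1 z2).1 wk' (hlen.trans_le hi)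
    (fun _ _ => zero_le_one) (by positivity) fun l₂ hs₂ => by
      refine mono (hP Q _ _ c₀ τ _ _ (t₁ + u) (t₂ + u) (γ * PL l₂ ^ (1 + dl)) s _ m1 m2 hτ z1 z2
        (fun _ _ => by positivity) fun X₁ X₂ hX => ?_) (le_of_eq (by ring))
      refine le_trans (le_of_eq (sum_congr rfl fun m _ => ?_))
        ((h _ _ (t₁ + u) (t₂ + u) y l₂ s X₁ X₂ m1 m2 (fun x hx => hl' x (hs₂.subset hx))
          (hs₂.length_le.trans hlen.le) ((PL_le hs₂ wk').trans hPL.le) hy hs fun m =>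
          ⟨(hX m).1, (hX m).2.1.trans w1, (hX m).2.2.1, (hX m).2.2.2.trans w2⟩).trans
          (le_of_eq (by rw [hγ]; ring)))
      rw [norm_mul, mul_pow]; ring
  rw [e]
  refine mono (smul key z) ?_
  have p1 : 1 ≤ PL l := one_le_PL fun x hx => (hl x hx).1
  have a1 : ‖z‖ ^ 2 ≤ Real.exp 145 ^ 2 * Λ ^ (2 * i₀) := by
    rw [mul_comm 2 i₀, pow_mul, ← mul_pow]
    exact pow_le_pow_left₀ (norm_nonneg _) (hz.trans (by gcongr)) 2
  have a2 : 1 + |t₁ + u| + |t₂ + u| ≤ 2 * ((1 + |t₁| + |t₂|) * (1 + |u|)) := by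
    have := abs_add_le t₁ u
    have := abs_add_le t₂ u
    have := abs_nonneg t₁
    have := abs_nonneg t₂
    have := abs_nonneg u
    nlinarith [mul_nonneg (abs_nonneg t₁) (abs_nonneg u), mul_nonneg (abs_nonneg t₂) (abs_nonneg u)]
  have a3 : Y₁ * Real.exp (σ / 2) * (Y₂ * Real.exp (σ / 2)) ≤
      Real.exp 9 * Real.exp 9 * (Y₁ * Y₂) := le_trans (by gcongr) (le_of_eq (by ring :
    Real.exp 9 * Y₁ * (Real.exp 9 * Y₂) = _))
  rw [hPL, hγ]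
  calc _ ≤ Real.exp 145 ^ 2 * Λ ^ (2 * i₀) * (C₂ * (C₁ * (b * (y / M') ^ 13 *
        (2 * ((1 + |t₁| + |t₂|) * (1 + |u|))) ^ k) *
        (Real.exp 9 * Real.exp 9 * (Y₁ * Y₂)) ^ (1 + dl)) * PL l ^ (1 + dl)) := by gcongr
    _ = _ := by
        rw [Real.mul_rpow (by positivity) (by positivity : 0 ≤ Y₁ * Y₂),
          Real.mul_rpow (by positivity : 0 ≤ Y₁ * Y₂) (by positivity), mul_pow, mul_pow]
        ring

end Pool.Agent.P.MP_323ce2_nt.QD
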