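import Pool.Agent.P.MP_323ce2_nt.QD.St

/-! Dilates of a Dirichlet convolution. -/

namespace Pool.Agent.P.MP_323ce2_nt.QD

open Pool.Agent.P.MP_26a8c3_nt Pool.Agent.P.MP_26a8c3_nt.QO Pool.Agent.P.MP_26a8c3_nt.QA
open Pool.Agent.P.MP_26a8c3_nt.QB Pool.Agent.P.MP_323ce2_nt.QZ Pool.Agent.P.MP_323ce2_nt.QF Finset
open scoped Classical ComplexConjugate

namespace Conv

/-- summation over the fibres of the product -/
lemma fib {E : Type} [NormedAddCommGroup E] [CompleteSpace E] {f : O × O → E} (hf : Summable f)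
    (hp : ∀ x, f x ≠ 0 → Primary x.1 ∧ Primary x.2) :
    HasSum (fun n => if Primary n then ∑ d ∈ pdiv n, f (d, quo n d) else 0) (∑' x, f x) := by
  have h := hf.hasSum.tsum_fiberwise fun x : O × O => x.1 * x.2
  have e : (fun n => if Primary n then ∑ d ∈ pdiv n, f (d, quo n d) else 0) =
      fun c : O => ∑' b : (fun x : O × O => x.1 * x.2) ⁻¹' {c}, f b := by
    funext n
    rw [_root_.tsum_subtype]
    split_ifs with hn
    · rw [tsum_eq_sum (s := (pdiv n).image fun d => (d, quo n d)), sum_image]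
      · refine sum_congr rfl fun d hd => (Set.indicator_of_mem ?_ f).symm
        exact mul_quo ((mem_pdiv hn.ne_zero).1 hd).2
      · exact fun x _ y _ e => congrArg Prod.fst e
      · intro x hx
        by_contra h0
        have h1 : x.1 * x.2 = n := by simpa using Set.mem_of_indicator_ne_zero h0
        have h2 := hp x fun e => h0 (Set.indicator_apply_eq_zero.2 fun _ => e)
        refine hx (mem_image.2 ⟨x.1, (mem_pdiv hn.ne_zero).2 ⟨h2.1, ⟨x.2, h1.symm⟩⟩, ?_⟩)
        rw [← h1, quo_mul h2.1.ne_zero]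
    · rw [tsum_eq_sum (s := ∅), sum_empty]
      intro x _
      by_contra h0
      have h1 : x.1 * x.2 = n := by simpa using Set.mem_of_indicator_ne_zero h0
      have h2 := hp x fun e => h0 (Set.indicator_apply_eq_zero.2 fun _ => e)
      exact hn (h1 ▸ h2.1.mul h2.2)
  rw [e]; exact h

/-- the symbol of the quotient, extended by zero -/
noncomputable def Ph (R m n : O) : ℂ := if R ∣ n then psi (quo n R) m else 0

lemma norm_Ph (R m n : O) : ‖Ph R m n‖ ≤ 1 := by
  unfold Ph; split_ifs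
  exacts [norm_psi_le _ _, by simp]

lemma Ph_mul {R : O} (hR : R ≠ 0) (m c : O) : Ph R m (R * c) = psi c m := by
  rw [Ph, if_pos (dvd_mul_right R c), quo_mul hR]

lemma Lam_eq {R : O} (hR : R ≠ 0) (a : O → ℂ) (m : O) : Lam a R m = ∑' n, a n * Ph R m n := by
  have e : ∀ n, a n * Ph R m n = if R ∣ n then a n * Ph R m n else 0 := fun n => by
    split_ifs with h
    · rfl
    · rw [Ph, if_neg h, mul_zero]
  rw [tsum_congr e, tsum_ite_dvd0 hR, Lam]
  exact tsum_congr fun c => by rw [Ph_mul hR]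

lemma inner {g r u : O} (m : O) (hg : g ≠ 0) (hr : Primary r) (hu : u ≠ 0) :
    ∑ h ∈ pdiv r, mu h * psi h m * Ph (g * h) m (g * u) = cop r u * psi u m := by
  rw [cop_eq_sum hr, sum_mul]
  refine sum_congr rfl fun h hh => ?_
  have h0 : h ≠ 0 := ((mem_pdiv hr.ne_zero).1 hh).1.ne_zero
  split_ifs with e
  · obtain ⟨v, rfl⟩ := e
    rw [← mul_assoc g, Ph_mul (mul_ne_zero hg h0), psi_mul_left h0 (right_ne_zero_of_mul hu),
      mul_assoc]
  · rw [Ph, if_neg fun e' => e ((mul_dvd_mul_iff_left hg).1 e'), mul_zero, zero_mul]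

lemma point {R x y : O} (m : O) (hR : Primary R) (hx : x ≠ 0) (hy : y ≠ 0) :
    Ph R m (x * y) = ∑ g ∈ pdiv R, ∑ h ∈ pdiv (quo R g),
      mu h * psi h m * (Ph (g * h) m x * Ph (quo R g) m y) := by
  have hg := hR.gcd x
  obtain ⟨s, t, e⟩ := exists_gcd_eq_mul_add_mul R x
  obtain ⟨r, hr⟩ := gcd_dvd_left R x
  obtain ⟨u, hu⟩ := gcd_dvd_right R x
  have hd : ∀ d, d ∣ R → d ∣ x → d ∣ gcd R x := fun d => dvd_gcd
  have d1 := gcd_dvd_left R x
  have d2 := gcd_dvd_right R x
  generalize gcd R x = g at hg e hr hu hd d1 d2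
  subst hr hu
  have g0 := hg.ne_zero
  have pr : Primary r := hR.of_mul hg
  have u0 : u ≠ 0 := right_ne_zero_of_mul hx
  have hc : IsCoprime u r := ⟨t, s, mul_left_cancel₀ g0 (by linear_combination -e)⟩
  rw [sum_eq_single_of_mem g ((mem_pdiv hR.ne_zero).2 ⟨hg, d1⟩)]
  · simp only [← mul_assoc]
    rw [← sum_mul, quo_mul g0, inner m g0 pr u0, cop_of hc, one_mul]
    by_cases h : r ∣ y
    · obtain ⟨v, rfl⟩ := h
      rw [show g * u * (r * v) = g * r * (u * v) by ring, Ph_mul hR.ne_zero, Ph_mul pr.ne_zero,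
        psi_mul_left u0 (right_ne_zero_of_mul hy)]
    · rw [Ph, Ph, if_neg h, if_neg, mul_zero]
      intro e'
      rw [mul_assoc, mul_dvd_mul_iff_left g0] at e'
      exact h (hc.symm.dvd_of_dvd_mul_left e')
  · intro d hd' hne
    obtain ⟨pd, r', e1⟩ := (mem_pdiv hR.ne_zero).1 hd'
    simp only [← mul_assoc]
    rw [← sum_mul]
    by_cases h : d ∣ g * u
    · obtain ⟨u', e2⟩ := h
      have pr' : Primary r' := (e1 ▸ hR).of_mul pd
      have u1 : u' ≠ 0 := right_ne_zero_of_mul (e2 ▸ hx)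
      rw [e1, e2, quo_mul pd.ne_zero, inner m pd.ne_zero pr' u1, cop_of_not, zero_mul, zero_mul]
      rintro ⟨α, β, e3⟩
      refine hne (pd.eq_of_associated hg (associated_of_dvd_dvd (hd d ⟨r', e1⟩ ⟨u', e2⟩) ?_))
      exact ⟨α * u + β * r, by linear_combination -(d * e3) - α * e2 - β * e1⟩
    · rw [sum_eq_zero, zero_mul]
      intro k _
      rw [Ph, if_neg fun e' => h ((dvd_mul_right d k).trans e'), mul_zero]

lemma sm_Ph {a : O → ℂ} (ha : Sm a) (R m : O) : Summable fun n => ‖a n * Ph R m n‖ :=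
  Summable.of_nonneg_of_le (fun _ => norm_nonneg _) (fun n => by
    rw [norm_mul]; exact mul_le_of_le_one_right (norm_nonneg _) (norm_Ph R m n)) ha

end Conv

open Conv in
theorem pConv (_hA : Alg) (_hb : Base) : S_Conv := by
  intro a b pa pb sa sb
  have hp : ∀ x : O × O, a x.1 * b x.2 ≠ 0 → Primary x.1 ∧ Primary x.2 := fun x h =>
    ⟨pa _ (left_ne_zero_of_mul h), pb _ (right_ne_zero_of_mul h)⟩
  have hs : Summable fun x : O × O => ‖a x.1 * b x.2‖ := Summable.mul_norm sa sb
  refine ⟨?_, fun R m hR => ?_⟩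
  · refine Summable.of_nonneg_of_le (fun _ => norm_nonneg _) (fun n => ?_)
      (fib hs fun x h => hp x (norm_ne_zero_iff.1 h)).summable
    unfold cv
    split_ifs
    exacts [norm_sum_le _ _, by simp]
  · have h1 : Summable fun x : O × O => a x.1 * b x.2 * Ph R m (x.1 * x.2) :=
      Summable.of_norm_bounded hs fun x => by
        rw [norm_mul]; exact mul_le_of_le_one_right (norm_nonneg _) (norm_Ph _ _ _)
    have h2 := (fib h1 fun x h => hp x (left_ne_zero_of_mul h)).tsum_eq
    have e1 : Lam (cv a b) R m = ∑' x : O × O, a x.1 * b x.2 * Ph R m (x.1 * x.2) := by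
      rw [Lam_eq hR.ne_zero, ← h2]
      refine tsum_congr fun n => ?_
      unfold cv
      split_ifs with hn
      · rw [sum_mul]
        exact sum_congr rfl fun d hd => by rw [mul_quo ((mem_pdiv hn.ne_zero).1 hd).2]
      · rw [zero_mul]
    have e2 : ∀ x : O × O, a x.1 * b x.2 * Ph R m (x.1 * x.2) =
        ∑ g ∈ pdiv R, ∑ h ∈ pdiv (quo R g), mu h * psi h m *
          (a x.1 * Ph (g * h) m x.1 * (b x.2 * Ph (quo R g) m x.2)) := fun x => by
      by_cases h : a x.1 * b x.2 = 0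
      · rw [h, zero_mul]
        refine (sum_eq_zero fun g _ => sum_eq_zero fun k _ => ?_).symm
        linear_combination mu k * psi k m * Ph (g * k) m x.1 * Ph (quo R g) m x.2 * h
      · rw [point m hR (hp x h).1.ne_zero (hp x h).2.ne_zero, mul_sum]
        refine sum_congr rfl fun g _ => ?_
        rw [mul_sum]
        exact sum_congr rfl fun k _ => by ring
    have h3 : ∀ g k : O, Summable fun x : O × O => mu k * psi k m *
        (a x.1 * Ph (g * k) m x.1 * (b x.2 * Ph (quo R g) m x.2)) := fun g k =>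
      (Summable.mul_norm (sm_Ph sa (g * k) m) (sm_Ph sb (quo R g) m)).of_norm.mul_left _
    rw [e1, tsum_congr e2, Summable.tsum_finsetSum fun g _ => summable_sum fun k _ => h3 g k]
    refine sum_congr rfl fun g hg => ?_
    obtain ⟨pg, r, rfl⟩ := (mem_pdiv hR.ne_zero).1 hg
    have pr' : Primary r := hR.of_mul pg
    rw [Summable.tsum_finsetSum fun k _ => h3 g k]
    refine sum_congr rfl fun k hk => ?_
    rw [quo_mul pg.ne_zero] at hk ⊢
    rw [tsum_mul_left, Lam_eq pr'.ne_zero,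
      Lam_eq (mul_ne_zero pg.ne_zero ((mem_pdiv pr'.ne_zero).1 hk).1.ne_zero),
      tsum_mul_tsum_of_summable_norm (sm_Ph sa (g * k) m) (sm_Ph sb r m)]

end Pool.Agent.P.MP_323ce2_nt.QD
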