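import Pool.Agent.P.MP_323ce2_nt.QD.St
import Pool.Agent.P.MP_26a8c3_nt.QO.Div

/-! The bound on the dual side, from the second Poisson summation and the arithmetic sum. -/

namespace Pool.Agent.P.MP_323ce2_nt.QD

open Pool.Agent.P.MP_26a8c3_nt Pool.Agent.P.MP_26a8c3_nt.QO Pool.Agent.P.MP_26a8c3_nt.QA
open Pool.Agent.P.MP_26a8c3_nt.QB Pool.Agent.P.MP_323ce2_nt.QZ Pool.Agent.P.MP_323ce2_nt.QF Finset
open scoped Classical ComplexConjugate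

namespace DbP

/-- the coefficient handed to the second Poisson summation -/
noncomputable def be (a : O → ℂ) (j : O × O) (c : O) : ℂ := a (j.1 * c) * chi c j.2

lemma so_zero {α : O → ℂ} (hS : So α) : α 0 = 0 := by
  by_contra h
  exact (hS 0 h).1.ne_zero rfl

lemma pt_tw {α ρ : O → ℂ} {L δ σ θ₁ : ℝ} (u : ℝ) (hρ : IsNu 4 ρ) (hL : 0 < L) (h0 : 0 ≤ σ)
    (h3 : σ ≤ 3) (t0 : 0 < θ₁) (t1 : θ₁ ≤ 1) (hP : Pt α L δ 8) (n : O) :
    ‖Tw α L σ u ρ n‖ ^ 2 ≤ δ * L ^ θ₁ * nr n ^ (-θ₁) := by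
  obtain ⟨p1, p2⟩ := hP n
  have hn := nr_pos n
  have ht : 0 < nr n / L := div_pos hn hL
  have e2 : L ^ θ₁ * nr n ^ (-θ₁) = (nr n / L) ^ (-θ₁) := by
    rw [Real.div_rpow hn.le hL.le, Real.rpow_neg hL.le, div_inv_eq_mul, mul_comm]
  have p3 : ‖α n‖ ^ 2 * (nr n / L) ^ 8 ≤ δ := by
    rw [div_pow, ← mul_div_assoc, div_le_iff₀ (by positivity)]; exact p2
  rw [mul_assoc, e2, Tw]
  generalize nr n / L = t at ht p3 ⊢
  have e1 : ‖((t : ℝ) : ℂ) ^ ((σ : ℂ) + u * Complex.I)‖ = t ^ σ := by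
    rw [Complex.norm_cpow_eq_rpow_re_of_pos ht]; simp
  have key : ‖α n‖ ^ 2 * t ^ (2 * σ + θ₁) ≤ δ := by
    rcases le_total t 1 with h | h
    · have h1 := Real.rpow_le_one ht.le h (by linarith : 0 ≤ 2 * σ + θ₁)
      exact (mul_le_of_le_one_right (sq_nonneg _) h1).trans p1
    · have h8 : t ^ (2 * σ + θ₁) ≤ t ^ 8 := by
        rw [← Real.rpow_natCast]
        exact Real.rpow_le_rpow_of_exponent_le h (by push_cast; linarith)
      exact (mul_le_mul_of_nonneg_left h8 (sq_nonneg _)).trans p3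
  have e3 : (t ^ σ) ^ 2 = t ^ (2 * σ + θ₁) * t ^ (-θ₁) := by
    rw [← Real.rpow_add ht, ← Real.rpow_natCast, ← Real.rpow_mul ht.le]
    congr 1; push_cast; ring
  have r1 : ‖ρ n‖ ^ 2 ≤ 1 := pow_le_one₀ (norm_nonneg _) (hρ.le n)
  calc ‖α n * ρ n * ((t : ℝ) : ℂ) ^ ((σ : ℂ) + u * Complex.I)‖ ^ 2
      = ‖α n‖ ^ 2 * t ^ (2 * σ + θ₁) * t ^ (-θ₁) * ‖ρ n‖ ^ 2 := by
        rw [norm_mul, norm_mul, e1, mul_pow, mul_pow, e3]; ring
    _ ≤ ‖α n‖ ^ 2 * t ^ (2 * σ + θ₁) * t ^ (-θ₁) := mul_le_of_le_one_right (by positivity) r1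
    _ ≤ δ * t ^ (-θ₁) := mul_le_mul_of_nonneg_right key (by positivity)

lemma lam_le {α ρ ρ' : O → ℂ} {L : ℝ} (σ u σ' u' : ℝ) {j : O × O} {e : O} (m : O) (hS : So α)
    (hρ' : IsNu 4 ρ') (hL : 0 < L) (hR : SQO j.1) (he : e ≠ 0) :
    ‖Lam (Tw (be (Tw α L σ u ρ) j) (L / N j.1) σ' u' ρ') e m‖ ≤
      ‖Lam (Tw α L (σ + σ') (u + u') fun x => ρ x * ρ' x) (j.1 * e) (m * j.2 ^ 2)‖ := by
  obtain ⟨R, f⟩ := j
  dsimp only at hR ⊢
  have hR0 := hR.1.ne_zero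
  have hN := N_pos_real hR0
  have h4 : IsCoprime R 4 := by
    have := IsCoprime.mul_right hR.2 hR.2
    rwa [show (2 : O) * 2 = 4 by norm_num] at this
  have hc := hρ'.mul_conj h4
  have e1 : Lam (Tw (be (Tw α L σ u ρ) (R, f)) (L / N R) σ' u' ρ') e m = (chi e f * conj (ρ' R)) *
      Lam (Tw α L (σ + σ') (u + u') fun x => ρ x * ρ' x) (R * e) (m * f ^ 2) := by
    unfold Lam
    rw [← tsum_mul_left]
    refine tsum_congr fun c => ?_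
    rcases eq_or_ne c 0 with rfl | hc0
    · simp [Tw, be, so_zero hS]
    have hec := mul_ne_zero he hc0
    have n1 : nr (e * c) / (L / N R) = nr (R * (e * c)) / L := by
      rw [nr_mul hR0 hec]; field_simp
    have hp : ((nr (R * (e * c)) / L : ℝ) : ℂ) ≠ 0 := by
      exact_mod_cast (div_pos (nr_pos _) hL).ne'
    have e2 : ((σ + σ' : ℝ) : ℂ) + ((u + u' : ℝ) : ℂ) * Complex.I =
        ((σ : ℂ) + u * Complex.I) + ((σ' : ℂ) + u' * Complex.I) := by push_cast; ring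
    simp only [Tw, be]
    rw [n1, mul_assoc R e c, chi_mul_left he hc0, psi_mul, psi_pow, psi_sq hc0, hρ'.mul R (e * c),
      e2, Complex.cpow_add ((σ : ℂ) + u * Complex.I) _ hp]
    refine (mul_one _).symm.trans ?_
    rw [← hc]; ring
  rw [e1, norm_mul]
  refine mul_le_of_le_one_left (norm_nonneg _) (norm_mul_le_one (norm_chi_le _ _) ?_)
  rw [Complex.norm_conj]; exact hρ'.le R

lemma diag {θ₁ : ℝ} (t0 : 0 < θ₁) : ∃ C : ℝ, 0 ≤ C ∧ ∀ (a : O → ℂ) (D X : ℝ) (J : Finset (O × O)),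
    0 ≤ D → 0 ≤ X → a 0 = 0 → (∀ n, ‖a n‖ ^ 2 ≤ D * nr n ^ (-θ₁)) →
    (∀ j ∈ J, SQO j.1 ∧ j.2 ∈ pdiv j.1) →
    ∑ j ∈ J, dv j.1 ^ 2 / (N j.2 : ℝ) * (X * (N j.2 : ℝ) ^ 2 / (N j.1 : ℝ) ^ 2) *
      ∑' c : O, ‖be a j c‖ ^ 2 / nr c ≤ C * (X * D) := by
  have hs := summable_nr (σ := 1 + θ₁) (by linarith)
  have hd := summable_dv_pow 3 (s := 1 + θ₁) (by linarith)
  have hZ : 0 ≤ ∑' c : O, nr c ^ (-(1 + θ₁)) :=
    tsum_nonneg fun c => Real.rpow_nonneg (nr_pos c).le _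
  have hT : 0 ≤ ∑' n : O, dv n ^ 3 * (N n : ℝ) ^ (-(1 + θ₁)) :=
    tsum_nonneg fun n => by have := QO.dv_nonneg n; positivity
  refine ⟨_, mul_nonneg hZ hT, fun a D X J hD hX a0 ha hJ => ?_⟩
  set Z := ∑' c : O, nr c ^ (-(1 + θ₁)) with hZd
  have h1 : ∀ j ∈ J, dv j.1 ^ 2 / (N j.2 : ℝ) * (X * (N j.2 : ℝ) ^ 2 / (N j.1 : ℝ) ^ 2) *
      ∑' c : O, ‖be a j c‖ ^ 2 / nr c ≤
        Z * (X * D) * (dv j.1 ^ 2 * (N j.1 : ℝ) ^ (-(1 + θ₁))) := by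
    intro j hj
    obtain ⟨hR, hf⟩ := hJ j hj
    have hR0 := hR.1.ne_zero
    obtain ⟨f1, f2⟩ := (mem_pdiv hR0).1 hf
    have hN := N_pos_real hR0
    have hf0 := N_pos_real f1.ne_zero
    have hfR : (N j.2 : ℝ) ≤ N j.1 := by exact_mod_cast N_le_of_dvd f2 hR0
    have h2 : ∀ c, ‖be a j c‖ ^ 2 / nr c ≤ D * (N j.1 : ℝ) ^ (-θ₁) * nr c ^ (-(1 + θ₁)) := by
      intro c
      have hc := nr_pos c
      rcases eq_or_ne c 0 with rfl | hc0
      · simp only [be, mul_zero, a0, zero_mul, norm_zero]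
        rw [zero_pow two_ne_zero, zero_div]; positivity
      have h3 : ‖be a j c‖ ^ 2 ≤ ‖a (j.1 * c)‖ ^ 2 := by
        rw [be, norm_mul]
        exact pow_le_pow_left₀ (by positivity)
          (mul_le_of_le_one_right (norm_nonneg _) (norm_chi_le _ _)) 2
      have h4 := h3.trans (ha _)
      rw [nr_mul hR0 hc0, Real.mul_rpow hN.le hc.le] at h4
      rw [div_le_iff₀ hc, neg_add, Real.rpow_add hc, Real.rpow_neg_one]
      refine h4.trans (le_of_eq ?_)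
      field_simp
    have h5 : ∑' c : O, ‖be a j c‖ ^ 2 / nr c ≤ D * (N j.1 : ℝ) ^ (-θ₁) * Z := by
      rw [hZd, ← tsum_mul_left]
      exact Summable.tsum_le_tsum h2 (Summable.of_nonneg_of_le
        (fun c => div_nonneg (sq_nonneg _) (nr_pos c).le) h2 (hs.mul_left _)) (hs.mul_left _)
    have h6 : dv j.1 ^ 2 / (N j.2 : ℝ) * (X * (N j.2 : ℝ) ^ 2 / (N j.1 : ℝ) ^ 2) ≤
        dv j.1 ^ 2 * X / N j.1 := by
      calc _ = dv j.1 ^ 2 * X / N j.1 * ((N j.2 : ℝ) / N j.1) := by field_simp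
        _ ≤ _ := mul_le_of_le_one_right (by positivity) ((div_le_one hN).2 hfR)
    calc _ ≤ dv j.1 ^ 2 * X / N j.1 * (D * (N j.1 : ℝ) ^ (-θ₁) * Z) :=
          mul_le_mul h6 h5 (tsum_nonneg fun c => div_nonneg (sq_nonneg _) (nr_pos c).le)
            (by positivity)
      _ = _ := by rw [neg_add, Real.rpow_add hN, Real.rpow_neg_one]; field_simp
  have h7 : ∑ j ∈ J, dv j.1 ^ 2 * (N j.1 : ℝ) ^ (-(1 + θ₁)) ≤
      ∑' n : O, dv n ^ 3 * (N n : ℝ) ^ (-(1 + θ₁)) := by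
    rw [sum_comp (fun R : O => dv R ^ 2 * (N R : ℝ) ^ (-(1 + θ₁))) Prod.fst]
    refine le_trans (sum_le_sum fun R _ => ?_)
      (hd.sum_le_tsum (J.image Prod.fst) fun n _ => by have := QO.dv_nonneg n; positivity)
    have h8 : ((J.filter fun j => j.1 = R).card : ℝ) ≤ dv R := by
      have : (J.filter fun j => j.1 = R).card ≤ (pdiv R).card := by
        refine card_le_card_of_injOn Prod.snd (fun j hj => ?_) fun j hj j' hj' e => ?_
        · obtain ⟨a1, a2⟩ := mem_filter.1 (mem_coe.1 hj)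
          exact mem_coe.2 (a2 ▸ (hJ j a1).2)
        · exact Prod.ext ((mem_filter.1 (mem_coe.1 hj)).2.trans
            (mem_filter.1 (mem_coe.1 hj')).2.symm) e
      unfold dv; exact_mod_cast this
    rw [nsmul_eq_mul]
    calc _ ≤ dv R * (dv R ^ 2 * (N R : ℝ) ^ (-(1 + θ₁))) :=
          mul_le_mul_of_nonneg_right h8 (by positivity)
      _ = _ := by ring
  calc _ ≤ ∑ j ∈ J, Z * (X * D) * (dv j.1 ^ 2 * (N j.1 : ℝ) ^ (-(1 + θ₁))) := sum_le_sum h1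
    _ = Z * (X * D) * ∑ j ∈ J, dv j.1 ^ 2 * (N j.1 : ℝ) ^ (-(1 + θ₁)) := by rw [mul_sum]
    _ ≤ Z * (X * D) * ∑' n : O, dv n ^ 3 * (N n : ℝ) ^ (-(1 + θ₁)) :=
        mul_le_mul_of_nonneg_left h7 (by positivity)
    _ = _ := by ring

/-- the off-diagonal sum -/
lemma off (hb : Base) (h2 : S_Je) {ε θ : ℝ} (hε : 0 < ε) (hθ : 0 < θ) (k : ℕ) :
    ∃ C : ℝ, 0 < C ∧ ∀ (α ρ ρ' : O → ℂ) (L M' X b σ u σ' u' z : ℝ)
      (I : Finset ((O × O) × O × O)), So α → IsNu 4 ρ → IsNu 4 ρ' → 0 < L → 0 < M' → 0 ≤ b →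
      0 ≤ σ → σ ≤ 3 → -1 ≤ σ' → σ' ≤ 14 → 1 ≤ z → L ^ 2 / M' ≤ X → Ch α L M' b θ k →
      (∀ i ∈ I, (SQO i.1.1 ∧ i.1.2 ∈ pdiv i.1.1) ∧ SQO i.2.1 ∧ i.2.2 ≠ 0 ∧
        X * (N i.1.2 : ℝ) ^ 2 / (N i.1.1 : ℝ) ^ 2 / (L / N i.1.1) ^ 2 * N i.2.2 ≤ z) →
      ∑ i ∈ I, dv i.1.1 ^ 2 / (N i.1.2 : ℝ) *
        (X * (N i.1.2 : ℝ) ^ 2 / (N i.1.1 : ℝ) ^ 2 / (L / N i.1.1) ^ 2) * ‖jj i.2.1 i.2.2‖ *
        ‖Lam (Tw (be (Tw α L σ u ρ) i.1) (L / N i.1.1) σ' u' ρ') i.2.1 i.2.2‖ ^ 2 ≤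
        C * (1 + M') ^ ε * (1 + |u|) ^ k * X * (b / L ^ 2) * z ^ 14 * (1 + |u'|) ^ k := by
  obtain ⟨C1, hC1, H1⟩ := h2 θ hθ
  have he : 0 < min ε 1 := lt_min hε one_pos
  obtain ⟨C2, hC2, H2⟩ := hb.dvb (min ε 1 / 2) (by positivity)
  refine ⟨C1 * C2 ^ 2, by positivity,
    fun α ρ ρ' L M' X b σ u σ' u' z I hS hρ hρ' hL hM hb0 s0 s3 s1 s5 hz hX hC hI => ?_⟩
  have hX0 : 0 < X := lt_of_lt_of_le (by positivity) hX
  have hLX : L ^ 2 ≤ X * M' := (div_le_iff₀ hM).1 hX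
  have hm : ∀ m ∈ I.image (fun i => i.2.2 * i.1.2 ^ 2), m ≠ 0 ∧ (N m : ℝ) ≤ z * M' := by
    intro m hm
    obtain ⟨i, hi, rfl⟩ := mem_image.1 hm
    obtain ⟨⟨hR, hf⟩, _, h0, hle⟩ := hI i hi
    have hf0 := ((mem_pdiv hR.1.ne_zero).1 hf).1.ne_zero
    have hN := N_pos_real hR.1.ne_zero
    refine ⟨mul_ne_zero h0 (pow_ne_zero _ hf0), ?_⟩
    have e : X * (N i.1.2 : ℝ) ^ 2 / (N i.1.1 : ℝ) ^ 2 / (L / N i.1.1) ^ 2 * N i.2.2 =
        X * (N (i.2.2 * i.1.2 ^ 2) : ℝ) / L ^ 2 := by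
      rw [map_mul, map_pow]; push_cast; field_simp
    rw [e, div_le_iff₀ (by positivity)] at hle
    have h3 : z * L ^ 2 ≤ z * (X * M') := mul_le_mul_of_nonneg_left hLX (by linarith)
    exact le_of_mul_le_mul_left (a := X) (by linarith) hX0
  obtain ⟨Mx, M1, M2⟩ := hC _ (hρ.mul' hρ' dvd_rfl) (σ + σ') (u + u') (z * M') _ (by linarith)
    (by linarith) (le_mul_of_one_le_left hM.le hz) hm
  have M0 : ∀ m ∈ I.image (fun i => i.2.2 * i.1.2 ^ 2), 0 ≤ Mx m := fun m hm =>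
    le_trans (by positivity) (M1 m hm 1 primary_one)
  have h3 := H1 I Mx fun i hi => ⟨(hI i hi).1.1, (hI i hi).1.2, (hI i hi).2.1, (hI i hi).2.2.1,
    M0 _ (mem_image_of_mem _ hi)⟩
  have h4 : ∀ m ∈ I.image (fun i => i.2.2 * i.1.2 ^ 2),
      dv m ^ 2 * Mx m ≤ C2 ^ 2 * (z * (1 + M') ^ ε) * Mx m := by
    intro m hm'
    obtain ⟨m0, m1⟩ := hm m hm'
    refine mul_le_mul_of_nonneg_right ?_ (M0 m hm')
    have hN := N_pos_real m0
    have d1 := pow_le_pow_left₀ (QO.dv_nonneg m) (H2 m m0) 2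
    rw [mul_pow, ← Real.rpow_natCast (_ ^ _), ← Real.rpow_mul hN.le,
      show min ε 1 / 2 * ((2 : ℕ) : ℝ) = min ε 1 by push_cast; ring] at d1
    refine d1.trans (mul_le_mul_of_nonneg_left ?_ (by positivity))
    calc (N m : ℝ) ^ min ε 1 ≤ (z * (1 + M')) ^ min ε 1 :=
          Real.rpow_le_rpow hN.le (m1.trans (by nlinarith)) he.le
      _ = z ^ min ε 1 * (1 + M') ^ min ε 1 := Real.mul_rpow (by linarith) (by linarith)
      _ ≤ z ^ (1 : ℝ) * (1 + M') ^ ε :=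
          mul_le_mul (Real.rpow_le_rpow_of_exponent_le hz (min_le_right _ _))
            (Real.rpow_le_rpow_of_exponent_le (by linarith) (min_le_left _ _)) (by positivity)
            (by positivity)
      _ = _ := by rw [Real.rpow_one]
  have h5 : (1 + |u + u'|) ^ k ≤ (1 + |u|) ^ k * (1 + |u'|) ^ k := by
    rw [← mul_pow]
    refine pow_le_pow_left₀ (by positivity) ?_ k
    nlinarith [abs_add_le u u', mul_nonneg (abs_nonneg u) (abs_nonneg u')]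
  rw [mul_div_assoc, div_self hM.ne', mul_one] at M2
  have z0 : 0 ≤ z := by linarith
  calc _ ≤ ∑ i ∈ I, X / L ^ 2 * (dv i.1.1 ^ 2 * N i.1.2 * ‖jj i.2.1 i.2.2‖ *
        (Mx (i.2.2 * i.1.2 ^ 2) / (N (i.1.1 * i.2.1) : ℝ) ^ (1 + θ))) := by
        refine sum_le_sum fun i hi => ?_
        obtain ⟨⟨hR, hf⟩, he', _, _⟩ := hI i hi
        have hf0 := N_pos_real ((mem_pdiv hR.1.ne_zero).1 hf).1.ne_zero
        have hN := N_pos_real hR.1.ne_zero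
        have hp := hR.1.1.mul he'.1.1
        have hN' := N_pos_real hp.ne_zero
        have l1 := pow_le_pow_left₀ (norm_nonneg _)
          (lam_le (ρ := ρ) σ u σ' u' i.2.2 hS hρ' hL hR he'.1.ne_zero) 2
        have l2 := M1 _ (mem_image_of_mem _ hi) _ hp
        rw [one_mul, mul_comm, ← le_div_iff₀ (by positivity)] at l2
        calc _ = X / L ^ 2 * (dv i.1.1 ^ 2 * N i.1.2 * ‖jj i.2.1 i.2.2‖ *
              ‖Lam (Tw (be (Tw α L σ u ρ) i.1) (L / N i.1.1) σ' u' ρ') i.2.1 i.2.2‖ ^ 2) := by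
              field_simp
          _ ≤ _ := mul_le_mul_of_nonneg_left
              (mul_le_mul_of_nonneg_left (l1.trans l2) (by positivity)) (by positivity)
    _ ≤ X / L ^ 2 * (C1 * ∑ m ∈ I.image (fun i => i.2.2 * i.1.2 ^ 2),
          C2 ^ 2 * (z * (1 + M') ^ ε) * Mx m) := by
        rw [← mul_sum]
        exact mul_le_mul_of_nonneg_left
          (h3.trans (mul_le_mul_of_nonneg_left (sum_le_sum h4) hC1.le)) (by positivity)
    _ ≤ X / L ^ 2 * (C1 * (C2 ^ 2 * (z * (1 + M') ^ ε) *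
          (b * z ^ 13 * ((1 + |u|) ^ k * (1 + |u'|) ^ k)))) := by
        rw [← mul_sum]
        have h6 := M2.trans (mul_le_mul_of_nonneg_left h5 (by positivity))
        gcongr
    _ = _ := by ring

end DbP

open DbP in
theorem pDb (_hA : Alg) (hb : Base) (h1 : S_Back) (h2 : S_Je) : S_Db := by
  intro ε θ₁ θ k hε t0 t1 hθ
  have he : 0 < ε / 2 := by positivity
  obtain ⟨C1, hC1, H1⟩ := h1 (ε / 2) k he
  obtain ⟨C2, hC2, H2⟩ := off hb h2 he hθ k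
  obtain ⟨C3, hC3, H3⟩ := diag t0
  refine ⟨C1 * (C2 + C3), by positivity,
    fun α ρ L M' X δ b σ u hF hS hρ hL hM hb0 s0 s3 hX hP hC J hJ => ?_⟩
  have hX0 : 0 < X := lt_of_lt_of_le (by positivity) hX
  have hLX : L ^ 2 ≤ X * M' := (div_le_iff₀ hM).1 hX
  have hδ : 0 ≤ δ := (sq_nonneg _).trans (hP 0).1
  have a0 : Tw α L σ u ρ 0 = 0 := by simp [Tw, so_zero hS]
  have hne : ∀ (j : O × O) (c : O), be (Tw α L σ u ρ) j c ≠ 0 → α (j.1 * c) ≠ 0 :=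
    fun j c h e => h (by simp [be, Tw, e])
  have K := H1 J (fun j => dv j.1 ^ 2 / (N j.2 : ℝ))
    (fun j => X * (N j.2 : ℝ) ^ 2 / (N j.1 : ℝ) ^ 2) (fun j => L / N j.1) (be (Tw α L σ u ρ))
    (1 + M') (C2 * (1 + M') ^ (ε / 2) * (1 + |u|) ^ k * X * (b / L ^ 2)) (by linarith)
    (by positivity) (fun j hj => ?_) fun ρ' hρ' σ' u' z I s1 s5 hz hI =>
      H2 α ρ ρ' L M' X b σ u σ' u' z I hS hρ hρ' hL hM hb0 s0 s3 s1 s5 hz hX hC fun i hi =>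
        ⟨hJ _ (hI i hi).1, (hI i hi).2⟩
  · have D := H3 (Tw α L σ u ρ) (δ * L ^ θ₁) X J (by positivity) hX0.le a0
      (pt_tw u hρ hL s0 s3 t0 t1 hP) hJ
    have w1 : 1 ≤ (1 + M') ^ ε * (1 + |u|) ^ k :=
      one_le_mul_of_one_le_of_one_le (Real.one_le_rpow (by linarith) hε.le)
        (one_le_pow₀ (by linarith [abs_nonneg u]))
    have w2 : (1 + M') ^ (ε / 2) * (1 + M') ^ (ε / 2) = (1 + M') ^ ε := by
      rw [← Real.rpow_add (by linarith), add_halves]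
    refine K.trans ?_
    have w3 : (1 + M') ^ (ε / 2) * (C2 * (1 + M') ^ (ε / 2) * (1 + |u|) ^ k * X * (b / L ^ 2)) =
        C2 * ((1 + M') ^ ε * (1 + |u|) ^ k * (X * (b / L ^ 2))) := by rw [← w2]; ring
    have w4 : C1 * (C2 + C3) * (1 + M') ^ ε * (1 + |u|) ^ k * X * (δ * L ^ θ₁ + b / L ^ 2) =
        C1 * ((C2 + C3) * ((1 + M') ^ ε * (1 + |u|) ^ k * (X * (δ * L ^ θ₁)) +
          (1 + M') ^ ε * (1 + |u|) ^ k * (X * (b / L ^ 2)))) := by ring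
    rw [w3, w4]
    refine mul_le_mul_of_nonneg_left ?_ hC1.le
    have q1 : 0 ≤ X * (δ * L ^ θ₁) := by positivity
    have q2 : 0 ≤ (1 + M') ^ ε * (1 + |u|) ^ k * (X * (b / L ^ 2)) := by positivity
    have q3 := le_mul_of_one_le_left q1 w1
    have q4 := mul_le_mul_of_nonneg_left q3 hC3
    have q5 := mul_nonneg hC2.le (q1.trans q3)
    have q6 := mul_nonneg hC3 q2
    nlinarith
  · obtain ⟨hR, hf⟩ := hJ j hj
    have hR0 := hR.1.ne_zero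
    have hN := N_pos_real hR0
    have hf0 := ((mem_pdiv hR0).1 hf).1.ne_zero
    have hf1 := one_le_N hf0
    refine ⟨(hF.preimage (f := fun c => j.1 * c) (mul_right_injective₀ hR0).injOn).subset
      fun c hc => hne j c hc, fun c hc => ?_, by positivity, by positivity, by positivity, ?_⟩
    · have := hS _ (hne j c hc)
      exact ⟨this.1.right hR.1.1, (od_mul.1 this.2).2⟩
    · have e : X * (N j.2 : ℝ) ^ 2 / (N j.1 : ℝ) ^ 2 / (L / N j.1) ^ 2 =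
          X * (N j.2 : ℝ) ^ 2 / L ^ 2 := by field_simp
      rw [e, inv_eq_one_div, div_le_div_iff₀ (by linarith) (by positivity)]
      have h3 : (1 : ℝ) ≤ (N j.2 : ℝ) ^ 2 := one_le_pow₀ hf1
      have h4 : X * (1 + M') ≤ X * (N j.2 : ℝ) ^ 2 * (1 + M') := by
        have := mul_le_mul_of_nonneg_left h3 (show 0 ≤ X * (1 + M') by positivity)
        linarith
      nlinarith

end Pool.Agent.P.MP_323ce2_nt.QD
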