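import Pool.Agent.P.MP_323ce2_nt.QD.St
import Pool.Agent.P.MP_26a8c3_nt.QB.Head
import Pool.Agent.P.MP_26a8c3_nt.QB.PT
import Pool.Agent.P.MP_26a8c3_nt.QB.I

/-! The first Poisson summation of the descent step. -/

namespace Pool.Agent.P.MP_323ce2_nt.QD

open Pool.Agent.P.MP_26a8c3_nt Pool.Agent.P.MP_26a8c3_nt.QO Pool.Agent.P.MP_26a8c3_nt.QA
open Pool.Agent.P.MP_26a8c3_nt.QB Pool.Agent.P.MP_323ce2_nt.QZ Pool.Agent.P.MP_323ce2_nt.QF Finset
open scoped Classical ComplexConjugate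

namespace Fwd

noncomputable section

/-- the coefficient after the common factor is removed -/
def uu (α : O → ℂ) (e f c : O) : ℂ := α (e * c) * chi c f

/-- the coefficient on the dual side -/
def vv (α : O → ℂ) (e f k h c : O) : ℂ :=
  uu α e f c * (mu c * bb c * conj (psi c h) * xi k c / (ab c : ℂ))

/-- the double sum over the quotients -/
def Hq (α : O → ℂ) (e m : O) : ℂ := ∑' x : O × O, α (e * x.1) * conj (α (e * x.2)) * KK x.1 x.2 m

/-- the double sum with the dual kernel -/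
def Kg (v : O → ℂ) (β : ℝ) : ℂ :=
  ∑' x : O × O, v x.1 * conj (v x.2) * (G (β / (nr x.1 * nr x.2)) : ℝ)

/-- the dual term -/
def DD (α : O → ℂ) (P : ℝ) (e f h : O) : ℂ :=
  ∑' x : O × O, uu α e f x.1 / (ab x.1 : ℂ) * conj (uu α e f x.2 / (ab x.2 : ℂ)) *
    (mu x.1 * mu x.2 * gam (x.1 * x.2) * bb x.1 * conj (bb x.2)) *
    (conj (psi x.1 h) * psi x.2 h) * (G (P * N h / (N x.1 * N x.2)) : ℝ)

end

variable {α β : O → ℂ} {e f : O}

lemma fs_mul (hF : Fs β) (g : O → ℂ) : Fs fun c => β c * g c :=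
  Set.Finite.subset hF fun _ hc => left_ne_zero_of_mul hc

lemma fs_mul' (hF : Fs β) (z : ℂ) : Fs fun c => z * β c :=
  Set.Finite.subset hF fun _ hc => right_ne_zero_of_mul hc

lemma fs_dil (hF : Fs α) (he : e ≠ 0) : Fs fun c => α (e * c) :=
  Set.Finite.preimage (f := fun c => e * c) (mul_right_injective₀ he).injOn hF

lemma sm1 (hF : Fs β) {g : O → ℝ} (hg : ∀ c, β c = 0 → g c = 0) : Summable g :=
  summable_of_hasFiniteSupport (Set.Finite.subset hF fun c hc h => hc (hg c h))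

lemma sm2 (hF : Fs β) (g : O × O → ℂ) : Summable fun x : O × O => β x.1 * conj (β x.2) * g x := by
  refine summable_of_hasFiniteSupport (Set.Finite.subset (Set.Finite.prod hF hF) fun x hx => ?_)
  have h := left_ne_zero_of_mul hx
  exact ⟨left_ne_zero_of_mul h, fun h0 => right_ne_zero_of_mul h (by rw [h0, map_zero])⟩

lemma zero (hS : So α) : α 0 = 0 := by_contra fun h => (hS 0 h).1.ne_zero rfl

lemma sqo_dil (hS : So α) (he : Primary e) {c : O} (h : α (e * c) ≠ 0) : SQO c :=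
  ⟨(hS _ h).1.right he, (od_mul.1 (hS _ h).2).2⟩

lemma fs_uu (hF : Fs α) (he : e ≠ 0) : Fs (uu α e f) := fs_mul (fs_dil hF he) _

lemma fs_vv (hF : Fs α) (he : e ≠ 0) (k h : O) : Fs (vv α e f k h) := fs_mul (fs_uu hF he) _

lemma sqo_uu (hS : So α) (he : Primary e) {c : O} (h : uu α e f c ≠ 0) : SQO c :=
  sqo_dil hS he (left_ne_zero_of_mul h)

/-- the square as a sum over the common factor -/
lemma sq_eq (hA : Alg) (hF : Fs α) (hS : So α) {E : Finset O} (h1 : ∀ e ∈ E, SQO e)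
    (h2 : ∀ a, α a ≠ 0 → pdiv a ⊆ E) (m : O) :
    ((‖Lam α 1 m‖ ^ 2 : ℝ) : ℂ) = ∑ e ∈ E, jj e m * Hq α e m := by
  have e1 : ∀ x : O × O, α (1 * x.1) * psi x.1 m * conj (α (1 * x.2) * psi x.2 m) =
      ∑ e ∈ E, α x.1 * conj (α x.2) *
        (jj e m * if e ∣ x.1 ∧ e ∣ x.2 then KK (quo x.1 e) (quo x.2 e) m else 0) := by
    rintro ⟨a, c⟩
    simp only [one_mul, ← mul_sum]
    by_cases ha : α a = 0
    · simp [ha]
    by_cases hc : α c = 0
    · simp [hc]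
    have a0 := (hS a ha).1.ne_zero
    have e2 : (pdiv a).filter (· ∣ c) = E.filter fun e => e ∣ a ∧ e ∣ c := by
      ext e
      simp only [mem_filter]
      exact ⟨fun h => ⟨h2 a ha h.1, ((mem_pdiv a0).1 h.1).2, h.2⟩,
        fun h => ⟨(mem_pdiv a0).2 ⟨(h1 e h.1).1.1, h.2.1⟩, h.2.2⟩⟩
    have e3 := hA.k.1 a c m (hS a ha).1 (hS c hc).1
    rw [e2, sum_filter] at e3
    simp only [mul_ite, mul_zero]
    rw [← e3, map_mul]
    ring
  rw [Lam, norm_sq_tsum (sm1 hF fun c hc => by simp [hc]), tsum_congr e1,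
    Summable.tsum_finsetSum fun e _ => sm2 hF _]
  refine sum_congr rfl fun e he => ?_
  have he0 := (h1 e he).1.ne_zero
  have hinj : Function.Injective fun x : O × O => ((e * x.1, e * x.2) : O × O) := fun x y h =>
    Prod.ext (mul_left_cancel₀ he0 (congrArg Prod.fst h))
      (mul_left_cancel₀ he0 (congrArg Prod.snd h))
  rw [Hq, ← tsum_mul_left, ← hinj.tsum_eq]
  · refine tsum_congr fun x => ?_
    simp only [dvd_mul_right, and_self, if_true, quo_mul he0]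
    ring
  · intro x hx
    have h3 := right_ne_zero_of_mul (right_ne_zero_of_mul hx)
    by_cases h : e ∣ x.1 ∧ e ∣ x.2
    · obtain ⟨⟨a, ha⟩, c, hc⟩ := h
      exact ⟨(a, c), Prod.ext ha.symm hc.symm⟩
    · exact absurd (if_neg h) h3

lemma Hq_eq (hA : Alg) (hS : So α) (he : Primary e) (hf : f ∣ e) (m : O) :
    Hq α e (f ^ 2 * m) = ∑' x : O × O, uu α e f x.1 * conj (uu α e f x.2) * KK x.1 x.2 m := by
  refine tsum_congr fun x => ?_
  obtain ⟨a, c⟩ := x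
  by_cases h1 : α (e * a) = 0
  · simp [uu, h1]
  by_cases h2 : α (e * c) = 0
  · simp [uu, h2]
  have s1 := (hS _ h1).1
  have s2 := (hS _ h2).1
  simp only
  rw [hA.k.2.2.2.1 a c f m (s1.right he) (s2.right he)
    ((s1.coprime.mul_right s2.coprime).of_isCoprime_of_dvd_left hf)]
  simp only [uu, map_mul]
  ring

/-- the dual term, class by class -/
lemma DD_eq (hA : Alg) (hF : Fs α) (hS : So α) (he : Primary e) {κ : O → ℂ}
    (hκ : ∀ a, Od a → gam a = ∑ k ∈ cls, κ k * xi k a) (P : ℝ) (h : O) :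
    DD α P e f h = ∑ k ∈ cls, κ k * Kg (vv α e f k h) (P * N h) := by
  simp only [Kg, ← tsum_mul_left]
  rw [← Summable.tsum_finsetSum fun k _ => (sm2 (fs_vv hF he.ne_zero k h) _).mul_left _]
  refine tsum_congr fun x => ?_
  obtain ⟨a, c⟩ := x
  simp only [vv]
  by_cases h1 : uu α e f a = 0
  · simp [h1]
  by_cases h2 : uu α e f c = 0
  · simp [h2]
  have s1 := sqo_uu hS he h1
  have s2 := sqo_uu hS he h2
  rw [hκ _ (od_mul.2 ⟨s1.2, s2.2⟩), nr_eq s1.1.ne_zero, nr_eq s2.1.ne_zero]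
  simp only [mul_sum, sum_mul]
  refine sum_congr rfl fun k hk => ?_
  have hk' := hA.gam.2.2.2.2.2.2.2.1 k hk
  rw [(hA.gam.2.2.2.2.2.2.1 k hk').mul]
  simp only [map_mul, map_div₀, Head.conj_xi hA hk', conj_mu, Complex.conj_conj]
  ring

lemma norm_phi (hA : Alg) {a c : O} (s1 : SQO a) (s2 : SQO c) :
    ‖mu a * mu c * gam (a * c) * bb a * conj (bb c)‖ ≤ 1 :=
  norm_mul_le_one (norm_mul_le_one (norm_mul_le_one
    (norm_mul_le_one (norm_mu_le _) (norm_mu_le _))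
    (hA.gam.2.2.1 _ (od_mul.2 ⟨s1.2, s2.2⟩)).le) (Head.norm_bb hA s1.1))
    (by rw [Complex.norm_conj]; exact Head.norm_bb hA s2.1)

lemma norm_pp (a c h : O) : ‖conj (psi a h) * psi c h‖ ≤ 1 :=
  norm_mul_le_one (by rw [Complex.norm_conj]; exact norm_psi_le _ _) (norm_psi_le _ _)

/-- the zero frequency -/
lemma norm_DD_zero (hA : Alg) (hS : So α) (he : Primary e) (P : ℝ) :
    ‖DD α P e f 0‖ ≤ ‖α e‖ ^ 2 := by
  have h0 : ∀ c, c ≠ 1 → uu α e f c = 0 ∨ psi c 0 = 0 := fun c hc => by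
    by_cases h : uu α e f c = 0
    · exact Or.inl h
    have s := (sqo_uu hS he h).1
    exact Or.inr ((psi_eq_zero s.ne_zero).2 fun hc' =>
      hc (s.1.eq_one_of_isUnit (isCoprime_zero_left.1 hc')))
  have o1 : SQO 1 := ⟨⟨primary_one, squarefree_one⟩, isCoprime_one_left⟩
  have h2 : ‖uu α e f 1 / (ab 1 : ℂ)‖ ≤ ‖α e‖ := by
    refine (Head.norm_div_ab _ _).trans ?_
    rw [uu, mul_one, norm_mul]
    exact mul_le_of_le_one_right (norm_nonneg _) (norm_chi_le _ _)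
  rw [DD, tsum_eq_single (1, 1)]
  · have h3 : ‖((G (P * N (0 : O) / (N (1 : O) * N (1 : O))) : ℝ) : ℂ)‖ ≤ 1 := by
      simp [G]
    rw [mul_assoc, mul_assoc, norm_mul, norm_mul, Complex.norm_conj, sq]
    refine (mul_le_of_le_one_right (by positivity) (norm_mul_le_one (norm_phi hA o1 o1)
      (norm_mul_le_one (norm_pp _ _ _) h3))).trans ?_
    exact mul_le_mul h2 h2 (norm_nonneg _) (norm_nonneg _)
  · intro x hx
    by_cases h : x.1 = 1
    · rcases h0 x.2 fun h' => hx (Prod.ext h h') with h' | h' <;> simp [h']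
    · rcases h0 x.1 h with h' | h' <;> simp [h']

/-- Poisson summation for one pair -/
lemma one (hA : Alg) (hb : Base) (hF : Fs α) (hS : So α) (he : Primary e) (hf : f ∣ e) {P b : ℝ}
    (hP : 0 < P) (h : ∀ s : Finset O, 0 ∉ s → ∑ h ∈ s, ‖DD α P e f h‖ ≤ b) :
    (Summable fun m : O => ((G (N m / P) : ℝ) : ℂ) * Hq α e (f ^ 2 * m)) ∧
    ‖∑' m : O, ((G (N m / P) : ℝ) : ℂ) * Hq α e (f ^ 2 * m)‖ ≤ P * (‖α e‖ ^ 2 + b) := by
  obtain ⟨r1, r2⟩ := pt hb (uu α e f) KK (fun a c h => conj (psi a h) * psi c h)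
    (fun a c => mu a * mu c * gam (a * c) * bb a * conj (bb c)) P b hP (by simp [uu, zero hS])
    (sm1 (fs_uu (f := f) hF he.ne_zero) fun c hc => by simp [hc])
    (fun a c m ha hc => by
      have s1 := sqo_uu hS he ha
      have s2 := sqo_uu hS he hc
      exact ⟨hA.k.2.2.2.2.1 a c m s1.1 s2.1, (norm_pp _ _ _).trans (one_le_N s1.1.ne_zero),
        norm_phi hA s1 s2⟩)
    (fun a c ha hc => by
      have s1 := sqo_uu hS he ha
      have s2 := sqo_uu hS he hc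
      have h1 := hA.p2 a c P s1 s2 hP
      have m1 := mu_sq s1.1.2
      have m2 := mu_sq s2.1.2
      generalize (∑' m : O, KK a c m * ((G (N m / P) : ℝ) : ℂ)) = S at h1 ⊢
      linear_combination (mu a * mu c) * h1 - (mu c ^ 2 * S) * m1 - S * m2)
    (DD α P e f) (fun _ => rfl) h
  simp only [Hq_eq hA hS he hf]
  refine ⟨r1, r2.trans ?_⟩
  have := norm_DD_zero (f := f) hA hS he P
  gcongr

/-- from a joint bound on partial sums to a bound for each member -/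
lemma fam {ι : Type} (J : Finset ι) (w : ι → ℝ) (g : ι → O → ℝ) {B : ℝ} (hw : ∀ j ∈ J, 0 < w j)
    (hg : ∀ j h, 0 ≤ g j h) (h : ∀ s : Finset O, 0 ∉ s → ∑ j ∈ J, w j * ∑ x ∈ s, g j x ≤ B) :
    ∃ b : ι → ℝ, (∀ j ∈ J, ∀ s : Finset O, 0 ∉ s → ∑ x ∈ s, g j x ≤ b j) ∧
      ∑ j ∈ J, w j * b j ≤ B := by
  set g' : ι → O → ℝ := fun j x => if x ≠ 0 then g j x else 0 with hg'
  have h0 : ∀ j x, 0 ≤ g' j x := fun j x => by
    simp only [hg']
    split_ifs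
    exacts [hg _ _, le_rfl]
  have h1 : ∀ s : Finset O, ∑ j ∈ J, w j * ∑ x ∈ s, g' j x ≤ B := fun s => by
    simp only [hg', ← sum_filter]
    exact h _ fun h => (mem_filter.1 h).2 rfl
  have h2 : ∀ j ∈ J, Summable (g' j) := fun j hj => by
    refine summable_of_sum_le (c := B / w j) (h0 j) fun s => ?_
    rw [le_div_iff₀' (hw j hj)]
    exact (single_le_sum (f := fun j => w j * ∑ x ∈ s, g' j x)
      (fun i hi => mul_nonneg (hw i hi).le (sum_nonneg fun x _ => h0 i x)) hj).trans (h1 s)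
  refine ⟨fun j => ∑' x, g' j x, fun j hj s hs => ?_, ?_⟩
  · refine le_trans (sum_le_sum fun x hx => ?_) ((h2 j hj).sum_le_tsum s fun x _ => h0 j x)
    exact (if_pos fun e : x = 0 => hs (e ▸ hx)).ge
  · simp only [← tsum_mul_left]
    rw [← Summable.tsum_finsetSum fun j hj => (h2 j hj).mul_left _]
    refine (summable_sum fun j hj => (h2 j hj).mul_left _).tsum_le_of_sum_le fun s => ?_
    rw [sum_comm]
    simpa only [mul_sum] using h1 s

/-- the twisted sum is the dual sum -/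
lemma tw_eq (hA : Alg) (hS : So α) (he : SQO e) {k : O} (hk : Od k) (L σ u : ℝ) (h : O) :
    ‖∑' c : O, (ab f : ℂ)⁻¹ * vv α e f k h c *
      ((nr c / (L / N e) : ℝ) : ℂ) ^ ((σ : ℂ) + u * Complex.I)‖ ^ 2 =
      (N f : ℝ)⁻¹ * ‖Bt (Dv (Tw α L σ u (xi k)) e f) h‖ ^ 2 := by
  have h1 : Bt (Dv (Tw α L σ u (xi k)) e f) h = xi k e * ∑' c : O, vv α e f k h c *
      ((nr c / (L / N e) : ℝ) : ℂ) ^ ((σ : ℂ) + u * Complex.I) := by
    rw [Bt, ← tsum_mul_left]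
    refine tsum_congr fun c => ?_
    simp only [Dv, Tw, vv, uu]
    by_cases hc : α (e * c) = 0
    · simp [hc]
    rw [(hA.gam.2.2.2.2.2.2.1 k hk).mul, nr_mul he.1.ne_zero (sqo_dil hS he.1.1 hc).1.ne_zero,
      div_div_eq_mul_div, mul_comm (nr c)]
    ring
  have h2 : ‖xi k e‖ = 1 := by rcases hA.gam.2.2.2.2.2.1 k e hk he.2 with h | h <;> simp [h]
  simp only [mul_assoc, tsum_mul_left]
  rw [h1, norm_mul, norm_mul, h2, one_mul, mul_pow, norm_inv, Complex.norm_real,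
    Real.norm_of_nonneg (ab_nonneg f), inv_pow, ab_sq]

lemma Kg_mul (f : O) (v : O → ℂ) (β : ℝ) :
    ‖Kg (fun c => (ab f : ℂ)⁻¹ * v c) β‖ = (N f : ℝ)⁻¹ * ‖Kg v β‖ := by
  have h1 : Kg (fun c => (ab f : ℂ)⁻¹ * v c) β = ((ab f : ℂ) ^ 2)⁻¹ * Kg v β := by
    rw [Kg, Kg, ← tsum_mul_left]
    refine tsum_congr fun x => ?_
    simp only [map_mul, map_inv₀, Complex.conj_ofReal]
    ring
  rw [h1, ab_sqC, norm_mul, norm_inv, Complex.norm_natCast]

/-- the joint bound on the dual side, one class -/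
lemma cls_le (hA : Alg) (h : S_Sep) {ε : ℝ} (k : ℕ) (hε : 0 < ε) : ∃ C : ℝ, 0 < C ∧
    ∀ (α : O → ℂ) (L M b : ℝ), Fs α → So α → 0 < L → 0 < M → 0 ≤ b →
    (∀ ρ, IsNu 4 ρ → ∀ σ u z : ℝ, 0 ≤ σ → σ ≤ 3 → 1 ≤ z →
      Fw (Tw α L σ u ρ) (z * L ^ 2 / M) (b * z ^ 2 * (1 + |u|) ^ k)) →
    ∀ (J : Finset (O × O × O)), (∀ j ∈ J, SQO j.1 ∧ j.2.1 ∈ pdiv j.1 ∧ j.2.2 ≠ 0) → ∀ c, Od c →
      ∑ j ∈ J, (N j.2.1 : ℝ)⁻¹ * ‖Kg (vv α j.1 j.2.1 c j.2.2) (M / (N j.2.1 : ℝ) ^ 2 * N j.2.2)‖ ≤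
        C * ((1 + L ^ 2 / M) ^ ε * b) := by
  obtain ⟨C, hC, h⟩ := h (min ε 1) 2 k (lt_min hε one_pos)
  refine ⟨C, hC, fun α L M b hF hS hL hM hb H J hJ c hc => ?_⟩
  have hV : 1 ≤ 1 + L ^ 2 / M := le_add_of_nonneg_right (by positivity)
  have hn : ∀ j ∈ J, (1 : ℝ) ≤ N j.2.1 ∧ (N j.2.1 : ℝ) ≤ N j.1 ∧ (1 : ℝ) ≤ N j.2.2 := fun j hj => by
    obtain ⟨a1, a2, a3⟩ := hJ j hj
    obtain ⟨b1, b2⟩ := (mem_pdiv a1.1.ne_zero).1 a2
    exact ⟨one_le_N b1.ne_zero, by exact_mod_cast N_le_of_dvd b2 a1.1.ne_zero, one_le_N a3⟩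
  have h1 := h (O × O × O) J (fun j x => (ab j.2.1 : ℂ)⁻¹ * vv α j.1 j.2.1 c j.2.2 x)
    (fun j => L / N j.1) (fun j => M / L ^ 2 * (N j.2.2 * ((N j.1 : ℝ) / N j.2.1) ^ 2))
    (1 + L ^ 2 / M) b hV hb (fun j hj => by
      obtain ⟨n1, n2, n3⟩ := hn j hj
      refine ⟨fs_mul' (fs_vv hF (hJ j hj).1.1.ne_zero _ _) _, div_pos hL (by linarith), ?_⟩
      have v1 : (1 + L ^ 2 / M)⁻¹ ≤ M / L ^ 2 := by
        rw [← inv_div (L ^ 2)]
        exact inv_anti₀ (by positivity) (by linarith)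
      exact v1.trans (le_mul_of_one_le_right (by positivity)
        (one_le_mul_of_one_le_of_one_le n3 (one_le_pow₀ ((one_le_div (by linarith)).2 n2)))))
    fun σ u z hσ hz => by
      have s1 : 0 ≤ σ ∧ σ ≤ 3 := by
        rcases hσ with rfl | rfl
        · exact ⟨(lt_min hε one_pos).le, (min_le_right _ _).trans (by norm_num)⟩
        · norm_num
      refine le_trans (sum_le_sum fun j hj => (tw_eq hA hS (hJ j (mem_filter.1 hj).1).1 hc
        L σ u _).le) (H _ (hA.gam.2.2.2.2.2.2.1 c hc) σ u z s1.1 s1.2 hz _ fun j hj => ?_)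
      obtain ⟨j1, j2⟩ := mem_filter.1 hj
      obtain ⟨a1, a2, a3⟩ := hJ j j1
      obtain ⟨n1, n2, n3⟩ := hn j j1
      refine ⟨a1, a2, a3, ?_⟩
      have p1 : (0 : ℝ) < N j.2.1 := by linarith
      have p2 : (0 : ℝ) < N j.1 := by linarith
      have e1 : (N j.2.2 : ℝ) = M / L ^ 2 * (N j.2.2 * ((N j.1 : ℝ) / N j.2.1) ^ 2) *
          (L ^ 2 / M * (N j.2.1 : ℝ) ^ 2 / (N j.1 : ℝ) ^ 2) := by field_simp
      rw [e1, show z * L ^ 2 / M * (N j.2.1 : ℝ) ^ 2 / (N j.1 : ℝ) ^ 2 =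
        z * (L ^ 2 / M * (N j.2.1 : ℝ) ^ 2 / (N j.1 : ℝ) ^ 2) by ring]
      exact mul_le_mul_of_nonneg_right j2 (by positivity)
  refine le_trans (sum_le_sum fun j hj => le_of_eq ?_) (h1.trans ?_)
  · obtain ⟨n1, n2, -⟩ := hn j hj
    have p1 : (0 : ℝ) < N j.2.1 := by linarith
    have p2 : (0 : ℝ) < N j.1 := by linarith
    rw [← Kg_mul, show M / L ^ 2 * (N j.2.2 * ((N j.1 : ℝ) / N j.2.1) ^ 2) * (L / N j.1) ^ 2 =
      M / (N j.2.1 : ℝ) ^ 2 * N j.2.2 by field_simp]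
    rfl
  · rw [mul_assoc]
    have := Real.rpow_le_rpow_of_exponent_le hV (min_le_left ε 1)
    gcongr

end Fwd

open Fwd in
theorem pFwd (hA : Alg) (hb : Base) (h : S_Sep) : S_Fwd := by
  intro ε k hε
  obtain ⟨C, hC, h⟩ := cls_le hA h k hε
  obtain ⟨κ, hκ1, hκ⟩ := hA.gam.2.2.2.2.2.2.2.2.2.2.2
  refine ⟨1 + 2 * C, by positivity, fun α L M b hF hS hL hM hb0 H s => ?_⟩
  have h := h α L M b hF hS hL hM hb0 H
  have hT : 0 ≤ (1 + L ^ 2 / M) ^ ε * b := by positivity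
  generalize (1 + L ^ 2 / M) ^ ε * b = T at h hT ⊢
  set E := (Set.Finite.toFinset hF).biUnion pdiv with hE
  have h1 : ∀ e ∈ E, SQO e := fun e he => by
    obtain ⟨a, ha, he⟩ := mem_biUnion.1 he
    have s1 := hS a ((Set.Finite.mem_toFinset hF).1 ha)
    obtain ⟨b1, b2⟩ := (mem_pdiv s1.1.ne_zero).1 he
    exact ⟨⟨b1, s1.1.2.squarefree_of_dvd b2⟩, s1.2.of_isCoprime_of_dvd_left b2⟩
  have h2 : ∀ a, α a ≠ 0 → pdiv a ⊆ E := fun a ha =>
    subset_biUnion_of_mem pdiv ((Set.Finite.mem_toFinset hF).2 ha)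
  clear_value E
  set J : Finset (O × O) := (E ×ˢ E.biUnion pdiv).filter fun j => j.2 ∈ pdiv j.1 with hJ
  have hJ1 : ∀ j ∈ J, SQO j.1 ∧ j.2 ∈ pdiv j.1 := fun j hj =>
    ⟨h1 _ (mem_product.1 (mem_filter.1 hj).1).1, (mem_filter.1 hj).2⟩
  have hJ2 : ∀ {R : Type} [AddCommMonoid R] (F : O → O → R),
      ∑ j ∈ J, F j.1 j.2 = ∑ e ∈ E, ∑ f ∈ pdiv e, F e f := fun F => by
    rw [hJ, sum_filter, sum_product]
    refine sum_congr rfl fun e he => ?_
    rw [← sum_filter]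
    refine sum_congr ?_ fun _ _ => rfl
    ext f
    exact ⟨fun hf => (mem_filter.1 hf).2, fun hf => mem_filter.2 ⟨mem_biUnion.2 ⟨e, he, hf⟩, hf⟩⟩
  clear_value J
  have hf : ∀ j ∈ J, Primary j.2 ∧ j.2 ∣ j.1 := fun j hj =>
    (mem_pdiv (hJ1 j hj).1.1.ne_zero).1 (hJ1 j hj).2
  have hN : ∀ j ∈ J, (1 : ℝ) ≤ N j.2 := fun j hj => one_le_N (hf j hj).1.ne_zero
  obtain ⟨β, hβ1, hβ2⟩ := fam J (fun j => (N j.2 : ℝ)⁻¹)
    (fun j x => ‖DD α (M / (N j.2 : ℝ) ^ 2) j.1 j.2 x‖) (B := 2 * (C * T))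
    (fun j hj => inv_pos.2 (by linarith [hN j hj])) (fun _ _ => norm_nonneg _) fun t ht => by
      have a1 : ∀ c ∈ cls, ∑ j ∈ J, ∑ x ∈ t, (N j.2 : ℝ)⁻¹ *
          ‖Kg (vv α j.1 j.2 c x) (M / (N j.2 : ℝ) ^ 2 * N x)‖ ≤ C * T := fun c hc => by
        have a2 := h ((J ×ˢ t).map (Equiv.prodAssoc O O O).toEmbedding) (fun j hj => by
          obtain ⟨i, hi, rfl⟩ := mem_map.1 hj
          obtain ⟨i1, i2⟩ := mem_product.1 hi
          exact ⟨(hJ1 _ i1).1, (hJ1 _ i1).2, fun e0 : i.2 = 0 => ht (e0 ▸ i2)⟩) c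
          (hA.gam.2.2.2.2.2.2.2.1 c hc)
        rw [sum_map, sum_product] at a2
        exact a2
      calc ∑ j ∈ J, (N j.2 : ℝ)⁻¹ * ∑ x ∈ t, ‖DD α (M / (N j.2 : ℝ) ^ 2) j.1 j.2 x‖
          ≤ ∑ j ∈ J, ∑ x ∈ t, ∑ c ∈ cls, ‖κ c‖ * ((N j.2 : ℝ)⁻¹ *
            ‖Kg (vv α j.1 j.2 c x) (M / (N j.2 : ℝ) ^ 2 * N x)‖) := by
            refine sum_le_sum fun j hj => ?_
            rw [mul_sum]
            refine sum_le_sum fun x _ => ?_
            rw [DD_eq hA hF hS (hJ1 j hj).1.1.1 hκ]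
            refine (mul_le_mul_of_nonneg_left (norm_sum_le _ _) (by positivity)).trans ?_
            rw [mul_sum]
            exact sum_le_sum fun c _ => by rw [norm_mul, mul_left_comm]
        _ = ∑ c ∈ cls, ‖κ c‖ * ∑ j ∈ J, ∑ x ∈ t, (N j.2 : ℝ)⁻¹ *
            ‖Kg (vv α j.1 j.2 c x) (M / (N j.2 : ℝ) ^ 2 * N x)‖ := by
            simp only [mul_sum]
            rw [sum_congr rfl fun j _ => sum_comm, sum_comm]
        _ ≤ ∑ c ∈ cls, ‖κ c‖ * (C * T) :=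
            sum_le_sum fun c hc => mul_le_mul_of_nonneg_left (a1 c hc) (norm_nonneg _)
        _ ≤ _ := by
            rw [← sum_mul]
            exact mul_le_mul_of_nonneg_right hκ1 (by positivity)
  have ho := fun j hj => one hA hb hF hS (hJ1 j hj).1.1.1 (hf j hj).2
    (P := M / (N j.2 : ℝ) ^ 2) (by have := hN j hj; positivity) (hβ1 j hj)
  set U : O × O → ℂ := fun j =>
    ∑' m : O, ((G (N m / (M / (N j.2 : ℝ) ^ 2)) : ℝ) : ℂ) * Hq α j.1 (j.2 ^ 2 * m) with hU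
  have hhead : HasSum (fun m : O => ∑ j ∈ J, if j.2 ^ 2 ∣ m then
      mu j.2 * (N j.2 : ℂ) * (((G (N m / M) : ℝ) : ℂ) * Hq α j.1 m) else 0)
      (∑ j ∈ J, mu j.2 * (N j.2 : ℂ) * U j) :=
    hasSum_sum fun j hj => IP.hasSum_sq (hf j hj).1.ne_zero _ (ho j hj).1.hasSum
  have hre : HasSum (fun m : O => G (N m / M) * ‖Lam α 1 m‖ ^ 2)
      (∑ j ∈ J, mu j.2 * (N j.2 : ℂ) * U j).re := by
    refine (Complex.hasSum_re hhead).congr_fun fun m => ?_
    rw [hJ2 fun e f => if f ^ 2 ∣ m then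
      mu f * (N f : ℂ) * (((G (N m / M) : ℝ) : ℂ) * Hq α e m) else 0,
      ← Complex.ofReal_re (G (N m / M) * ‖Lam α 1 m‖ ^ 2), Complex.ofReal_mul,
      sq_eq hA hF hS h1 h2, mul_sum]
    refine congrArg _ (sum_congr rfl fun e _ => ?_)
    rw [jj, sum_mul, mul_sum]
    refine sum_congr rfl fun f _ => ?_
    split_ifs
    · ring
    · simp
  have hU1 : ∀ j ∈ J, ‖mu j.2 * (N j.2 : ℂ) * U j‖ ≤ M * (‖α j.1‖ ^ 2 + (N j.2 : ℝ)⁻¹ * β j) := by
    intro j hj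
    have n1 := hN j hj
    rw [norm_mul, norm_mul, Complex.norm_natCast]
    calc ‖mu j.2‖ * (N j.2 : ℝ) * ‖U j‖
        ≤ 1 * (N j.2 : ℝ) * (M / (N j.2 : ℝ) ^ 2 * (‖α j.1‖ ^ 2 + β j)) := by
          gcongr
          exacts [norm_mu_le _, (ho j hj).2]
      _ = M * (‖α j.1‖ ^ 2 / N j.2 + (N j.2 : ℝ)⁻¹ * β j) := by field_simp
      _ ≤ _ := by
          gcongr
          exact div_le_self (by positivity) n1
  have hD : ∑ j ∈ J, ‖α j.1‖ ^ 2 ≤ ∑' e : O, dv e * ‖α e‖ ^ 2 := by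
    rw [hJ2 fun e _ => ‖α e‖ ^ 2]
    simp only [sum_const, nsmul_eq_mul]
    exact (sm1 hF (g := fun e => dv e * ‖α e‖ ^ 2) fun c hc => by simp [hc]).sum_le_tsum E
      fun e _ => mul_nonneg (QB.dv_nonneg e) (by positivity)
  have hD0 : 0 ≤ ∑' e : O, dv e * ‖α e‖ ^ 2 := (sum_nonneg fun _ _ => by positivity).trans hD
  refine (sum_le_hasSum s (fun m _ => mul_nonneg (QB.G_pos _).le (by positivity)) hre).trans ?_
  refine (Complex.re_le_norm _).trans ((norm_sum_le_of_le _ hU1).trans ?_)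
  rw [← mul_sum, sum_add_distrib, mul_right_comm, mul_comm _ M]
  refine mul_le_mul_of_nonneg_left ((add_le_add hD hβ2).trans ?_) hM.le
  nlinarith [mul_nonneg hC.le hD0]

end Pool.Agent.P.MP_323ce2_nt.QD
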