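import Pool.Agent.P.MP_323ce2_nt.QD.St

/-! The arithmetic sum after the second Poisson summation. -/

namespace Pool.Agent.P.MP_323ce2_nt.QD

open Pool.Agent.P.MP_26a8c3_nt Pool.Agent.P.MP_26a8c3_nt.QO Pool.Agent.P.MP_26a8c3_nt.QA
open Pool.Agent.P.MP_26a8c3_nt.QB Pool.Agent.P.MP_323ce2_nt.QZ Pool.Agent.P.MP_323ce2_nt.QF Finset
open scoped Classical ComplexConjugate

namespace Je

lemma one {f R : O} (hR : R ≠ 0) (h : f ∣ R) {η : ℝ} (hη : 0 ≤ η) :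
    (N f : ℝ) / (N R : ℝ) ^ (1 + η) ≤ nr (quo R f) ^ (-(1 + η)) := by
  have e := mul_quo h
  have hf : f ≠ 0 := left_ne_zero_of_mul (e.symm ▸ hR)
  have hq : quo R f ≠ 0 := right_ne_zero_of_mul (e.symm ▸ hR)
  have e2 : (N R : ℝ) = N f * N (quo R f) := by rw [← Nat.cast_mul, ← map_mul, e]
  have h1 := one_le_N hf
  have h2 := Real.rpow_pos_of_pos (N_pos_real hq) (1 + η)
  have h3 : (N f : ℝ) ≤ (N f : ℝ) ^ (1 + η) := by
    simpa using Real.rpow_le_rpow_of_exponent_le h1 (show (1 : ℝ) ≤ 1 + η by linarith)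
  rw [nr_eq hq, e2, Real.mul_rpow (Nat.cast_nonneg _) (Nat.cast_nonneg _),
    Real.rpow_neg (Nat.cast_nonneg _), div_le_iff₀ (by positivity), mul_left_comm,
    inv_mul_cancel₀ h2.ne', mul_one]
  exact h3

lemma box {α : Type} (S : Finset α) (φ : α → (O × O) × O × O) (hφ : Set.InjOn φ S)
    (D : Finset O) (hD : ∀ x ∈ S, (φ x).1.1 ∈ D ∧ (φ x).1.2 ∈ D) {w : O → ℝ} (h0 : ∀ c, 0 ≤ w c)
    (hw : Summable w) :
    ∑ x ∈ S, w (φ x).2.1 * w (φ x).2.2 ≤ (D.card : ℝ) ^ 2 * (∑' c, w c) ^ 2 := by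
  set T : Finset O := S.image (fun x => (φ x).2.1) ∪ S.image (fun x => (φ x).2.2)
  have hT : ∑ c ∈ T, w c ≤ ∑' c, w c := hw.sum_le_tsum T fun c _ => h0 c
  calc _ = ∑ y ∈ S.image φ, w y.2.1 * w y.2.2 :=
        (sum_image (f := fun y : (O × O) × O × O => w y.2.1 * w y.2.2) hφ).symm
    _ ≤ ∑ y ∈ (D ×ˢ D) ×ˢ (T ×ˢ T), w y.2.1 * w y.2.2 := by
        refine sum_le_sum_of_subset_of_nonneg (fun y hy => ?_) fun y _ _ => mul_nonneg (h0 _) (h0 _)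
        obtain ⟨x, hx, rfl⟩ := mem_image.1 hy
        exact mem_product.2 ⟨mem_product.2 (hD x hx), mem_product.2
          ⟨mem_union_left _ (mem_image_of_mem _ hx), mem_union_right _ (mem_image_of_mem _ hx)⟩⟩
    _ = (D.card : ℝ) ^ 2 * (∑ c ∈ T, w c) ^ 2 := by
        rw [sum_product]
        simp only [sum_product, sum_const, card_product, nsmul_eq_mul]
        rw [sq (∑ c ∈ T, w c), sum_mul_sum]
        push_cast
        ring
    _ ≤ _ := mul_le_mul_of_nonneg_left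
        (pow_le_pow_left₀ (sum_nonneg fun c _ => h0 c) hT 2) (by positivity)

lemma term {θ C : ℝ} (hθ : 0 < θ) (hC : ∀ n : O, n ≠ 0 → dv n ≤ C * (N n : ℝ) ^ (θ / 4))
    {R f e : O} (m : O) (hR : R ≠ 0) (hf : f ∣ R) (he : e ≠ 0) :
    dv R ^ 2 * N f * ‖jj e m‖ / (N (R * e) : ℝ) ^ (1 + θ) ≤
      C ^ 2 * ∑ g ∈ (pdiv e).filter (fun g => g ^ 2 ∣ m),
        nr (quo R f) ^ (-(1 + θ / 2)) * nr (quo e g) ^ (-(1 + θ / 2)) := by
  have r0 := N_pos_real hR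
  have e0 := N_pos_real he
  have h1 : dv R ^ 2 * N f / (N R : ℝ) ^ (1 + θ) ≤ C ^ 2 * nr (quo R f) ^ (-(1 + θ / 2)) := by
    have a : dv R ^ 2 ≤ C ^ 2 * (N R : ℝ) ^ (θ / 2) := by
      refine (pow_le_pow_left₀ (QO.dv_nonneg R) (hC R hR) 2).trans_eq ?_
      rw [mul_pow, ← Real.rpow_natCast ((N R : ℝ) ^ (θ / 4)), ← Real.rpow_mul r0.le]
      congr 2
      push_cast
      ring
    refine le_trans ?_ (mul_le_mul_of_nonneg_left (one hR hf (half_pos hθ).le) (sq_nonneg C))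
    have b : (N R : ℝ) ^ (1 + θ) = (N R : ℝ) ^ (θ / 2) * (N R : ℝ) ^ (1 + θ / 2) := by
      rw [← Real.rpow_add r0]
      congr 1
      ring
    have c := Real.rpow_pos_of_pos r0 (θ / 2)
    have d := Real.rpow_pos_of_pos r0 (1 + θ / 2)
    calc _ ≤ C ^ 2 * (N R : ℝ) ^ (θ / 2) * N f / (N R : ℝ) ^ (1 + θ) := by gcongr
      _ = _ := by rw [b]; field_simp
  have h2 : ‖jj e m‖ / (N e : ℝ) ^ (1 + θ) ≤
      ∑ g ∈ (pdiv e).filter (fun g => g ^ 2 ∣ m), nr (quo e g) ^ (-(1 + θ / 2)) := by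
    refine (div_le_div_of_nonneg_right (norm_jj_le e m) (by positivity)).trans ?_
    rw [sum_div]
    refine sum_le_sum fun g hg => le_trans ?_
      (one he ((mem_pdiv he).1 (mem_filter.1 hg).1).2 (half_pos hθ).le)
    exact div_le_div_of_nonneg_left (Nat.cast_nonneg _) (by positivity)
      (Real.rpow_le_rpow_of_exponent_le (one_le_N he) (by linarith))
  rw [← mul_sum, ← mul_assoc, map_mul, Nat.cast_mul, Real.mul_rpow r0.le e0.le, mul_div_mul_comm]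
  exact mul_le_mul h1 h2 (by positivity)
    (mul_nonneg (sq_nonneg C) (Real.rpow_pos_of_pos (nr_pos _) _).le)

end Je

theorem pJe (_hA : Alg) (_hb : Base) : S_Je := by
  intro θ hθ
  obtain ⟨C, hC0, hC⟩ := dv_le (show 0 < θ / 4 by positivity)
  have hw := summable_nr (show 1 < 1 + θ / 2 by linarith)
  have h0 : ∀ c : O, 0 ≤ nr c ^ (-(1 + θ / 2)) := fun c => (Real.rpow_pos_of_pos (nr_pos c) _).le
  set Z := ∑' c : O, nr c ^ (-(1 + θ / 2))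
  refine ⟨C ^ 2 * Z ^ 2 + 1, by positivity, fun I Mx hI => ?_⟩
  rw [← sum_fiberwise_of_maps_to (g := fun i : (O × O) × O × O => i.2.2 * i.1.2 ^ 2)
    fun i hi => mem_image_of_mem _ hi, mul_sum]
  refine sum_le_sum fun n hn => ?_
  obtain ⟨i₀, hi₀, e₀⟩ := mem_image.1 hn
  have hM : 0 ≤ Mx n := e₀ ▸ (hI i₀ hi₀).2.2.2.2
  have pf : ∀ i ∈ I, Primary i.1.2 ∧ i.1.2 ∣ i.1.1 := fun i hi =>
    (mem_pdiv (hI i hi).1.1.ne_zero).1 (hI i hi).2.1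
  have n0 : n ≠ 0 := e₀ ▸ mul_ne_zero (hI i₀ hi₀).2.2.2.1 (pow_ne_zero 2 (pf i₀ hi₀).1.ne_zero)
  set F := I.filter fun i => i.2.2 * i.1.2 ^ 2 = n
  have key := Je.box (F.sigma fun i => (pdiv i.2.1).filter fun g => g ^ 2 ∣ i.2.2)
    (fun x => ((x.1.1.2, x.2), quo x.1.1.1 x.1.1.2, quo x.1.2.1 x.2)) ?_ (pdiv n) ?_ h0 hw
  · rw [sum_sigma] at key
    calc _ ≤ ∑ i ∈ F, Mx n * (C ^ 2 * ∑ g ∈ (pdiv i.2.1).filter (fun g => g ^ 2 ∣ i.2.2),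
          nr (quo i.1.1 i.1.2) ^ (-(1 + θ / 2)) * nr (quo i.2.1 g) ^ (-(1 + θ / 2))) := by
          refine sum_le_sum fun i hi => ?_
          obtain ⟨h1, h2⟩ := mem_filter.1 hi
          rw [h2, mul_div_assoc', mul_comm _ (Mx n), mul_div_assoc]
          exact mul_le_mul_of_nonneg_left (Je.term hθ hC _ (hI i h1).1.1.ne_zero (pf i h1).2
            (hI i h1).2.2.1.1.ne_zero) hM
      _ ≤ Mx n * (C ^ 2 * (dv n ^ 2 * Z ^ 2)) := by
          rw [← mul_sum, ← mul_sum]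
          exact mul_le_mul_of_nonneg_left (mul_le_mul_of_nonneg_left key (sq_nonneg C)) hM
      _ ≤ _ := by nlinarith [mul_nonneg (sq_nonneg (dv n)) hM]
  · rintro ⟨⟨⟨R, f⟩, e, m⟩, g⟩ hx ⟨⟨⟨R', f'⟩, e', m'⟩, g'⟩ hy h
    obtain ⟨x1, x2⟩ := mem_sigma.1 (mem_coe.1 hx)
    obtain ⟨y1, y2⟩ := mem_sigma.1 (mem_coe.1 hy)
    obtain ⟨x3, x4⟩ := mem_filter.1 x1
    obtain ⟨y3, y4⟩ := mem_filter.1 y1
    simp only [Prod.mk.injEq] at h x4 y4 x2 y2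
    obtain ⟨⟨rfl, rfl⟩, h1, h2⟩ := h
    have q : ∀ {a b d : O}, d ∣ a → d ∣ b → quo a d = quo b d → a = b := fun ha hb h => by
      rw [← mul_quo ha, h, mul_quo hb]
    have a : R = R' := q (pf _ x3).2 (pf _ y3).2 h1
    have b : e = e' := q ((mem_pdiv (hI _ x3).2.2.1.1.ne_zero).1 (mem_filter.1 x2).1).2
      ((mem_pdiv (hI _ y3).2.2.1.1.ne_zero).1 (mem_filter.1 y2).1).2 h2
    have c : m = m' := mul_right_cancel₀ (pow_ne_zero 2 (pf _ x3).1.ne_zero) (x4.trans y4.symm)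
    rw [a, b, c]
  · intro x hx
    obtain ⟨x1, x2⟩ := mem_sigma.1 hx
    obtain ⟨x3, x4⟩ := mem_filter.1 x1
    obtain ⟨x5, x6⟩ := mem_filter.1 x2
    refine ⟨(mem_pdiv n0).2 ⟨(pf _ x3).1, x4 ▸ (dvd_pow_self _ two_ne_zero).mul_left _⟩,
      (mem_pdiv n0).2 ⟨((mem_pdiv (hI _ x3).2.2.1.1.ne_zero).1 x5).1,
        x4 ▸ ((dvd_pow_self _ two_ne_zero).trans x6).mul_right _⟩⟩

end Pool.Agent.P.MP_323ce2_nt.QD
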