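import Pool.Agent.P.MP_323ce2_nt.QD.St

/-! The step of the descent for finitely supported squarefree coefficients. -/

namespace Pool.Agent.P.MP_323ce2_nt.QD

open Pool.Agent.P.MP_26a8c3_nt Pool.Agent.P.MP_26a8c3_nt.QO Pool.Agent.P.MP_26a8c3_nt.QA
open Pool.Agent.P.MP_26a8c3_nt.QB Pool.Agent.P.MP_323ce2_nt.QZ Pool.Agent.P.MP_323ce2_nt.QF Finset
open scoped Classical ComplexConjugate

namespace P0

lemma db_fw {a : O → ℂ} {X X' B : ℝ} (h : Db a X' B) (hX : X ≤ X') : Fw a X B := by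
  intro J hJ
  have hI : ∀ i ∈ J.image (fun j => (j.1, j.2.1)), SQO i.1 ∧ i.2 ∈ pdiv i.1 := fun i hi => by
    obtain ⟨j, hj, rfl⟩ := mem_image.1 hi
    exact ⟨(hJ j hj).1, (hJ j hj).2.1⟩
  refine le_trans ?_ (h _ hI)
  have h1 : J ⊆ ((J.image fun j => (j.1, j.2.1)).sigma fun i =>
      (ball (X' * (N i.2 : ℝ) ^ 2 / (N i.1 : ℝ) ^ 2)).erase 0).image
        fun x => (x.1.1, x.1.2, x.2) := fun j hj =>
    mem_image.2 ⟨⟨(j.1, j.2.1), j.2.2⟩, mem_sigma.2 ⟨mem_image_of_mem _ hj, mem_erase.2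
      ⟨(hJ j hj).2.2.1, mem_ball.2 ((hJ j hj).2.2.2.trans (by gcongr))⟩⟩, rfl⟩
  refine (sum_le_sum_of_subset_of_nonneg h1 fun _ _ _ => by positivity).trans ?_
  refine (sum_image_le_of_nonneg fun _ _ => by positivity).trans ?_
  rw [sum_sigma]
  refine sum_le_sum fun i hi => ?_
  dsimp only
  rw [← mul_sum, div_eq_mul_inv (dv i.1 ^ 2)]
  exact mul_le_mul_of_nonneg_right (le_mul_of_one_le_left (by positivity)
    (one_le_pow₀ (QO.one_le_dv (hI i hi).1.1.ne_zero))) (sum_nonneg fun _ _ => by positivity)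

lemma Pt.nn {α : O → ℂ} {L δ : ℝ} {T : ℕ} (h : Pt α L δ T) : 0 ≤ δ :=
  le_trans (by positivity) (h 0).1

lemma diag (j : ℕ) {θ : ℝ} (h0 : 0 < θ) (h1 : θ ≤ 1) : ∃ C : ℝ, 0 < C ∧
    ∀ (α : O → ℂ) (L δ : ℝ) (s : Finset O), So α → 0 < L → Pt α L δ 8 →
      ∑ c ∈ s, dv c ^ j * ‖α c‖ ^ 2 ≤ C * (δ * L ^ θ * L) := by
  have hs := summable_dv_pow j (s := 1 + θ) (by linarith)
  have hn : ∀ c : O, 0 ≤ dv c ^ j * (N c : ℝ) ^ (-(1 + θ)) := fun c => by
    have := QO.dv_nonneg c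
    positivity
  refine ⟨1 + ∑' c : O, dv c ^ j * (N c : ℝ) ^ (-(1 + θ)),
    add_pos_of_pos_of_nonneg one_pos (tsum_nonneg hn), fun α L δ s hα hL hP => ?_⟩
  have hδ := Pt.nn hP
  calc _ ≤ ∑ c ∈ s, dv c ^ j * (N c : ℝ) ^ (-(1 + θ)) * (δ * L ^ θ * L) := by
        refine sum_le_sum fun c _ => ?_
        have hd := QO.dv_nonneg c
        by_cases hc : α c = 0
        · rw [hc, norm_zero, zero_pow two_ne_zero, mul_zero]
          positivity
        rw [mul_assoc, ← nr_eq (hα c hc).1.ne_zero]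
        refine mul_le_mul_of_nonneg_left ?_ (by positivity)
        have hr := nr_pos c
        have e : nr c ^ (-(1 + θ)) * (δ * L ^ θ * L) = δ * (L / nr c) ^ (1 + θ) := by
          rw [Real.div_rpow hL.le hr.le, Real.rpow_neg hr.le, Real.rpow_add hL, Real.rpow_one]
          ring
        rw [e]
        rcases le_total 1 (L / nr c) with h | h
        · exact (hP c).1.trans (le_mul_of_one_le_right hδ (Real.one_le_rpow h (by linarith)))
        · have h2 : ‖α c‖ ^ 2 ≤ δ * (L / nr c) ^ ((8 : ℕ) : ℝ) := by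
            rw [Real.rpow_natCast, div_pow, ← mul_div_assoc, le_div_iff₀ (by positivity)]
            exact (hP c).2
          exact h2.trans (mul_le_mul_of_nonneg_left
            (Real.rpow_le_rpow_of_exponent_ge (by positivity) h (by push_cast; linarith)) hδ)
    _ ≤ _ := by
        rw [← sum_mul]
        exact mul_le_mul_of_nonneg_right ((hs.sum_le_tsum s fun c _ => hn c).trans
          (le_add_of_nonneg_left zero_le_one)) (by positivity)

lemma so_sfp (a : O → ℂ) (R : O) : So (sfp a R) := fun _ h => by_contra fun e => h (if_neg e)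

lemma fs_cvp {α : O → ℂ} (h : Fs α) (x : Pc) : Fs (sfp (cvp x α) 1) := by
  refine ((x.S.finite_toSet.prod h).image fun q => q.1 * q.2).subset fun c hc => ?_
  have h1 : cvp x α c ≠ 0 := fun e => hc (by rw [sfp, one_mul, e, ite_self])
  obtain ⟨p, hp, h2⟩ := exists_ne_zero_of_sum_ne_zero h1
  have h3 : p ∣ c := by_contra fun e => h2 (if_neg e)
  rw [if_pos h3] at h2
  exact ⟨(p, quo c p), ⟨hp, right_ne_zero_of_mul h2⟩, mul_quo h3⟩

lemma sq_cvp {α : O → ℂ} {x : Pc} (hx : x.wk) (h0 : α 0 = 0) (e : O) :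
    dv e * ‖sfp (cvp x α) 1 e‖ ^ 2 ≤
      ∑ p ∈ x.S, if p ∣ e then 4 * (dv (quo e p) ^ 2 * ‖α (quo e p)‖ ^ 2) else 0 := by
  have hd := QO.dv_nonneg e
  by_cases he : SQO e
  swap
  · rw [sfp, if_neg he, norm_zero, zero_pow two_ne_zero, mul_zero]
    exact sum_nonneg fun _ _ => by split_ifs <;> positivity
  have he0 := he.1.ne_zero
  rw [sfp, if_pos he, one_mul, cvp, ← sum_filter, ← sum_filter]
  have h1 : ‖∑ p ∈ x.S.filter (· ∣ e), x.f p * α (quo e p)‖ ≤
      ∑ p ∈ x.S.filter (· ∣ e), ‖α (quo e p)‖ := norm_sum_le_of_le _ fun p hp => by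
    rw [norm_mul]
    exact mul_le_of_le_one_left (norm_nonneg _) (hx.2 p (mem_filter.1 hp).1).2.2.2.2
  have h2 : ((x.S.filter (· ∣ e)).card : ℝ) ≤ dv e := by
    have : x.S.filter (· ∣ e) ⊆ pdiv e := fun p hp =>
      (mem_pdiv he0).2 ⟨(hx.2 p (mem_filter.1 hp).1).2.1, (mem_filter.1 hp).2⟩
    rw [dv]
    exact_mod_cast card_le_card this
  calc _ ≤ dv e * (dv e * ∑ p ∈ x.S.filter (· ∣ e), ‖α (quo e p)‖ ^ 2) := by
        refine mul_le_mul_of_nonneg_left (((pow_le_pow_left₀ (norm_nonneg _) h1 2).trans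
          sq_sum_le_card_mul_sum_sq).trans ?_) hd
        exact mul_le_mul_of_nonneg_right h2 (sum_nonneg fun _ _ => by positivity)
    _ ≤ _ := by
        rw [← mul_assoc, mul_sum]
        refine sum_le_sum fun p hp => ?_
        obtain ⟨hp1, hp2⟩ := mem_filter.1 hp
        obtain ⟨a1, a2, -⟩ := hx.2 p hp1
        have a3 : quo e p ≠ 0 := fun h => he0 (by rw [← mul_quo hp2, h, mul_zero])
        have a4 : dv p ≤ 2 := by
          rw [dv, pdiv_prime a1 a2]
          exact_mod_cast card_le_two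
        have a5 : dv e ≤ 2 * dv (quo e p) := by
          conv_lhs => rw [← mul_quo hp2]
          exact (dv_mul_le a1.ne_zero a3).trans
            (mul_le_mul_of_nonneg_right a4 (QO.dv_nonneg _))
        rw [← mul_assoc]
        exact mul_le_mul_of_nonneg_right (by nlinarith) (by positivity)

lemma diag4 {θ : ℝ} (h0 : 0 < θ) (h1 : θ ≤ 1) : ∃ C : ℝ, 0 < C ∧
    ∀ (α : O → ℂ) (x : Pc) (L δ : ℝ), So α → x.wk → 0 < L → Pt α L δ 8 →
      ∑' e : O, dv e * ‖sfp (cvp x α) 1 e‖ ^ 2 ≤ C * (δ * L ^ θ * (L * x.P)) := by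
  obtain ⟨C, hC, h⟩ := diag 2 h0 h1
  refine ⟨64 * C, by positivity, fun α x L δ hα hx hL hP => ?_⟩
  have hδ := Pt.nn hP
  have hP1 := hx.1
  have hz : α 0 = 0 := by_contra fun e => (hα 0 e).1.ne_zero rfl
  refine tsum_le_of_sum_le' (by positivity) fun s => ?_
  refine (sum_le_sum fun e _ => sq_cvp hx hz e).trans ?_
  rw [sum_comm]
  have hS : (x.S.card : ℝ) ≤ 16 * x.P := card_le_of_N_le (by positivity) fun p hp =>
    ⟨(hx.2 p hp).1.ne_zero, (hx.2 p hp).2.2.2.1⟩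
  calc _ ≤ x.S.card • (4 * (C * (δ * L ^ θ * L))) := by
        refine sum_le_card_nsmul _ _ _ fun p _ => ?_
        rw [← sum_filter, ← mul_sum, ← sum_image (g := fun e => quo e p)
          (f := fun c => dv c ^ 2 * ‖α c‖ ^ 2) fun a ha b hb e => by
            rw [← mul_quo (mem_filter.1 ha).2, ← mul_quo (mem_filter.1 hb).2]
            exact congrArg _ e]
        exact mul_le_mul_of_nonneg_left (h α L δ _ hα hL hP) (by norm_num)
    _ ≤ 16 * x.P * (4 * (C * (δ * L ^ θ * L))) := by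
        rw [nsmul_eq_mul]
        gcongr
    _ = _ := by ring

lemma rp {x W ε η : ℝ} (n : ℕ) (hx : 0 ≤ x) (hW : 1 ≤ W) (h : x ≤ W ^ n) (hη : 0 ≤ η)
    (hε : n * η ≤ ε) : x ^ η ≤ W ^ ε :=
  calc x ^ η ≤ (W ^ n) ^ η := Real.rpow_le_rpow hx h hη
    _ = W ^ (n * η) := by rw [Real.rpow_mul (by linarith), Real.rpow_natCast]
    _ ≤ _ := Real.rpow_le_rpow_of_exponent_le hW hε

end P0

open P0 in
theorem pP0 (_hA : Alg) (_hb : Base) (h1 : S_Fwd) (h2 : S_Db) : S_P0 := by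
  intro ε θ₁ θ k hε h0 h1' hθ
  obtain ⟨CF, hCF, hF⟩ := h1 (ε / 3) k (by positivity)
  obtain ⟨CD, hCD, hD⟩ := h2 (ε / 3) θ₁ θ k (by positivity) h0 h1' hθ
  obtain ⟨C, hC, hd⟩ := diag 1 h0 h1'
  refine ⟨CF * (C + CD), by positivity, fun α J M L δ b hf hs hJ hM hL hb hP hch => ?_⟩
  have hδ := Pt.nn hP
  have hM0 : 0 < M := by linarith
  refine (hF α L M (CD * (1 + M) ^ (ε / 3) * (L ^ 2 / M * J) * (δ * L ^ θ₁ + b / L ^ 2)) hf hs hL
    hM0 (by positivity) fun ρ hρ σ u z s0 s3 hz => ?_).mono hM0 le_rfl ?_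
  · have a1 : L ^ 2 / (M / J) ≤ z * L ^ 2 / M * J :=
      (le_mul_of_one_le_left (by positivity) hz).trans_eq (by field_simp)
    have a2 := db_fw (hD α ρ L (M / J) _ δ b σ u hf hs hρ hL (by positivity) hb s0 s3 a1 hP hch)
      (le_mul_of_one_le_right (a := z * L ^ 2 / M) (by positivity) hJ)
    refine fun I hI => (a2 I hI).trans ?_
    have a3 : M / J ≤ M := div_le_self hM0.le hJ
    calc _ ≤ CD * (1 + M) ^ (ε / 3) * (1 + |u|) ^ k * (z ^ 2 * L ^ 2 / M * J) *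
          (δ * L ^ θ₁ + b / L ^ 2) := by
          gcongr
          nlinarith
      _ = _ := by ring
  · have a1 : ∑' e : O, dv e * ‖α e‖ ^ 2 ≤ C * (δ * L ^ θ₁ * L) :=
      tsum_le_of_sum_le' (by positivity) fun s => by simpa using hd α L δ s hs hL hP
    have hW : 1 ≤ 1 + M + L := by linarith
    have a2 : (1 + L ^ 2 / M) ^ (ε / 3) * (1 + M) ^ (ε / 3) ≤ (1 + M + L) ^ ε := by
      rw [← Real.mul_rpow (by positivity) (by positivity)]
      refine rp 3 (by positivity) hW ?_ (by positivity) (by push_cast; linarith)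
      have : L ^ 2 / M ≤ L ^ 2 := div_le_self (by positivity) hM
      rw [pow_succ _ 2]
      exact mul_le_mul (by nlinarith) (by linarith) (by positivity) (by positivity)
    have a3 := Real.one_le_rpow hW hε.le
    generalize (1 + M + L) ^ ε = W at *
    have a4 : 0 ≤ δ * L ^ θ₁ := by positivity
    generalize δ * L ^ θ₁ = d at *
    calc _ ≤ CF * M * (C * (d * L) + (1 + L ^ 2 / M) ^ (ε / 3) *
          (CD * (1 + M) ^ (ε / 3) * (L ^ 2 / M * J) * (d + b / L ^ 2))) := by gcongr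
      _ = CF * (C * 1 * (d * (M * L)) + CD * ((1 + L ^ 2 / M) ^ (ε / 3) * (1 + M) ^ (ε / 3)) *
          (d * (J * L ^ 2) + J * b)) := by field_simp
      _ ≤ CF * (C * W * (d * (M * L + J * L ^ 2) + J * b) +
          CD * W * (d * (M * L + J * L ^ 2) + J * b)) := by
          have b1 : 0 ≤ d * (J * L ^ 2) := by positivity
          have b2 : 0 ≤ d * (M * L) := by positivity
          have b3 : 0 ≤ J * b := by positivity
          gcongr CF * (C * ?_ * ?_ + CD * ?_ * ?_) <;> linarith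
      _ = _ := by ring

open P0 in
theorem pP4 (_hA : Alg) (_hb : Base) (h1 : S_Fwd) (h2 : S_Db) (h3 : S_A4) : S_P4 := by
  intro ε θ₁ θ k hε h0 h1' hθ
  obtain ⟨η, hη, η1, η2⟩ : ∃ η : ℝ, 0 < η ∧ η ≤ 1 ∧ 10 * η ≤ ε :=
    ⟨min 1 (ε / 10), by positivity, min_le_left _ _, by linarith [min_le_right 1 (ε / 10)]⟩
  obtain ⟨CF, hCF, hF⟩ := h1 η k hη
  obtain ⟨CD, hCD, hD⟩ := h2 η θ₁ θ k hη h0 h1' hθ
  obtain ⟨CA, hCA, hA⟩ := h3 η hη
  obtain ⟨C, hC, hd⟩ := diag4 h0 h1'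
  refine ⟨CF * (C + CA * CD), by positivity, fun α x M L δ b hf hs hx hM hL hb hP hch => ?_⟩
  have hδ := Pt.nn hP
  have hM0 : 0 < M := by linarith
  have hP1 := hx.1
  refine (hF _ (L * x.P) M (CA * CD * (x.P * (1 + (L * x.P) ^ 2 / M)) ^ η * (1 + M) ^ η *
    ((L * x.P) ^ 2 / M * x.P ^ 4) * (δ * L ^ θ₁ + b / L ^ 2)) (fs_cvp hf x) (so_sfp _ _)
    (by positivity) hM0 (by positivity) fun ρ hρ σ u z s0 s3 hz => ?_).mono hM0 le_rfl ?_
  · have a1 : L ^ 2 / (M / x.P ^ 6) ≤ z * (L * x.P) ^ 2 / M * x.P ^ 4 :=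
      (le_mul_of_one_le_left (by positivity) hz).trans_eq (by field_simp)
    have a2 := hA α ρ x L σ u _ _ hf hs hρ hx hL s0 (by positivity)
      (hD α ρ L (M / x.P ^ 6) _ δ b σ u hf hs hρ hL (by positivity) hb s0 s3 a1 hP hch)
    refine fun I hI => (a2 I hI).trans ?_
    have a3 : M / x.P ^ 6 ≤ M := div_le_self hM0.le (one_le_pow₀ hP1)
    have a4 : (x.P * (1 + z * (L * x.P) ^ 2 / M)) ^ η ≤
        z * (x.P * (1 + (L * x.P) ^ 2 / M)) ^ η := by
      calc _ ≤ (z * (x.P * (1 + (L * x.P) ^ 2 / M))) ^ η := by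
            rw [mul_left_comm z, mul_add z, mul_one, mul_div_assoc]
            gcongr
        _ ≤ _ := by
            rw [Real.mul_rpow (by positivity) (by positivity)]
            exact mul_le_mul_of_nonneg_right (Real.rpow_le_self_of_one_le hz η1) (by positivity)
    calc _ ≤ CA * (z * (x.P * (1 + (L * x.P) ^ 2 / M)) ^ η) * (CD * (1 + M) ^ η * (1 + |u|) ^ k *
          (z * (L * x.P) ^ 2 / M * x.P ^ 4) * (δ * L ^ θ₁ + b / L ^ 2)) := by gcongr
      _ = _ := by ring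
  · have a1 := hd α x L δ hs hx hL hP
    have hW : 1 ≤ 1 + M + x.P + L := by linarith
    have a2 : (1 + (L * x.P) ^ 2 / M) ^ η * (x.P * (1 + (L * x.P) ^ 2 / M)) ^ η * (1 + M) ^ η ≤
        (1 + M + x.P + L) ^ ε := by
      rw [← Real.mul_rpow (by positivity) (by positivity),
        ← Real.mul_rpow (by positivity) (by positivity)]
      refine rp 10 (by positivity) hW ?_ hη.le (by push_cast; linarith)
      have b1 : (L * x.P) ^ 2 / M ≤ (L * x.P) ^ 2 := div_le_self (by positivity) hM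
      have b2 : 1 + L * x.P ≤ (1 + M + x.P + L) ^ 2 := by nlinarith [mul_pos hL hM0]
      have b3 : 1 + (L * x.P) ^ 2 / M ≤ ((1 + M + x.P + L) ^ 2) ^ 2 :=
        le_trans (by nlinarith [mul_pos hL (by linarith : 0 < x.P)])
          (pow_le_pow_left₀ (by positivity) b2 2)
      calc _ ≤ ((1 + M + x.P + L) ^ 2) ^ 2 * ((1 + M + x.P + L) * ((1 + M + x.P + L) ^ 2) ^ 2) *
            (1 + M + x.P + L) := by gcongr ?_ * (?_ * ?_) * ?_ <;> linarith
        _ = _ := by ring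
    have a3 := Real.one_le_rpow hW hε.le
    generalize (1 + M + x.P + L) ^ ε = W at *
    have a4 : 0 ≤ δ * L ^ θ₁ := by positivity
    generalize δ * L ^ θ₁ = d at *
    calc _ ≤ CF * M * (C * (d * (L * x.P)) + (1 + (L * x.P) ^ 2 / M) ^ η *
          (CA * CD * (x.P * (1 + (L * x.P) ^ 2 / M)) ^ η * (1 + M) ^ η *
            ((L * x.P) ^ 2 / M * x.P ^ 4) * (d + b / L ^ 2))) := by gcongr
      _ = CF * (C * 1 * (d * (M * L * x.P)) + CA * CD * ((1 + (L * x.P) ^ 2 / M) ^ η *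
          (x.P * (1 + (L * x.P) ^ 2 / M)) ^ η * (1 + M) ^ η) *
          (d * (x.P ^ 6 * L ^ 2) + x.P ^ 6 * b)) := by field_simp
      _ ≤ CF * (C * W * (d * (M * L * x.P + x.P ^ 6 * L ^ 2) + x.P ^ 6 * b) +
          CA * CD * W * (d * (M * L * x.P + x.P ^ 6 * L ^ 2) + x.P ^ 6 * b)) := by
          have b1 : 0 ≤ d * (x.P ^ 6 * L ^ 2) := by positivity
          have b2 : 0 ≤ d * (M * L * x.P) := by positivity
          have b3 : 0 ≤ x.P ^ 6 * b := by positivity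
          gcongr CF * (C * ?_ * ?_ + CA * CD * ?_ * ?_) <;> linarith
      _ = _ := by ring

end Pool.Agent.P.MP_323ce2_nt.QD
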