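import Pool.Agent.P.MP_323ce2_nt.QD.St

/-! Dilates of the centered product. -/

namespace Pool.Agent.P.MP_323ce2_nt.QD

open Pool.Agent.P.MP_26a8c3_nt Pool.Agent.P.MP_26a8c3_nt.QO Pool.Agent.P.MP_26a8c3_nt.QA
open Pool.Agent.P.MP_26a8c3_nt.QB Pool.Agent.P.MP_323ce2_nt.QZ Pool.Agent.P.MP_323ce2_nt.QF Finset
open scoped Classical ComplexConjugate

namespace Pair

lemma wv_prim {ν : O → ℂ} {Y t : ℝ} (c : O) (h : wv ν Y t c ≠ 0) : Primary c := by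
  by_contra hc
  exact h (by simp [wv, uL, hc])

lemma sm_wv {Q : O} {ν : O → ℂ} (hν : IsNu Q ν) {Y : ℝ} (hY : 0 < Y) (t : ℝ) : Sm (wv ν Y t) := by
  refine summable_W0 (k := 2) nr_pos (Summable.of_nonneg_of_le
    (fun c => mul_nonneg (norm_nonneg _) (Real.rpow_pos_of_pos (nr_pos c) _).le)
    (fun c => mul_le_of_le_one_left (Real.rpow_pos_of_pos (nr_pos c) _).le ?_)
    (QB.summable_nr one_lt_two)) hY t
  unfold uL
  split_ifs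
  exacts [hν.le c, by simp]

/-- the unimodular factor -/
noncomputable def fc (ν : O → ℂ) (t : ℝ) (R : O) : ℂ := ν R * ((N R : ℝ) : ℂ) ^ ((t : ℂ) * Complex.I)

lemma N_pos' {R : O} (hR : Primary R) : (0 : ℝ) < N R := one_pos.trans_le (one_le_N hR.ne_zero)

lemma norm_fc {Q : O} {ν : O → ℂ} (hν : IsNu Q ν) (t : ℝ) {R : O} (hR : Primary R) :
    ‖fc ν t R‖ ≤ 1 := norm_mul_le_one (hν.le R) (norm_cpow_I (N_pos' hR) t).le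

lemma lam_wv {Q : O} {ν : O → ℂ} (hν : IsNu Q ν) {Y : ℝ} (hY : 0 < Y) (t : ℝ) {R : O}
    (hR : Primary R) (m : O) : Lam (wv ν Y t) R m = fc ν t R * Lm ν m (Y / N R) t := by
  rw [Lam, Lm, Wsum, ← tsum_mul_left]
  refine tsum_congr fun c => ?_
  by_cases hc : Primary c
  · rw [wv, uL, uL, if_pos (hR.mul hc), if_pos hc, nr_mul hR.ne_zero hc.ne_zero,
      W_mul hY (N_pos' hR) (nr_pos c), hν.mul, ph, fc]
    ring
  · have : ¬ Primary (R * c) := fun h => hc (h.of_mul hR)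
    simp [wv, uL, hc, this]

lemma sm_lam {a : O → ℂ} (ha : Sm a) {R : O} (hR : R ≠ 0) (m : O) :
    Summable fun c => a (R * c) * psi c m :=
  Summable.of_norm_bounded (ha.comp_injective (mul_right_injective₀ hR)) fun c => by
    rw [norm_mul]
    exact mul_le_of_le_one_right (norm_nonneg _) (norm_psi_le c m)

lemma quo_prim {R g : O} (hR : Primary R) (hg : g ∈ pdiv R) : Primary (quo R g) := by
  obtain ⟨h1, h2⟩ := (mem_pdiv hR.ne_zero).1 hg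
  exact Primary.of_mul (by rwa [mul_quo h2]) h1

lemma lam_pr (h : S_Conv) {Q : O} {ν₁ ν₂ : O → ℂ} (h₁ : IsNu Q ν₁) (h₂ : IsNu Q ν₂) (c₀ : ℂ)
    {τ Y₁ Y₂ : ℝ} (hτ : 0 < τ) (hY₁ : 0 < Y₁) (hY₂ : 0 < Y₂) (t₁ t₂ : ℝ) :
    Sm (pr ν₁ ν₂ c₀ τ Y₁ Y₂ t₁ t₂) ∧ ∀ R m : O, Primary R →
      Lam (pr ν₁ ν₂ c₀ τ Y₁ Y₂ t₁ t₂) R m = ∑ g ∈ pdiv R, ∑ e ∈ pdiv (quo R g),
        mu e * psi e m * (fc ν₁ t₁ (g * e) * fc ν₂ t₂ (quo R g)) *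
          VV ν₁ ν₂ c₀ τ (Y₁ / N (g * e)) (Y₂ / N (quo R g)) t₁ t₂ m := by
  have hY₃ := div_pos hY₁ hτ
  have hY₄ := mul_pos hY₂ hτ
  obtain ⟨s1, e1⟩ := h _ _ wv_prim wv_prim (sm_wv h₁ hY₁ t₁) (sm_wv h₂ hY₂ t₂)
  obtain ⟨s2, e2⟩ := h _ _ wv_prim wv_prim (sm_wv h₁ hY₃ t₁) (sm_wv h₂ hY₄ t₂)
  refine ⟨(s1.of_norm.sub (s2.of_norm.mul_left _)).norm, fun R m hR => ?_⟩
  have e3 : Lam (pr ν₁ ν₂ c₀ τ Y₁ Y₂ t₁ t₂) R m =
      Lam (cv (wv ν₁ Y₁ t₁) (wv ν₂ Y₂ t₂)) R m -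
        om c₀ τ t₁ t₂ * Lam (cv (wv ν₁ (Y₁ / τ) t₁) (wv ν₂ (Y₂ * τ) t₂)) R m := by
    rw [Lam, Lam, Lam, ← tsum_mul_left, ← (sm_lam s1 hR.ne_zero m).tsum_sub
      ((sm_lam s2 hR.ne_zero m).mul_left _)]
    exact tsum_congr fun c => by rw [pr]; ring
  rw [e3, e1 R m hR, e2 R m hR, mul_sum, ← sum_sub_distrib]
  refine sum_congr rfl fun g hg => ?_
  rw [mul_sum, ← sum_sub_distrib]
  refine sum_congr rfl fun e he => ?_
  have hq := quo_prim hR hg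
  have hge : Primary (g * e) :=
    ((mem_pdiv hR.ne_zero).1 hg).1.mul ((mem_pdiv hq.ne_zero).1 he).1
  rw [lam_wv h₁ hY₁ t₁ hge, lam_wv h₂ hY₂ t₂ hq, lam_wv h₁ hY₃ t₁ hge, lam_wv h₂ hY₄ t₂ hq, VV,
    div_right_comm Y₁ τ, mul_div_right_comm Y₂ τ]
  ring

lemma ex_sup {ι : Type} [Nonempty ι] (s : Finset O) (φ : O → ι → ℝ) (β : ℝ)
    (h0 : ∀ m ∈ s, ∀ i, 0 ≤ φ m i) (h : ∀ r : O → ι, ∑ m ∈ s, φ m (r m) ≤ β) :
    ∃ Mx : O → ℝ, (∀ m ∈ s, ∀ i, φ m i ≤ Mx m) ∧ ∑ m ∈ s, Mx m ≤ β := by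
  have hb : ∀ m ∈ s, BddAbove (Set.range (φ m)) := fun m hm =>
    ⟨β, by
      rintro _ ⟨i, rfl⟩
      exact (single_le_sum (f := fun m => φ m i) (fun m hm => h0 m hm i) hm).trans (h fun _ => i)⟩
  refine ⟨fun m => ⨆ i, φ m i, fun m hm i => le_ciSup (hb m hm) i, ?_⟩
  refine le_of_forall_pos_le_add fun ε hε => ?_
  have hη : 0 < ε / (s.card + 1) := by positivity
  have h1 : ∀ m, ∃ i, (⨆ i, φ m i) - ε / (s.card + 1) < φ m i := fun m =>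
    exists_lt_of_lt_ciSup (by linarith)
  choose r hr using h1
  have h2 : ∑ m ∈ s, (⨆ i, φ m i) ≤ ∑ m ∈ s, (φ m (r m) + ε / (s.card + 1)) :=
    sum_le_sum fun m _ => by linarith [hr m]
  rw [sum_add_distrib, sum_const, nsmul_eq_mul] at h2
  have h3 : (s.card : ℝ) * (ε / (s.card + 1)) ≤ ε := by
    rw [← mul_div_assoc, div_le_iff₀ (by positivity)]
    nlinarith
  linarith [h r]

lemma sq_sum {ι : Type} (T : Finset ι) (x : ι → ℂ) {w B D : ℝ} (hw : 0 ≤ w) (hB : 0 ≤ B)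
    (hD : (T.card : ℝ) ≤ D) (h : ∀ i ∈ T, w * ‖x i‖ ^ 2 ≤ B) :
    w * ‖∑ i ∈ T, x i‖ ^ 2 ≤ D ^ 2 * B := by
  have h1 : ‖∑ i ∈ T, x i‖ ^ 2 ≤ T.card * ∑ i ∈ T, ‖x i‖ ^ 2 :=
    (pow_le_pow_left₀ (norm_nonneg _) (norm_sum_le _ _) 2).trans sq_sum_le_card_mul_sum_sq
  have h2 : w * ∑ i ∈ T, ‖x i‖ ^ 2 ≤ T.card * B := by
    rw [mul_sum]
    simpa using sum_le_card_nsmul T _ B h
  have h3 : (0 : ℝ) ≤ T.card := Nat.cast_nonneg _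
  calc _ ≤ w * (T.card * ∑ i ∈ T, ‖x i‖ ^ 2) := mul_le_mul_of_nonneg_left h1 hw
    _ = T.card * (w * ∑ i ∈ T, ‖x i‖ ^ 2) := by ring
    _ ≤ T.card * (T.card * B) := mul_le_mul_of_nonneg_left h2 h3
    _ = (T.card : ℝ) ^ 2 * B := by ring
    _ ≤ _ := mul_le_mul_of_nonneg_right (pow_le_pow_left₀ h3 hD 2) hB

end Pair

open Pair in
theorem pPair (_hA : Alg) (hb : Base) (h : S_Conv) : S_Pair := by
  refine ⟨fun Q ν₁ ν₂ c₀ τ Y₁ Y₂ t₁ t₂ h₁ h₂ hτ hY₁ hY₂ => ?_, fun θ dl hθ hdl => ?_⟩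
  · obtain ⟨s1, e1⟩ := lam_pr h h₁ h₂ c₀ hτ hY₁ hY₂ t₁ t₂
    refine ⟨s1, funext fun m => ?_⟩
    have hq : quo (1 : O) 1 = 1 := by simpa using mul_quo (dvd_refl (1 : O))
    rw [e1 1 m primary_one, QO.pdiv_one, sum_singleton, hq, QO.pdiv_one, sum_singleton]
    simp [fc, h₁.one, h₂.one]
  obtain ⟨C, hC, hdv⟩ := hb.dvb ((dl - θ) / 4) (by linarith)
  refine ⟨C ^ 4, by positivity, fun Q ν₁ ν₂ c₀ τ Y₁ Y₂ t₁ t₂ β s wt h₁ h₂ hτ hY₁ hY₂ hw H => ?_⟩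
  have : Nonempty {c : O // Primary c} := ⟨⟨1, primary_one⟩⟩
  have hle : ∀ {Y : ℝ} {c : O}, 0 < Y → Primary c → 0 < Y / N c ∧ Y / N c ≤ Y := fun hY hc =>
    ⟨div_pos hY (N_pos' hc), div_le_self hY.le (one_le_N hc.ne_zero)⟩
  obtain ⟨Mx, hM, hS⟩ := ex_sup s (fun m (i : {c : O // Primary c} × {c : O // Primary c}) =>
    wt m * ‖VV ν₁ ν₂ c₀ τ (Y₁ / N i.1.1) (Y₂ / N i.2.1) t₁ t₂ m‖ ^ 2 /
      (Y₁ / N i.1.1 * (Y₂ / N i.2.1)) ^ (1 + dl)) β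
    (fun m hm i => div_nonneg (mul_nonneg (hw m hm) (sq_nonneg _))
      (Real.rpow_nonneg (mul_pos (hle hY₁ i.1.2).1 (hle hY₂ i.2.2).1).le _))
    fun r => H (fun m => Y₁ / N (r m).1.1) (fun m => Y₂ / N (r m).2.1) fun m =>
      ⟨(hle hY₁ (r m).1.2).1, (hle hY₁ (r m).1.2).2, hle hY₂ (r m).2.2⟩
  have hYY : 0 < (Y₁ * Y₂) ^ (1 + dl) := Real.rpow_pos_of_pos (mul_pos hY₁ hY₂) _
  refine ⟨fun m => C ^ 4 * Mx m * (Y₁ * Y₂) ^ (1 + dl), fun m hm R hR => ?_, ?_⟩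
  swap
  · rw [← sum_mul, ← mul_sum]
    gcongr
  have hN := N_pos' hR
  have hM0 : 0 ≤ Mx m := le_trans (div_nonneg (mul_nonneg (hw m hm) (sq_nonneg _))
    (Real.rpow_nonneg (mul_pos (hle hY₁ hR).1 (hle hY₂ hR).1).le _)) (hM m hm (⟨R, hR⟩, ⟨R, hR⟩))
  have hcard : (((pdiv R).sigma fun g => pdiv (quo R g)).card : ℝ) ≤ dv R ^ 2 := by
    rw [card_sigma, Nat.cast_sum, sq]
    have := sum_le_card_nsmul (pdiv R) (fun g => ((pdiv (quo R g)).card : ℝ)) (dv R) fun g hg =>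
      QO.dv_mono ⟨g, by rw [mul_comm, mul_quo ((mem_pdiv hR.ne_zero).1 hg).2]⟩ hR.ne_zero
    rwa [nsmul_eq_mul] at this
  have key := sq_sum ((pdiv R).sigma fun g => pdiv (quo R g))
    (fun i => mu i.2 * psi i.2 m * (fc ν₁ t₁ (i.1 * i.2) * fc ν₂ t₂ (quo R i.1)) *
      VV ν₁ ν₂ c₀ τ (Y₁ / N (i.1 * i.2)) (Y₂ / N (quo R i.1)) t₁ t₂ m)
    (B := Mx m * (Y₁ * Y₂ / N R) ^ (1 + dl)) (hw m hm) (by positivity) hcard fun i hi => by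
      obtain ⟨hg, he⟩ := mem_sigma.1 hi
      have hq := quo_prim hR hg
      obtain ⟨g1, g2⟩ := (mem_pdiv hR.ne_zero).1 hg
      have e1 := ((mem_pdiv hq.ne_zero).1 he).1
      have hge := g1.mul e1
      have a1 := hM m hm (⟨_, hge⟩, ⟨_, hq⟩)
      have a0 := mul_pos (hle hY₁ hge).1 (hle hY₂ hq).1
      rw [div_le_iff₀ (Real.rpow_pos_of_pos a0 _)] at a1
      have a2 : Y₁ / N (i.1 * i.2) * (Y₂ / N (quo R i.1)) ≤ Y₁ * Y₂ / N R := by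
        rw [div_mul_div_comm]
        refine div_le_div_of_nonneg_left (by positivity) hN ?_
        have : (N R : ℝ) = N i.1 * N (quo R i.1) := by
          rw [← Nat.cast_mul, ← map_mul, mul_quo g2]
        rw [this, map_mul, Nat.cast_mul]
        exact mul_le_mul_of_nonneg_right
          (le_mul_of_one_le_right (N_pos' g1).le (one_le_N e1.ne_zero)) (N_pos' hq).le
      refine le_trans ?_ (a1.trans (mul_le_mul_of_nonneg_left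
        (Real.rpow_le_rpow a0.le a2 (by linarith)) hM0))
      refine mul_le_mul_of_nonneg_left (pow_le_pow_left₀ (norm_nonneg _) ?_ 2) (hw m hm)
      rw [norm_mul]
      exact mul_le_of_le_one_left (norm_nonneg _) (norm_mul_le_one
        (norm_mul_le_one (norm_mu_le _) (norm_psi_le _ _))
        (norm_mul_le_one (norm_fc h₁ t₁ hge) (norm_fc h₂ t₂ hq)))
  rw [(lam_pr h h₁ h₂ c₀ hτ hY₁ hY₂ t₁ t₂).2 R m hR, sum_sigma', mul_left_comm]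
  refine (mul_le_mul_of_nonneg_left key (by positivity)).trans ?_
  have b1 : (dv R ^ 2) ^ 2 ≤ C ^ 4 * (N R : ℝ) ^ (dl - θ) := by
    have := pow_le_pow_left₀ (QO.dv_nonneg R) (hdv R hR.ne_zero) 4
    rw [mul_pow, ← Real.rpow_natCast ((N R : ℝ) ^ _), ← Real.rpow_mul hN.le] at this
    rwa [← pow_mul, show dl - θ = (dl - θ) / 4 * ((4 : ℕ) : ℝ) by push_cast; ring]
  have b2 : (N R : ℝ) ^ (1 + θ) * (N R : ℝ) ^ (dl - θ) = (N R : ℝ) ^ (1 + dl) := by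
    rw [← Real.rpow_add hN]
    congr 1
    ring
  have b3 := Real.rpow_pos_of_pos hN (1 + dl)
  rw [Real.div_rpow (by positivity) hN.le]
  calc _ ≤ (N R : ℝ) ^ (1 + θ) * (C ^ 4 * (N R : ℝ) ^ (dl - θ) *
        (Mx m * ((Y₁ * Y₂) ^ (1 + dl) / (N R : ℝ) ^ (1 + dl)))) := by gcongr
    _ = (N R : ℝ) ^ (1 + θ) * (N R : ℝ) ^ (dl - θ) / (N R : ℝ) ^ (1 + dl) *
        (C ^ 4 * Mx m * (Y₁ * Y₂) ^ (1 + dl)) := by ring
    _ = _ := by rw [b2, div_self b3.ne', one_mul]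

end Pool.Agent.P.MP_323ce2_nt.QD
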