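import Pool.Agent.P.MP_323ce2_nt.QD.Bas

/-! Dilates of the convolution with short sums over primes. -/

namespace Pool.Agent.P.MP_323ce2_nt.QD

open Pool.Agent.P.MP_26a8c3_nt Pool.Agent.P.MP_26a8c3_nt.QO Pool.Agent.P.MP_26a8c3_nt.QA
open Pool.Agent.P.MP_26a8c3_nt.QB Pool.Agent.P.MP_323ce2_nt.QZ Pool.Agent.P.MP_323ce2_nt.QF Finset
open scoped Classical ComplexConjugate

namespace Peel

variable {a : O → ℂ} {x : Pc} {p R : O}

/-- the shift by one element -/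
noncomputable def sh (p : O) (a : O → ℂ) (n : O) : ℂ := if p ∣ n then a (quo n p) else 0

lemma sh_mul (hp : p ≠ 0) (a : O → ℂ) (c : O) : sh p a (p * c) = a c := by
  rw [sh, if_pos (dvd_mul_right p c), quo_mul hp]

lemma cvp_eq (x : Pc) (a : O → ℂ) (n : O) : cvp x a n = ∑ p ∈ x.S, x.f p * sh p a n :=
  sum_congr rfl fun p _ => by
    unfold sh
    split_ifs
    exacts [rfl, (mul_zero _).symm]

lemma sm_sh (hp : p ≠ 0) (h : Sm a) : Sm (sh p a) := by
  refine ((mul_right_injective₀ hp).summable_iff (f := fun n => ‖sh p a n‖) fun n hn => ?_).1 ?_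
  · rw [sh, if_neg fun ⟨c, e⟩ => hn ⟨c, e.symm⟩, norm_zero]
  · exact h.congr fun c => by simp only [Function.comp, sh_mul hp]

lemma lam_sh_dvd (hp : p ≠ 0) (h : p ∣ R) (a : O → ℂ) (m : O) :
    Lam (sh p a) R m = Lam a (quo R p) m := by
  obtain ⟨r, rfl⟩ := h
  rw [quo_mul hp]
  exact tsum_congr fun c => by rw [mul_assoc, sh_mul hp]

lemma lam_sh (hp : Prime p) (h : ¬ p ∣ R) (h0 : a 0 = 0) (m : O) :
    Lam (sh p a) R m = psi p m * Lam a R m := by
  have e : ∀ c, sh p a (R * c) * psi c m =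
      if p ∣ c then sh p a (R * c) * psi c m else 0 := fun c => by
    split_ifs with hc
    · rfl
    · rw [sh, if_neg fun e => (hp.dvd_or_dvd e).elim h hc, zero_mul]
  rw [Lam, tsum_congr e, tsum_ite_dvd0 hp.ne_zero, Lam, ← tsum_mul_left]
  refine tsum_congr fun c => ?_
  rw [mul_left_comm, sh_mul hp.ne_zero]
  by_cases hc : c = 0
  · rw [hc, mul_zero, h0, zero_mul, zero_mul, mul_zero]
  · rw [psi_mul_left hp.ne_zero hc]
    ring

lemma lam_cvp (hs : Sm a) (hx : x.wk) (hR : R ≠ 0) (m : O) :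
    Lam (cvp x a) R m = ∑ p ∈ x.S, x.f p * Lam (sh p a) R m := by
  have e : ∀ c, cvp x a (R * c) * psi c m = ∑ p ∈ x.S, x.f p * (sh p a (R * c) * psi c m) :=
    fun c => by
      rw [cvp_eq, sum_mul]
      exact sum_congr rfl fun p _ => mul_assoc _ _ _
  rw [Lam, tsum_congr e, Summable.tsum_finsetSum fun p hp =>
    ((sm_sh (hx.2 p hp).1.ne_zero hs).lam hR m).mul_left _]
  exact sum_congr rfl fun p _ => tsum_mul_left

lemma po_cvp (ha : Po a) (hx : x.wk) : Po (cvp x a) := fun n hn => by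
  obtain ⟨p, hp, e⟩ := exists_ne_zero_of_sum_ne_zero (show cvp x a n ≠ 0 from hn)
  by_cases hd : p ∣ n
  · rw [if_pos hd] at e
    have h1 := ha _ (right_ne_zero_of_mul e)
    have h2 := hx.2 p hp
    rw [← mul_quo hd]
    exact ⟨h2.2.1.mul h1.1, od_mul.2 ⟨h2.2.2.1, h1.2⟩⟩
  · exact absurd (if_neg hd) e

lemma sm_cvp (hs : Sm a) (hx : x.wk) : Sm (cvp x a) := by
  refine Summable.of_nonneg_of_le (fun _ => norm_nonneg _) (fun n => ?_)
    (summable_sum fun p (hp : p ∈ x.S) => (sm_sh (hx.2 p hp).1.ne_zero hs).mul_left ‖x.f p‖)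
  rw [cvp_eq]
  exact (norm_sum_le _ _).trans (le_of_eq (sum_congr rfl fun p _ => norm_mul _ _))

lemma norm_le (ha : Po a) (hs : Sm a) (hx : x.wk) (hR : R ≠ 0) (m : O) :
    ‖Lam (cvp x a) R m‖ ≤ ‖FF x m‖ * ‖Lam a R m‖ +
      ∑ p ∈ x.S.filter (· ∣ R), (‖Lam a R m‖ + ‖Lam a (quo R p) m‖) := by
  have e : Lam (cvp x a) R m = FF x m * Lam a R m +
      ∑ p ∈ x.S.filter (· ∣ R), x.f p * (Lam a (quo R p) m - psi p m * Lam a R m) := by
    rw [lam_cvp hs hx hR, FF, sum_mul, sum_filter, ← sum_add_distrib]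
    refine sum_congr rfl fun p hp => ?_
    split_ifs with h
    · rw [lam_sh_dvd (hx.2 p hp).1.ne_zero h]
      ring
    · rw [lam_sh (hx.2 p hp).1 h ha.zero]
      ring
  rw [e]
  refine (norm_add_le _ _).trans (add_le_add (norm_mul _ _).le ((norm_sum_le _ _).trans
    (sum_le_sum fun p hp => ?_)))
  rw [norm_mul]
  refine (mul_le_of_le_one_left (norm_nonneg _) (hx.2 p (mem_filter.1 hp).1).2.2.2.2).trans
    ((norm_sub_le _ _).trans ?_)
  rw [norm_mul, add_comm]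
  exact add_le_add (mul_le_of_le_one_left (norm_nonneg _) (norm_psi_le _ _)) le_rfl

lemma sq_le {T : Finset O} {w : O → ℝ} {y u v K A Z d : ℝ} (hy : 0 ≤ y) (hK : 0 ≤ K)
    (hZ : 0 ≤ Z) (h : y ≤ u + ∑ p ∈ T, (v + w p)) (hu : K * u ^ 2 ≤ A) (hv : K * v ^ 2 ≤ Z)
    (hw : ∀ p ∈ T, K * w p ^ 2 ≤ Z) (hd : (T.card : ℝ) ≤ d) :
    K * y ^ 2 ≤ 2 * A + 8 * d ^ 2 * Z := by
  have h1 : y ^ 2 ≤ 2 * u ^ 2 + 2 * (∑ p ∈ T, (v + w p)) ^ 2 :=
    (pow_le_pow_left₀ hy h 2).trans (by nlinarith [sq_nonneg (u - ∑ p ∈ T, (v + w p))])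
  have h2 : (∑ p ∈ T, (v + w p)) ^ 2 ≤ T.card * ∑ p ∈ T, (v + w p) ^ 2 := sq_sum_le_card_mul_sum_sq
  have h3 : K * ∑ p ∈ T, (v + w p) ^ 2 ≤ T.card * (4 * Z) := by
    rw [mul_sum, ← nsmul_eq_mul, ← sum_const]
    refine sum_le_sum fun p hp => ?_
    nlinarith [hw p hp, mul_nonneg hK (sq_nonneg (v - w p))]
  have h4 : (0 : ℝ) ≤ T.card := Nat.cast_nonneg _
  have h5 : (T.card : ℝ) ^ 2 * Z ≤ d ^ 2 * Z :=
    mul_le_mul_of_nonneg_right (pow_le_pow_left₀ h4 hd 2) hZ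
  nlinarith [mul_le_mul_of_nonneg_left h1 hK, mul_le_mul_of_nonneg_left h2 hK,
    mul_le_mul_of_nonneg_left h3 h4]

end Peel

open Peel in
theorem pPeel (_hA : Alg) (_hb : Base) : S_Peel := by
  refine ⟨fun a x ha hs hx => ⟨po_cvp ha hx, sm_cvp hs hx, fun m => ?_⟩, fun θ θ' h0 hθ => ?_⟩
  · rw [lam_cvp hs hx one_ne_zero, FF, sum_mul]
    refine sum_congr rfl fun p hp => ?_
    rw [lam_sh (hx.2 p hp).1 (hx.2 p hp).1.not_dvd_one ha.zero, mul_assoc]
  obtain ⟨C, hC, hdv⟩ := dv_le (ε := (θ' - θ) / 2) (by linarith)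
  refine ⟨2 + 8 * C ^ 2, by positivity, ?_⟩
  rintro a x s wt B₁ B₂ ha hs hx hw ⟨M₁, h1, h1'⟩ ⟨M₂, h2, h2'⟩
  have hP : 0 < x.P := by linarith [hx.1]
  have hP1 : 1 ≤ x.P ^ (1 + θ') := Real.one_le_rpow hx.1 (by linarith)
  have n1 := mx_nonneg (fun m hm => mul_nonneg (hw m hm) (sq_nonneg _)) h1
  have n2 := mx_nonneg hw h2
  refine ⟨fun m => (2 + 8 * C ^ 2) * (M₁ m + x.P ^ (1 + θ') * M₂ m), fun m hm R hR => ?_, ?_⟩
  · have hR0 := hR.ne_zero
    have hn := N_pos_real hR0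
    have hZ : 0 ≤ x.P ^ (1 + θ') * M₂ m := mul_nonneg (by positivity) (n2 m hm)
    have key := sq_le (K := wt m * (N R : ℝ) ^ (1 + θ')) (A := M₁ m) (d := dv R) (norm_nonneg _)
      (mul_nonneg (hw m hm) (by positivity)) hZ (norm_le ha hs hx hR0 m)
      (le_trans (le_of_eq (by ring)) (h1 m hm R hR))
      (le_trans (le_of_eq (by ring)) ((h2 m hm R hR).trans (le_mul_of_one_le_left (n2 m hm) hP1)))
      (fun p hp => ?_) ?_
    · have e : (N R : ℝ) ^ (1 + θ') = (N R : ℝ) ^ (1 + θ) * (N R : ℝ) ^ (θ' - θ) := by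
        rw [← Real.rpow_add hn]
        congr 1
        ring
      have h3 : 1 ≤ (N R : ℝ) ^ (θ' - θ) := Real.one_le_rpow (one_le_N hR0) (by linarith)
      have h4 : dv R ^ 2 ≤ C ^ 2 * (N R : ℝ) ^ (θ' - θ) := by
        refine (pow_le_pow_left₀ (Nat.cast_nonneg _) (hdv R hR0) 2).trans (le_of_eq ?_)
        rw [mul_pow, ← Real.rpow_natCast ((N R : ℝ) ^ _), ← Real.rpow_mul hn.le]
        congr 2
        push_cast
        ring
      rw [e] at key
      refine le_of_mul_le_mul_right ?_ (zero_lt_one.trans_le h3)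
      have h5 := mul_le_mul_of_nonneg_right h4 hZ
      have h6 := mul_le_mul_of_nonneg_left h3 (n1 m hm)
      have h7 : 0 ≤ C ^ 2 * (M₁ m * (N R : ℝ) ^ (θ' - θ)) :=
        mul_nonneg (sq_nonneg C) (mul_nonneg (n1 m hm) (by positivity))
      have h8 : 0 ≤ x.P ^ (1 + θ') * M₂ m * (N R : ℝ) ^ (θ' - θ) := mul_nonneg hZ (by positivity)
      nlinarith
    · obtain ⟨hpS, r, rfl⟩ := mem_filter.1 hp
      have hp' := hx.2 p hpS
      have hr : Primary r := hR.of_mul hp'.2.1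
      rw [quo_mul hp'.1.ne_zero, map_mul, Nat.cast_mul,
        Real.mul_rpow (Nat.cast_nonneg _) (Nat.cast_nonneg _)]
      calc _ = (N p : ℝ) ^ (1 + θ') * (wt m * ((N r : ℝ) ^ (1 + θ') * ‖Lam a r m‖ ^ 2)) := by ring
        _ ≤ _ := mul_le_mul (Real.rpow_le_rpow (Nat.cast_nonneg _) hp'.2.2.2.1 (by linarith))
          (h2 m hm r hr) (mul_nonneg (hw m hm) (by positivity)) (by positivity)
    · rw [dv]
      exact_mod_cast card_le_card fun p hp => (mem_pdiv hR0).2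
        ⟨(hx.2 p (mem_filter.1 hp).1).2.1, (mem_filter.1 hp).2⟩
  · rw [← mul_sum, sum_add_distrib, ← mul_sum]
    gcongr

theorem pPeelL (h : S_Peel) : S_PeelL := by
  have hA : ∀ (a : O → ℂ) (l : List Pc), Po a → Sm a → (∀ x ∈ l, x.wk) →
      Po (cvl l a) ∧ Sm (cvl l a) ∧ ∀ m, Lam (cvl l a) 1 m = FL l m * Lam a 1 m := by
    intro a l ha hs hl
    induction l with
    | nil => exact ⟨ha, hs, fun m => by rw [FL_nil, one_mul, cvl_nil]⟩
    | cons x l ih =>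
      obtain ⟨i1, i2, i3⟩ := ih fun z hz => hl z (List.mem_cons_of_mem x hz)
      obtain ⟨j1, j2, j3⟩ := h.1 (cvl l a) x i1 i2 (hl x List.mem_cons_self)
      exact ⟨j1, j2, fun m => by rw [cvl_cons, j3, i3, FL_cons, mul_assoc]⟩
  have hN : ∀ {a : O → ℂ} {s : Finset O} {wt : O → ℝ} {θ θ' dl β C : ℝ}, θ ≤ θ' → 1 ≤ C → 0 ≤ β →
      (∀ m ∈ s, 0 ≤ wt m) → Mxs a θ' s (fun m => wt m * ‖FL [] m‖ ^ 2) (β * PL [] ^ (1 + dl)) →
      Mxs (cvl [] a) θ s wt (C * β * PL [] ^ (1 + dl)) := by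
    intro a s wt θ θ' dl β C hθ hC hβ hw h1
    simp only [FL_nil, PL_nil, norm_one, one_pow, mul_one, Real.one_rpow, cvl_nil] at h1 ⊢
    exact (Mxs.theta h1 hθ hw).mono (le_mul_of_one_le_left hβ hC)
  refine ⟨hA, fun i₀ => ?_⟩
  induction i₀ with
  | zero =>
    refine fun θ θ' dl _ h1 _ => ⟨1, one_pos, fun a l s wt β _ _ _ hl hw hβ H => ?_⟩
    obtain rfl : l = [] := List.length_eq_zero_iff.1 (Nat.le_zero.1 hl)
    exact hN h1.le le_rfl hβ hw (H [] (List.Sublist.refl _))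
  | succ i ih =>
    intro θ θ' dl h0 h1 h2
    obtain ⟨C₁, hC₁, H₁⟩ := h.2 θ ((θ + θ') / 2) h0 (by linarith)
    obtain ⟨C₂, hC₂, H₂⟩ := ih ((θ + θ') / 2) θ' dl (by linarith) (by linarith) h2
    have hC : 0 < C₁ * C₂ := mul_pos hC₁ hC₂
    refine ⟨1 + 2 * (C₁ * C₂), by positivity, fun a l s wt β ha hs hl hlen hw hβ H => ?_⟩
    cases l with
    | nil => exact hN h1.le (by linarith) hβ hw (H [] (List.Sublist.refl _))
    | cons x l =>
      have hx := hl x List.mem_cons_self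
      have hl' : ∀ z ∈ l, z.wk := fun z hz => hl z (List.mem_cons_of_mem x hz)
      have hlen' : l.length ≤ i := Nat.le_of_succ_le_succ hlen
      have hP : 0 < x.P := by linarith [hx.1]
      have hL : ∀ l' : List Pc, l'.Sublist l → 0 ≤ PL l' := fun l' hl'' =>
        zero_le_one.trans (one_le_PL fun z hz => (hl' z (hl''.subset hz)).1)
      have hL0 := hL l (List.Sublist.refl _)
      obtain ⟨i1, i2, -⟩ := hA a l ha hs hl'
      have k1 := H₂ a l s (fun m => wt m * ‖FF x m‖ ^ 2) (β * x.P ^ (1 + dl)) ha hs hl' hlen'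
        (fun m hm => mul_nonneg (hw m hm) (sq_nonneg _)) (by positivity) fun l' hl'' => by
          have k := H (x :: l') (hl''.cons_cons x)
          simp only [FL_cons, PL_cons, norm_mul, mul_pow, Real.mul_rpow hP.le (hL l' hl''),
            ← mul_assoc] at k
          exact k
      have k2 := H₂ a l s wt β ha hs hl' hlen' hw hβ fun l' hl'' => H l' (hl''.cons x)
      refine (H₁ (cvl l a) x s wt _ _ i1 i2 hx hw k1 k2).mono ?_
      have h3 : x.P ^ (1 + (θ + θ') / 2) ≤ x.P ^ (1 + dl) :=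
        Real.rpow_le_rpow_of_exponent_le hx.1 (by linarith)
      have h4 : 0 ≤ C₁ * C₂ * β * PL l ^ (1 + dl) := by positivity
      have h5 : 0 ≤ β * (x.P ^ (1 + dl) * PL l ^ (1 + dl)) := by positivity
      rw [PL_cons, Real.mul_rpow hP.le hL0]
      nlinarith [mul_le_mul_of_nonneg_right h3 h4]

end Pool.Agent.P.MP_323ce2_nt.QD
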