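import Pool.Agent.P.MP_323ce2_nt.QD.Bas

/-! Support and pointwise bound of the coefficients of the products. -/

namespace Pool.Agent.P.MP_323ce2_nt.QD

open Pool.Agent.P.MP_26a8c3_nt Pool.Agent.P.MP_26a8c3_nt.QO Pool.Agent.P.MP_26a8c3_nt.QA
open Pool.Agent.P.MP_26a8c3_nt.QB Pool.Agent.P.MP_323ce2_nt.QZ Pool.Agent.P.MP_323ce2_nt.QF Finset
open scoped Classical ComplexConjugate

namespace PtS

variable {Q : O} {ν ν₁ ν₂ a : O → ℂ} {Y Y₁ Y₂ t t₁ t₂ r c L τ : ℝ} {c₀ : ℂ} {n d : O} {j : ℕ}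

lemma quo_ne (hn : n ≠ 0) (h : d ∣ n) : quo n d ≠ 0 := fun e => hn (by
  rw [← mul_quo h, e, mul_zero])

lemma nr_quo (hn : n ≠ 0) (h : d ∣ n) : nr n = nr d * nr (quo n d) := by
  have hd : d ≠ 0 := ne_zero_of_dvd_ne_zero hn h
  have hq := quo_ne hn h
  rw [nr_eq hn, nr_eq hd, nr_eq hq, ← Nat.cast_mul, ← map_mul, mul_quo h]

lemma od_wv (hQ : 36 ∣ Q) (hν : IsNu Q ν) (h : wv ν Y t n ≠ 0) : Od n := by
  have h1 : uL ν n ≠ 0 := left_ne_zero_of_mul h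
  have h2 : ν n ≠ 0 := fun e => h1 (by simp [uL, e])
  have h3 : IsCoprime n Q := by
    by_contra e
    exact h2 (hν.zero n e)
  exact h3.of_isCoprime_of_dvd_right (dvd_trans ⟨18, by norm_num⟩ hQ)

lemma po_cv (hQ : 36 ∣ Q) (h₁ : IsNu Q ν₁) (h₂ : IsNu Q ν₂) :
    Po (cv (wv ν₁ Y₁ t₁) (wv ν₂ Y₂ t₂)) := fun n hn => by
  unfold cv at hn
  split_ifs at hn with e
  · obtain ⟨d, hd, e'⟩ := exists_ne_zero_of_sum_ne_zero hn
    have hd' := ((mem_pdiv e.ne_zero).1 hd).2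
    refine ⟨e, ?_⟩
    rw [← mul_quo hd']
    exact od_mul.2 ⟨od_wv hQ h₁ (left_ne_zero_of_mul e'), od_wv hQ h₂ (right_ne_zero_of_mul e')⟩
  · exact absurd rfl hn

lemma po_pr (hQ : 36 ∣ Q) (h₁ : IsNu Q ν₁) (h₂ : IsNu Q ν₂) :
    Po (pr ν₁ ν₂ c₀ τ Y₁ Y₂ t₁ t₂) := fun n hn => by
  by_cases e : cv (wv ν₁ Y₁ t₁) (wv ν₂ Y₂ t₂) n = 0
  · refine po_cv (Y₁ := Y₁ / τ) (Y₂ := Y₂ * τ) (t₁ := t₁) (t₂ := t₂) hQ h₁ h₂ n fun e' => hn ?_
    rw [pr, e, e', mul_zero, sub_zero]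
  · exact po_cv hQ h₁ h₂ n e

lemma norm_wv (hν : IsNu Q ν) (hY : 0 < Y) (t r : ℝ) (n : O) :
    ‖wv ν Y t n‖ ≤ Real.exp (r ^ 2 / 4) * (Y / nr n) ^ r := by
  have hn := nr_pos n
  have h1 : ‖uL ν n‖ ≤ 1 := by
    unfold uL
    split_ifs
    · exact hν.le n
    · simp
  have h2 := norm_W_le hY hn t r
  rw [Real.rpow_neg hn.le, mul_assoc, ← div_eq_mul_inv, ← Real.div_rpow hY.le hn.le] at h2
  rw [wv, norm_mul]
  exact (mul_le_of_le_one_left (norm_nonneg _) h1).trans h2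

/-- the bound carried along the induction -/
def Bd (a : O → ℂ) (c : ℝ) (j : ℕ) (L r : ℝ) : Prop :=
  a 0 = 0 ∧ ∀ n, n ≠ 0 → ‖a n‖ ≤ c * dv n ^ j * (L / nr n) ^ r

lemma bd_cv (h₁ : IsNu Q ν₁) (h₂ : IsNu Q ν₂) (hY₁ : 0 < Y₁) (hY₂ : 0 < Y₂) (t₁ t₂ r : ℝ) :
    Bd (cv (wv ν₁ Y₁ t₁) (wv ν₂ Y₂ t₂)) (Real.exp (r ^ 2 / 2)) 1 (Y₁ * Y₂) r := by
  refine ⟨if_neg fun e : Primary 0 => e.ne_zero rfl, fun n hn => ?_⟩
  have hn' := nr_pos n
  have hd0 := QO.dv_nonneg n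
  unfold cv
  split_ifs with e
  · have key : ∀ d ∈ pdiv n, ‖wv ν₁ Y₁ t₁ d * wv ν₂ Y₂ t₂ (quo n d)‖ ≤
        Real.exp (r ^ 2 / 2) * (Y₁ * Y₂ / nr n) ^ r := fun d hd => by
      have hd' := ((mem_pdiv hn).1 hd).2
      have p1 := nr_pos d
      have p2 := nr_pos (quo n d)
      rw [norm_mul, nr_quo hn hd', mul_div_mul_comm, Real.mul_rpow (by positivity) (by positivity),
        show r ^ 2 / 2 = r ^ 2 / 4 + r ^ 2 / 4 by ring, Real.exp_add, mul_mul_mul_comm]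
      exact mul_le_mul (norm_wv h₁ hY₁ _ _ _) (norm_wv h₂ hY₂ _ _ _) (norm_nonneg _)
        (by positivity)
    refine (norm_sum_le _ _).trans ((sum_le_sum key).trans (le_of_eq ?_))
    rw [sum_const, nsmul_eq_mul, pow_one, dv]
    ring
  · rw [norm_zero]
    positivity

lemma bd_pr (h₁ : IsNu Q ν₁) (h₂ : IsNu Q ν₂) (hc : ‖c₀‖ ≤ 1) (hτ : 0 < τ) (hY₁ : 0 < Y₁)
    (hY₂ : 0 < Y₂) (t₁ t₂ r : ℝ) :
    Bd (pr ν₁ ν₂ c₀ τ Y₁ Y₂ t₁ t₂) (2 * Real.exp (r ^ 2 / 2)) 1 (Y₁ * Y₂) r := by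
  have b1 := bd_cv h₁ h₂ hY₁ hY₂ t₁ t₂ r
  have b2 := bd_cv h₁ h₂ (div_pos hY₁ hτ) (mul_pos hY₂ hτ) t₁ t₂ r
  rw [show Y₁ / τ * (Y₂ * τ) = Y₁ * Y₂ by field_simp] at b2
  refine ⟨by rw [pr, b1.1, b2.1, mul_zero, sub_zero], fun n hn => ?_⟩
  have ho : ‖om c₀ τ t₁ t₂‖ ≤ 1 := by rw [om, norm_mul, norm_cpow_I hτ, mul_one]; exact hc
  have e1 := b1.2 n hn
  have e2 := b2.2 n hn
  have e3 := mul_le_of_le_one_left (norm_nonneg (cv (wv ν₁ (Y₁ / τ) t₁) (wv ν₂ (Y₂ * τ) t₂) n)) ho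
  rw [pr]
  refine (norm_sub_le _ _).trans ?_
  rw [norm_mul]
  linarith

lemma bd_cvp (h : Bd a c j L r) (hc : 0 ≤ c) (hL : 0 < L) (hr : 0 ≤ r) {x : Pc} (hx : x.wk) :
    Bd (cvp x a) c (j + 1) (L * x.P) r := by
  have hP : 0 < x.P := lt_of_lt_of_le one_pos hx.1
  constructor
  · refine sum_eq_zero fun p hp => ?_
    have h0 : quo 0 p = 0 := by
      have := mul_quo (dvd_zero p)
      exact (mul_eq_zero.1 this).resolve_left (hx.2 p hp).1.ne_zero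
    rw [if_pos (dvd_zero p), h0, h.1, mul_zero]
  · intro n hn
    have hn' := nr_pos n
    have hd0 := QO.dv_nonneg n
    have key : ∀ p ∈ x.S.filter (· ∣ n), ‖x.f p * a (quo n p)‖ ≤
        c * dv n ^ j * (L * x.P / nr n) ^ r := fun p hp => by
      obtain ⟨hp, hd⟩ := mem_filter.1 hp
      obtain ⟨h1, -, -, h4, h5⟩ := hx.2 p hp
      have hq := quo_ne hn hd
      have p1 := nr_pos p
      have p2 := nr_pos (quo n p)
      have q1 : dv (quo n p) ≤ dv n := QO.dv_mono ⟨p, by rw [mul_comm, mul_quo hd]⟩ hn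
      have q0 := QO.dv_nonneg (quo n p)
      have q2 : L / nr (quo n p) ≤ L * x.P / nr n := by
        rw [nr_quo hn hd, div_le_div_iff₀ p2 (by positivity), nr_eq h1.ne_zero]
        have := mul_le_mul_of_nonneg_left h4 (mul_pos hL p2).le
        linarith
      rw [norm_mul]
      refine (mul_le_of_le_one_left (norm_nonneg _) h5).trans ((h.2 _ hq).trans ?_)
      gcongr
    have hcard : ((x.S.filter (· ∣ n)).card : ℝ) ≤ dv n := by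
      rw [dv]
      exact_mod_cast card_le_card fun p hp =>
        (mem_pdiv hn).2 ⟨(hx.2 p (mem_filter.1 hp).1).2.1, (mem_filter.1 hp).2⟩
    rw [cvp, ← sum_filter]
    refine (norm_sum_le _ _).trans ((sum_le_sum key).trans ?_)
    rw [sum_const, nsmul_eq_mul]
    refine (mul_le_mul_of_nonneg_right hcard (by positivity)).trans (le_of_eq ?_)
    ring

lemma bd_cvl (h : Bd a c j L r) (hc : 0 ≤ c) (hL : 0 < L) (hr : 0 ≤ r) {l : List Pc}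
    (hl : ∀ x ∈ l, x.wk) : Bd (cvl l a) c (j + l.length) (L * PL l) r := by
  induction l with
  | nil => simpa using h
  | cons x l ih =>
    have h1 := ih fun z hz => hl z (by simp [hz])
    have h2 : 1 ≤ PL l := one_le_PL fun z hz => (hl z (by simp [hz])).1
    have h3 := bd_cvp h1 hc (by positivity) hr (hl x (by simp))
    rw [cvl_cons, PL_cons, List.length_cons, ← add_assoc, mul_comm x.P, ← mul_assoc]
    exact h3

lemma sq_le {i : ℕ} {C η : ℝ} (h : Bd a c j L r) (hc : 0 ≤ c) (hL : 0 < L) (hj : j ≤ i)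
    (H : ∀ n : O, n ≠ 0 → (dv n ^ i) ^ 2 ≤ C * nr n ^ η) (hn : n ≠ 0) :
    ‖a n‖ ^ 2 ≤ c ^ 2 * C * (nr n ^ η * (L / nr n) ^ (2 * r)) := by
  have hn' := nr_pos n
  have h1 := QO.one_le_dv hn
  have h2 : ‖a n‖ ≤ c * dv n ^ i * (L / nr n) ^ r := (h.2 n hn).trans (by gcongr)
  have h3 : ((L / nr n) ^ r) ^ 2 = (L / nr n) ^ (2 * r) := by
    rw [← Real.rpow_natCast, ← Real.rpow_mul (by positivity), mul_comm]
    norm_num
  calc ‖a n‖ ^ 2 ≤ (c * dv n ^ i * (L / nr n) ^ r) ^ 2 := pow_le_pow_left₀ (norm_nonneg _) h2 2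
    _ = c ^ 2 * (dv n ^ i) ^ 2 * (L / nr n) ^ (2 * r) := by rw [mul_pow, mul_pow, h3]
    _ ≤ c ^ 2 * (C * nr n ^ η) * (L / nr n) ^ (2 * r) := by have := H n hn; gcongr
    _ = _ := by ring

lemma ex_dv (i : ℕ) {η : ℝ} (hη : 0 < η) :
    ∃ C : ℝ, 0 < C ∧ ∀ n : O, n ≠ 0 → (dv n ^ (i + 1)) ^ 2 ≤ C * nr n ^ η := by
  obtain ⟨C, hC, H⟩ := dv_le (ε := η / ((i + 1) * 2 : ℕ)) (by positivity)
  refine ⟨C ^ ((i + 1) * 2), by positivity, fun n hn => ?_⟩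
  have hN := nr_pos n
  have h1 := H n hn
  rw [← nr_eq hn] at h1
  rw [← pow_mul]
  refine (pow_le_pow_left₀ (QO.dv_nonneg n) h1 _).trans (le_of_eq ?_)
  rw [mul_pow, ← Real.rpow_natCast (nr n ^ _), ← Real.rpow_mul hN.le,
    div_mul_cancel₀ _ (by positivity)]

end PtS

open PtS in
theorem pPtS (_hA : Alg) (_hb : Base) : S_PtS := by
  refine ⟨fun Q ν₁ ν₂ c₀ τ Y₁ Y₂ t₁ t₂ hQ h₁ h₂ => po_pr hQ h₁ h₂, fun i₀ η hη => ?_⟩
  obtain ⟨C, hC, H⟩ := ex_dv i₀ hη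
  refine ⟨(2 * Real.exp ((20 + η / 2) ^ 2 / 2)) ^ 2 * C, by positivity, ?_⟩
  intro Q ν₁ ν₂ c₀ τ Y₁ Y₂ t₁ t₂ l h₁ h₂ hc hτ hY₁ hY₂ hl hi n
  have hP : 1 ≤ PL l := one_le_PL fun z hz => (hl z hz).1
  have hL : 0 < Y₁ * Y₂ * PL l := by positivity
  have B : ∀ r : ℝ, 0 ≤ r → Bd (cvl l (pr ν₁ ν₂ c₀ τ Y₁ Y₂ t₁ t₂)) (2 * Real.exp (r ^ 2 / 2))
      (1 + l.length) (Y₁ * Y₂ * PL l) r := fun r hr =>
    bd_cvl (bd_pr h₁ h₂ hc hτ hY₁ hY₂ t₁ t₂ r) (by positivity) (by positivity) hr hl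
  set L := Y₁ * Y₂ * PL l with hLd
  have hn' := nr_pos n
  by_cases hn : n = 0
  · rw [hn, (B 0 le_rfl).1]
    simp only [norm_zero, ne_eq, OfNat.ofNat_ne_zero, not_false_eq_true, zero_pow, zero_mul]
    exact ⟨by positivity, by positivity⟩
  have e0 : nr n ^ η * (L / nr n) ^ η = L ^ η := by
    rw [← Real.mul_rpow hn'.le (by positivity), mul_div_cancel₀ _ hn'.ne']
  constructor
  · have h := sq_le (B (η / 2) (by positivity)) (by positivity) hL (by omega) H hn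
    rw [show 2 * (η / 2) = η by ring, e0] at h
    refine h.trans ?_
    gcongr
    linarith
  · have h := sq_le (B (20 + η / 2) (by positivity)) (by positivity) hL (by omega) H hn
    rw [show 2 * (20 + η / 2) = η + ((40 : ℕ) : ℝ) by push_cast; ring,
      Real.rpow_add (by positivity), ← mul_assoc (nr n ^ η), e0, Real.rpow_natCast, div_pow] at h
    refine (mul_le_mul_of_nonneg_right h (by positivity)).trans (le_of_eq ?_)
    field_simp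

end Pool.Agent.P.MP_323ce2_nt.QD
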