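import Pool.Agent.P.MP_323ce2_nt.QD.St
import Pool.Agent.P.MP_26a8c3_nt.QL.Fib

/-! The squarefree part of a dilate inherits the hypothesis on the smaller family. -/

namespace Pool.Agent.P.MP_323ce2_nt.QD

open Pool.Agent.P.MP_26a8c3_nt Pool.Agent.P.MP_26a8c3_nt.QO Pool.Agent.P.MP_26a8c3_nt.QA
open Pool.Agent.P.MP_26a8c3_nt.QB Pool.Agent.P.MP_323ce2_nt.QZ Pool.Agent.P.MP_323ce2_nt.QF Finset
open scoped Classical ComplexConjugate

namespace SFP

theorem sf_ind {c : O} (hc : Primary c) {T : ℝ} (hT : (N c : ℝ) ≤ T) :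
    (if Squarefree c then (1 : ℂ) else 0) =
      ∑ k ∈ (ball T).filter Primary, if k ^ 2 ∣ c then mu k else 0 := by
  obtain ⟨a, b, ha, e⟩ := QL.Fib.ex_sq c hc.ne_zero
  replace e : b ^ 2 * a = c := by rw [e, mul_comm]
  have hbc : b ∣ c := ⟨b * a, by rw [← e]; ring⟩
  have hb : Primary (_root_.normalize b) := hc.of_dvd hbc
  have h1 : ∀ k, k ∈ pdiv (_root_.normalize b) ↔ Primary k ∧ k ∣ b := fun k => by
    rw [mem_pdiv hb.ne_zero, dvd_normalize_iff]
  have h2 : ∑ k ∈ pdiv (_root_.normalize b), (if k ^ 2 ∣ c then mu k else 0) =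
      ∑ k ∈ (ball T).filter Primary, if k ^ 2 ∣ c then mu k else 0 := by
    refine sum_subset (fun k hk => ?_) fun k hk hk' => ?_
    · obtain ⟨h3, h4⟩ := (h1 k).1 hk
      refine mem_filter.2 ⟨mem_ball.2 (le_trans ?_ hT), h3⟩
      exact_mod_cast N_le_of_dvd (h4.trans hbc) hc.ne_zero
    · split_ifs with h3
      · refine mu_of_not fun h4 => hk' ((h1 k).2 ⟨(mem_filter.1 hk).2, ?_⟩)
        rw [← e, sq, mul_comm (b ^ 2)] at h3
        exact (h4.dvd_pow_iff_dvd two_ne_zero).1 (ha.dvd_of_squarefree_of_mul_dvd_mul_right h3)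
      · rfl
  rw [← h2, sum_congr rfl fun k hk => if_pos
    ((pow_dvd_pow_of_dvd ((h1 k).1 hk).2 2).trans ⟨a, e.symm⟩), sum_mu_pdiv hb]
  refine if_congr ⟨fun h => normalize_eq_one.2 (h b ⟨a, by rw [← e, sq]⟩), fun h => ?_⟩ rfl rfl
  rw [← e]
  exact (associated_unit_mul_left a _ ((normalize_eq_one.1 h).pow 2)).squarefree_iff.2 ha

theorem fs_sum {B : O → ℂ} (h : Fs B) : Summable B := summable_of_hasFiniteSupport h

theorem tsum_sf {B : O → ℂ} (hB : Fs B) (hP : ∀ c, B c ≠ 0 → Primary c) :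
    ∃ K : Finset O, (∀ k ∈ K, Primary k) ∧
      ∑' c, (if Squarefree c then B c else 0) = ∑ k ∈ K, mu k * ∑' c, B (k ^ 2 * c) := by
  obtain ⟨T, hT⟩ := (hB.image fun c => (N c : ℝ)).bddAbove
  refine ⟨(ball T).filter Primary, fun k hk => (mem_filter.1 hk).2, ?_⟩
  have e : ∀ c, (if Squarefree c then B c else 0) =
      ∑ k ∈ (ball T).filter Primary, mu k * if k ^ 2 ∣ c then B c else 0 := fun c => by
    by_cases h : B c = 0
    · simp [h]
    · have h1 := congrArg (· * B c) (sf_ind (hP c h) (hT ⟨c, h, rfl⟩))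
      simpa only [sum_mul, ite_mul, one_mul, zero_mul, mul_ite, mul_zero] using h1
  rw [tsum_congr e, Summable.tsum_finsetSum fun k _ => Summable.mul_left _
    (fs_sum (hB.subset fun c hc h => hc (by simp only [h, ite_self])))]
  refine sum_congr rfl fun k hk => ?_
  rw [tsum_mul_left, tsum_ite_dvd0 (pow_ne_zero 2 (mem_filter.1 hk).2.ne_zero)]

theorem fs_dil {A : O → ℂ} (hA : Fs A) {R : O} (hR : R ≠ 0) (f g : O → ℂ) :
    Fs fun c => f c * (A (R * c) * g c) :=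
  (hA.preimage (mul_right_injective₀ hR).injOn).subset fun c hc h => hc (by simp only [h]; ring)

theorem dil {A : O → ℂ} (h0 : A 0 = 0) (R : O) {d : O} (hd : d ≠ 0) (m c : O) :
    A (R * (d * c)) * psi (d * c) m = psi d m * (A (R * d * c) * psi c m) := by
  by_cases hc : c = 0
  · simp [hc, h0]
  · rw [psi_mul_left hd hc, mul_assoc R]
    ring

theorem bound {A : O → ℂ} (hA : Fs A) (hP : Po A) {R R' m : O} (hR : Primary R) (hR' : SQO R')
    {v θ : ℝ} (hv : 0 ≤ v) (hθ : 0 < θ)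
    (h : ∀ R0, Primary R0 → ‖Lam A R0 m‖ ≤ v * (N R0 : ℝ) ^ (-((1 + θ) / 2))) :
    ‖∑' c, (if SQO (R' * c) then A (R * (R' * c)) * psi c m else 0)‖ ≤
      dv R' * (v * (N (R * R') : ℝ) ^ (-((1 + θ) / 2))) * ∑' k : O, (N k : ℝ) ^ (-(1 + θ)) := by
  have h0 : A 0 = 0 := by_contra fun e => (hP 0 e).1.ne_zero rfl
  have hRR := hR.mul hR'.1.1
  have hp : ∀ c, A (R * R' * c) ≠ 0 → Primary c ∧ Od c := fun c hc =>
    ⟨(hP _ hc).1.of_mul hRR, (od_mul.1 (hP _ hc).2).2⟩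
  have e1 : ∀ c, (if SQO (R' * c) then A (R * (R' * c)) * psi c m else 0) =
      if Squarefree c then cop R' c * (A (R * R' * c) * psi c m) else 0 := fun c => by
    rw [← mul_assoc]
    by_cases hc : A (R * R' * c) = 0
    · simp [hc]
    obtain ⟨h1, h2⟩ := hp c hc
    by_cases h3 : SQO (R' * c)
    · rw [if_pos h3, if_pos h3.1.2.of_mul_right, cop_of h3.1.coprime.symm, one_mul]
    · rw [if_neg h3]
      split_ifs with h4
      · rw [cop_of_not fun h5 => h3 ⟨hR'.1.mul ⟨h1, h4⟩ h5.symm, od_mul.2 ⟨hR'.2, h2⟩⟩, zero_mul]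
      · rfl
  obtain ⟨K, hK, e2⟩ := tsum_sf (fs_dil hA hRR.ne_zero (cop R') fun c => psi c m)
    fun c hc => (hp c fun e => hc (by simp only [e]; ring)).1
  rw [tsum_congr e1, e2]
  have h0' : 0 ≤ dv R' * (v * (N (R * R') : ℝ) ^ (-((1 + θ) / 2))) :=
    mul_nonneg (Nat.cast_nonneg _) (by positivity)
  refine (norm_sum_le _ _).trans (le_trans ?_ (mul_le_mul_of_nonneg_left
    ((summable_N' (by linarith : 1 < 1 + θ)).sum_le_tsum K fun _ _ => by positivity) h0'))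
  rw [mul_sum]
  refine sum_le_sum fun k hk => ?_
  have hk2 := (hK k hk).pow 2
  have e3 : ∀ c, cop R' (k ^ 2 * c) * (A (R * R' * (k ^ 2 * c)) * psi (k ^ 2 * c) m) =
      cop R' (k ^ 2) * psi (k ^ 2) m * (cop R' c * (A (R * R' * k ^ 2 * c) * psi c m)) :=
    fun c => by
      rw [(isNu_cop R').mul, dil h0 _ hk2.ne_zero]
      ring
  have hs : Summable fun c => A (R * R' * k ^ 2 * c) * psi c m := by
    simpa using fs_sum (fs_dil hA (hRR.mul hk2).ne_zero (fun _ => 1) fun c => psi c m)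
  rw [tsum_congr e3, tsum_mul_left, tsum_cop hR'.1.1 hs, norm_mul, norm_mul]
  refine (mul_le_of_le_one_left (by positivity) (norm_mu_le k)).trans
    ((mul_le_of_le_one_left (norm_nonneg _)
      (norm_mul_le_one ((isNu_cop R').le _) (norm_psi_le _ _))).trans ?_)
  refine (norm_sum_le _ _).trans ((sum_le_card_nsmul _ _
    (v * (N (R * R') : ℝ) ^ (-((1 + θ) / 2)) * (N k : ℝ) ^ (-(1 + θ))) fun l hl => ?_).trans
    (le_of_eq (by rw [nsmul_eq_mul, dv]; ring)))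
  have hl1 := ((mem_pdiv hR'.1.ne_zero).1 hl).1
  rw [tsum_congr (dil h0 _ hl1.ne_zero m), tsum_mul_left, ← mul_assoc, norm_mul]
  refine (mul_le_of_le_one_left (norm_nonneg _)
    (norm_mul_le_one (norm_mu_le _) (norm_psi_le _ _))).trans
    ((h _ ((hRR.mul hk2).mul hl1)).trans ?_)
  have a1 := N_pos_real hRR.ne_zero
  have a2 := N_pos_real (hK k hk).ne_zero
  have a3 := one_le_N hl1.ne_zero
  have e4 : (N k : ℝ) ^ (-(1 + θ)) = ((N k : ℝ) ^ 2) ^ (-((1 + θ) / 2)) := by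
    rw [← Real.rpow_two, ← Real.rpow_mul a2.le]
    congr 1
    ring
  rw [mul_assoc v, e4, ← Real.mul_rpow a1.le (by positivity), map_mul _ _ l, map_mul _ _ (k ^ 2),
    map_pow]
  push_cast
  refine mul_le_mul_of_nonneg_left (Real.rpow_le_rpow_of_nonpos (by positivity)
    (le_mul_of_one_le_right (by positivity) a3) (by linarith)) hv

end SFP

open SFP in
theorem pSF (_hA : Alg) (_hb : Base) : S_SF := by
  intro θ hθ
  obtain ⟨C1, hC1, hd⟩ := dv_le (show 0 < θ / 4 by linarith)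
  set Z := ∑' k : O, (N k : ℝ) ^ (-(1 + θ)) with hZ
  have hZ0 : 0 ≤ Z := tsum_nonneg fun _ => by positivity
  refine ⟨(C1 * (Z + 1)) ^ 2, by positivity, fun a R L M' b k hF hP hR hO hL hM hb h => ?_⟩
  intro ρ hρ σ u y s h1 h2 h3 h4
  obtain ⟨Mx, hx, hs⟩ := h ρ hρ σ u y s h1 h2 h3 h4
  have hN := N_pos_real hR.ne_zero
  refine ⟨fun m => (C1 * (Z + 1)) ^ 2 / (N R : ℝ) ^ (1 + θ) * Mx m, fun m hm R' hR' => ?_, ?_⟩
  swap
  · rw [← mul_sum]
    refine (mul_le_mul_of_nonneg_left hs (by positivity)).trans (le_of_eq ?_)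
    ring
  have hM0 : 0 ≤ Mx m := le_trans (by positivity) (hx m hm 1 primary_one)
  have hN' := N_pos_real hR'.ne_zero
  have hρ1 : ‖ρ R‖ = 1 := hρ.norm_eq (by
    rw [show (4 : O) = 2 ^ 2 by norm_num]
    exact IsCoprime.pow_right hO)
  have e1 : ρ R * Lam (Tw (sfp a R) (L / N R) σ u ρ) R' m =
      ∑' c, (if SQO (R' * c) then Tw a L σ u ρ (R * (R' * c)) * psi c m else 0) := by
    rw [Lam, ← tsum_mul_left]
    refine tsum_congr fun c => ?_
    unfold Tw sfp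
    split_ifs with hc
    · rw [hρ.mul R, nr_mul hR.ne_zero hc.1.ne_zero, div_div_eq_mul_div, mul_comm (nr _)]
      ring
    · simp
  have e2 : ‖Lam (Tw (sfp a R) (L / N R) σ u ρ) R' m‖ =
      ‖∑' c, (if SQO (R' * c) then Tw a L σ u ρ (R * (R' * c)) * psi c m else 0)‖ := by
    rw [← e1, norm_mul, hρ1, one_mul]
  rw [one_mul, e2]
  by_cases hq : SQO R'
  swap
  · rw [tsum_congr fun c => if_neg fun hc : SQO (R' * c) =>
      hq ⟨hc.1.left hR', (od_mul.1 hc.2).1⟩]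
    simp only [tsum_zero, norm_zero, ne_eq, OfNat.ofNat_ne_zero, not_false_eq_true, zero_pow,
      mul_zero]
    positivity
  have hne : ∀ c, Tw a L σ u ρ c ≠ 0 → a c ≠ 0 := fun c hc e => hc (by simp [Tw, e])
  have h5 := bound (A := Tw a L σ u ρ) (hF.subset hne) (fun c hc => hP c (hne c hc)) (m := m)
    hR hq (Real.sqrt_nonneg (Mx m)) hθ fun R0 h0 => by
      have a1 := N_pos_real h0.ne_zero
      have a2 := hx m hm R0 h0
      rw [one_mul, ← le_div_iff₀' (by positivity)] at a2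
      refine (Real.le_sqrt_of_sq_le a2).trans (le_of_eq ?_)
      rw [Real.sqrt_div hM0, Real.rpow_neg a1.le, Real.sqrt_eq_rpow ((N R0 : ℝ) ^ _),
        ← Real.rpow_mul a1.le, div_eq_mul_inv, mul_one_div]
  have h6 : dv R' * (√(Mx m) * (N (R * R') : ℝ) ^ (-((1 + θ) / 2))) * Z ≤
      C1 * (N R' : ℝ) ^ (θ / 4) * (√(Mx m) * (N (R * R') : ℝ) ^ (-((1 + θ) / 2))) * (Z + 1) :=
    mul_le_mul (mul_le_mul_of_nonneg_right (hd R' hR'.ne_zero) (by positivity)) (by linarith) hZ0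
      (by positivity)
  refine (mul_le_mul_of_nonneg_left (pow_le_pow_left₀ (norm_nonneg _) (h5.trans h6) 2)
    (by positivity)).trans (le_of_eq ?_)
  have e3 : ((N (R * R') : ℝ) ^ (-((1 + θ) / 2))) ^ 2 =
      ((N R : ℝ) ^ (1 + θ))⁻¹ * (N R' : ℝ) ^ (-(1 + θ)) := by
    rw [← Real.rpow_two, ← Real.rpow_mul (by positivity), map_mul, Nat.cast_mul,
      Real.mul_rpow hN.le hN'.le, ← Real.rpow_neg hN.le]
    congr 2 <;> ring
  have e4 : (N R' : ℝ) ^ (1 + θ / 2) * ((N R' : ℝ) ^ (θ / 4)) ^ 2 * (N R' : ℝ) ^ (-(1 + θ)) = 1 := by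
    rw [← Real.rpow_two, ← Real.rpow_mul hN'.le, ← Real.rpow_add hN', ← Real.rpow_add hN',
      show 1 + θ / 2 + θ / 4 * 2 + -(1 + θ) = 0 by ring, Real.rpow_zero]
  simp only [mul_pow, e3, Real.sq_sqrt hM0]
  linear_combination (C1 ^ 2 * (Z + 1) ^ 2 * ((N R : ℝ) ^ (1 + θ))⁻¹ * Mx m) * e4

end Pool.Agent.P.MP_323ce2_nt.QD
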