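import Pool.Agent.P.MP_323ce2_nt.QD.St

/-! Separation of variables for a family of double sums with scales depending on the member. -/

namespace Pool.Agent.P.MP_323ce2_nt.QD

open Pool.Agent.P.MP_26a8c3_nt Pool.Agent.P.MP_26a8c3_nt.QO Pool.Agent.P.MP_26a8c3_nt.QA
open Pool.Agent.P.MP_26a8c3_nt.QB Pool.Agent.P.MP_323ce2_nt.QZ Pool.Agent.P.MP_323ce2_nt.QF Finset
open scoped Classical ComplexConjugate

namespace Sep

open MeasureTheory

/-- separation on one line, with points depending on the member of the family -/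
theorem sum_KS_le' {H ι κ : Type*} [Countable ι] [Countable κ] {α : H → ι → ℂ} {β : H → κ → ℂ}
    {x : H → ι → ℝ} {y : H → κ → ℝ} {σ l0 b : ℝ} {k : ℕ}
    (hσ : 0 < σ) (hl0 : 0 < l0) (s : Finset H) {lam : H → ℝ}
    (hx : ∀ h ∈ s, ∀ i, 0 < x h i) (hy : ∀ h ∈ s, ∀ j, 0 < y h j) (hl : ∀ h ∈ s, l0 ≤ lam h)
    (ha : ∀ h ∈ s, Summable fun i => ‖α h i‖ * x h i ^ σ)
    (hb : ∀ h ∈ s, Summable fun j => ‖β h j‖ * y h j ^ σ)
    (hbd : ∀ u : ℝ,
      ∑ h ∈ s, ‖DS (α h) (x h) σ u‖ * ‖DS (β h) (y h) σ u‖ ≤ b * (1 + |u|) ^ k) :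
    ∑ h ∈ s, ‖KS (α h) (β h) (x h) (y h) (lam h)‖ ≤ GK σ k * (l0 ^ (-σ) * b) := by
  have h1 : ∀ h ∈ s, ‖KS (α h) (β h) (x h) (y h) (lam h)‖ ≤ l0 ^ (-σ) * (1 / (2 * Real.pi) *
      ∫ u : ℝ, ‖Complex.Gamma (σ + u * Complex.I)‖ *
        (‖DS (α h) (x h) σ u‖ * ‖DS (β h) (y h) σ u‖)) := by
    intro h hh
    refine (norm_KS_le (hx h hh) (hy h hh) hσ (hl0.trans_le (hl h hh)) (ha h hh)
      (hb h hh)).trans ?_
    refine mul_le_mul_of_nonneg_right
      (Real.rpow_le_rpow_of_nonpos hl0 (hl h hh) (by linarith)) ?_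
    exact mul_nonneg (by positivity) (integral_nonneg fun u => by positivity)
  refine (Finset.sum_le_sum h1).trans ?_
  rw [← Finset.mul_sum, ← Finset.mul_sum,
    ← integral_finsetSum s fun h hh => integrable_sep (hx h hh) (hy h hh) hσ (ha h hh) (hb h hh)]
  have h2 : ∫ u : ℝ, ∑ h ∈ s, ‖Complex.Gamma (σ + u * Complex.I)‖ *
      (‖DS (α h) (x h) σ u‖ * ‖DS (β h) (y h) σ u‖) ≤
      ∫ u : ℝ, b * (‖Complex.Gamma (σ + u * Complex.I)‖ * (1 + |u|) ^ k) := by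
    refine integral_mono (integrable_finsetSum s fun h hh =>
      integrable_sep (hx h hh) (hy h hh) hσ (ha h hh) (hb h hh))
      ((integrable_Gamma_pow hσ k).const_mul b) fun u => ?_
    simp only
    rw [← Finset.mul_sum, mul_left_comm]
    exact mul_le_mul_of_nonneg_left (hbd u) (norm_nonneg _)
  rw [integral_const_mul] at h2
  have h3 : 0 ≤ l0 ^ (-σ) := by positivity
  calc _ ≤ l0 ^ (-σ) * (1 / (2 * Real.pi) *
        (b * ∫ u : ℝ, ‖Complex.Gamma (σ + u * Complex.I)‖ * (1 + |u|) ^ k)) := by gcongr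
    _ = _ := by rw [GK]; ring

lemma DS_conj {ι : Type*} (g : ι → ℂ) {x : ι → ℝ} (hx : ∀ i, 0 < x i) (σ v : ℝ) :
    ‖DS (fun c => conj (g c)) x σ v‖ = ‖DS g x σ (-v)‖ := by
  rw [← Complex.norm_conj (DS g x σ (-v)), DS, DS, Complex.conj_tsum]
  congr 1
  refine tsum_congr fun c => ?_
  rw [map_mul, cpow_eq (hx c), cpow_eq (hx c), ← Complex.exp_conj]
  congr 2
  simp only [map_mul, map_add, Complex.conj_ofReal, Complex.conj_I]
  push_cast; ring

lemma summ {a : O → ℂ} (ha : Fs a) (w : O → ℝ) : Summable fun c => ‖a c‖ * w c := by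
  refine summable_of_hasFiniteSupport (ha.subset fun c hc => ?_)
  intro h0
  exact hc (by simp [h0])

lemma summ' {a : O → ℂ} (ha : Fs a) (w : O → ℝ) : Summable fun c => ‖conj (a c)‖ * w c := by
  simpa only [Complex.norm_conj] using summ ha w

lemma geo (A j : ℕ) (K b : ℝ) :
    K * (((2 : ℝ) ^ j) ^ (-((A : ℝ) + 1)) * (b * (2 ^ (j + 1)) ^ A)) =
      K * b * 2 ^ A * (1 / 2) ^ j := by
  have hp : (0 : ℝ) < 2 ^ j := by positivity
  have e : ((2 : ℝ) ^ j) ^ (-((A : ℝ) + 1)) = (((2 : ℝ) ^ j) ^ (A + 1))⁻¹ := by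
    rw [Real.rpow_neg hp.le, ← Real.rpow_natCast ((2 : ℝ) ^ j) (A + 1)]
    push_cast; rfl
  rw [e, pow_succ (2 : ℝ) j, mul_pow, pow_succ, one_div, inv_pow]
  field_simp

end Sep

open Pool.Agent.P.MP_323ce2_nt.QD.Sep in
theorem pSep : S_Sep := by
  intro ε A k hε
  have g1 := GK_nonneg ε k
  have g2 := GK_nonneg ((A : ℝ) + 1) k
  refine ⟨GK ε k + GK ((A : ℝ) + 1) k * 2 ^ (A + 1) + 1, by positivity, ?_⟩
  intro H s α L n V b hV hb hs hbd
  have hV0 : 0 < V := by linarith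
  have ha := QB.one_le_a0
  set x : H → O → ℝ := fun h c => nr c / L h with hx
  have hx0 : ∀ h ∈ s, ∀ c, 0 < x h c := fun h hh c => div_pos (nr_pos c) (hs h hh).2.1
  have hn0 : ∀ h ∈ s, 0 < n h := fun h hh => (inv_pos.2 hV0).trans_le (hs h hh).2.2
  have e : ∀ h ∈ s, ‖∑' y : O × O, α h y.1 * conj (α h y.2) *
      (G (n h * L h ^ 2 / (nr y.1 * nr y.2)) : ℝ)‖ =
      ‖KS (α h) (fun c => conj (α h c)) (x h) (x h) (a0 * n h)‖ := by
    intro h hh
    have hL := (hs h hh).2.1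
    rw [KS]
    congr 1
    refine tsum_congr fun y => ?_
    have h1 := nr_pos y.1
    have h2 := nr_pos y.2
    rw [G]
    congr 4
    simp only [hx]
    field_simp
  rw [sum_congr rfl e]
  have line : ∀ (σ z l0 : ℝ) (t : Finset H), σ = ε ∨ σ = A + 1 → 1 ≤ z → 0 < l0 → t ⊆ s →
      (∀ h ∈ t, n h ≤ z) → (∀ h ∈ t, l0 ≤ n h) →
      ∑ h ∈ t, ‖KS (α h) (fun c => conj (α h c)) (x h) (x h) (a0 * n h)‖ ≤
        GK σ k * (l0 ^ (-σ) * (b * z ^ A)) := by
    intro σ z l0 t hσ hz hl ht hle hge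
    have hσ0 : 0 < σ := by
      rcases hσ with h | h
      · rw [h]; exact hε
      · rw [h]; positivity
    have sub : ∀ u : ℝ, ∑ h ∈ t, ‖DS (α h) (x h) σ u‖ ^ 2 ≤ b * z ^ A * (1 + |u|) ^ k := by
      intro u
      refine le_trans ?_ (hbd σ u z hσ hz)
      refine sum_le_sum_of_subset_of_nonneg (f := fun h => ‖DS (α h) (x h) σ u‖ ^ 2)
        (fun h hh => mem_filter.2 ⟨ht hh, hle h hh⟩) fun _ _ _ => by positivity
    refine sum_KS_le' hσ0 hl t (fun h hh => hx0 h (ht hh)) (fun h hh => hx0 h (ht hh))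
      (fun h hh => (hge h hh).trans (le_mul_of_one_le_left (hn0 h (ht hh)).le ha))
      (fun h hh => summ (hs h (ht hh)).1 _) (fun h hh => summ' (hs h (ht hh)).1 _) fun u => ?_
    have s1 := sub u
    have s2 := sub (-u)
    rw [abs_neg] at s2
    calc _ ≤ ∑ h ∈ t, (‖DS (α h) (x h) σ u‖ ^ 2 + ‖DS (α h) (x h) σ (-u)‖ ^ 2) / 2 := by
          refine sum_le_sum fun h hh => ?_
          rw [DS_conj _ (hx0 h (ht hh))]
          nlinarith [sq_nonneg (‖DS (α h) (x h) σ u‖ - ‖DS (α h) (x h) σ (-u)‖)]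
      _ ≤ _ := by rw [← sum_div, sum_add_distrib]; linarith
  have hg := hasSum_geometric_two.mul_left (GK ((A : ℝ) + 1) k * b * 2 ^ A)
  have main := sum_dyadic_le s n
    (fun h => ‖KS (α h) (fun c => conj (α h c)) (x h) (x h) (a0 * n h)‖) (V := 1)
    (b0 := GK ε k * (V ^ ε * b))
    (b := fun j => GK ((A : ℝ) + 1) k * b * 2 ^ A * (1 / 2) ^ j) one_pos
    (fun t ht hle => by
      have := line ε 1 V⁻¹ t (Or.inl rfl) le_rfl (inv_pos.2 hV0) ht hle
        fun h hh => (hs h (ht hh)).2.2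
      rwa [one_pow, mul_one, Real.inv_rpow hV0.le, ← Real.rpow_neg hV0.le, neg_neg] at this)
    (fun j t ht hle => by
      have := line (A + 1) (2 ^ (j + 1)) (2 ^ j) t (Or.inr rfl) (one_le_pow₀ one_le_two)
        (by positivity) ht (fun h hh => by simpa using (hle h hh).2)
        fun h hh => by simpa using (hle h hh).1.le
      rwa [geo] at this)
    hg.summable
  rw [hg.tsum_eq] at main
  refine main.trans ?_
  have hVe : 1 ≤ V ^ ε := Real.one_le_rpow hV hε.le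
  have h1 : GK ((A : ℝ) + 1) k * b * 2 ^ A * 2 ≤ GK ((A : ℝ) + 1) k * 2 ^ (A + 1) * V ^ ε * b := by
    calc _ = GK ((A : ℝ) + 1) k * 2 ^ (A + 1) * 1 * b := by ring
      _ ≤ _ := by gcongr
  have h2 : 0 ≤ V ^ ε * b := by positivity
  nlinarith

end Pool.Agent.P.MP_323ce2_nt.QD
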