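import Pool.Agent.P.MP_323ce2_nt.QD.St

/-! Reduction to squarefree arguments. -/

namespace Pool.Agent.P.MP_323ce2_nt.QD

open Pool.Agent.P.MP_26a8c3_nt Pool.Agent.P.MP_26a8c3_nt.QO Pool.Agent.P.MP_26a8c3_nt.QA
open Pool.Agent.P.MP_26a8c3_nt.QB Pool.Agent.P.MP_323ce2_nt.QZ Pool.Agent.P.MP_323ce2_nt.QF Finset
open scoped Classical ComplexConjugate

namespace Sq

/-- every primary element is a square times a squarefree element -/
lemma ex_dec {n : O} (hn : Primary n) : ∃ k c, Primary k ∧ SQ c ∧ n = k ^ 2 * c := by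
  refine primary_ind (P := fun n => ∃ k c, Primary k ∧ SQ c ∧ n = k ^ 2 * c)
    ⟨1, 1, primary_one, sq_one, by simp⟩ ?_ hn
  rintro p a hp h1 - ⟨k, c, hk, hc, rfl⟩
  by_cases h : p ∣ c
  · obtain ⟨d, rfl⟩ := h
    exact ⟨p * k, d, h1.mul hk, hc.right h1, by ring⟩
  · exact ⟨k, p * c, hk, SQ.mul ⟨h1, hp.squarefree⟩ hc (hp.coprime_iff_not_dvd.2 h), by ring⟩

/-- the square part is determined -/
lemma uniq {k k' c c' : O} (hk : Primary k) (hk' : Primary k') (hc : Squarefree c)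
    (hc' : Squarefree c') (e : k ^ 2 * c = k' ^ 2 * c') : k = k' := by
  obtain ⟨x, y, hx, hy, hu⟩ := extract_gcd k k'
  have hg : gcd k k' ≠ 0 := fun h => hk.ne_zero ((gcd_eq_zero_iff _ _).1 h).1
  have hxy : IsCoprime x y := (gcd_isUnit_iff x y).1 hu
  have e2 : x ^ 2 * c = y ^ 2 * c' := by
    refine mul_left_cancel₀ (pow_ne_zero 2 hg) ?_
    calc gcd k k' ^ 2 * (x ^ 2 * c) = (gcd k k' * x) ^ 2 * c := by ring
      _ = (gcd k k' * y) ^ 2 * c' := by rw [← hx, ← hy, e]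
      _ = _ := by ring
  have h1 : IsUnit x := hc' x (by
    rw [← sq]
    exact (IsCoprime.pow (m := 2) (n := 2) hxy).dvd_of_dvd_mul_left ⟨c, e2.symm⟩)
  have h2 : IsUnit y := hc y (by
    rw [← sq]
    exact (IsCoprime.pow (m := 2) (n := 2) hxy.symm).dvd_of_dvd_mul_left ⟨c', e2⟩)
  refine hk.eq_of_associated hk' ?_
  have a1 : Associated (gcd k k') k := by
    conv_rhs => rw [hx]
    exact associated_mul_unit_right _ _ h1
  have a2 : Associated (gcd k k') k' := by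
    conv_rhs => rw [hy]
    exact associated_mul_unit_right _ _ h2
  exact a1.symm.trans a2

/-- the part of the sum with a given square part -/
lemma part (a : O → ℂ) {k : O} (hk : Primary k) (m : O) :
    psi k m ^ 2 * Lam (sfp a (k ^ 2)) 1 m =
      ∑' n : O, if k ^ 2 ∣ n then (if SQO (quo n (k ^ 2)) then a n * psi n m else 0) else 0 := by
  have h2 : k ^ 2 ≠ 0 := pow_ne_zero 2 hk.ne_zero
  rw [tsum_ite_dvd0 h2, Lam, ← tsum_mul_left]
  refine tsum_congr fun c => ?_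
  rw [quo_mul h2, one_mul, sfp]
  split_ifs with h
  · rw [psi_mul_left h2 h.1.ne_zero, psi_pow_left]; ring
  · simp

/-- the decomposition of the sum -/
lemma dec {a : O → ℂ} (hF : Fs a) (hP : Po a) : ∃ K : Finset O, (∀ k ∈ K, Primary k ∧ Od k) ∧
    ∀ m, Lam a 1 m = ∑ k ∈ K, psi k m ^ 2 * Lam (sfp a (k ^ 2)) 1 m := by
  set T := hF.toFinset
  have hm : ∀ n, n ∈ T ↔ a n ≠ 0 := fun n => Set.Finite.mem_toFinset hF
  refine ⟨(T.biUnion pdiv).filter fun k => Primary k ∧ Od k, fun k hk => (mem_filter.1 hk).2,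
    fun m => ?_⟩
  rw [sum_congr rfl fun k hk => (part a (mem_filter.1 hk).2.1 m).trans
    (tsum_eq_sum (s := T) fun n hn => by simp [not_not.1 (mt (hm n).2 hn)]), sum_comm, Lam,
    tsum_eq_sum (s := T) fun n hn => by simp [not_not.1 (mt (hm n).2 hn)]]
  refine sum_congr rfl fun n hn => ?_
  obtain ⟨h1, h2⟩ := hP n ((hm n).1 hn)
  obtain ⟨k, c, hk, hc, e⟩ := ex_dec h1
  have h3 : Od (k ^ 2) ∧ Od c := od_mul.1 (e ▸ h2)
  have hk2 : k ^ 2 ≠ 0 := pow_ne_zero 2 hk.ne_zero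
  rw [sum_eq_single k, if_pos ⟨c, e⟩, if_pos (by rw [e, quo_mul hk2]; exact ⟨hc, h3.2⟩), one_mul]
  · intro j hj hne
    split_ifs with d1 d2
    · exact absurd (uniq (mem_filter.1 hj).2.1 hk d2.1.2 hc.2 ((mul_quo d1).trans e)) hne
    · rfl
    · rfl
  · intro h
    refine absurd (mem_filter.2 ⟨mem_biUnion.2 ⟨n, hn, (mem_pdiv h1.ne_zero).2
      ⟨hk, ⟨k * c, by rw [e]; ring⟩⟩⟩, hk, (od_mul.1 (sq k ▸ h3.1)).1⟩) h

/-- Cauchy's inequality with weights -/
lemma cs (K : Finset O) (x : O → ℂ) (w : O → ℝ) (hw : ∀ k ∈ K, 0 < w k) :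
    ‖∑ k ∈ K, x k‖ ^ 2 ≤ (∑ k ∈ K, w k) * ∑ k ∈ K, (w k)⁻¹ * ‖x k‖ ^ 2 := by
  refine (pow_le_pow_left₀ (norm_nonneg _) (norm_sum_le _ _) 2).trans
    (sum_sq_le_sum_mul_sum_of_sq_le_mul K (fun k hk => (hw k hk).le)
      (fun k hk => by have := hw k hk; positivity) fun k hk => le_of_eq ?_)
  rw [← mul_assoc, mul_inv_cancel₀ (hw k hk).ne', one_mul]

end Sq

theorem pSq (_hA : Alg) (_hb : Base) : S_Sq := by
  intro η hη
  have hs : 1 < 1 + η / 2 := by linarith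
  have hz := one_le_zt hs
  refine ⟨zt (1 + η / 2) ^ 2, by positivity, fun a F s wt B hF hP hwt hB H => ?_⟩
  obtain ⟨K, hK, e⟩ := Sq.dec hF hP
  have hN : ∀ k ∈ K, (0 : ℝ) < N k := fun k hk => by
    exact_mod_cast N_pos (hK k hk).1.ne_zero
  have hw : ∀ k ∈ K, (0 : ℝ) < (N k : ℝ) ^ (-(1 + η / 2)) := fun k hk =>
    Real.rpow_pos_of_pos (hN k hk) _
  have h1 : ∀ m ∈ s, wt m * ‖F m * Lam a 1 m‖ ^ 2 ≤ zt (1 + η / 2) * ∑ k ∈ K,
      ((N k : ℝ) ^ (-(1 + η / 2)))⁻¹ * (wt m * ‖F m * Lam (sfp a (k ^ 2)) 1 m‖ ^ 2) := by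
    intro m hm
    have h0 := hwt m hm
    rw [e, mul_sum]
    refine (mul_le_mul_of_nonneg_left (Sq.cs K _ _ hw) h0).trans ?_
    rw [mul_left_comm, mul_sum]
    refine mul_le_mul (sum_le_zt hs K) (sum_le_sum fun k hk => ?_)
      (sum_nonneg fun k hk => by have := hw k hk; positivity) (by positivity)
    have := hw k hk
    rw [mul_left_comm (wt m)]
    refine mul_le_mul_of_nonneg_left (mul_le_mul_of_nonneg_left
      (pow_le_pow_left₀ (norm_nonneg _) ?_ 2) h0) (by positivity)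
    rw [mul_left_comm, norm_mul, norm_pow]
    exact mul_le_of_le_one_left (norm_nonneg _) (pow_le_one₀ (norm_nonneg _) (norm_psi_le _ _))
  refine (sum_le_sum h1).trans ?_
  rw [← mul_sum, sum_comm, sq, mul_assoc]
  refine mul_le_mul_of_nonneg_left ?_ (by positivity)
  refine le_trans (sum_le_sum fun k hk => ?_)
    ((sum_mul K (fun k => (N k : ℝ) ^ (-(1 + η / 2))) B).symm.le.trans
      (mul_le_mul_of_nonneg_right (sum_le_zt hs K) hB))
  have := hw k hk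
  have h2 := hN k hk
  rw [← mul_sum]
  refine (mul_le_mul_of_nonneg_left (H k (hK k hk).1 (hK k hk).2) (by positivity)).trans
    (le_of_eq ?_)
  rw [show 2 + η = (1 + η / 2) + (1 + η / 2) by ring, Real.rpow_add h2, Real.rpow_neg h2.le]
  have := Real.rpow_pos_of_pos h2 (1 + η / 2)
  field_simp

end Pool.Agent.P.MP_323ce2_nt.QD
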