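import Pool.Agent.P.MP_323ce2_nt.QD.Bas

/-! The step of the descent for products. -/

namespace Pool.Agent.P.MP_323ce2_nt.QD

open Pool.Agent.P.MP_26a8c3_nt Pool.Agent.P.MP_26a8c3_nt.QO Pool.Agent.P.MP_26a8c3_nt.QA
open Pool.Agent.P.MP_26a8c3_nt.QB Pool.Agent.P.MP_323ce2_nt.QZ Pool.Agent.P.MP_323ce2_nt.QF Finset
open scoped Classical ComplexConjugate

lemma SL.mono {F : O → ℂ} {M b b' : ℝ} (h : SL F M b) (hb : b ≤ b') : SL F M b' :=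
  fun s hs => (h s hs).trans hb

lemma half_pow {L dl : ℝ} (hL : 0 < L) : L ^ (dl / 2) * L ^ (dl / 2) * L = L ^ (1 + dl) := by
  rw [← Real.rpow_add hL, Real.rpow_add hL 1, Real.rpow_one, add_halves, mul_comm]

theorem pStep0 (h1 : S_L0) (h2 : S_Pair) (h3 : S_PtS) (h4 : S_ChS) : S_Step0 := by
  intro dl ε k hd hd1 hε
  obtain ⟨C₁, c1, h1⟩ := h1 ε (dl / 2) (dl / 2) k hε (by linarith) (by linarith) (by linarith)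
    (by linarith)
  obtain ⟨C₂, c2, h3'⟩ := h3.2 0 (dl / 2) (by linarith)
  obtain ⟨C₃, c3, h4⟩ := h4 dl k 0 hd
  refine ⟨C₁ * (C₂ + C₃), by positivity,
    fun Q ν₁ ν₂ c₀ K Λ J M τ Y₁ Y₂ t₁ t₂ b hQ n1 n2 hc hΛ hJ hM hτ y1 y2 hb H => ?_⟩
  have hL : 0 < Y₁ * Y₂ := by positivity
  have p1 := h3' Q ν₁ ν₂ c₀ τ Y₁ Y₂ t₁ t₂ [] n1 n2 hc hτ y1 y2 (by simp) (by simp)
  have p2 := h4 Q ν₁ ν₂ c₀ K Λ (M / J) τ Y₁ Y₂ t₁ t₂ b [] hQ n1 n2 hΛ (by positivity) hτ y1 y2 hb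
    (by simp) (by simp) H
  simp only [cvl_nil, PL_nil, mul_one, mul_zero, pow_zero] at p1 p2
  have key := h1 _ J M _ _ _ (h3.1 Q ν₁ ν₂ c₀ τ Y₁ Y₂ t₁ t₂ hQ n1 n2) hJ hM hL (by positivity) p1 p2
  rw [(h2.1 Q ν₁ ν₂ c₀ τ Y₁ Y₂ t₁ t₂ n1 n2 hτ y1 y2).2] at key
  refine key.mono ?_
  have e := half_pow (dl := dl) hL
  generalize Y₁ * Y₂ = L at hL e ⊢
  have w1 : 0 ≤ (1 + M + L) ^ ε := by positivity
  have w2 : 0 ≤ L ^ (1 + dl) := by positivity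
  have w3 : 0 ≤ J * b * (1 + |t₁| + |t₂|) ^ k := by positivity
  have w4 : 0 ≤ M + J * L := by positivity
  calc _ = C₁ * (1 + M + L) ^ ε * (C₂ * ((L ^ (dl / 2) * L ^ (dl / 2) * L) * (M + J * L)) +
        C₃ * (L ^ (1 + dl) * (J * b * (1 + |t₁| + |t₂|) ^ k))) := by ring
    _ ≤ C₁ * (1 + M + L) ^ ε * ((C₂ + C₃) * (L ^ (1 + dl) * (M + J * L)) +
        (C₂ + C₃) * (L ^ (1 + dl) * (J * b * (1 + |t₁| + |t₂|) ^ k))) := by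
        rw [e]
        gcongr <;> linarith
    _ = _ := by ring

theorem pStep4 (h1 : S_L4) (h2 : S_Pair) (h3 : S_PtS) (h4 : S_ChS) (h5 : S_PeelL) : S_Step4 := by
  intro dl ε k i₀ hd hd1 hε
  obtain ⟨C₁, c1, h1⟩ := h1 ε (dl / 2) (dl / 2) k hε (by linarith) (by linarith) (by linarith)
    (by linarith)
  obtain ⟨C₂, c2, h3'⟩ := h3.2 i₀ (dl / 2) (by linarith)
  obtain ⟨C₃, c3, h4⟩ := h4 dl k i₀ hd
  refine ⟨C₁ * (C₂ + C₃), by positivity, fun Q ν₁ ν₂ c₀ K Λ M τ Y₁ Y₂ t₁ t₂ b b₁ x l hQ n1 n2 hc hΛ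
    hM hτ y1 y2 hb hb1 hx hl hi H H1 => ?_⟩
  have wk : ∀ z ∈ l, z.wk := fun z hz => (hl z hz).1
  have l1 : 1 ≤ PL l := one_le_PL fun z hz => (wk z hz).1
  have x1 := hx.1
  have hL : 0 < Y₁ * Y₂ * PL l := by positivity
  have p1 := h3' Q ν₁ ν₂ c₀ τ Y₁ Y₂ t₁ t₂ l n1 n2 hc hτ y1 y2 wk hi
  have p2 := h4 Q ν₁ ν₂ c₀ K Λ (M / x.P ^ 6) τ Y₁ Y₂ t₁ t₂ b l hQ n1 n2 hΛ (by positivity) hτ y1 y2
    hb hl hi H
  have p3 := h4 Q ν₁ ν₂ c₀ K Λ M τ Y₁ Y₂ t₁ t₂ b₁ l hQ n1 n2 hΛ (by positivity) hτ y1 y2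
    hb1 hl hi H1
  obtain ⟨q1, q2⟩ := h2.1 Q ν₁ ν₂ c₀ τ Y₁ Y₂ t₁ t₂ n1 n2 hτ y1 y2
  obtain ⟨q3, -, q4⟩ := h5.1 _ l (h3.1 Q ν₁ ν₂ c₀ τ Y₁ Y₂ t₁ t₂ hQ n1 n2) q1 wk
  have key := h1 _ x M _ _ _ _ q3 hx hM hL (by positivity) (by positivity) p1 p2 p3
  have e0 : (fun m => FF x m * Lam (cvl l (pr ν₁ ν₂ c₀ τ Y₁ Y₂ t₁ t₂)) 1 m) =
      fun m => VV ν₁ ν₂ c₀ τ Y₁ Y₂ t₁ t₂ m * FL (x :: l) m := by
    funext m
    rw [q4, q2, FL_cons]; ring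
  rw [e0] at key
  refine key.mono ?_
  have e := half_pow (dl := dl) hL
  rw [PL_cons, show Y₁ * Y₂ * (x.P * PL l) = Y₁ * Y₂ * PL l * x.P by ring]
  generalize Y₁ * Y₂ * PL l = L at hL e ⊢
  generalize x.P = P at x1 ⊢
  have w0 : 1 ≤ Λ ^ (2 * i₀) := one_le_pow₀ hΛ
  have w1 : 0 ≤ (1 + M + P + L) ^ ε := by positivity
  have w2 : L ^ (1 + dl) * P ≤ (L * P) ^ (1 + dl) := by
    rw [Real.mul_rpow hL.le (by linarith)]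
    refine mul_le_mul_of_nonneg_left ?_ (by positivity)
    conv_lhs => rw [← Real.rpow_one P]
    exact Real.rpow_le_rpow_of_exponent_le x1 (by linarith)
  have w3 : 0 ≤ (P ^ 5 * b + b₁) * (1 + |t₁| + |t₂|) ^ k := by positivity
  have w4 : 0 ≤ M + P ^ 4 * (L * P) := by positivity
  have w5 : C₂ ≤ (C₂ + C₃) * Λ ^ (2 * i₀) := by nlinarith
  have w6 : C₃ * Λ ^ (2 * i₀) ≤ (C₂ + C₃) * Λ ^ (2 * i₀) := by nlinarith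
  calc _ = C₁ * (1 + M + P + L) ^ ε *
        (C₂ * ((L ^ (dl / 2) * L ^ (dl / 2) * L) * P * (M + P ^ 4 * (L * P))) +
        C₃ * Λ ^ (2 * i₀) * (L ^ (1 + dl) * P *
          ((P ^ 5 * b + b₁) * (1 + |t₁| + |t₂|) ^ k))) := by ring
    _ ≤ C₁ * (1 + M + P + L) ^ ε *
        ((C₂ + C₃) * Λ ^ (2 * i₀) * ((L * P) ^ (1 + dl) * (M + P ^ 4 * (L * P))) +
        (C₂ + C₃) * Λ ^ (2 * i₀) * ((L * P) ^ (1 + dl) *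
          ((P ^ 5 * b + b₁) * (1 + |t₁| + |t₂|) ^ k))) := by
        rw [e]
        gcongr
    _ = _ := by ring

end Pool.Agent.P.MP_323ce2_nt.QD
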