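import Pool.Agent.P.MP_323ce2_nt.QD.St

/-! Truncation of the coefficients and passage to the limit. -/

namespace Pool.Agent.P.MP_323ce2_nt.QD

open Pool.Agent.P.MP_26a8c3_nt Pool.Agent.P.MP_26a8c3_nt.QO Pool.Agent.P.MP_26a8c3_nt.QA
open Pool.Agent.P.MP_26a8c3_nt.QB Pool.Agent.P.MP_323ce2_nt.QZ Pool.Agent.P.MP_323ce2_nt.QF Finset
open Filter Topology
open scoped Classical ComplexConjugate

namespace Tr

/-- the constant of the tail -/
noncomputable def Zt : ℝ := ∑' c : O, nr c ^ (-(3 / 2 : ℝ))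

lemma sZ : Summable fun c : O => nr c ^ (-(3 / 2 : ℝ)) := summable_nr (by norm_num)

lemma fs_tr (a : O → ℂ) (T : ℝ) : Fs (tr a T) :=
  (finite_N_le_real T).subset fun c hc => by
    by_contra h
    exact hc (if_neg h)

lemma po_tr {a : O → ℂ} (h : Po a) (T : ℝ) : Po (tr a T) := fun c hc => h c fun e => hc (by
  simp [tr, e])

lemma norm_tr_le (a : O → ℂ) (T : ℝ) (c : O) : ‖tr a T c‖ ≤ ‖a c‖ := by
  unfold tr
  split_ifs <;> simp

lemma pt_tr {a : O → ℂ} {L δ : ℝ} (hL : 0 < L) (h : Pt a L δ 40) (T : ℝ) : Pt (tr a T) L δ 8 := by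
  intro c
  obtain ⟨h1, h2⟩ := h c
  have h3 : ‖tr a T c‖ ^ 2 ≤ ‖a c‖ ^ 2 := pow_le_pow_left₀ (norm_nonneg _) (norm_tr_le a T c) 2
  have n0 := nr_pos c
  refine ⟨h3.trans h1, (mul_le_mul_of_nonneg_right h3 (by positivity)).trans ?_⟩
  rcases le_total (nr c) L with e | e
  · exact mul_le_mul h1 (pow_le_pow_left₀ n0.le e 8) (by positivity) ((sq_nonneg _).trans h1)
  · refine le_of_mul_le_mul_right ?_ (pow_pos hL 32)
    calc ‖a c‖ ^ 2 * nr c ^ 8 * L ^ 32 ≤ ‖a c‖ ^ 2 * nr c ^ 8 * nr c ^ 32 := by gcongr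
      _ = ‖a c‖ ^ 2 * nr c ^ 40 := by ring
      _ ≤ δ * L ^ 40 := h2
      _ = _ := by ring

lemma tw_tr (a : O → ℂ) (T L σ u : ℝ) (ρ : O → ℂ) :
    Tw (tr a T) L σ u ρ = tr (Tw a L σ u ρ) T := by
  funext c
  simp only [Tw, tr]
  split_ifs <;> simp

lemma tail {a : O → ℂ} {D T : ℝ} {R : O} (hR : R ≠ 0) (hT : 0 < T) (hD : 0 ≤ D)
    (h : ∀ n, T < N n → ‖a n‖ * nr n ^ 3 ≤ D) (m : O) :
    N R * ‖Lam a R m - Lam (tr a T) R m‖ ≤ D * Zt / √T := by
  have R0 := N_pos_real hR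
  have sT := Real.sqrt_pos.2 hT
  have key : ∀ c, ‖(a (R * c) - tr a T (R * c)) * psi c m‖ ≤
      D / (N R * √T) * nr c ^ (-(3 / 2 : ℝ)) := by
    intro c
    have n0 := nr_pos c
    unfold tr
    split_ifs with e
    · simp only [sub_self, zero_mul, norm_zero]
      positivity
    · have e' := not_le.1 e
      have c0 : c ≠ 0 := by
        rintro rfl
        simp at e'
        linarith
      have h1 := h _ e'
      have h2 : T ≤ nr (R * c) := e'.le.trans (le_max_right _ _)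
      have h3 : nr c ≤ nr (R * c) := by
        rw [nr_mul hR c0]
        exact le_mul_of_one_le_left n0.le (one_le_N hR)
      have h4 : (N R : ℝ) ≤ nr (R * c) := by
        rw [nr_mul hR c0]
        exact le_mul_of_one_le_right R0.le (one_le_nr c)
      have x0 := nr_pos (R * c)
      have h5 : N R * √T * nr c ^ (3 / 2 : ℝ) ≤ nr (R * c) ^ 3 := by
        calc N R * √T * nr c ^ (3 / 2 : ℝ)
            ≤ nr (R * c) * √(nr (R * c)) * nr (R * c) ^ (3 / 2 : ℝ) := by gcongr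
          _ = nr (R * c) ^ ((1 : ℝ) + 1 / 2 + 3 / 2) := by
            rw [Real.rpow_add x0, Real.rpow_add x0, Real.rpow_one, Real.sqrt_eq_rpow]
          _ = _ := by rw [← Real.rpow_natCast]; norm_num
      rw [sub_zero, norm_mul, Real.rpow_neg n0.le, ← div_eq_mul_inv, div_div,
        le_div_iff₀ (by positivity)]
      refine le_trans ?_ h1
      exact mul_le_mul (mul_le_of_le_one_right (norm_nonneg _) (norm_psi_le c m)) h5
        (by positivity) (norm_nonneg _)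
  have s1 : Summable fun c => (a (R * c) - tr a T (R * c)) * psi c m :=
    .of_norm_bounded (sZ.mul_left _) key
  have s2 : Summable fun c => tr a T (R * c) * psi c m :=
    summable_of_hasFiniteSupport (((fs_tr a T).preimage
      (mul_right_injective₀ hR).injOn).subset fun c hc => left_ne_zero_of_mul hc)
  have e : Lam a R m - Lam (tr a T) R m = ∑' c, (a (R * c) - tr a T (R * c)) * psi c m := by
    rw [sub_eq_iff_eq_add, Lam, Lam, ← s1.tsum_add s2]
    exact tsum_congr fun c => by ring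
  have b := tsum_of_norm_bounded (sZ.mul_left (D / (N R * √T))).hasSum key
  rw [tsum_mul_left, ← Zt] at b
  rw [e]
  refine (mul_le_mul_of_nonneg_left b R0.le).trans (le_of_eq ?_)
  field_simp

lemma dec {a : O → ℂ} {L δ : ℝ} (hL : 0 < L) (h : Pt a L δ 40) (n : O) :
    ‖a n‖ * (nr n / L) ^ 20 ≤ √δ := by
  refine Real.le_sqrt_of_sq_le ?_
  rw [mul_pow, ← pow_mul, div_pow, ← mul_div_assoc, div_le_iff₀ (by positivity)]
  exact (h n).2

lemma dec_tw {a ρ : O → ℂ} {L δ σ : ℝ} (hL : 0 < L) (h : Pt a L δ 40) (hρ : ∀ n, ‖ρ n‖ ≤ 1)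
    (hσ : σ ≤ 17) (u : ℝ) {n : O} (hn : L < N n) : ‖Tw a L σ u ρ n‖ * nr n ^ 3 ≤ √δ * L ^ 3 := by
  have n0 := nr_pos n
  have x1 : 1 ≤ nr n / L := (one_le_div hL).2 (hn.le.trans (le_max_right _ _))
  have h1 : ‖Tw a L σ u ρ n‖ ≤ ‖a n‖ * (nr n / L) ^ 17 := by
    rw [Tw, norm_mul, norm_mul, Complex.norm_cpow_eq_rpow_re_of_pos (by positivity)]
    refine mul_le_mul (mul_le_of_le_one_right (norm_nonneg _) (hρ n)) ?_ (by positivity)
      (norm_nonneg _)
    rw [← Real.rpow_natCast]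
    exact Real.rpow_le_rpow_of_exponent_le x1 (by simpa using hσ)
  calc ‖Tw a L σ u ρ n‖ * nr n ^ 3 ≤ ‖a n‖ * (nr n / L) ^ 17 * nr n ^ 3 := by gcongr
    _ = ‖a n‖ * (nr n / L) ^ 20 * L ^ 3 := by field_simp
    _ ≤ _ := mul_le_mul_of_nonneg_right (dec hL h n) (by positivity)

lemma tends {a : O → ℂ} {L δ : ℝ} (hL : 0 < L) (h : Pt a L δ 40) (m : O) :
    Tendsto (fun T => Lam (tr a T) 1 m) atTop (𝓝 (Lam a 1 m)) := by
  rw [tendsto_iff_norm_sub_tendsto_zero]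
  refine squeeze_zero' (Eventually.of_forall fun T => norm_nonneg _) ?_
    (Real.tendsto_sqrt_atTop.const_div_atTop (√δ * L ^ 3 * Zt))
  filter_upwards [eventually_ge_atTop L] with T hT
  have e : Tw a L 0 0 (fun _ => 1) = a := by
    funext c
    simp [Tw]
  have := tail one_ne_zero (hL.trans_le hT) (by positivity) (fun n hn =>
    dec_tw (ρ := fun _ => 1) hL h (by simp) (σ := 0) (by norm_num) 0 (hT.trans_lt hn)) m
  rw [e] at this
  rw [norm_sub_rev]
  simpa using this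

lemma lim {a F : O → ℂ} {L δ M B c : ℝ} (hL : 0 < L) (h : Pt a L δ 40) (hc : 0 < c)
    (H : ∀ η, 0 < η → ∃ T₀ : ℝ, ∀ T, T₀ ≤ T →
      SL (fun m => F m * Lam (tr a T) 1 m) M (B + c * η)) :
    SL (fun m => F m * Lam a 1 m) M B := by
  intro s hs
  refine le_of_forall_pos_le_add fun ε hε => ?_
  obtain ⟨T₀, hT⟩ := H (ε / c) (by positivity)
  rw [mul_div_cancel₀ _ hc.ne'] at hT
  refine le_of_tendsto (tendsto_finsetSum s fun m _ =>
    (((tends hL h m).const_mul (F m)).norm.pow 2)) ?_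
  filter_upwards [eventually_ge_atTop T₀] with T h1 using hT T h1 s hs

end Tr

open Tr

theorem pTr (_hA : Alg) (_hb : Base) : S_Tr := by
  intro a L M' δ b θ η k hL hM hb hθ hη hP hC
  set E := √δ * L ^ 3 * Zt with hE
  refine ⟨max L (32 * M' * E ^ 2 / η), fun T hT ρ hρ σ u y s h1 h2 hy hs => ?_⟩
  have T1 : L ≤ T := le_of_max_le_left hT
  have T2 : 32 * M' * E ^ 2 / η ≤ T := le_of_max_le_right hT
  have T0 : 0 < T := hL.trans_le T1
  obtain ⟨Mx, m1, m2⟩ := hC ρ hρ σ u y s h1 h2 hy hs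
  refine ⟨fun m => 2 * Mx m + 2 * (E ^ 2 / T), fun m hm R hR => ?_, ?_⟩
  · have a1 := m1 m hm R hR
    have R1 := one_le_N hR.ne_zero
    have a2 := tail hR.ne_zero T0 (by positivity) (fun n hn =>
      dec_tw hL hP hρ.le h2 u (T1.trans_lt hn)) m
    rw [← hE] at a2
    rw [tw_tr]
    set x := Lam (Tw a L σ u ρ) R m
    set z := Lam (tr (Tw a L σ u ρ) T) R m
    have a3 : (N R : ℝ) ^ 2 * ‖x - z‖ ^ 2 ≤ E ^ 2 / T := by
      rw [← mul_pow, ← Real.sq_sqrt T0.le, ← div_pow]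
      exact pow_le_pow_left₀ (by positivity) a2 2
    have a4 : (N R : ℝ) ^ (1 + θ) ≤ (N R : ℝ) ^ 2 := by
      rw [← Real.rpow_natCast]
      exact Real.rpow_le_rpow_of_exponent_le R1 (by push_cast; linarith)
    have a5 : ‖z‖ ≤ ‖x‖ + ‖x - z‖ := by simpa using norm_sub_le x (x - z)
    have a6 : ‖z‖ ^ 2 ≤ 2 * ‖x‖ ^ 2 + 2 * ‖x - z‖ ^ 2 := by
      nlinarith [norm_nonneg z, norm_nonneg x, norm_nonneg (x - z), sq_nonneg (‖x‖ - ‖x - z‖)]
    have a7 := mul_le_mul_of_nonneg_left a6 (show (0 : ℝ) ≤ (N R : ℝ) ^ (1 + θ) by positivity)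
    have a8 := mul_le_mul_of_nonneg_right a4 (sq_nonneg ‖x - z‖)
    simp only at a1 ⊢
    nlinarith
  · have y0 : 0 < y := hM.trans_le hy
    have c1 : (s.card : ℝ) ≤ 16 * y := le_trans (by
      exact_mod_cast card_le_card fun m hm => mem_erase.2 ⟨(hs m hm).1, mem_ball.2 (hs m hm).2⟩)
      (card_ball_erase_le y0.le)
    have q1 : 1 ≤ y / M' := (one_le_div hM).2 hy
    have q2 : y / M' ≤ (y / M') ^ 13 * (1 + |u|) ^ k :=
      (le_self_pow₀ q1 (by norm_num)).trans (le_mul_of_one_le_right (by positivity)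
        (one_le_pow₀ (by linarith [abs_nonneg u])))
    have q3 : 16 * y * (2 * (E ^ 2 / T)) ≤ η * (y / M') := by
      rw [div_le_iff₀ hη] at T2
      calc 16 * y * (2 * (E ^ 2 / T)) = 32 * M' * E ^ 2 * (y / M' / T) := by field_simp; ring
        _ ≤ T * η * (y / M' / T) := by gcongr
        _ = _ := by field_simp
    rw [sum_add_distrib, ← mul_sum, sum_const, nsmul_eq_mul]
    have q4 := mul_le_mul_of_nonneg_right c1 (show 0 ≤ 2 * (E ^ 2 / T) by positivity)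
    have q5 := mul_le_mul_of_nonneg_left q2 hη.le
    nlinarith

theorem pL0 (hA : Alg) (hb : Base) (h : S_G0) : S_L0 := by
  intro ε θ₁ θ k hε h1 h2 h3 h4
  obtain ⟨C, C0, hC⟩ := h ε θ₁ θ k hε h1 h2 h3
  refine ⟨2 * C, by positivity, fun a J M L δ b ha hJ hM hL b0 hP hc => ?_⟩
  have d0 : 0 ≤ δ := (sq_nonneg _).trans (hP 0).1
  have J0 : 0 < J := by linarith
  have M0 : 0 < M := by linarith
  have := lim (F := fun _ => 1) (M := M)
    (B := 2 * C * (1 + M + L) ^ ε * (δ * L ^ θ₁ * (M * L + J * L ^ 2) + J * b))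
    (c := C * (1 + M + L) ^ ε * J) hL hP (by positivity) fun η hη => by
      obtain ⟨T₀, hT⟩ := pTr hA hb a L (M / J) δ b θ η k hL (by positivity) b0 h4 hη hP hc
      refine ⟨T₀, fun T h5 s hs => ?_⟩
      simp only [one_mul]
      refine (hC (tr a T) J M L δ (2 * b + η) (fs_tr a T) (po_tr ha T) hJ hM hL (by positivity)
        (pt_tr hL hP T) (hT T h5) s hs).trans ?_
      have : 0 ≤ C * (1 + M + L) ^ ε * (δ * L ^ θ₁ * (M * L + J * L ^ 2)) := by positivity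
      nlinarith
  simpa only [one_mul] using this

theorem pL4 (hA : Alg) (hb : Base) (h : S_G4) : S_L4 := by
  intro ε θ₁ θ k hε h1 h2 h3 h4
  obtain ⟨C, C0, hC⟩ := h ε θ₁ θ k hε h1 h2 h3
  refine ⟨2 * C, by positivity, fun a x M L δ b b₁ ha hx hM hL b0 b1 hP hc hc1 => ?_⟩
  have d0 : 0 ≤ δ := (sq_nonneg _).trans (hP 0).1
  have P0 : 0 < x.P := by linarith [hx.1]
  have M0 : 0 < M := by linarith
  refine lim (c := C * (1 + M + x.P + L) ^ ε * (x.P ^ 6 + x.P)) hL hP (by positivity)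
    fun η hη => ?_
  obtain ⟨T₀, hT⟩ := pTr hA hb a L (M / x.P ^ 6) δ b θ η k hL (by positivity) b0 h4 hη hP hc
  obtain ⟨T₁, hT1⟩ := pTr hA hb a L M δ b₁ θ η k hL M0 b1 h4 hη hP hc1
  refine ⟨max T₀ T₁, fun T h5 s hs => ?_⟩
  refine (hC (tr a T) x M L δ (2 * b + η) (2 * b₁ + η) (fs_tr a T) (po_tr ha T) hx hM hL
    (by positivity) (by positivity) (pt_tr hL hP T) (hT T (le_of_max_le_left h5))
    (hT1 T (le_of_max_le_right h5)) s hs).trans ?_
  have : 0 ≤ C * (1 + M + x.P + L) ^ ε * (δ * L ^ θ₁ * (M * L * x.P + x.P ^ 6 * L ^ 2)) := by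
    positivity
  nlinarith

end Pool.Agent.P.MP_323ce2_nt.QD
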