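import Pool.Agent.P.MP_323ce2_nt.QD.St

/-! The class of centered products with pieces is closed under twists. -/

namespace Pool.Agent.P.MP_323ce2_nt.QD

open Pool.Agent.P.MP_26a8c3_nt Pool.Agent.P.MP_26a8c3_nt.QO Pool.Agent.P.MP_26a8c3_nt.QA
open Pool.Agent.P.MP_26a8c3_nt.QB Pool.Agent.P.MP_323ce2_nt.QZ Pool.Agent.P.MP_323ce2_nt.QF Finset
open scoped Classical ComplexConjugate

namespace TwS

/-- the multiplier of the twist -/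
noncomputable def mt (L σ u : ℝ) (c : O) : ℂ :=
  ((nr c / L : ℝ) : ℂ) ^ ((σ : ℂ) + u * Complex.I)

/-- the constant produced by a smooth factor -/
noncomputable def ee (Y σ u : ℝ) : ℂ :=
  Complex.exp ((σ ^ 2 / 4 : ℝ) - ((u * Real.log Y : ℝ) : ℂ) * Complex.I)

lemma tw_eq (a : O → ℂ) (L σ u : ℝ) (ρ : O → ℂ) (c : O) :
    Tw a L σ u ρ c = a c * ρ c * mt L σ u c := rfl

lemma mt_mul {L₁ L₂ : ℝ} (h₁ : 0 < L₁) (h₂ : 0 < L₂) (σ u : ℝ) {a b : O} (ha : a ≠ 0)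
    (hb : b ≠ 0) : mt (L₁ * L₂) σ u (a * b) = mt L₁ σ u a * mt L₂ σ u b := by
  unfold mt
  rw [← Complex.mul_cpow_ofReal_nonneg (div_pos (nr_pos a) h₁).le (div_pos (nr_pos b) h₂).le,
    ← Complex.ofReal_mul, nr_mul ha hb, nr_eq ha, mul_div_mul_comm]

lemma norm_ee (Y σ u : ℝ) : ‖ee Y σ u‖ = Real.exp (σ ^ 2 / 4) := by
  rw [ee, Complex.norm_exp]
  congr 1
  simp only [Complex.sub_re, Complex.ofReal_re, Complex.mul_re, Complex.I_re, mul_zero,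
    Complex.ofReal_im, Complex.I_im, zero_mul, sub_zero]

lemma ee_mul {Y₁ Y₂ τ : ℝ} (h₁ : 0 < Y₁) (h₂ : 0 < Y₂) (hτ : 0 < τ) (σ u : ℝ) :
    ee (Y₁ / τ) σ u * ee (Y₂ * τ) σ u = ee Y₁ σ u * ee Y₂ σ u := by
  rw [ee, ee, ee, ee, ← Complex.exp_add, ← Complex.exp_add, Real.log_div h₁.ne' hτ.ne',
    Real.log_mul h₂.ne' hτ.ne']
  congr 1
  push_cast
  ring

lemma W_mt {Y : ℝ} (hY : 0 < Y) (t σ u : ℝ) (c : O) :
    W Y t (nr c) * mt Y σ u c = ee Y σ u * W (Y * Real.exp (σ / 2)) (t + u) (nr c) := by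
  rw [mt, cpow_eq (div_pos (nr_pos c) hY), ee, W, W, Real.log_div (nr_pos c).ne' hY.ne',
    Real.log_mul hY.ne' (Real.exp_pos _).ne', Real.log_exp, ← Complex.exp_add, ← Complex.exp_add]
  congr 1
  push_cast
  ring

lemma tw_wv (ν ρ : O → ℂ) {Y : ℝ} (hY : 0 < Y) (t σ u : ℝ) (c : O) :
    Tw (wv ν Y t) Y σ u ρ c =
      ee Y σ u * wv (fun c => ν c * ρ c) (Y * Real.exp (σ / 2)) (t + u) c := by
  have h := W_mt hY t σ u c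
  rw [tw_eq, wv, wv, uL, uL]
  split_ifs
  · linear_combination (ν c * ρ c) * h
  · simp

lemma tw_cv {ρ : O → ℂ} (hρ : IsNu 4 ρ) (a b : O → ℂ) {L₁ L₂ : ℝ} (h₁ : 0 < L₁) (h₂ : 0 < L₂)
    (σ u : ℝ) (n : O) :
    Tw (cv a b) (L₁ * L₂) σ u ρ n = cv (Tw a L₁ σ u ρ) (Tw b L₂ σ u ρ) n := by
  rw [tw_eq, cv, cv]
  split_ifs with hn
  · rw [sum_mul, sum_mul]
    refine sum_congr rfl fun d hd => ?_
    obtain ⟨hd1, c, rfl⟩ := (mem_pdiv hn.ne_zero).1 hd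
    rw [quo_mul hd1.ne_zero, tw_eq, tw_eq, hρ.mul,
      mt_mul h₁ h₂ σ u hd1.ne_zero (right_ne_zero_of_mul hn.ne_zero)]
    ring
  · simp

lemma cv_smul (a b : O → ℂ) (y z : ℂ) (n : O) :
    cv (fun c => y * a c) (fun c => z * b c) n = y * z * cv a b n := by
  rw [cv, cv]
  split_ifs
  · rw [mul_sum]
    exact sum_congr rfl fun d _ => by ring
  · simp

lemma tw_cw {ρ : O → ℂ} (hρ : IsNu 4 ρ) (ν₁ ν₂ : O → ℂ) {Y₁ Y₂ : ℝ} (h₁ : 0 < Y₁) (h₂ : 0 < Y₂)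
    (t₁ t₂ σ u : ℝ) (n : O) :
    Tw (cv (wv ν₁ Y₁ t₁) (wv ν₂ Y₂ t₂)) (Y₁ * Y₂) σ u ρ n = ee Y₁ σ u * ee Y₂ σ u *
      cv (wv (fun c => ν₁ c * ρ c) (Y₁ * Real.exp (σ / 2)) (t₁ + u))
        (wv (fun c => ν₂ c * ρ c) (Y₂ * Real.exp (σ / 2)) (t₂ + u)) n := by
  rw [tw_cv hρ _ _ h₁ h₂, funext (tw_wv ν₁ ρ h₁ t₁ σ u), funext (tw_wv ν₂ ρ h₂ t₂ σ u), cv_smul]

lemma tw_pr {ρ : O → ℂ} (hρ : IsNu 4 ρ) (ν₁ ν₂ : O → ℂ) (c₀ : ℂ) {τ Y₁ Y₂ : ℝ} (hτ : 0 < τ)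
    (h₁ : 0 < Y₁) (h₂ : 0 < Y₂) (t₁ t₂ σ u : ℝ) (n : O) :
    Tw (pr ν₁ ν₂ c₀ τ Y₁ Y₂ t₁ t₂) (Y₁ * Y₂) σ u ρ n = ee Y₁ σ u * ee Y₂ σ u *
      pr (fun c => ν₁ c * ρ c) (fun c => ν₂ c * ρ c) c₀ τ (Y₁ * Real.exp (σ / 2))
        (Y₂ * Real.exp (σ / 2)) (t₁ + u) (t₂ + u) n := by
  have e1 := tw_cw hρ ν₁ ν₂ h₁ h₂ t₁ t₂ σ u n
  have e2 := tw_cw hρ ν₁ ν₂ (div_pos h₁ hτ) (mul_pos h₂ hτ) t₁ t₂ σ u n
  rw [show Y₁ / τ * (Y₂ * τ) = Y₁ * Y₂ by field_simp, ee_mul h₁ h₂ hτ, div_mul_eq_mul_div,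
    mul_right_comm Y₂ τ, tw_eq] at e2
  rw [tw_eq] at e1
  have e3 : om c₀ τ (t₁ + u) (t₂ + u) = om c₀ τ t₁ t₂ := by
    rw [om, om, add_sub_add_right_eq_sub]
  rw [tw_eq, QD.pr, QD.pr, e3]
  linear_combination e1 - om c₀ τ t₁ t₂ * e2

lemma cvp_smul (x : Pc) (a : O → ℂ) (z : ℂ) (n : O) :
    cvp x (fun c => z * a c) n = z * cvp x a n := by
  rw [cvp, cvp, mul_sum]
  refine sum_congr rfl fun p _ => ?_
  split_ifs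
  · ring
  · simp

/-- the twisted piece -/
noncomputable def tp (x : Pc) (Λ σ u : ℝ) (ρ : O → ℂ) : Pc :=
  ⟨x.S, fun p => x.f p * ρ p * mt x.P σ u p / Λ, x.P⟩

lemma tp_ok {Q : O} {K Λ σ : ℝ} {x : Pc} {ρ : O → ℂ} (hρ : IsNu 4 ρ) (hΛ : 1 ≤ Λ) (hσ : -1 ≤ σ)
    (u : ℝ) (hx : x.ok Q K Λ) : (tp x Λ σ u ρ).ok Q K Λ := by
  refine ⟨⟨hx.1.1, fun p hp => ?_⟩, hx.2.1, hx.2.2⟩
  obtain ⟨a1, a2, a3, a4, a5⟩ := hx.1.2 p hp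
  refine ⟨a1, a2, a3, a4, ?_⟩
  have hP : 0 < x.P := one_pos.trans_le hx.1.1
  have hr : 0 < nr p / x.P := div_pos (nr_pos p) hP
  have h1 : nr p / x.P ≤ 1 := by rw [div_le_one hP, nr_eq a1.ne_zero]; exact a4
  have h2 : ‖mt x.P σ u p‖ ≤ Λ := by
    rw [mt, Complex.norm_cpow_eq_rpow_re_of_pos hr]
    refine (Real.rpow_le_rpow_of_exponent_ge hr h1 (show (-1 : ℝ) ≤ _ by simpa using hσ)).trans ?_
    rw [Real.rpow_neg_one, inv_div, div_le_iff₀ (nr_pos p), nr_eq a1.ne_zero]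
    exact (hx.2.2 p hp).2
  show ‖x.f p * ρ p * mt x.P σ u p / Λ‖ ≤ 1
  rw [norm_div, norm_mul, Complex.norm_real, Real.norm_of_nonneg (by linarith),
    div_le_one (by linarith)]
  exact (mul_le_of_le_one_left (norm_nonneg _) (norm_mul_le_one a5 (hρ.le p))).trans h2

lemma tw_cvp {ρ : O → ℂ} (hρ : IsNu 4 ρ) {x : Pc} (hx : x.wk) (a : O → ℂ) {L Λ : ℝ} (hL : 0 < L)
    (hΛ : 1 ≤ Λ) (σ u : ℝ) (n : O) :
    Tw (cvp x a) (x.P * L) σ u ρ n = Λ * cvp (tp x Λ σ u ρ) (Tw a L σ u ρ) n := by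
  have h0 : ρ 0 = 0 := hρ.zero 0 (by rw [isCoprime_zero_left, isUnit_iff_N]; simp)
  have hΛ0 : (Λ : ℂ) ≠ 0 := by exact_mod_cast (by linarith : Λ ≠ 0)
  rw [tw_eq, cvp, cvp, sum_mul, sum_mul, mul_sum]
  refine sum_congr rfl fun p hp => ?_
  have hp0 := (hx.2 p hp).1.ne_zero
  split_ifs with h
  · obtain ⟨c, rfl⟩ := h
    rw [quo_mul hp0, tw_eq, hρ.mul]
    by_cases hc : c = 0
    · simp [hc, h0]
    · rw [mt_mul (one_pos.trans_le hx.1) hL σ u hp0 hc]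
      show _ = (Λ : ℂ) * (x.f p * ρ p * mt x.P σ u p / Λ * _)
      field_simp
  · simp

lemma PL_pos {l : List Pc} (hl : ∀ x ∈ l, x.wk) : 0 < PL l :=
  List.prod_pos fun y hy => by
    obtain ⟨x, hx, rfl⟩ := List.mem_map.1 hy
    exact one_pos.trans_le (hl x hx).1

lemma tw_cvl {ρ : O → ℂ} (hρ : IsNu 4 ρ) (a a' : O → ℂ) {L Λ : ℝ} (hL : 0 < L) (hΛ : 1 ≤ Λ)
    (σ u : ℝ) (z : ℂ) (h : ∀ n, Tw a L σ u ρ n = z * a' n) (l : List Pc) (hl : ∀ x ∈ l, x.wk) :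
    ∀ n, Tw (cvl l a) (L * PL l) σ u ρ n =
      z * (Λ : ℂ) ^ l.length * cvl (l.map fun x => tp x Λ σ u ρ) a' n := by
  induction l with
  | nil => intro n; simpa [cvl, PL] using h n
  | cons x l ih =>
    intro n
    have hl' : ∀ y ∈ l, y.wk := fun y hy => hl y (List.mem_cons_of_mem _ hy)
    have e : L * PL (x :: l) = x.P * (L * PL l) := by simp only [PL, List.map_cons, List.prod_cons]; ring
    have e1 := tw_cvp hρ (hl x List.mem_cons_self) (cvl l a) (mul_pos hL (PL_pos hl')) hΛ σ u n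
    rw [funext (ih hl'), cvp_smul] at e1
    rw [e]
    refine e1.trans ?_
    simp only [cvl, List.map_cons, List.foldr_cons, List.length_cons, pow_succ]
    ring

end TwS

open TwS in
theorem pTwS (_hA : Alg) (_hb : Base) : S_TwS := by
  intro Q ν₁ ν₂ ρ c₀ K Λ τ Y₁ Y₂ t₁ t₂ σ u l _ hρ hΛ hτ h₁ h₂ hσ hσ' hl
  refine ⟨ee Y₁ σ u * ee Y₂ σ u * (Λ : ℂ) ^ l.length, l.map fun x => tp x Λ σ u ρ, ?_, ?_, ?_, ?_⟩
  · rw [norm_mul, norm_mul, norm_ee, norm_ee, norm_pow, Complex.norm_real,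
      Real.norm_of_nonneg (by linarith), ← Real.exp_add]
    gcongr
    nlinarith
  · intro y hy
    obtain ⟨x, hx, rfl⟩ := List.mem_map.1 hy
    exact tp_ok hρ hΛ hσ u (hl x hx)
  · rw [List.map_map]
    rfl
  · exact funext (tw_cvl hρ _ _ (mul_pos h₁ h₂) hΛ σ u _ (tw_pr hρ ν₁ ν₂ c₀ hτ h₁ h₂ t₁ t₂ σ u) l
      fun x hx => (hl x hx).1)

end Pool.Agent.P.MP_323ce2_nt.QD
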