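import Pool.Agent.P.MP_26a8c3_nt.QO.All
import Pool.Agent.P.MP_323ce2_nt.QD.Sep
import Pool.Agent.P.MP_323ce2_nt.QD.Fwd
import Pool.Agent.P.MP_323ce2_nt.QD.Back
import Pool.Agent.P.MP_323ce2_nt.QD.Je
import Pool.Agent.P.MP_323ce2_nt.QD.Db
import Pool.Agent.P.MP_323ce2_nt.QD.A4a
import Pool.Agent.P.MP_323ce2_nt.QD.A4
import Pool.Agent.P.MP_323ce2_nt.QD.P0
import Pool.Agent.P.MP_323ce2_nt.QD.SF
import Pool.Agent.P.MP_323ce2_nt.QD.Sq
import Pool.Agent.P.MP_323ce2_nt.QD.G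
import Pool.Agent.P.MP_323ce2_nt.QD.Tr
import Pool.Agent.P.MP_323ce2_nt.QD.Conv
import Pool.Agent.P.MP_323ce2_nt.QD.Pair
import Pool.Agent.P.MP_323ce2_nt.QD.Peel
import Pool.Agent.P.MP_323ce2_nt.QD.TwS
import Pool.Agent.P.MP_323ce2_nt.QD.PtS
import Pool.Agent.P.MP_323ce2_nt.QD.ChS
import Pool.Agent.P.MP_323ce2_nt.QD.Step
import Pool.Agent.P.MP_323ce2_nt.QD.Br

/-! The step of the descent, without hypotheses. -/

namespace Pool.Agent.P.MP_323ce2_nt.QD

open Pool.Agent.P.MP_26a8c3_nt Pool.Agent.P.MP_26a8c3_nt.QO Pool.Agent.P.MP_26a8c3_nt.QB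

theorem fwd : S_Fwd := pFwd alg (base alg) pSep

theorem back : S_Back := pBack alg (base alg) pSep

theorem db : S_Db := pDb alg (base alg) back (pJe alg (base alg))

theorem l0 : S_L0 :=
  pL0 alg (base alg) (pG0 alg (base alg) (pP0 alg (base alg) fwd db) (pSF alg (base alg))
    (pSq alg (base alg)))

theorem l4 : S_L4 :=
  pL4 alg (base alg) (pG4 alg (base alg)
    (pP4 alg (base alg) fwd db (pA4 alg (base alg) (pA4a alg (base alg)))) (pSF alg (base alg))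
    (pSq alg (base alg)))

theorem pair : S_Pair := pPair alg (base alg) (pConv alg (base alg))

theorem peelL : S_PeelL := pPeelL (pPeel alg (base alg))

theorem chS : S_ChS := pChS alg (base alg) pair peelL (pTwS alg (base alg)) (pPtS alg (base alg))

theorem step0 : S_Step0 := pStep0 l0 pair (pPtS alg (base alg)) chS

theorem step4 : S_Step4 := pStep4 l4 pair (pPtS alg (base alg)) chS peelL

theorem STEP0 (Q : O) (hQ : 36 ∣ Q) : QR.STEP0 Q (dd Q) := pSTEP0 step0 Q hQ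

theorem STEP1 (Q : O) (hQ : 36 ∣ Q) (i : ℕ) : QR.STEP1 Q (dd Q) i := pSTEP1 step4 Q hQ i

end Pool.Agent.P.MP_323ce2_nt.QD
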