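import Pool.Agent.P.MP_323ce2_nt.QD.St

/-! Small facts used in the step of the descent. -/

namespace Pool.Agent.P.MP_323ce2_nt.QD

open Pool.Agent.P.MP_26a8c3_nt Pool.Agent.P.MP_26a8c3_nt.QO Pool.Agent.P.MP_26a8c3_nt.QA
open Pool.Agent.P.MP_26a8c3_nt.QB Pool.Agent.P.MP_323ce2_nt.QZ Pool.Agent.P.MP_323ce2_nt.QF Finset
open scoped Classical ComplexConjugate

variable {a α ρ ρ' : O → ℂ} {L σ u δ θ : ℝ} {R c m : O} {T : ℕ}

lemma od_four (h : Od c) : IsCoprime c 4 := by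
  have : IsCoprime c (2 * 2) := IsCoprime.mul_right h h
  rwa [show (2 * 2 : O) = 4 by norm_num] at this

lemma norm_rho (hρ : IsNu 4 ρ) (h : Od c) : ‖ρ c‖ = 1 := hρ.norm_eq (od_four h)

lemma isNu_mul4 (h : IsNu 4 ρ) (h' : IsNu 4 ρ') : IsNu 4 fun c => ρ c * ρ' c := h.mul' h' dvd_rfl

lemma isNu_mulQ {Q : O} {ν : O → ℂ} (hQ : 36 ∣ Q) (h : IsNu Q ν) (h' : IsNu 4 ρ) :
    IsNu Q fun c => ν c * ρ c := h.mul' h' (dvd_trans ⟨9, by norm_num⟩ hQ)

lemma So.po (h : So a) : Po a := fun c hc => ⟨(h c hc).1.1, (h c hc).2⟩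

lemma Po.zero (h : Po a) : a 0 = 0 := by
  by_contra h0
  exact (h 0 h0).1.ne_zero rfl

lemma Po.ne (h : Po a) (hc : a c ≠ 0) : c ≠ 0 := (h c hc).1.ne_zero

lemma Fs.of_ne {b : O → ℂ} (h : Fs a) (hb : ∀ c, b c ≠ 0 → a c ≠ 0) : Fs b :=
  Set.Finite.subset h fun c hc => hb c hc

lemma Fs.dil (h : Fs a) (hR : R ≠ 0) : Fs fun c => a (R * c) :=
  Set.Finite.preimage (f := fun c => R * c) (mul_right_injective₀ hR).injOn h

lemma Fs.ex (h : Fs a) : ∃ S : Finset O, ∀ c, c ∉ S → a c = 0 :=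
  ⟨Set.Finite.toFinset h, fun c hc => by
    by_contra e
    exact hc ((Set.Finite.mem_toFinset h).2 e)⟩

lemma Fs.sm (h : Fs a) : Sm a :=
  summable_of_hasFiniteSupport (Set.Finite.subset h fun c hc e => hc (by simp [e]))

lemma Fs.summable {b : O → ℂ} (h : Fs a) (hb : ∀ c, a c = 0 → b c = 0) : Summable b :=
  summable_of_hasFiniteSupport (Set.Finite.subset h fun c hc e => hc (hb c e))

lemma tw_ne (h : Tw a L σ u ρ c ≠ 0) : a c ≠ 0 := left_ne_zero_of_mul (left_ne_zero_of_mul h)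

lemma Fs.tw (h : Fs a) : Fs (Tw a L σ u ρ) := h.of_ne fun _ => tw_ne

lemma So.tw (h : So a) : So (Tw a L σ u ρ) := fun c hc => h c (tw_ne hc)

lemma Po.tw (h : Po a) : Po (Tw a L σ u ρ) := fun c hc => h c (tw_ne hc)

lemma sfp_ne (h : sfp a R c ≠ 0) : SQO c ∧ a (R * c) ≠ 0 := by
  unfold sfp at h
  split_ifs at h with e
  · exact ⟨e, h⟩
  · exact absurd rfl h

lemma so_sfp (a : O → ℂ) (R : O) : So (sfp a R) := fun _ hc => (sfp_ne hc).1

lemma Fs.sfp (h : Fs a) (hR : R ≠ 0) : Fs (sfp a R) := (h.dil hR).of_ne fun _ hc => (sfp_ne hc).2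

lemma So.dil (h : So a) (hR : Primary R) : So fun c => a (R * c) := fun _ hc =>
  ⟨(h _ hc).1.right hR, (od_mul.1 (h _ hc).2).2⟩

lemma fs_tr (a : O → ℂ) (T : ℝ) : Fs (tr a T) :=
  Set.Finite.subset (ball T).finite_toSet fun c hc => by
    by_contra e
    exact hc (if_neg fun h => e (mem_ball.2 h))

lemma tr_ne {T : ℝ} (h : tr a T c ≠ 0) : a c ≠ 0 := fun e => h (by simp [tr, e])

lemma Po.tr (h : Po a) (T : ℝ) : Po (tr a T) := fun c hc => h c (tr_ne hc)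

lemma fs_cvp (h : Fs a) {x : Pc} : Fs (cvp x a) := by
  obtain ⟨S, hS⟩ := h.ex
  refine Set.Finite.subset ((x.S ×ˢ S).image fun z => z.1 * z.2).finite_toSet fun n hn => ?_
  obtain ⟨p, hp, e⟩ := exists_ne_zero_of_sum_ne_zero (show cvp x a n ≠ 0 from hn)
  by_cases hd : p ∣ n
  · rw [if_pos hd] at e
    refine mem_coe.2 (mem_image.2 ⟨(p, quo n p), mem_product.2 ⟨hp, ?_⟩, mul_quo hd⟩)
    by_contra e'
    exact e (by rw [hS _ e', mul_zero])
  · exact absurd (if_neg hd) e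

lemma norm_ratio (hL : 0 < L) (c : O) (σ u : ℝ) :
    ‖((nr c / L : ℝ) : ℂ) ^ ((σ : ℂ) + u * Complex.I)‖ = (nr c / L) ^ σ := by
  rw [Complex.norm_cpow_eq_rpow_re_of_pos (div_pos (nr_pos c) hL)]; simp

lemma norm_tw_le (hρ : IsNu 4 ρ) (hL : 0 < L) (c : O) :
    ‖Tw a L σ u ρ c‖ ≤ ‖a c‖ * (nr c / L) ^ σ := by
  rw [Tw, norm_mul, norm_mul, norm_ratio hL]
  have := div_pos (nr_pos c) hL
  exact mul_le_mul_of_nonneg_right (mul_le_of_le_one_right (norm_nonneg _) (hρ.le c))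
    (by positivity)

lemma tw_tw (hL : 0 < L) (σ' u' : ℝ) : Tw (Tw a L σ u ρ) L σ' u' ρ' =
    Tw a L (σ + σ') (u + u') fun c => ρ c * ρ' c := by
  funext c
  have h0 : ((nr c / L : ℝ) : ℂ) ≠ 0 := by exact_mod_cast (div_pos (nr_pos c) hL).ne'
  rw [Tw, Tw, Tw, show (((σ + σ' : ℝ) : ℂ) + (u + u' : ℝ) * Complex.I) =
    ((σ : ℂ) + u * Complex.I) + ((σ' : ℂ) + u' * Complex.I) by push_cast; ring,
    Complex.cpow_add ((σ : ℂ) + u * Complex.I) _ h0]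
  ring

lemma tw_cop (h : Po a) (L : ℝ) : Tw a L 0 0 (cop 4) = a := by
  funext c
  by_cases e : a c = 0
  · simp [Tw, e]
  · simp [Tw, cop_of (od_four (h c e).2)]

lemma nr_div (hR : R ≠ 0) (hc : c ≠ 0) (L : ℝ) : nr c / (L / N R) = nr (R * c) / L := by
  rw [nr_mul hR hc, div_div_eq_mul_div, mul_comm]

lemma Pt.nonneg (h : Pt a L δ T) : 0 ≤ δ := (sq_nonneg _).trans (h 0).1

lemma Pt.le (h : Pt a L δ T) (hL : 0 < L) {r : ℝ} (h0 : 0 ≤ r) (h1 : r ≤ T) (c : O) :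
    ‖a c‖ ^ 2 ≤ δ * (L / nr c) ^ r := by
  have hn := nr_pos c
  rcases le_total (nr c) L with e | e
  · exact (h c).1.trans (le_mul_of_one_le_right h.nonneg
      (Real.one_le_rpow ((one_le_div hn).2 e) h0))
  · have h2 : ‖a c‖ ^ 2 ≤ δ * (L / nr c) ^ (T : ℝ) := by
      rw [Real.rpow_natCast, div_pow, ← mul_div_assoc, le_div_iff₀ (by positivity)]
      exact (h c).2
    exact h2.trans (mul_le_mul_of_nonneg_left (Real.rpow_le_rpow_of_exponent_ge (by positivity)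
      ((div_le_one hn).2 e) h1) h.nonneg)

lemma Pt.mono (h : Pt a L δ T) (hL : 0 < L) {T' : ℕ} (hT : T' ≤ T) : Pt a L δ T' := fun c =>
  ⟨(h c).1, by
    have hn := nr_pos c
    have := h.le hL (r := T') (Nat.cast_nonneg _) (by exact_mod_cast hT) c
    rwa [Real.rpow_natCast, div_pow, ← mul_div_assoc, le_div_iff₀ (by positivity)] at this⟩

lemma Pt.of_le {b : O → ℂ} (h : Pt a L δ T) (hb : ∀ c, ‖b c‖ ≤ ‖a c‖) : Pt b L δ T := fun c => by
  have h1 : ‖b c‖ ^ 2 ≤ ‖a c‖ ^ 2 := pow_le_pow_left₀ (norm_nonneg _) (hb c) 2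
  have := nr_pos c
  exact ⟨h1.trans (h c).1, le_trans (by gcongr) (h c).2⟩

lemma Pt.tr (h : Pt a L δ T) (Y : ℝ) : Pt (tr a Y) L δ T :=
  h.of_le fun c => by unfold QD.tr; split_ifs <;> simp

/-- the twisted coefficients -/
lemma Pt.tw (h : Pt a L δ T) (hρ : IsNu 4 ρ) (hL : 0 < L) {r : ℝ} (h0 : 0 ≤ r + 2 * σ)
    (h1 : r + 2 * σ ≤ T) (c : O) : ‖Tw a L σ u ρ c‖ ^ 2 ≤ δ * (L / nr c) ^ r := by
  have hn := nr_pos c
  have hq : 0 < L / nr c := div_pos hL hn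
  have e : ((nr c / L) ^ σ) ^ 2 = (L / nr c) ^ (-(2 * σ)) := by
    rw [← inv_div L, Real.inv_rpow hq.le, ← Real.rpow_neg hq.le, ← Real.rpow_natCast,
      ← Real.rpow_mul hq.le]
    congr 1; push_cast; ring
  calc _ ≤ (‖a c‖ * (nr c / L) ^ σ) ^ 2 := pow_le_pow_left₀ (norm_nonneg _) (norm_tw_le hρ hL c) 2
    _ ≤ δ * (L / nr c) ^ (r + 2 * σ) * (L / nr c) ^ (-(2 * σ)) := by
        rw [mul_pow, e]
        exact mul_le_mul_of_nonneg_right (h.le hL h0 h1 c) (by positivity)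
    _ = _ := by rw [mul_assoc, ← Real.rpow_add hq]; congr 2; ring

lemma Pt.sfp (h : Pt a L δ T) (hL : 0 < L) (hR : R ≠ 0) : Pt (sfp a R) (L / N R) δ T := fun c => by
  have h0 := h.nonneg
  have hN := N_pos_real hR
  unfold QD.sfp
  split_ifs with e
  · refine ⟨(h _).1, ?_⟩
    have := (h (R * c)).2
    rw [nr_mul hR e.1.ne_zero, mul_pow] at this
    rw [div_pow, ← mul_div_assoc, le_div_iff₀ (by positivity)]
    linarith
  · simp only [norm_zero, ne_eq, OfNat.ofNat_ne_zero, not_false_eq_true, zero_pow, zero_mul]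
    exact ⟨h0, by positivity⟩

lemma le_of_sq_le_sq_nn {x y : ℝ} (h : x ^ 2 ≤ y ^ 2) (hy : 0 ≤ y) : x ≤ y :=
  le_of_sq_le_sq h hy

lemma Pt.sm (h : Pt a L δ T) (hL : 0 < L) (hT : 4 ≤ T) : Sm a := by
  refine Summable.of_nonneg_of_le (fun _ => norm_nonneg _) (fun c => ?_)
    ((summable_nr (σ := 2) (by norm_num)).mul_left (√δ * L ^ 2))
  have hn := nr_pos c
  have h0 := h.nonneg
  have h1 := h.le hL (r := 4) (by norm_num) (by exact_mod_cast hT) c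
  refine le_of_sq_le_sq_nn (h1.trans (le_of_eq ?_)) (by positivity)
  rw [Real.rpow_neg hn.le, Real.rpow_two, show (4 : ℝ) = ((4 : ℕ) : ℝ) by norm_num,
    Real.rpow_natCast, mul_pow, mul_pow, Real.sq_sqrt h0]
  field_simp

lemma lam_eq {S : Finset O} (h : ∀ c, c ∉ S → a (R * c) = 0) (m : O) :
    Lam a R m = ∑ c ∈ S, a (R * c) * psi c m :=
  tsum_eq_sum fun c hc => by rw [h c hc, zero_mul]

lemma bt_eq {S : Finset O} (h : ∀ c, c ∉ S → a c = 0) (m : O) :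
    Bt a m = ∑ c ∈ S, a c * (mu c * bb c * conj (psi c m)) :=
  tsum_eq_sum fun c hc => by rw [h c hc, zero_mul]

lemma Sm.lam (h : Sm a) (hR : R ≠ 0) (m : O) : Summable fun c => a (R * c) * psi c m :=
  Summable.of_norm_bounded (Summable.comp_injective h (mul_right_injective₀ hR)) fun c => by
    rw [norm_mul]
    exact mul_le_of_le_one_right (norm_nonneg _) (norm_psi_le _ _)

lemma lam_mul (z : ℂ) (a : O → ℂ) (R m : O) : Lam (fun n => z * a n) R m = z * Lam a R m := by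
  rw [Lam, Lam, ← tsum_mul_left]
  exact tsum_congr fun c => mul_assoc _ _ _

lemma Mxs.mono {s : Finset O} {wt : O → ℝ} {B B' : ℝ} (h : Mxs a θ s wt B) (hB : B ≤ B') :
    Mxs a θ s wt B' :=
  let ⟨Mx, h1, h2⟩ := h
  ⟨Mx, h1, h2.trans hB⟩

lemma mx_nonneg {s : Finset O} {wt Mx : O → ℝ} (hw : ∀ m ∈ s, 0 ≤ wt m)
    (h : ∀ m ∈ s, ∀ R, Primary R → wt m * ((N R : ℝ) ^ (1 + θ) * ‖Lam a R m‖ ^ 2) ≤ Mx m) :
    ∀ m ∈ s, 0 ≤ Mx m := fun m hm =>
  le_trans (mul_nonneg (hw m hm) (by positivity)) (h m hm 1 primary_one)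

lemma Mxs.theta {s : Finset O} {wt : O → ℝ} {B θ' : ℝ} (h : Mxs a θ' s wt B) (hθ : θ ≤ θ')
    (hw : ∀ m ∈ s, 0 ≤ wt m) : Mxs a θ s wt B :=
  let ⟨Mx, h1, h2⟩ := h
  ⟨Mx, fun m hm R hR => le_trans (mul_le_mul_of_nonneg_left (mul_le_mul_of_nonneg_right
    (Real.rpow_le_rpow_of_exponent_le (one_le_N hR.ne_zero) (by linarith)) (sq_nonneg _))
    (hw m hm)) (h1 m hm R hR), h2⟩

lemma Mxs.smul {s : Finset O} {wt : O → ℝ} {B : ℝ} (h : Mxs a θ s wt B) (z : ℂ) :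
    Mxs (fun n => z * a n) θ s wt (‖z‖ ^ 2 * B) := by
  obtain ⟨Mx, h1, h2⟩ := h
  refine ⟨fun m => ‖z‖ ^ 2 * Mx m, fun m hm R hR => ?_, ?_⟩
  · rw [lam_mul, norm_mul, mul_pow]
    have := mul_le_mul_of_nonneg_left (h1 m hm R hR) (sq_nonneg ‖z‖)
    linarith
  · rw [← mul_sum]
    exact mul_le_mul_of_nonneg_left h2 (sq_nonneg _)

/-- from a bound for every choice function to a majorant -/
lemma ex_sup {ι : Type} [Nonempty ι] (s : Finset O) (g : O → ι → ℝ) (B : ℝ)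
    (h0 : ∀ m ∈ s, ∀ i, 0 ≤ g m i) (h : ∀ r : O → ι, ∑ m ∈ s, g m (r m) ≤ B) :
    ∃ Mx : O → ℝ, (∀ m ∈ s, ∀ i, g m i ≤ Mx m) ∧ ∑ m ∈ s, Mx m ≤ B := by
  have hb : ∀ m ∈ s, BddAbove (Set.range (g m)) := fun m hm =>
    ⟨B, by
      rintro _ ⟨i, rfl⟩
      exact (single_le_sum (f := fun m => g m i) (fun m hm => h0 m hm i) hm).trans (h fun _ => i)⟩
  refine ⟨fun m => ⨆ i, g m i, fun m hm i => le_ciSup (hb m hm) i,
    le_of_forall_pos_le_add fun η hη => ?_⟩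
  have hη' : 0 < η / (s.card + 1) := by positivity
  have h1 : ∀ m, ∃ i, (⨆ i, g m i) - η / (s.card + 1) < g m i := fun m =>
    exists_lt_of_lt_ciSup (by linarith)
  choose r hr using h1
  have h2 := sum_le_sum fun m (_ : m ∈ s) => (hr m).le
  rw [sum_sub_distrib, sum_const, nsmul_eq_mul] at h2
  have h3 : (s.card : ℝ) * (η / (s.card + 1)) ≤ η := by
    rw [← mul_div_assoc, div_le_iff₀ (by positivity)]; nlinarith
  linarith [h r]

lemma FL_cons (x : Pc) (l : List Pc) (m : O) : FL (x :: l) m = FF x m * FL l m := by simp [FL]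

lemma PL_cons (x : Pc) (l : List Pc) : PL (x :: l) = x.P * PL l := by simp [PL]

@[simp] lemma FL_nil (m : O) : FL [] m = 1 := by simp [FL]

@[simp] lemma PL_nil : PL [] = 1 := by simp [PL]

lemma cvl_cons (x : Pc) (l : List Pc) (a : O → ℂ) : cvl (x :: l) a = cvp x (cvl l a) := rfl

@[simp] lemma cvl_nil (a : O → ℂ) : cvl [] a = a := rfl

lemma one_le_PL {l : List Pc} (h : ∀ x ∈ l, 1 ≤ x.P) : 1 ≤ PL l := by
  induction l with
  | nil => simp
  | cons x l ih =>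
    rw [PL_cons]
    exact one_le_mul_of_one_le_of_one_le (h x (by simp)) (ih fun z hz => h z (by simp [hz]))

lemma PL_sublist {l l' : List Pc} (hs : l'.Sublist l) (h : ∀ x ∈ l, 1 ≤ x.P) : PL l' ≤ PL l := by
  induction hs with
  | slnil => exact le_rfl
  | cons x hs ih =>
    have h1 := ih fun z hz => h z (by simp [hz])
    have h2 := one_le_PL fun z hz => h z (List.mem_cons_of_mem x hz)
    rw [PL_cons]
    exact h1.trans (le_mul_of_one_le_left (by linarith) (h x (by simp)))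
  | cons_cons x hs ih =>
    rw [PL_cons, PL_cons]
    exact mul_le_mul_of_nonneg_left (ih fun z hz => h z (by simp [hz]))
      (zero_le_one.trans (h x (by simp)))

end Pool.Agent.P.MP_323ce2_nt.QD
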