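import Pool.Agent.P.MP_323ce2_nt.QD.Bas
import Pool.Agent.P.MP_323ce2_nt.QR.St

/-! Lists of prime pieces as short factors for the recursion layer. -/

namespace Pool.Agent.P.MP_323ce2_nt.QD

open Pool.Agent.P.MP_26a8c3_nt Pool.Agent.P.MP_26a8c3_nt.QO Finset

lemma Cl.norm_FF {x : Pc} (h : x.wk) (m : O) : ‖FF x m‖ ≤ 16 * x.P := by
  have h1 : ‖FF x m‖ ≤ ∑ _p ∈ x.S, (1 : ℝ) := norm_sum_le_of_le _ fun p hp =>
    QB.norm_mul_le_one (h.2 p hp).2.2.2.2 (norm_psi_le _ _)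
  rw [sum_const, nsmul_eq_mul, mul_one] at h1
  exact h1.trans (card_le_of_N_le (by linarith [h.1]) fun p hp =>
    ⟨(h.2 p hp).1.ne_zero, (h.2 p hp).2.2.2.1⟩)

/-- at most `i` admissible pieces of length at most `K` -/
def Cl (Q : O) (i : ℕ) (K : ℝ) (l : List Pc) : Prop :=
  1 ≤ K ∧ l.length ≤ i ∧ ∀ x ∈ l, x.ok Q K 2

lemma Cl.aux {Q : O} {K : ℝ} (l : List Pc) (h : ∀ x ∈ l, x.ok Q K 2) :
    1 ≤ PL l ∧ PL l ≤ K ^ l.length ∧ ∀ m, ‖FL l m‖ ≤ 16 ^ l.length * PL l := by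
  induction l with
  | nil => simp [PL, FL]
  | cons x l ih =>
    obtain ⟨h1, h2, h3⟩ := ih fun z hz => h z (List.mem_cons_of_mem _ hz)
    obtain ⟨hx, hK, -⟩ := h x List.mem_cons_self
    have h0 := hx.1
    refine ⟨?_, ?_, fun m => ?_⟩
    · rw [PL_cons]; exact one_le_mul_of_one_le_of_one_le h0 h1
    · rw [PL_cons, List.length_cons, pow_succ']
      exact mul_le_mul hK h2 (by linarith) (by linarith)
    · rw [PL_cons, FL_cons, List.length_cons, norm_mul]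
      calc _ ≤ 16 * x.P * (16 ^ l.length * PL l) :=
            mul_le_mul (Cl.norm_FF hx m) (h3 m) (norm_nonneg _) (by linarith)
        _ = _ := by ring

/-- the short factors -/
noncomputable def dd (Q : O) : QR.PD (List Pc) where
  F := FL
  L := PL
  cl := Cl Q
  len := fun _ _ l h => ⟨(Cl.aux l h.2.2).1,
    (Cl.aux l h.2.2).2.1.trans (pow_le_pow_right₀ h.1 h.2.1)⟩
  bd := fun _ _ l m h => ((Cl.aux l h.2.2).2.2 m).trans (mul_le_mul_of_nonneg_right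
    (pow_le_pow_right₀ (by norm_num) h.2.1) (by linarith [(Cl.aux l h.2.2).1]))

end Pool.Agent.P.MP_323ce2_nt.QD
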