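import Pool.Agent.P.MP_323ce2_nt.QD.St

/-! One step of the descent for finitely supported coefficients. -/

namespace Pool.Agent.P.MP_323ce2_nt.QD

open Pool.Agent.P.MP_26a8c3_nt Pool.Agent.P.MP_26a8c3_nt.QO Pool.Agent.P.MP_26a8c3_nt.QA
open Pool.Agent.P.MP_26a8c3_nt.QB Pool.Agent.P.MP_323ce2_nt.QZ Pool.Agent.P.MP_323ce2_nt.QF Finset
open scoped Classical ComplexConjugate

namespace GAux

variable {a α : O → ℂ} {R : O} {L δ : ℝ}

lemma fs_sfp (h : Fs a) (hR : R ≠ 0) : Fs (sfp a R) := by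
  refine (h.preimage (f := fun c => R * c) (mul_right_injective₀ hR).injOn).subset fun c hc => ?_
  intro e
  apply hc
  unfold sfp
  split_ifs
  exacts [e, rfl]

lemma so_sfp (a : O → ℂ) (R : O) : So (sfp a R) := fun c hc => by
  by_contra e
  exact hc (if_neg e)

lemma pt_nonneg {T : ℕ} (h : Pt a L δ T) : 0 ≤ δ := (sq_nonneg _).trans (h 0).1

lemma pt_sfp (h : Pt a L δ 8) (hL : 0 < L) (hR : R ≠ 0) : Pt (sfp a R) (L / N R) δ 8 := by
  have hδ := pt_nonneg h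
  have hN : (0 : ℝ) < N R := lt_of_lt_of_le one_pos (one_le_N hR)
  intro c
  unfold sfp
  split_ifs with hc
  · refine ⟨(h _).1, ?_⟩
    have h2 := (h (R * c)).2
    rw [nr_mul hR hc.2.ne_zero, mul_pow] at h2
    rw [div_pow, ← mul_div_assoc, le_div_iff₀ (by positivity)]
    linarith
  · rw [norm_zero, zero_pow two_ne_zero, zero_mul]
    exact ⟨hδ, by positivity⟩

lemma pw {κ : O} (hκ : κ ≠ 0) {η t : ℝ} (h : η ≤ 2 * t) :
    (N κ : ℝ) ^ (2 + η) ≤ (N (κ ^ 2) : ℝ) ^ (1 + t) := by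
  have h1 : (1 : ℝ) ≤ N κ := one_le_N hκ
  rw [map_pow, Nat.cast_pow, ← Real.rpow_natCast, ← Real.rpow_mul (by linarith)]
  exact Real.rpow_le_rpow_of_exponent_le h1 (by push_cast; linarith)

lemma num {q w t A B : ℝ} (hq : 1 ≤ q) (hw : 0 < w) (h : w ≤ q ^ (1 + t)) (hδ : 0 ≤ δ)
    (hL : 0 < L) (hA : 0 ≤ A) (hB : 0 ≤ B) :
    δ * (L / q) ^ t * (A * (L / q) + B * (L / q) ^ 2) ≤ δ * L ^ t * (A * L + B * L ^ 2) / w := by
  have q0 : 0 < q := by linarith
  have h1 : A * (L / q) + B * (L / q) ^ 2 ≤ (A * L + B * L ^ 2) / q := by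
    have h2 : (L / q) ^ 2 ≤ L ^ 2 / q := by
      rw [div_pow]
      exact div_le_div_of_nonneg_left (by positivity) q0 (by nlinarith)
    rw [add_div, mul_div_assoc, mul_div_assoc]
    exact add_le_add le_rfl (mul_le_mul_of_nonneg_left h2 hB)
  refine (mul_le_mul_of_nonneg_left h1 (by positivity)).trans ?_
  rw [Real.div_rpow hL.le q0.le]
  calc δ * (L ^ t / q ^ t) * ((A * L + B * L ^ 2) / q)
      = δ * L ^ t * (A * L + B * L ^ 2) / q ^ (1 + t) := by
        rw [Real.rpow_add q0, Real.rpow_one]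
        field_simp
    _ ≤ _ := div_le_div_of_nonneg_left (by positivity) hw h

lemma sm {f : O → ℂ} (h : Fs α) (hf : ∀ c, α c = 0 → f c = 0) : Summable f :=
  summable_of_hasFiniteSupport (h.subset fun c hc e => hc (hf c e))

lemma one (hF : Fs α) (hS : So α) {p : O} (hp : Prime p) (h1 : Primary p) (h2 : Od p) (m : O) :
    psi p m * Lam α 1 m =
      ∑' n, (if p ∣ n then (if SQO n then α (quo n p) else 0) * psi n m else 0) +
        psi p m ^ 2 * Lam α p m := by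
  have h0 : α 0 = 0 := by
    by_contra e
    exact (hS 0 e).2.ne_zero rfl
  have e1 : psi p m ^ 2 * Lam α p m =
      ∑' c, psi p m * if p ∣ c then α c * psi c m else 0 := by
    rw [tsum_mul_left, tsum_ite_dvd0 hp.ne_zero fun c => α c * psi c m, sq, mul_assoc, Lam,
      ← tsum_mul_left]
    congr 1
    refine tsum_congr fun c => ?_
    by_cases hc : c = 0
    · simp [hc, h0]
    · rw [psi_mul_left hp.ne_zero hc]
      ring
  rw [e1, tsum_ite_dvd0 hp.ne_zero fun n => (if SQO n then α (quo n p) else 0) * psi n m,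
    ← Summable.tsum_add (sm hF fun c e => by simp [quo_mul hp.ne_zero, e])
      (sm hF fun c e => by simp [e]), Lam, ← tsum_mul_left]
  refine tsum_congr fun c => ?_
  rw [one_mul, quo_mul hp.ne_zero]
  by_cases e : α c = 0
  · simp [e]
  have hc := hS c e
  by_cases hd : p ∣ c
  · rw [if_neg, if_pos hd, zero_mul, zero_add]
    intro h
    exact hp.not_isUnit (h.1.2 p (mul_dvd_mul_left p hd))
  · rw [if_pos, if_neg hd, psi_mul_left hp.ne_zero hc.2.ne_zero]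
    · ring
    · exact ⟨SQ.mul ⟨h1, hp.squarefree⟩ hc.1 (hp.coprime_iff_not_dvd.2 hd), od_mul.2 ⟨h2, hc.2⟩⟩

lemma split (hF : Fs α) (hS : So α) {x : Pc} (hx : x.wk) (m : O) :
    FF x m * Lam α 1 m = Lam (sfp (cvp x α) 1) 1 m +
      ∑ p ∈ x.S, x.f p * (psi p m ^ 2 * Lam α p m) := by
  have e : Lam (sfp (cvp x α) 1) 1 m = ∑ p ∈ x.S, x.f p *
      ∑' n, (if p ∣ n then (if SQO n then α (quo n p) else 0) * psi n m else 0) := by
    simp only [← tsum_mul_left]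
    rw [← Summable.tsum_finsetSum fun p hp => ?_]
    · refine tsum_congr fun n => ?_
      simp only [one_mul, sfp, cvp]
      split_ifs with hn
      · rw [sum_mul]
        refine sum_congr rfl fun p _ => ?_
        split_ifs <;> ring
      · simp
    · have hp0 := (hx.2 p hp).1.ne_zero
      refine summable_of_hasFiniteSupport ((hF.image fun c => p * c).subset fun n hn => ?_)
      by_cases hd : p ∣ n
      · refine ⟨quo n p, fun e => hn ?_, mul_quo hd⟩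
        simp [e]
      · exact (hn (by simp [hd])).elim
  rw [e, FF, sum_mul, ← sum_add_distrib]
  refine sum_congr rfl fun p hp => ?_
  obtain ⟨a1, a2, a3, -⟩ := hx.2 p hp
  rw [mul_assoc, one hF hS a1 a2 a3, mul_add]

lemma tw_eq (hS : So α) (L : ℝ) : Tw α L 0 0 (cop 4) = α := by
  funext c
  by_cases e : α c = 0
  · simp [Tw, e]
  · have h : IsCoprime c 4 := by
      have := (hS c e).2
      rw [show (4 : O) = 2 * 2 by norm_num]
      exact IsCoprime.mul_right this this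
    simp [Tw, cop_of h]

lemma second {θ : ℝ} (hθ : 0 < θ) : ∃ Z : ℝ, 0 < Z ∧ ∀ (α : O → ℂ) (x : Pc) (L M b : ℝ) (k : ℕ)
    (s : Finset O), So α → x.wk → 0 < M → Ch α L M b θ k → (∀ m ∈ s, (N m : ℝ) ≤ M) →
    ∑ m ∈ s, ‖∑ p ∈ x.S, x.f p * (psi p m ^ 2 * Lam α p m)‖ ^ 2 ≤ Z * (x.P * b) := by
  have hs := summable_N' (t := 1 + θ) (by linarith)
  have z0 : 0 ≤ ∑' c : O, (N c : ℝ) ^ (-(1 + θ)) := tsum_nonneg fun c => by positivity
  refine ⟨16 * (∑' c : O, (N c : ℝ) ^ (-(1 + θ)) + 1), by positivity,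
    fun α x L M b k s hS hx hM hC hs' => ?_⟩
  obtain ⟨Mx, h1, h2⟩ := hC (cop 4) (isNu_cop 4) 0 0 M (s.erase 0) (by norm_num) (by norm_num)
    le_rfl fun m hm => ⟨ne_of_mem_erase hm, hs' m (mem_of_mem_erase hm)⟩
  rw [tw_eq hS] at h1
  rw [div_self hM.ne', one_pow, abs_zero, add_zero, one_pow, mul_one, mul_one] at h2
  have P0 : 0 ≤ x.P := zero_le_one.trans hx.1
  have hc : (x.S.card : ℝ) ≤ 16 * x.P :=
    card_le_of_N_le P0 fun p hp => ⟨(hx.2 p hp).1.ne_zero, (hx.2 p hp).2.2.2.1⟩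
  have m0 : ∀ m ∈ s.erase 0, 0 ≤ Mx m := fun m hm =>
    le_trans (by positivity) (h1 m hm 1 primary_one)
  have hz : ∑ p ∈ x.S, (N p : ℝ) ^ (-(1 + θ)) ≤ ∑' c : O, (N c : ℝ) ^ (-(1 + θ)) + 1 :=
    (hs.sum_le_tsum _ fun c _ => by positivity).trans (le_add_of_nonneg_right zero_le_one)
  rw [← sum_erase (a := 0) s (by
    rw [sum_eq_zero fun p hp => ?_, norm_zero, zero_pow two_ne_zero]
    rw [(psi_eq_zero (hx.2 p hp).1.ne_zero).2 fun h =>
      (hx.2 p hp).1.not_isUnit (isCoprime_zero_left.1 h)]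
    simp)]
  calc _ ≤ ∑ m ∈ s.erase 0, 16 * x.P * ((∑' c : O, (N c : ℝ) ^ (-(1 + θ)) + 1) * Mx m) := by
        refine sum_le_sum fun m hm => ?_
        refine (pow_le_pow_left₀ (norm_nonneg _) (norm_sum_le _ _) 2).trans
          (sq_sum_le_card_mul_sum_sq.trans (mul_le_mul hc ?_ (by positivity) (by positivity)))
        refine le_trans ?_ (mul_le_mul_of_nonneg_right hz (m0 m hm))
        rw [sum_mul]
        refine sum_le_sum fun p hp => ?_
        obtain ⟨a1, a2, -, -, a5⟩ := hx.2 p hp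
        have n0 : (0 : ℝ) < N p := lt_of_lt_of_le one_pos (one_le_N a1.ne_zero)
        have h3 := h1 m hm p a2
        rw [one_mul] at h3
        rw [Real.rpow_neg n0.le, inv_mul_eq_div, le_div_iff₀' (by positivity)]
        refine le_trans (mul_le_mul_of_nonneg_left
          (pow_le_pow_left₀ (norm_nonneg _) ?_ 2) (by positivity)) h3
        rw [norm_mul, norm_mul, norm_pow]
        refine (mul_le_of_le_one_left (by positivity) a5).trans
          (mul_le_of_le_one_left (norm_nonneg _) (pow_le_one₀ (norm_nonneg _) (norm_psi_le _ _)))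
    _ ≤ _ := by
        rw [← mul_sum, ← mul_sum]
        refine (mul_le_mul_of_nonneg_left (mul_le_mul_of_nonneg_left h2 (by positivity))
          (by positivity)).trans_eq (by ring)

end GAux

open GAux

theorem pG0 (_hA : Alg) (_hb : Base) (h1 : S_P0) (h2 : S_SF) (h3 : S_Sq) : S_G0 := by
  intro ε θ₁ θ k hε t0 t1 hθ
  obtain ⟨C1, c1, h1⟩ := h1 ε θ₁ (θ / 2) k hε t0 t1 (half_pos hθ)
  obtain ⟨C2, c2, h2⟩ := h2 θ hθ
  obtain ⟨C3, c3, h3⟩ := h3 (2 * min θ₁ θ) (by positivity)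
  refine ⟨C3 * (Real.exp a0 * C1 * (1 + C2)), by positivity,
    fun a J M L δ b hF hP hJ hM hL hb hT hC s hs => ?_⟩
  have hδ := pt_nonneg hT
  have M0 : 0 < M := by linarith
  have J0 : 0 < J := by linarith
  have h := h3 a (fun _ => 1) s (fun _ => 1) (Real.exp a0 * C1 * (1 + C2) * (1 + M + L) ^ ε *
    (δ * L ^ θ₁ * (M * L + J * L ^ 2) + J * b)) hF hP (fun _ _ => zero_le_one) (by positivity)
    fun κ k1 k2 => ?_
  · simp only [one_mul] at h
    exact h.trans_eq (by ring)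
  simp only [one_mul]
  have κ0 : κ ^ 2 ≠ 0 := pow_ne_zero 2 k2.ne_zero
  have q1 : (1 : ℝ) ≤ N (κ ^ 2) := one_le_N κ0
  have n0 : (0 : ℝ) < N κ := lt_of_lt_of_le one_pos (one_le_N k2.ne_zero)
  have w0 : 0 < (N κ : ℝ) ^ (2 + 2 * min θ₁ θ) := by positivity
  have w1 := pw k2.ne_zero (η := 2 * min θ₁ θ) (t := θ₁) (by linarith [min_le_left θ₁ θ])
  have w2 := pw k2.ne_zero (η := 2 * min θ₁ θ) (t := θ) (by linarith [min_le_right θ₁ θ])
  have g := h1 (sfp a (κ ^ 2)) J M (L / N (κ ^ 2)) δ _ (fs_sfp hF κ0) (so_sfp _ _) hJ hM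
    (by positivity) (by positivity) (pt_sfp hT hL κ0)
    (h2 a (κ ^ 2) L (M / J) b k hF hP (by rw [sq]; exact k1.mul k1)
      (by rw [sq]; exact od_mul.2 ⟨k2, k2⟩) hL (by positivity) hb hC)
  refine (g.sharp M0 s hs).trans ?_
  have n1 := num q1 w0 w1 hδ hL M0.le J0.le
  have n2 : C2 * b / (N (κ ^ 2) : ℝ) ^ (1 + θ) ≤ C2 * b / (N κ : ℝ) ^ (2 + 2 * min θ₁ θ) :=
    div_le_div_of_nonneg_left (by positivity) w0 w2
  have n3 : (1 + M + L / N (κ ^ 2)) ^ ε ≤ (1 + M + L) ^ ε :=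
    Real.rpow_le_rpow (by positivity) (by linarith [div_le_self hL.le q1]) hε.le
  generalize (N κ : ℝ) ^ (2 + 2 * min θ₁ θ) = w at *
  have D0 : 0 ≤ δ * L ^ θ₁ * (M * L + J * L ^ 2) := by positivity
  generalize δ * L ^ θ₁ * (M * L + J * L ^ 2) = D at *
  calc _ ≤ Real.exp a0 * (C1 * (1 + M + L) ^ ε * (D / w + J * (C2 * b / w))) := by gcongr
    _ ≤ Real.exp a0 * (C1 * (1 + M + L) ^ ε * ((1 + C2) * D / w + J * ((1 + C2) * b / w))) := by
        gcongr
        · exact le_mul_of_one_le_left D0 (by linarith)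
        · linarith
    _ = _ := by ring

theorem pG4 (_hA : Alg) (_hb : Base) (h1 : S_P4) (h2 : S_SF) (h3 : S_Sq) : S_G4 := by
  intro ε θ₁ θ k hε t0 t1 hθ
  obtain ⟨C1, c1, h1⟩ := h1 ε θ₁ (θ / 2) k hε t0 t1 (half_pos hθ)
  obtain ⟨C2, c2, h2⟩ := h2 θ hθ
  obtain ⟨C3, c3, h3⟩ := h3 (2 * min θ₁ θ) (by positivity)
  obtain ⟨Z, z0, hZ⟩ := second (half_pos hθ)
  refine ⟨C3 * (2 * (Real.exp a0 * C1 + Z) * (1 + C2)), by positivity,
    fun a x M L δ b b₁ hF hP hx hM hL hb hb1 hT hC hC1 s hs => ?_⟩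
  have hδ := pt_nonneg hT
  have M0 : 0 < M := by linarith
  have P0 : 0 < x.P := lt_of_lt_of_le one_pos hx.1
  have h := h3 a (FF x) s (fun _ => 1) (2 * (Real.exp a0 * C1 + Z) * (1 + C2) *
    (1 + M + x.P + L) ^ ε * (δ * L ^ θ₁ * (M * L * x.P + x.P ^ 6 * L ^ 2) + x.P ^ 6 * b +
      x.P * b₁)) hF hP (fun _ _ => zero_le_one) (by positivity) fun κ k1 k2 => ?_
  · simp only [one_mul] at h
    exact h.trans_eq (by ring)
  simp only [one_mul]
  have κ0 : κ ^ 2 ≠ 0 := pow_ne_zero 2 k2.ne_zero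
  have q1 : (1 : ℝ) ≤ N (κ ^ 2) := one_le_N κ0
  have n0 : (0 : ℝ) < N κ := lt_of_lt_of_le one_pos (one_le_N k2.ne_zero)
  have w0 : 0 < (N κ : ℝ) ^ (2 + 2 * min θ₁ θ) := by positivity
  have w1 := pw k2.ne_zero (η := 2 * min θ₁ θ) (t := θ₁) (by linarith [min_le_left θ₁ θ])
  have w2 := pw k2.ne_zero (η := 2 * min θ₁ θ) (t := θ) (by linarith [min_le_right θ₁ θ])
  have p2 : Primary (κ ^ 2) := by rw [sq]; exact k1.mul k1
  have o2 : Od (κ ^ 2) := by rw [sq]; exact od_mul.2 ⟨k2, k2⟩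
  have g := (h1 (sfp a (κ ^ 2)) x M (L / N (κ ^ 2)) δ _ (fs_sfp hF κ0) (so_sfp _ _) hx hM
    (by positivity) (by positivity) (pt_sfp hT hL κ0)
    (h2 a (κ ^ 2) L (M / x.P ^ 6) b k hF hP p2 o2 hL (by positivity) hb hC)).sharp M0 s hs
  have g2 := hZ _ x _ M _ k s (so_sfp _ _) hx M0 (h2 a (κ ^ 2) L M b₁ k hF hP p2 o2 hL M0 hb1 hC1) hs
  have n1 := num q1 w0 w1 hδ hL (A := M * x.P) (B := x.P ^ 6) (by positivity) (by positivity)
  rw [mul_right_comm M x.P, mul_right_comm M x.P] at n1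
  have n2 : ∀ y, 0 ≤ y →
      C2 * y / (N (κ ^ 2) : ℝ) ^ (1 + θ) ≤ (1 + C2) * y / (N κ : ℝ) ^ (2 + 2 * min θ₁ θ) :=
    fun y hy => (div_le_div_of_nonneg_left (by positivity) w0 w2).trans (by gcongr; linarith)
  have n3 : (1 + M + x.P + L / N (κ ^ 2)) ^ ε ≤ (1 + M + x.P + L) ^ ε :=
    Real.rpow_le_rpow (by positivity) (by linarith [div_le_self hL.le q1]) hε.le
  have n4 : 1 ≤ (1 + M + x.P + L) ^ ε := Real.one_le_rpow (by linarith) hε.le
  have n5 := n2 b hb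
  have n6 := n2 b₁ hb1
  generalize (N κ : ℝ) ^ (2 + 2 * min θ₁ θ) = w at *
  have D0 : 0 ≤ δ * L ^ θ₁ * (M * L * x.P + x.P ^ 6 * L ^ 2) := by positivity
  generalize δ * L ^ θ₁ * (M * L * x.P + x.P ^ 6 * L ^ 2) = D at *
  generalize (1 + M + x.P + L) ^ ε = E at *
  have E0 : 0 ≤ E := by linarith
  have n7 : D / w ≤ (1 + C2) * D / w := by
    gcongr
    exact le_mul_of_one_le_left D0 (by linarith)
  have u1 : 0 ≤ (1 + C2) * D / w + x.P ^ 6 * ((1 + C2) * b / w) := by positivity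
  have u2 : 0 ≤ x.P * ((1 + C2) * b₁ / w) := by positivity
  have g3 := g.trans (mul_le_mul_of_nonneg_left (mul_le_mul (mul_le_mul_of_nonneg_left n3 c1.le)
    ((add_le_add (n1.trans n7) (mul_le_mul_of_nonneg_left n5 (pow_pos P0 6).le)).trans
      (le_add_of_nonneg_right u2)) (by positivity) (mul_nonneg c1.le E0)) (Real.exp_pos _).le)
  have g4 := g2.trans (mul_le_mul_of_nonneg_left (((mul_le_mul_of_nonneg_left n6 P0.le).trans
    (le_add_of_nonneg_left u1)).trans (le_mul_of_one_le_left (add_nonneg u1 u2) n4)) z0.le)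
  refine le_trans ?_ ((add_le_add (mul_le_mul_of_nonneg_left g3 zero_le_two)
      (mul_le_mul_of_nonneg_left g4 zero_le_two)).trans_eq (by ring))
  rw [mul_sum, mul_sum, ← sum_add_distrib]
  refine sum_le_sum fun m _ => ?_
  rw [split (fs_sfp hF κ0) (so_sfp _ _) hx]
  refine (pow_le_pow_left₀ (norm_nonneg _) (norm_add_le _ _) 2).trans ?_
  nlinarith [sq_nonneg (‖Lam (sfp (cvp x (sfp a (κ ^ 2))) 1) 1 m‖ -
    ‖∑ p ∈ x.S, x.f p * (psi p m ^ 2 * Lam (sfp a (κ ^ 2)) p m)‖)]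

end Pool.Agent.P.MP_323ce2_nt.QD
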