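import Pool.Agent.P.MP_323ce2_nt.QD.Dd
import Pool.Agent.P.MP_323ce2_nt.QX.Top

/-! From dyadic pieces to arbitrary pieces. -/

namespace Pool.Agent.P.MP_323ce2_nt.QD

open Pool.Agent.P.MP_26a8c3_nt Pool.Agent.P.MP_26a8c3_nt.QO Pool.Agent.P.MP_323ce2_nt.QF Finset
open scoped Classical

namespace Glue

/-- the dyadic index -/
noncomputable def ix (x : ℝ) : ℕ := Nat.log 2 ⌊x⌋₊

lemma ix_le {x : ℝ} (hx : 1 ≤ x) : (2 : ℝ) ^ ix x ≤ x := by
  have h := Nat.pow_log_le_self 2 (Nat.floor_pos.2 hx).ne'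
  exact le_trans (by exact_mod_cast h) (Nat.floor_le (by linarith))

lemma lt_ix (x : ℝ) : x < 2 ^ (ix x + 1) := by
  have h : ⌊x⌋₊ + 1 ≤ 2 ^ (ix x + 1) := Nat.lt_pow_succ_log_self (by norm_num) _
  exact (Nat.lt_floor_add_one x).trans_le (by exact_mod_cast h)

lemma ix_mono {x y : ℝ} (h : x ≤ y) : ix x ≤ ix y := Nat.log_mono_right (Nat.floor_mono h)

/-- a dyadic block of a piece -/
noncomputable def blk (S : Finset O) (φ : O → ℝ) (P : ℝ) (j : ℕ) : Pc :=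
  ⟨S.filter fun p => ix (P / N p) = j, fun p => φ p, P / 2 ^ j⟩

variable {Q : O} {lo P K : ℝ} {S : ℕ → Finset O} {φ : O → ℝ}

lemma blk_le (hP : 1 ≤ P) (T : Finset O) (j : ℕ) : (blk T φ P j).P ≤ P :=
  div_le_self (by linarith) (one_le_pow₀ one_le_two)

lemma blk_ok {I : Finset ℕ} (hQ : 36 ∣ Q) (h : QX.Pc Q lo P I S φ) (hP : 1 ≤ P) (hK : P ≤ K)
    {a j : ℕ} (ha : a ∈ I) (hj : j ≤ ix P) : (blk (S a) φ P j).ok Q K 2 := by
  have h2 : (0 : ℝ) < 2 ^ j := by positivity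
  refine ⟨⟨(one_le_div h2).2 ((pow_le_pow_right₀ one_le_two hj).trans (ix_le hP)),
    fun p hp => ?_⟩, (blk_le hP _ j).trans hK, fun p hp => ?_⟩
  all_goals
    obtain ⟨hp', rfl⟩ := mem_filter.1 hp
    obtain ⟨h0, h1, h3, -, h4⟩ := h.pr a ha p hp'
    have hN := N_pos_real h0.ne_zero
  · refine ⟨h0, h1, h3.of_isCoprime_of_dvd_right (Dvd.dvd.trans ⟨18, by norm_num⟩ hQ), ?_, ?_⟩
    · have := ix_le ((one_le_div hN).2 h4)
      rw [le_div_iff₀ hN] at this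
      exact (le_div_iff₀ h2).2 (by linarith)
    · change ‖(φ p : ℂ)‖ ≤ 1
      rw [Complex.norm_real, Real.norm_of_nonneg (h.w0 p)]
      exact h.w1 p
  · have := lt_ix (P / N p)
    rw [div_lt_iff₀ hN, pow_succ] at this
    exact ⟨h3, (div_le_iff₀ h2).2 (by linarith)⟩

lemma F1_eq {I : Finset ℕ} (h : QX.Pc Q lo P I S φ) (hP : 1 ≤ P) {a : ℕ} (ha : a ∈ I) (m : O) :
    QX.F1 (S a) φ m = ∑ j ∈ range (ix P + 1), FF (blk (S a) φ P j) m :=
  (sum_fiberwise_of_maps_to (fun p hp => mem_range.2 (Nat.lt_succ_of_le (ix_mono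
    (div_le_self (by linarith) (one_le_N (h.pr a ha p hp).1.ne_zero))))) _).symm

lemma split (hQ : 36 ∣ Q) (hP : 1 ≤ P) (hK : P ≤ K) {s : Finset O} {wt : O → ℝ}
    (hw : ∀ m, 0 ≤ wt m) {J : ℕ} {T B : ℝ}
    (hB : ∀ l, Cl Q J K l → PL l ≤ T → ∑ m ∈ s, wt m * ‖FL l m‖ ^ 2 ≤ B) (I : Finset ℕ) :
    QX.Pc Q lo P I S φ → ∀ l : List Pc, (∀ x ∈ l, x.ok Q K 2) → l.length + #I ≤ J →
      PL l * P ^ #I ≤ T →
      ∑ m ∈ s, wt m * ‖QX.FF I S φ m * FL l m‖ ^ 2 ≤ ((ix P : ℝ) + 1) ^ (2 * #I) * B := by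
  induction I using Finset.induction_on with
  | empty =>
    intro _ l hl hJ hT
    simpa [QX.FF] using hB l ⟨hP.trans hK, by simpa using hJ, hl⟩ (by simpa using hT)
  | insert a I ha ih =>
    intro h l hl hJ hT
    rw [card_insert_of_notMem ha] at hJ hT ⊢
    have h1 := (Cl.aux l hl).1
    have key : ∀ j ∈ range (ix P + 1), ∑ m ∈ s, wt m *
        ‖QX.FF I S φ m * FL (blk (S a) φ P j :: l) m‖ ^ 2 ≤ ((ix P : ℝ) + 1) ^ (2 * #I) * B := by
      intro j hj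
      refine ih (h.mono (subset_insert a I)) _ (List.forall_mem_cons.2 ⟨blk_ok hQ h hP hK
        (mem_insert_self a I) (Nat.le_of_lt_succ (mem_range.1 hj)), hl⟩)
        (by rw [List.length_cons]; omega) (le_trans ?_ hT)
      rw [PL_cons]
      calc _ ≤ P * PL l * P ^ #I := by gcongr; exact blk_le hP _ j
        _ = _ := by ring
    calc _ ≤ ∑ m ∈ s, ((ix P : ℝ) + 1) * ∑ j ∈ range (ix P + 1), wt m *
            ‖QX.FF I S φ m * FL (blk (S a) φ P j :: l) m‖ ^ 2 := by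
          refine sum_le_sum fun m _ => ?_
          have e : QX.FF (insert a I) S φ m * FL l m =
              ∑ j ∈ range (ix P + 1), QX.FF I S φ m * FL (blk (S a) φ P j :: l) m := by
            rw [QX.FF, prod_insert ha, F1_eq h hP (mem_insert_self a I), sum_mul, sum_mul]
            exact sum_congr rfl fun j _ => by rw [FL_cons, QX.FF]; ring
          rw [← mul_sum, mul_left_comm, e]
          refine mul_le_mul_of_nonneg_left ((pow_le_pow_left₀ (norm_nonneg _) (norm_sum_le _ _)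
            2).trans (sq_sum_le_card_mul_sum_sq.trans_eq (by simp))) (hw m)
      _ = ((ix P : ℝ) + 1) * ∑ j ∈ range (ix P + 1), ∑ m ∈ s, wt m *
            ‖QX.FF I S φ m * FL (blk (S a) φ P j :: l) m‖ ^ 2 := by rw [← mul_sum, sum_comm]
      _ ≤ ((ix P : ℝ) + 1) * ∑ _j ∈ range (ix P + 1), ((ix P : ℝ) + 1) ^ (2 * #I) * B :=
          mul_le_mul_of_nonneg_left (sum_le_sum key) (by positivity)
      _ = _ := by simp; ring

lemma ix_pow (J : ℕ) : ∃ C : ℝ, 0 < C ∧ ∀ P : ℝ, 1 ≤ P → ∀ i ≤ J,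
    ((ix P : ℝ) + 1) ^ (2 * i) ≤ C * P := by
  obtain ⟨C, hC, h⟩ := succ_le_rpow (ε := (((2 * J + 1 : ℕ) : ℝ))⁻¹) (by positivity)
  refine ⟨C ^ (2 * J + 1), by positivity, fun P hP i hi => ?_⟩
  have h1 : (1 : ℝ) ≤ ix P + 1 := by simp
  refine (pow_le_pow_right₀ h1 (by omega : 2 * i ≤ 2 * J + 1)).trans
    ((pow_le_pow_left₀ (by positivity) (h (ix P) 2 le_rfl) _).trans ?_)
  rw [mul_pow, Real.rpow_inv_natCast_pow (by positivity) (by omega)]
  exact mul_le_mul_of_nonneg_left (ix_le hP) (by positivity)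

end Glue

open Glue in
theorem pGlue (h : ∀ Q : O, Q ≠ 0 → 36 ∣ Q → QR.S_II Q (dd Q)) : QX.S_II := by
  refine ⟨56, fun Q h0 hQ ε η hε _ J => ?_⟩
  obtain ⟨C₁, hC₁, h1⟩ := ix_pow J
  obtain ⟨J', hJ'⟩ := exists_nat_ge (110 / ε)
  obtain ⟨C, A, hC, h2⟩ := h Q h0 hQ J J' (ε / (2 * (J + 3))) (by positivity)
  refine ⟨C₁ * C * 2 ^ 55 * 2 ^ ε, A, by positivity,
    fun ν Z M Y₁ Y₂ lo P t₁ t₂ I S φ hν hM hMZ hY₁ hY₁Z hY₂ hY₂Z hP hPZ _ hc hI => ?_⟩
  have hZ : 1 ≤ Z := hM.trans hMZ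
  have hz : 1 ≤ Z ^ (ε / 110) := Real.one_le_rpow hZ (by positivity)
  set K := 2 * P * Z ^ (ε / 110) with hK
  have hK1 : 2 * P ≤ K := le_mul_of_one_le_right (by positivity) hz
  have hMK : M ≤ K ^ J' := by
    calc M ≤ Z ^ (ε / 110 * J') := hMZ.trans (Real.self_le_rpow_of_one_le hZ (by
          rw [div_le_iff₀ hε] at hJ'; linarith))
      _ = (Z ^ (ε / 110)) ^ J' := Real.rpow_mul_natCast (by positivity) _ _
      _ ≤ _ := pow_le_pow_left₀ (by positivity) (le_mul_of_one_le_left (by positivity)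
          (by linarith)) _
  set y := max 1 (min Y₁ √M) with hy
  have hA : QR.Adm M y Y₁ Y₂ := by
    refine ⟨le_max_left _ _, ?_⟩
    rcases le_total Y₁ √M with h' | h'
    · exact Or.inl ((min_eq_left h').ge.trans (le_max_right _ _))
    · exact Or.inr (Or.inr ((Real.sq_sqrt (by linarith)).ge.trans (pow_le_pow_left₀
        (Real.sqrt_nonneg M) ((min_eq_right h').ge.trans (le_max_right _ _)) 2)))
  have hy0 : 0 ≤ y := zero_le_one.trans hA.1
  have hT : 1 + Y₁ * Y₂ * P ^ #I ≤ 2 * Z ^ (J + 3) := by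
    have : Y₁ * Y₂ * P ^ #I ≤ Z * Z * Z ^ (J + 1) := by
      gcongr
      exact (pow_le_pow_left₀ (by positivity) hPZ _).trans (pow_le_pow_right₀ hZ (by omega))
    have h3 : 1 ≤ Z ^ (J + 3) := one_le_pow₀ hZ
    have : Z * Z * Z ^ (J + 1) = Z ^ (J + 3) := by ring
    linarith
  have hT' : (2 * Z ^ (J + 3)) ^ (ε / (2 * (J + 3))) ≤ 2 ^ ε * Z ^ (ε / 2) := by
    rw [Real.mul_rpow (by positivity) (by positivity), ← Real.rpow_natCast_mul (by positivity)]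
    refine mul_le_mul (Real.rpow_le_rpow_of_exponent_le one_le_two (div_le_self hε.le ?_))
      (le_of_eq ?_) (by positivity) (by positivity)
    · have : (0 : ℝ) ≤ J := J.cast_nonneg
      linarith
    · congr 1; push_cast; field_simp
  have ht := QR.ht_pos t₁ t₂
  have h3 := split (s := QX.Rows Q M) (wt := fun m => ‖Lm ν m Y₁ t₁ * Lm ν m Y₂ t₂‖ ^ 2) hQ hP
    (show P ≤ K by linarith) (fun m => by positivity) (J := J) (T := P ^ #I)
    (B := C * K ^ 55 * QR.ht t₁ t₂ ^ A * (2 ^ ε * Z ^ (ε / 2)) * (Y₁ * Y₂ * P ^ #I) *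
      QR.TT M y (P ^ #I)) (fun l hl hT₁ => by
      have h4 := h2 K M y Y₁ Y₂ t₁ t₂ l ν ν (QX.Rows Q M) (by linarith) hM hMK hl hν hν hY₁ hY₂ hA
        fun m hm => ⟨(QX.mem_Rows.1 hm).2.1, (QX.mem_Rows.1 hm).1, (QX.mem_Rows.1 hm).2.2⟩
      have h5 := (Cl.aux l hl.2.2).1
      refine (sum_congr rfl fun m _ => by rw [← mul_pow, ← norm_mul]; rfl).trans_le (h4.trans ?_)
      change _ * (1 + Y₁ * Y₂ * PL l) ^ _ * (Y₁ * Y₂ * PL l) * QR.TT M y (PL l) ≤ _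
      unfold QR.TT
      gcongr
      refine le_trans (Real.rpow_le_rpow (by positivity) (le_trans ?_ hT) (by positivity)) hT'
      gcongr) I hc [] (by simp) (by simpa using hI) (by simp [PL])
  have e1 : K ^ 55 * Z ^ (ε / 2) = 2 ^ 55 * P ^ 55 * Z ^ ε := by
    rw [hK, mul_pow, mul_pow, ← Real.rpow_mul_natCast (by positivity), mul_assoc,
      ← Real.rpow_add (by positivity)]
    congr 2; push_cast; ring
  have hTT := QR.TT_pos (by linarith : 0 < M) hy0 (by positivity : 0 ≤ P ^ #I)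
  refine le_trans (le_of_eq (sum_congr rfl fun m _ => ?_)) (h3.trans
    ((mul_le_mul_of_nonneg_right (h1 P hP _ hI) (by positivity)).trans_eq ?_))
  · simp only [FL, List.map_nil, List.prod_nil, mul_one, norm_mul]
    ring
  calc _ = C₁ * C * 2 ^ ε * P * (K ^ 55 * Z ^ (ε / 2)) * QR.ht t₁ t₂ ^ A * (Y₁ * Y₂ * P ^ #I) *
        QR.TT M y (P ^ #I) := by ring
    _ = _ := by rw [e1, QR.ht, QR.TT]; ring

end Pool.Agent.P.MP_323ce2_nt.QD
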