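import Pool.Agent.P.MP_323ce2_nt.QD.All
import Pool.Agent.P.MP_323ce2_nt.QD.Glue
import Pool.Agent.P.MP_323ce2_nt.QR.All

/-! The fourth moment of plain sums times short pieces, without hypotheses. -/

namespace Pool.Agent.P.MP_323ce2_nt.QD

theorem ii : QX.S_II :=
  pGlue fun Q h0 h36 => QR.ii (dd Q) h0 h36 (STEP0 Q h36) (STEP1 Q h36)

end Pool.Agent.P.MP_323ce2_nt.QD
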