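import Pool.Agent.P.MP_323ce2_nt.QF.St
import Pool.Agent.P.MP_26a8c3_nt.QB.Base

/-! Statements of one step of the descent: Poisson summation, enlargement of the dual family,
Poisson summation back. -/

namespace Pool.Agent.P.MP_323ce2_nt.QD

open Pool.Agent.P.MP_26a8c3_nt Pool.Agent.P.MP_26a8c3_nt.QO Pool.Agent.P.MP_26a8c3_nt.QA
open Pool.Agent.P.MP_26a8c3_nt.QB Pool.Agent.P.MP_323ce2_nt.QZ Pool.Agent.P.MP_323ce2_nt.QF Finset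
open scoped Classical ComplexConjugate

noncomputable section

/-- the sum of the dilated coefficients against the sextic symbol -/
def Lam (a : O → ℂ) (R m : O) : ℂ := ∑' c : O, a (R * c) * psi c m

/-- the sum on the dual side -/
def Bt (β : O → ℂ) (h : O) : ℂ := ∑' c : O, β c * (mu c * bb c * conj (psi c h))

/-- the coefficient on the dual side -/
def Dv (a : O → ℂ) (R f : O) (c : O) : ℂ := a (R * c) * chi c f / (ab c : ℂ)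

/-- twist by a power of the norm and by a character -/
def Tw (a : O → ℂ) (L σ u : ℝ) (ρ : O → ℂ) (c : O) : ℂ :=
  a c * ρ c * ((nr c / L : ℝ) : ℂ) ^ ((σ : ℂ) + u * Complex.I)

/-- finite support -/
def Fs (a : O → ℂ) : Prop := (Function.support a).Finite

/-- supported on squarefree odd primary elements -/
def So (a : O → ℂ) : Prop := ∀ c, a c ≠ 0 → SQO c

/-- supported on odd primary elements -/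
def Po (a : O → ℂ) : Prop := ∀ c, a c ≠ 0 → Primary c ∧ Od c

/-- absolutely summable -/
def Sm (a : O → ℂ) : Prop := Summable fun c => ‖a c‖

/-- pointwise bound with decay beyond the length `L` -/
def Pt (a : O → ℂ) (L δ : ℝ) (T : ℕ) : Prop :=
  ∀ c, ‖a c‖ ^ 2 ≤ δ ∧ ‖a c‖ ^ 2 * nr c ^ T ≤ δ * L ^ T

/-- a majorant of all dilates with small weighted sum -/
def Mxs (a : O → ℂ) (θ : ℝ) (s : Finset O) (wt : O → ℝ) (B : ℝ) : Prop :=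
  ∃ Mx : O → ℝ, (∀ m ∈ s, ∀ R, Primary R →
    wt m * ((N R : ℝ) ^ (1 + θ) * ‖Lam a R m‖ ^ 2) ≤ Mx m) ∧ ∑ m ∈ s, Mx m ≤ B

/-- the hypothesis on the smaller family -/
def Ch (a : O → ℂ) (L M' b θ : ℝ) (k : ℕ) : Prop :=
  ∀ ρ, IsNu 4 ρ → ∀ (σ u y : ℝ) (s : Finset O), -1 ≤ σ → σ ≤ 17 → M' ≤ y →
    (∀ m ∈ s, m ≠ 0 ∧ (N m : ℝ) ≤ y) →
    Mxs (Tw a L σ u ρ) θ s (fun _ => 1) (b * (y / M') ^ 13 * (1 + |u|) ^ k)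

/-- the dual sum after the first Poisson summation -/
def Fw (a : O → ℂ) (X B : ℝ) : Prop :=
  ∀ J : Finset (O × O × O), (∀ j ∈ J, SQO j.1 ∧ j.2.1 ∈ pdiv j.1 ∧ j.2.2 ≠ 0 ∧
      (N j.2.2 : ℝ) ≤ X * (N j.2.1 : ℝ) ^ 2 / (N j.1 : ℝ) ^ 2) →
    ∑ j ∈ J, (N j.2.1 : ℝ)⁻¹ * ‖Bt (Dv a j.1 j.2.1) j.2.2‖ ^ 2 ≤ B

/-- the dual sum before the second Poisson summation -/
def Db (a : O → ℂ) (X B : ℝ) : Prop :=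
  ∀ J : Finset (O × O), (∀ j ∈ J, SQO j.1 ∧ j.2 ∈ pdiv j.1) →
    ∑ j ∈ J, dv j.1 ^ 2 / (N j.2 : ℝ) *
      ∑ h ∈ (ball (X * (N j.2 : ℝ) ^ 2 / (N j.1 : ℝ) ^ 2)).erase 0, ‖Bt (Dv a j.1 j.2) h‖ ^ 2 ≤ B

/-- moment bound with a sharp cut -/
def SL (F : O → ℂ) (M b : ℝ) : Prop :=
  ∀ s : Finset O, (∀ m ∈ s, (N m : ℝ) ≤ M) → ∑ m ∈ s, ‖F m‖ ^ 2 ≤ b

/-- the squarefree part of a dilate -/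
def sfp (a : O → ℂ) (R : O) (c : O) : ℂ := if SQO c then a (R * c) else 0

/-- truncation -/
def tr (a : O → ℂ) (T : ℝ) (c : O) : ℂ := if (N c : ℝ) ≤ T then a c else 0

/-- a short sum over primes -/
structure Pc where
  S : Finset O
  f : O → ℂ
  P : ℝ

/-- the conditions used when a piece is removed -/
def Pc.wk (x : Pc) : Prop :=
  1 ≤ x.P ∧ ∀ p ∈ x.S, Prime p ∧ Primary p ∧ Od p ∧ (N p : ℝ) ≤ x.P ∧ ‖x.f p‖ ≤ 1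

/-- admissible pieces -/
def Pc.ok (Q : O) (K Λ : ℝ) (x : Pc) : Prop :=
  x.wk ∧ x.P ≤ K ∧ ∀ p ∈ x.S, IsCoprime p Q ∧ x.P ≤ Λ * N p

/-- the value of a piece -/
def FF (x : Pc) (m : O) : ℂ := ∑ p ∈ x.S, x.f p * psi p m

/-- the product of the pieces -/
def FL (l : List Pc) (m : O) : ℂ := (l.map fun x => FF x m).prod

/-- the total length of the pieces -/
def PL (l : List Pc) : ℝ := (l.map Pc.P).prod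

/-- convolution with a piece -/
def cvp (x : Pc) (a : O → ℂ) (n : O) : ℂ := ∑ p ∈ x.S, if p ∣ n then x.f p * a (quo n p) else 0

/-- convolution with a list of pieces -/
def cvl (l : List Pc) (a : O → ℂ) : O → ℂ := l.foldr cvp a

/-- Dirichlet convolution on primary elements -/
def cv (a b : O → ℂ) (n : O) : ℂ := if Primary n then ∑ d ∈ pdiv n, a d * b (quo n d) else 0

/-- the coefficients of a smooth factor -/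
def wv (ν : O → ℂ) (Y t : ℝ) (n : O) : ℂ := uL ν n * W Y t (nr n)

/-- the phase of the compensating term -/
def om (c₀ : ℂ) (τ t₁ t₂ : ℝ) : ℂ := c₀ * (τ : ℂ) ^ (((t₁ - t₂ : ℝ) : ℂ) * Complex.I)

/-- the coefficients of the centered product -/
def pr (ν₁ ν₂ : O → ℂ) (c₀ : ℂ) (τ Y₁ Y₂ t₁ t₂ : ℝ) (n : O) : ℂ :=
  cv (wv ν₁ Y₁ t₁) (wv ν₂ Y₂ t₂) n -
    om c₀ τ t₁ t₂ * cv (wv ν₁ (Y₁ / τ) t₁) (wv ν₂ (Y₂ * τ) t₂) n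

/-- the centered product -/
def VV (ν₁ ν₂ : O → ℂ) (c₀ : ℂ) (τ Y₁ Y₂ t₁ t₂ : ℝ) (m : O) : ℂ :=
  Lm ν₁ m Y₁ t₁ * Lm ν₂ m Y₂ t₂ - om c₀ τ t₁ t₂ * (Lm ν₁ m (Y₁ / τ) t₁ * Lm ν₂ m (Y₂ * τ) t₂)

/-- the hypothesis on the smaller family, for products; the scales may depend on `m` -/
def Chd (Q : O) (K Λ : ℝ) (c₀ : ℂ) (τ Y₁ Y₂ : ℝ) (l : List Pc) (M' b dl : ℝ) (k : ℕ) : Prop :=
  ∀ (ν₁ ν₂ : O → ℂ) (t₁ t₂ y : ℝ) (l' : List Pc) (s : Finset O) (X₁ X₂ : O → ℝ),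
    IsNu Q ν₁ → IsNu Q ν₂ → (∀ x ∈ l', x.ok Q K Λ) → l'.length ≤ l.length → PL l' ≤ PL l →
    M' ≤ y → (∀ m ∈ s, m ≠ 0 ∧ (N m : ℝ) ≤ y) →
    (∀ m, 0 < X₁ m ∧ X₁ m ≤ Real.exp 9 * Y₁ ∧ 0 < X₂ m ∧ X₂ m ≤ Real.exp 9 * Y₂) →
    ∑ m ∈ s, ‖VV ν₁ ν₂ c₀ τ (X₁ m) (X₂ m) t₁ t₂ m * FL l' m‖ ^ 2 / (X₁ m * X₂ m) ^ (1 + dl) ≤
      b * PL l' ^ (1 + dl) * (y / M') ^ 13 * (1 + |t₁| + |t₂|) ^ k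

end

/-! ### the two results -/

/-- one step without pieces, enlargement by positivity -/
def S_Step0 : Prop :=
  ∀ (dl ε : ℝ) (k : ℕ), 0 < dl → dl ≤ 1 → 0 < ε → ∃ C : ℝ, 0 < C ∧
    ∀ (Q : O) (ν₁ ν₂ : O → ℂ) (c₀ : ℂ) (K Λ J M τ Y₁ Y₂ t₁ t₂ b : ℝ), 36 ∣ Q → IsNu Q ν₁ →
      IsNu Q ν₂ → ‖c₀‖ ≤ 1 → 1 ≤ Λ → 1 ≤ J → 1 ≤ M → 0 < τ → 0 < Y₁ → 0 < Y₂ → 0 ≤ b →
      Chd Q K Λ c₀ τ Y₁ Y₂ [] (M / J) b dl k →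
      SL (VV ν₁ ν₂ c₀ τ Y₁ Y₂ t₁ t₂) M (C * (1 + M + Y₁ * Y₂) ^ ε * (Y₁ * Y₂) ^ (1 + dl) *
        (M + J * (Y₁ * Y₂) + J * b * (1 + |t₁| + |t₂|) ^ k))

/-- one step which removes the first piece -/
def S_Step4 : Prop :=
  ∀ (dl ε : ℝ) (k i₀ : ℕ), 0 < dl → dl ≤ 1 → 0 < ε → ∃ C : ℝ, 0 < C ∧
    ∀ (Q : O) (ν₁ ν₂ : O → ℂ) (c₀ : ℂ) (K Λ M τ Y₁ Y₂ t₁ t₂ b b₁ : ℝ) (x : Pc) (l : List Pc),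
      36 ∣ Q → IsNu Q ν₁ → IsNu Q ν₂ → ‖c₀‖ ≤ 1 → 1 ≤ Λ → 1 ≤ M → 0 < τ → 0 < Y₁ → 0 < Y₂ →
      0 ≤ b → 0 ≤ b₁ → x.wk → (∀ z ∈ l, z.ok Q K Λ) → l.length ≤ i₀ →
      Chd Q K Λ c₀ τ Y₁ Y₂ l (M / x.P ^ 6) b dl k → Chd Q K Λ c₀ τ Y₁ Y₂ l M b₁ dl k →
      SL (fun m => VV ν₁ ν₂ c₀ τ Y₁ Y₂ t₁ t₂ m * FL (x :: l) m) M
        (C * Λ ^ (2 * i₀) * (1 + M + x.P + Y₁ * Y₂ * PL l) ^ ε * (Y₁ * Y₂ * PL (x :: l)) ^ (1 + dl) *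
          (M + x.P ^ 4 * (Y₁ * Y₂ * PL (x :: l)) + (x.P ^ 5 * b + b₁) * (1 + |t₁| + |t₂|) ^ k))

/-! ### finitely supported squarefree coefficients -/

/-- separation of variables, with a scale for each member of the family -/
def S_Sep : Prop :=
  ∀ (ε : ℝ) (A k : ℕ), 0 < ε → ∃ C : ℝ, 0 < C ∧ ∀ (H : Type) (s : Finset H) (α : H → O → ℂ)
    (L n : H → ℝ) (V b : ℝ), 1 ≤ V → 0 ≤ b → (∀ h ∈ s, Fs (α h) ∧ 0 < L h ∧ V⁻¹ ≤ n h) →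
    (∀ σ u z : ℝ, σ = ε ∨ σ = A + 1 → 1 ≤ z → ∑ h ∈ s.filter (fun h => n h ≤ z),
      ‖∑' c : O, α h c * ((nr c / L h : ℝ) : ℂ) ^ ((σ : ℂ) + u * Complex.I)‖ ^ 2 ≤
        b * z ^ A * (1 + |u|) ^ k) →
    ∑ h ∈ s, ‖∑' x : O × O, α h x.1 * conj (α h x.2) *
      (G (n h * L h ^ 2 / (nr x.1 * nr x.2)) : ℝ)‖ ≤ C * V ^ ε * b

/-- the first Poisson summation -/
def S_Fwd : Prop :=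
  ∀ (ε : ℝ) (k : ℕ), 0 < ε → ∃ C : ℝ, 0 < C ∧ ∀ (α : O → ℂ) (L M b : ℝ), Fs α → So α → 0 < L →
    0 < M → 0 ≤ b →
    (∀ ρ, IsNu 4 ρ → ∀ σ u z : ℝ, 0 ≤ σ → σ ≤ 3 → 1 ≤ z →
      Fw (Tw α L σ u ρ) (z * L ^ 2 / M) (b * z ^ 2 * (1 + |u|) ^ k)) →
    ML (Lam α 1) M (C * M * (∑' e : O, dv e * ‖α e‖ ^ 2 + (1 + L ^ 2 / M) ^ ε * b))

/-- the second Poisson summation -/
def S_Back : Prop :=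
  ∀ (ε : ℝ) (k : ℕ), 0 < ε → ∃ C : ℝ, 0 < C ∧ ∀ (J : Finset (O × O)) (ω H L : O × O → ℝ)
    (β : O × O → O → ℂ) (V b : ℝ), 1 ≤ V → 0 ≤ b →
    (∀ j ∈ J, Fs (β j) ∧ So (β j) ∧ 0 ≤ ω j ∧ 0 < H j ∧ 0 < L j ∧ V⁻¹ ≤ H j / L j ^ 2) →
    (∀ ρ, IsNu 4 ρ → ∀ (σ u z : ℝ) (I : Finset ((O × O) × O × O)), -1 ≤ σ → σ ≤ 14 → 1 ≤ z →
      (∀ i ∈ I, i.1 ∈ J ∧ SQO i.2.1 ∧ i.2.2 ≠ 0 ∧ H i.1 / L i.1 ^ 2 * N i.2.2 ≤ z) →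
      ∑ i ∈ I, ω i.1 * (H i.1 / L i.1 ^ 2) * ‖jj i.2.1 i.2.2‖ *
        ‖Lam (Tw (β i.1) (L i.1) σ u ρ) i.2.1 i.2.2‖ ^ 2 ≤ b * z ^ 14 * (1 + |u|) ^ k) →
    ∑ j ∈ J, ω j * ∑ h ∈ (ball (H j)).erase 0, ‖Bt (fun c => β j c / (ab c : ℂ)) h‖ ^ 2 ≤
      C * (∑ j ∈ J, ω j * H j * ∑' c : O, ‖β j c‖ ^ 2 / nr c + V ^ ε * b)

/-- the arithmetic sum after the second Poisson summation -/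
def S_Je : Prop :=
  ∀ θ : ℝ, 0 < θ → ∃ C : ℝ, 0 < C ∧ ∀ (I : Finset ((O × O) × O × O)) (Mx : O → ℝ),
    (∀ i ∈ I, SQO i.1.1 ∧ i.1.2 ∈ pdiv i.1.1 ∧ SQO i.2.1 ∧ i.2.2 ≠ 0 ∧
      0 ≤ Mx (i.2.2 * i.1.2 ^ 2)) →
    ∑ i ∈ I, dv i.1.1 ^ 2 * N i.1.2 * ‖jj i.2.1 i.2.2‖ *
        (Mx (i.2.2 * i.1.2 ^ 2) / (N (i.1.1 * i.2.1) : ℝ) ^ (1 + θ)) ≤
      C * ∑ m ∈ I.image (fun i => i.2.2 * i.1.2 ^ 2), dv m ^ 2 * Mx m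

/-- the bound on the dual side -/
def S_Db : Prop :=
  ∀ (ε θ₁ θ : ℝ) (k : ℕ), 0 < ε → 0 < θ₁ → θ₁ ≤ 1 → 0 < θ → ∃ C : ℝ, 0 < C ∧
    ∀ (α ρ : O → ℂ) (L M' X δ b σ u : ℝ), Fs α → So α → IsNu 4 ρ → 0 < L → 0 < M' → 0 ≤ b →
      0 ≤ σ → σ ≤ 3 → L ^ 2 / M' ≤ X → Pt α L δ 8 → Ch α L M' b θ k →
      Db (Tw α L σ u ρ) X (C * (1 + M') ^ ε * (1 + |u|) ^ k * X * (δ * L ^ θ₁ + b / L ^ 2))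

/-- removal of a piece on the dual side, pointwise -/
def S_A4a : Prop :=
  ∀ (α ρ : O → ℂ) (x : Pc) (L σ u : ℝ) (e f h : O), Fs α → So α → IsNu 4 ρ → x.wk → 0 < L →
    0 ≤ σ → SQO e → f ∈ pdiv e →
    ‖Bt (Dv (Tw (sfp (cvp x α) 1) (L * x.P) σ u ρ) e f) h‖ ^ 2 ≤
      2 * ((∑ p ∈ x.S, (N p : ℝ)⁻¹) * ∑ p ∈ x.S, ‖Bt (Dv (Tw α L σ u ρ) e f) (h * p ^ 4)‖ ^ 2) +
      2 * (dv e * ∑ p ∈ x.S.filter (· ∣ e), ‖Bt (Dv (Tw α L σ u ρ) (quo e p)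
        (if p ∣ f then quo f p else f)) (h * p ^ (if p ∣ f then 4 else 6))‖ ^ 2)

/-- removal of a piece on the dual side -/
def S_A4 : Prop :=
  ∀ ε : ℝ, 0 < ε → ∃ C : ℝ, 0 < C ∧ ∀ (α ρ : O → ℂ) (x : Pc) (L σ u X B : ℝ), Fs α → So α →
    IsNu 4 ρ → x.wk → 0 < L → 0 ≤ σ → 0 < X → Db (Tw α L σ u ρ) (X * x.P ^ 4) B →
    Fw (Tw (sfp (cvp x α) 1) (L * x.P) σ u ρ) X (C * (x.P * (1 + X)) ^ ε * B)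

/-- the step without pieces -/
def S_P0 : Prop :=
  ∀ (ε θ₁ θ : ℝ) (k : ℕ), 0 < ε → 0 < θ₁ → θ₁ ≤ 1 → 0 < θ → ∃ C : ℝ, 0 < C ∧
    ∀ (α : O → ℂ) (J M L δ b : ℝ), Fs α → So α → 1 ≤ J → 1 ≤ M → 0 < L → 0 ≤ b →
      Pt α L δ 8 → Ch α L (M / J) b θ k →
      ML (Lam α 1) M (C * (1 + M + L) ^ ε * (δ * L ^ θ₁ * (M * L + J * L ^ 2) + J * b))

/-- the step with a piece -/
def S_P4 : Prop :=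
  ∀ (ε θ₁ θ : ℝ) (k : ℕ), 0 < ε → 0 < θ₁ → θ₁ ≤ 1 → 0 < θ → ∃ C : ℝ, 0 < C ∧
    ∀ (α : O → ℂ) (x : Pc) (M L δ b : ℝ), Fs α → So α → x.wk → 1 ≤ M → 0 < L → 0 ≤ b →
      Pt α L δ 8 → Ch α L (M / x.P ^ 6) b θ k →
      ML (Lam (sfp (cvp x α) 1) 1) M (C * (1 + M + x.P + L) ^ ε *
        (δ * L ^ θ₁ * (M * L * x.P + x.P ^ 6 * L ^ 2) + x.P ^ 6 * b))

/-! ### general coefficients -/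

/-- the squarefree part of a dilate inherits the hypotheses -/
def S_SF : Prop :=
  ∀ θ : ℝ, 0 < θ → ∃ C : ℝ, 0 < C ∧ ∀ (a : O → ℂ) (R : O) (L M' b : ℝ) (k : ℕ), Fs a → Po a →
    Primary R → Od R → 0 < L → 0 < M' → 0 ≤ b → Ch a L M' b θ k →
    Ch (sfp a R) (L / N R) M' (C * b / (N R : ℝ) ^ (1 + θ)) (θ / 2) k

/-- reduction to squarefree arguments -/
def S_Sq : Prop :=
  ∀ η : ℝ, 0 < η → ∃ C : ℝ, 0 < C ∧ ∀ (a F : O → ℂ) (s : Finset O) (wt : O → ℝ) (B : ℝ), Fs a →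
    Po a → (∀ m ∈ s, 0 ≤ wt m) → 0 ≤ B →
    (∀ k, Primary k → Od k →
      ∑ m ∈ s, wt m * ‖F m * Lam (sfp a (k ^ 2)) 1 m‖ ^ 2 ≤ B / (N k : ℝ) ^ (2 + η)) →
    ∑ m ∈ s, wt m * ‖F m * Lam a 1 m‖ ^ 2 ≤ C * B

/-- the step without pieces, any finitely supported coefficients -/
def S_G0 : Prop :=
  ∀ (ε θ₁ θ : ℝ) (k : ℕ), 0 < ε → 0 < θ₁ → θ₁ ≤ 1 → 0 < θ → ∃ C : ℝ, 0 < C ∧
    ∀ (a : O → ℂ) (J M L δ b : ℝ), Fs a → Po a → 1 ≤ J → 1 ≤ M → 0 < L → 0 ≤ b →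
      Pt a L δ 8 → Ch a L (M / J) b θ k →
      SL (Lam a 1) M (C * (1 + M + L) ^ ε * (δ * L ^ θ₁ * (M * L + J * L ^ 2) + J * b))

/-- the step with a piece, any finitely supported coefficients -/
def S_G4 : Prop :=
  ∀ (ε θ₁ θ : ℝ) (k : ℕ), 0 < ε → 0 < θ₁ → θ₁ ≤ 1 → 0 < θ → ∃ C : ℝ, 0 < C ∧
    ∀ (a : O → ℂ) (x : Pc) (M L δ b b₁ : ℝ), Fs a → Po a → x.wk → 1 ≤ M → 0 < L → 0 ≤ b →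
      0 ≤ b₁ → Pt a L δ 8 → Ch a L (M / x.P ^ 6) b θ k → Ch a L M b₁ θ k →
      SL (fun m => FF x m * Lam a 1 m) M (C * (1 + M + x.P + L) ^ ε *
        (δ * L ^ θ₁ * (M * L * x.P + x.P ^ 6 * L ^ 2) + x.P ^ 6 * b + x.P * b₁))

/-- truncations inherit the hypothesis -/
def S_Tr : Prop :=
  ∀ (a : O → ℂ) (L M' δ b θ η : ℝ) (k : ℕ), 0 < L → 0 < M' → 0 ≤ b → θ ≤ 1 → 0 < η →
    Pt a L δ 40 → Ch a L M' b θ k → ∃ T₀ : ℝ, ∀ T, T₀ ≤ T → Ch (tr a T) L M' (2 * b + η) θ k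

/-- the step without pieces, any coefficients -/
def S_L0 : Prop :=
  ∀ (ε θ₁ θ : ℝ) (k : ℕ), 0 < ε → 0 < θ₁ → θ₁ ≤ 1 → 0 < θ → θ ≤ 1 → ∃ C : ℝ, 0 < C ∧
    ∀ (a : O → ℂ) (J M L δ b : ℝ), Po a → 1 ≤ J → 1 ≤ M → 0 < L → 0 ≤ b →
      Pt a L δ 40 → Ch a L (M / J) b θ k →
      SL (Lam a 1) M (C * (1 + M + L) ^ ε * (δ * L ^ θ₁ * (M * L + J * L ^ 2) + J * b))

/-- the step with a piece, any coefficients -/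
def S_L4 : Prop :=
  ∀ (ε θ₁ θ : ℝ) (k : ℕ), 0 < ε → 0 < θ₁ → θ₁ ≤ 1 → 0 < θ → θ ≤ 1 → ∃ C : ℝ, 0 < C ∧
    ∀ (a : O → ℂ) (x : Pc) (M L δ b b₁ : ℝ), Po a → x.wk → 1 ≤ M → 0 < L → 0 ≤ b →
      0 ≤ b₁ → Pt a L δ 40 → Ch a L (M / x.P ^ 6) b θ k → Ch a L M b₁ θ k →
      SL (fun m => FF x m * Lam a 1 m) M (C * (1 + M + x.P + L) ^ ε *
        (δ * L ^ θ₁ * (M * L * x.P + x.P ^ 6 * L ^ 2) + x.P ^ 6 * b + x.P * b₁))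

/-! ### the structure of the products -/

/-- dilates of a convolution -/
def S_Conv : Prop :=
  ∀ a b : O → ℂ, (∀ c, a c ≠ 0 → Primary c) → (∀ c, b c ≠ 0 → Primary c) → Sm a → Sm b →
    Sm (cv a b) ∧ ∀ R m : O, Primary R → Lam (cv a b) R m =
      ∑ g ∈ pdiv R, ∑ h ∈ pdiv (quo R g), mu h * psi h m * (Lam a (g * h) m * Lam b (quo R g) m)

/-- dilates of the centered product -/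
def S_Pair : Prop :=
  (∀ (Q : O) (ν₁ ν₂ : O → ℂ) (c₀ : ℂ) (τ Y₁ Y₂ t₁ t₂ : ℝ), IsNu Q ν₁ → IsNu Q ν₂ → 0 < τ →
    0 < Y₁ → 0 < Y₂ → Sm (pr ν₁ ν₂ c₀ τ Y₁ Y₂ t₁ t₂) ∧
      Lam (pr ν₁ ν₂ c₀ τ Y₁ Y₂ t₁ t₂) 1 = VV ν₁ ν₂ c₀ τ Y₁ Y₂ t₁ t₂) ∧
  ∀ θ dl : ℝ, 0 ≤ θ → θ < dl → ∃ C : ℝ, 0 < C ∧ ∀ (Q : O) (ν₁ ν₂ : O → ℂ) (c₀ : ℂ)
    (τ Y₁ Y₂ t₁ t₂ β : ℝ) (s : Finset O) (wt : O → ℝ), IsNu Q ν₁ → IsNu Q ν₂ → 0 < τ → 0 < Y₁ →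
    0 < Y₂ → (∀ m ∈ s, 0 ≤ wt m) →
    (∀ X₁ X₂ : O → ℝ, (∀ m, 0 < X₁ m ∧ X₁ m ≤ Y₁ ∧ 0 < X₂ m ∧ X₂ m ≤ Y₂) →
      ∑ m ∈ s, wt m * ‖VV ν₁ ν₂ c₀ τ (X₁ m) (X₂ m) t₁ t₂ m‖ ^ 2 / (X₁ m * X₂ m) ^ (1 + dl) ≤ β) →
    Mxs (pr ν₁ ν₂ c₀ τ Y₁ Y₂ t₁ t₂) θ s wt (C * β * (Y₁ * Y₂) ^ (1 + dl))

/-- dilates of the convolution with one piece -/
def S_Peel : Prop :=
  (∀ (a : O → ℂ) (x : Pc), Po a → Sm a → x.wk →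
    Po (cvp x a) ∧ Sm (cvp x a) ∧ ∀ m, Lam (cvp x a) 1 m = FF x m * Lam a 1 m) ∧
  ∀ θ θ' : ℝ, 0 ≤ θ → θ < θ' → ∃ C : ℝ, 0 < C ∧ ∀ (a : O → ℂ) (x : Pc) (s : Finset O)
    (wt : O → ℝ) (B₁ B₂ : ℝ), Po a → Sm a → x.wk → (∀ m ∈ s, 0 ≤ wt m) →
    Mxs a θ' s (fun m => wt m * ‖FF x m‖ ^ 2) B₁ → Mxs a θ' s wt B₂ →
    Mxs (cvp x a) θ s wt (C * (B₁ + x.P ^ (1 + θ') * B₂))

/-- dilates of the convolution with a list of pieces -/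
def S_PeelL : Prop :=
  (∀ (a : O → ℂ) (l : List Pc), Po a → Sm a → (∀ x ∈ l, x.wk) →
    Po (cvl l a) ∧ Sm (cvl l a) ∧ ∀ m, Lam (cvl l a) 1 m = FL l m * Lam a 1 m) ∧
  ∀ (i₀ : ℕ) (θ θ' dl : ℝ), 0 ≤ θ → θ < θ' → θ' ≤ dl → ∃ C : ℝ, 0 < C ∧ ∀ (a : O → ℂ)
    (l : List Pc) (s : Finset O) (wt : O → ℝ) (β : ℝ), Po a → Sm a → (∀ x ∈ l, x.wk) →
    l.length ≤ i₀ → (∀ m ∈ s, 0 ≤ wt m) → 0 ≤ β →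
    (∀ l' : List Pc, l'.Sublist l →
      Mxs a θ' s (fun m => wt m * ‖FL l' m‖ ^ 2) (β * PL l' ^ (1 + dl))) →
    Mxs (cvl l a) θ s wt (C * β * PL l ^ (1 + dl))

/-- the class is closed under twists -/
def S_TwS : Prop :=
  ∀ (Q : O) (ν₁ ν₂ ρ : O → ℂ) (c₀ : ℂ) (K Λ τ Y₁ Y₂ t₁ t₂ σ u : ℝ) (l : List Pc), 36 ∣ Q →
    IsNu 4 ρ → 1 ≤ Λ → 0 < τ → 0 < Y₁ → 0 < Y₂ → -1 ≤ σ → σ ≤ 17 → (∀ x ∈ l, x.ok Q K Λ) →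
    ∃ (z : ℂ) (l' : List Pc), ‖z‖ ≤ Real.exp 145 * Λ ^ l.length ∧ (∀ x ∈ l', x.ok Q K Λ) ∧
      l'.map Pc.P = l.map Pc.P ∧
      Tw (cvl l (pr ν₁ ν₂ c₀ τ Y₁ Y₂ t₁ t₂)) (Y₁ * Y₂ * PL l) σ u ρ = fun n =>
        z * cvl l' (pr (fun c => ν₁ c * ρ c) (fun c => ν₂ c * ρ c) c₀ τ (Y₁ * Real.exp (σ / 2))
          (Y₂ * Real.exp (σ / 2)) (t₁ + u) (t₂ + u)) n

/-- support and pointwise bound -/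
def S_PtS : Prop :=
  (∀ (Q : O) (ν₁ ν₂ : O → ℂ) (c₀ : ℂ) (τ Y₁ Y₂ t₁ t₂ : ℝ), 36 ∣ Q → IsNu Q ν₁ → IsNu Q ν₂ →
    Po (pr ν₁ ν₂ c₀ τ Y₁ Y₂ t₁ t₂)) ∧
  ∀ (i₀ : ℕ) (η : ℝ), 0 < η → ∃ C : ℝ, 0 < C ∧ ∀ (Q : O) (ν₁ ν₂ : O → ℂ) (c₀ : ℂ)
    (τ Y₁ Y₂ t₁ t₂ : ℝ) (l : List Pc), IsNu Q ν₁ → IsNu Q ν₂ → ‖c₀‖ ≤ 1 → 0 < τ → 0 < Y₁ →
    0 < Y₂ → (∀ x ∈ l, x.wk) → l.length ≤ i₀ →
    Pt (cvl l (pr ν₁ ν₂ c₀ τ Y₁ Y₂ t₁ t₂)) (Y₁ * Y₂ * PL l) (C * (Y₁ * Y₂ * PL l) ^ η) 40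

/-- from the hypothesis on products to the hypothesis on coefficients -/
def S_ChS : Prop :=
  ∀ (dl : ℝ) (k i₀ : ℕ), 0 < dl → ∃ C : ℝ, 0 < C ∧
    ∀ (Q : O) (ν₁ ν₂ : O → ℂ) (c₀ : ℂ) (K Λ M' τ Y₁ Y₂ t₁ t₂ b : ℝ) (l : List Pc), 36 ∣ Q →
      IsNu Q ν₁ → IsNu Q ν₂ → 1 ≤ Λ → 0 < M' → 0 < τ → 0 < Y₁ → 0 < Y₂ → 0 ≤ b →
      (∀ z ∈ l, z.ok Q K Λ) → l.length ≤ i₀ → Chd Q K Λ c₀ τ Y₁ Y₂ l M' b dl k →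
      Ch (cvl l (pr ν₁ ν₂ c₀ τ Y₁ Y₂ t₁ t₂)) (Y₁ * Y₂ * PL l) M'
        (C * Λ ^ (2 * i₀) * b * (Y₁ * Y₂ * PL l) ^ (1 + dl) * (1 + |t₁| + |t₂|) ^ k) (dl / 2) k

end Pool.Agent.P.MP_323ce2_nt.QD
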